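import Mathlib

/-!
Algebraic part of the small-noise expansion: the regular coefficients and the exact remainder.
-/

open MeasureTheory

namespace Pool.Agent.Lib_helper63.DH

/-- `(-1)^(n+1)` times the remainder of order `n` of the binomial series of `(1+y)^(-k)`. -/
noncomputable def R (k : ℕ) : ℕ → ℝ → ℝ
  | 0, y => 1 - ((1 + y) ^ k)⁻¹
  | n + 1, y => (Nat.multichoose k (n + 1) : ℝ) * y ^ (n + 1) - R k n y

/-- `(-1)^n` times the remainder of order `n` of the series of `log (1+y)`. -/
noncomputable def H : ℕ → ℝ → ℝ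
  | 0, y => Real.log (1 + y)
  | n + 1, y => y ^ (n + 1) / ((n : ℝ) + 1) - H n y

theorem R_zero (n : ℕ) (y : ℝ) : R 0 n y = 0 := by
  induction n with
  | zero => simp [R]
  | succ n ih => simp [R, ih]

theorem R_rec (k n : ℕ) {y : ℝ} (hy : 0 ≤ y) :
    (1 + y) * R (k + 1) n y = (Nat.multichoose (k + 1) n : ℝ) * y ^ (n + 1) + R k n y := by
  have h1 : (1 + y) ≠ 0 := by positivity
  induction n with
  | zero =>
    simp only [R, Nat.multichoose_zero_right, Nat.cast_one]
    have h2 : (1 + y) ^ k ≠ 0 := by positivity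
    field_simp
    ring
  | succ n ih =>
    simp only [R]
    have h3 : (Nat.multichoose (k + 1) (n + 1) : ℝ) =
        (Nat.multichoose k (n + 1) : ℝ) + (Nat.multichoose (k + 1) n : ℝ) := by
      rw [Nat.multichoose_succ_succ]; push_cast; ring
    have : (1 + y) * ((Nat.multichoose (k + 1) (n + 1) : ℝ) * y ^ (n + 1) - R (k + 1) n y)
        = (1 + y) * ((Nat.multichoose (k + 1) (n + 1) : ℝ) * y ^ (n + 1))
          - (1 + y) * R (k + 1) n y := by ring
    rw [this, ih, h3]
    ring

theorem R_nonneg (k n : ℕ) {y : ℝ} (hy : 0 ≤ y) : 0 ≤ R k n y := by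
  induction k with
  | zero => rw [R_zero]
  | succ k ih =>
    have h := R_rec k n hy
    have h1 : 0 ≤ (1 + y) * R (k + 1) n y := by rw [h]; positivity
    exact nonneg_of_mul_nonneg_right h1 (by positivity)

/-- constant for the upper bound of `R` -/
def RC (k n : ℕ) : ℝ := ∑ i ∈ Finset.range (k + 1), (Nat.multichoose i n : ℝ)

theorem RC_nonneg (k n : ℕ) : 0 ≤ RC k n := by
  unfold RC; positivity

theorem R_le (k n : ℕ) {y : ℝ} (hy : 0 ≤ y) : R k n y ≤ RC k n * (y ^ (n + 1) / (1 + y)) := by
  induction k with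
  | zero =>
    rw [R_zero]
    have := RC_nonneg 0 n
    positivity
  | succ k ih =>
    have h := R_rec k n hy
    have h1 : (0:ℝ) < 1 + y := by positivity
    have h2 : R (k + 1) n y =
        ((Nat.multichoose (k + 1) n : ℝ) * y ^ (n + 1) + R k n y) / (1 + y) := by
      rw [← h]; field_simp
    rw [h2]
    have h3 : RC (k + 1) n = RC k n + (Nat.multichoose (k + 1) n : ℝ) := by
      unfold RC; rw [Finset.sum_range_succ]
    have h4 : R k n y ≤ RC k n * y ^ (n + 1) := by
      refine ih.trans ?_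
      have : y ^ (n + 1) / (1 + y) ≤ y ^ (n + 1) :=
        div_le_self (by positivity) (by linarith)
      exact mul_le_mul_of_nonneg_left this (RC_nonneg k n)
    rw [h3, ← mul_div_assoc]
    apply div_le_div_of_nonneg_right _ h1.le
    nlinarith [h4]

theorem R_le' (k n : ℕ) {y : ℝ} (hy : 0 ≤ y) : R k n y ≤ RC k n * y ^ (n + 1) := by
  refine (R_le k n hy).trans ?_
  have : y ^ (n + 1) / (1 + y) ≤ y ^ (n + 1) :=
    div_le_self (by positivity) (by linarith)
  exact mul_le_mul_of_nonneg_left this (RC_nonneg k n)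

theorem H_zero' (n : ℕ) : H n 0 = 0 := by
  induction n with
  | zero => simp [H]
  | succ n ih => simp [H, ih]

theorem H_hasDerivAt (n : ℕ) {y : ℝ} (hy : -1 < y) : HasDerivAt (H n) (y ^ n / (1 + y)) y := by
  have h0 : (1 + y) ≠ 0 := by linarith
  induction n with
  | zero =>
    have h : HasDerivAt (fun y : ℝ => Real.log (1 + y)) (1 / (1 + y)) y := by
      have := (Real.hasDerivAt_log h0).comp_const_add 1 y
      simpa using this
    have h2 : H 0 = fun y : ℝ => Real.log (1 + y) := by funext y; rfl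
    rw [h2]; simpa using h
  | succ n ih =>
    have h2 : H (n + 1) = fun y : ℝ => y ^ (n + 1) / ((n : ℝ) + 1) - H n y := by
      funext y; rfl
    rw [h2]
    have h3 : HasDerivAt (fun y : ℝ => y ^ (n + 1) / ((n : ℝ) + 1)) (y ^ n) y := by
      have h4 := (hasDerivAt_pow (n + 1) y).div_const ((n : ℝ) + 1)
      have h5 : ((n : ℝ) + 1) ≠ 0 := by positivity
      refine h4.congr_deriv ?_
      rw [Nat.add_sub_cancel]
      push_cast
      field_simp
    refine (h3.sub ih).congr_deriv ?_
    rw [pow_succ]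
    field_simp
    ring

theorem H_monotoneOn (n : ℕ) : MonotoneOn (H n) (Set.Ici 0) := by
  apply monotoneOn_of_deriv_nonneg (convex_Ici 0)
  · intro y hy
    exact (H_hasDerivAt n (by simp at hy; linarith)).continuousAt.continuousWithinAt
  · intro y hy
    rw [interior_Ici] at hy
    exact (H_hasDerivAt n (by simp at hy; linarith)).differentiableAt.differentiableWithinAt
  · intro y hy
    rw [interior_Ici] at hy
    have hy' : 0 < y := hy
    rw [(H_hasDerivAt n (by linarith)).deriv]
    positivity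

theorem H_nonneg (n : ℕ) {y : ℝ} (hy : 0 ≤ y) : 0 ≤ H n y := by
  have := H_monotoneOn n (Set.mem_Ici.2 le_rfl) (Set.mem_Ici.2 hy) hy
  rwa [H_zero'] at this

theorem H_le (n : ℕ) {y : ℝ} (hy : 0 ≤ y) : H n y ≤ y ^ (n + 1) / ((n : ℝ) + 1) := by
  have h := H_nonneg (n + 1) hy
  simp only [H] at h
  linarith

theorem H_succ_le (n : ℕ) {y : ℝ} (hy : 0 ≤ y) : H (n + 1) y ≤ y ^ (n + 1) / ((n : ℝ) + 1) := by
  have h := H_nonneg n hy
  simp only [H]
  linarith

theorem H_measurable (n : ℕ) : Measurable (H n) := by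
  induction n with
  | zero =>
    have h2 : H 0 = fun y : ℝ => Real.log (1 + y) := by funext y; rfl
    rw [h2]; fun_prop
  | succ n ih =>
    have h2 : H (n + 1) = fun y : ℝ => y ^ (n + 1) / ((n : ℝ) + 1) - H n y := by
      funext y; rfl
    rw [h2]; fun_prop

theorem R_measurable (k n : ℕ) : Measurable (R k n) := by
  induction n with
  | zero =>
    have h2 : R k 0 = fun y : ℝ => 1 - ((1 + y) ^ k)⁻¹ := by funext y; rfl
    rw [h2]; fun_prop
  | succ n ih =>
    have h2 : R k (n + 1) = fun y : ℝ =>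
        (Nat.multichoose k (n + 1) : ℝ) * y ^ (n + 1) - R k n y := by
      funext y; rfl
    rw [h2]; fun_prop

/-! ### Homogeneous polynomials with non-negative coefficients -/

/-- `G e y` is a homogeneous polynomial of degree `N` with non-negative coefficients -/
def IsHom (N : ℕ) (G : ℝ → ℝ → ℝ) : Prop :=
  ∃ h : ℕ → ℝ, (∀ l, 0 ≤ h l) ∧
    ∀ e y, G e y = ∑ l ∈ Finset.range (N + 1), h l * y ^ l * e ^ (N - l)

theorem IsHom.add {N : ℕ} {G G' : ℝ → ℝ → ℝ} (h : IsHom N G) (h' : IsHom N G') :
    IsHom N (fun e y => G e y + G' e y) := by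
  obtain ⟨a, ha, hG⟩ := h
  obtain ⟨b, hb, hG'⟩ := h'
  refine ⟨fun l => a l + b l, fun l => add_nonneg (ha l) (hb l), fun e y => ?_⟩
  beta_reduce
  rw [hG, hG', ← Finset.sum_add_distrib]
  apply Finset.sum_congr rfl
  intro l _
  ring

theorem IsHom.smul {N : ℕ} {G : ℝ → ℝ → ℝ} (h : IsHom N G) {c : ℝ} (hc : 0 ≤ c) :
    IsHom N (fun e y => c * G e y) := by
  obtain ⟨a, ha, hG⟩ := h
  refine ⟨fun l => c * a l, fun l => mul_nonneg hc (ha l), fun e y => ?_⟩
  beta_reduce
  rw [hG, Finset.mul_sum]
  apply Finset.sum_congr rfl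
  intro l _
  ring

theorem IsHom.zero (N : ℕ) : IsHom N (fun _ _ => 0) :=
  ⟨fun _ => 0, fun _ => le_rfl, fun e y => by simp⟩

theorem IsHom.one : IsHom 0 (fun _ _ => 1) :=
  ⟨fun _ => 1, fun _ => zero_le_one, fun e y => by simp⟩

theorem IsHom.mul_y {N : ℕ} {G : ℝ → ℝ → ℝ} (h : IsHom N G) :
    IsHom (N + 1) (fun e y => y * G e y) := by
  obtain ⟨a, ha, hG⟩ := h
  refine ⟨fun l => if l = 0 then 0 else a (l - 1), fun l => ?_, fun e y => ?_⟩
  · beta_reduce
    split_ifs
    · exact le_rfl
    · exact ha _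
  · beta_reduce
    rw [hG, Finset.sum_range_succ' _ (N + 1), Finset.mul_sum]
    simp only [Nat.add_eq_zero_iff, one_ne_zero, and_false, if_false, Nat.add_sub_cancel, if_true,
      zero_mul, add_zero, Nat.add_sub_add_right]
    apply Finset.sum_congr rfl
    intro l _
    ring

theorem IsHom.mul_e {N : ℕ} {G : ℝ → ℝ → ℝ} (h : IsHom N G) :
    IsHom (N + 1) (fun e y => e * G e y) := by
  obtain ⟨a, ha, hG⟩ := h
  refine ⟨fun l => if l ≤ N then a l else 0, fun l => ?_, fun e y => ?_⟩
  · beta_reduce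
    split_ifs
    · exact ha _
    · exact le_rfl
  · beta_reduce
    rw [hG, Finset.sum_range_succ _ (N + 1), Finset.mul_sum, if_neg (by omega)]
    simp only [zero_mul, add_zero]
    apply Finset.sum_congr rfl
    intro l hl
    rw [Finset.mem_range] at hl
    rw [if_pos (by omega), show N + 1 - l = (N - l) + 1 by omega]
    ring

theorem IsHom.basic (p k q : ℕ) : IsHom (p + k + q) (fun e y => e ^ p * (e + y) ^ k * y ^ q) := by
  have h1 : ∀ q, IsHom q (fun _ y => y ^ q) := by
    intro q
    induction q with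
    | zero => simpa using IsHom.one
    | succ q ih =>
      have := ih.mul_y
      refine (congrArg (IsHom (q+1)) ?_).mp this
      funext e y; ring
  have h2 : ∀ k, IsHom (k + q) (fun e y => (e + y) ^ k * y ^ q) := by
    intro k
    induction k with
    | zero => simpa using h1 q
    | succ k ih =>
      have := ih.mul_e.add ih.mul_y
      rw [show k + 1 + q = k + q + 1 by ring]
      refine (congrArg (IsHom (k + q + 1)) ?_).mp this
      funext e y; ring
  induction p with
  | zero => simpa using h2 k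
  | succ p ih =>
    have := ih.mul_e
    rw [show p + 1 + k + q = p + k + q + 1 by ring]
    refine (congrArg (IsHom (p + k + q + 1)) ?_).mp this
    funext e y; ring

/-- elimination of all the powers of `y` -/
theorem elim (mom : ℕ → ℝ) (n : ℕ) (hm : ∀ k, 1 ≤ k → k ≤ n → 0 < mom k ∧ mom k < 1) :
    ∀ j ≤ n, ∀ h : ℕ → ℝ, (∀ l, 0 ≤ h l) → ∃ (a : ℕ → ℝ) (c : ℝ), (∀ k, 0 ≤ a k) ∧ h 0 ≤ c ∧
      (1 ≤ j → 0 < h j → 0 < c) ∧
      ∀ e y : ℝ, ∑ l ∈ Finset.range (j + 1), h l * y ^ l * e ^ (n - l) =
        c * e ^ n + ∑ k ∈ Finset.Icc 1 j,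
          a k * (y ^ k * e ^ (n - k) - mom k * e ^ (n - k) * (e + y) ^ k) := by
  intro j
  induction j with
  | zero =>
    intro _ h hh
    refine ⟨fun _ => 0, h 0, fun _ => le_rfl, le_rfl, fun h1 => by omega, fun e y => ?_⟩
    simp
  | succ j ih =>
    intro hj h hh
    obtain ⟨hm0, hm1⟩ := hm (j + 1) (by omega) hj
    set A := h (j + 1) / (1 - mom (j + 1)) with hA
    have hA0 : 0 ≤ A := div_nonneg (hh _) (by linarith)
    have hAeq : A * (1 - mom (j + 1)) = h (j + 1) := by
      rw [hA]; field_simp [show (1 - mom (j + 1)) ≠ 0 by linarith]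
    obtain ⟨a, c, ha, hc0, _, hac⟩ := ih (by omega)
      (fun l => h l + A * mom (j + 1) * ((j + 1).choose l : ℝ))
      (fun l => by have := hh l; positivity)
    refine ⟨fun k => if k = j + 1 then A else a k, c, ?_, ?_, ?_, ?_⟩
    · intro k
      beta_reduce
      split_ifs
      · exact hA0
      · exact ha k
    · have : 0 ≤ A * mom (j + 1) * ((j + 1).choose 0 : ℝ) := by positivity
      linarith
    · intro _ hpos
      have hA' : 0 < A := div_pos hpos (by linarith)
      have : 0 < A * mom (j + 1) * ((j + 1).choose 0 : ℝ) := by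
        rw [Nat.choose_zero_right]; push_cast; nlinarith [mul_pos hA' hm0]
      have := hh 0
      linarith
    · intro e y
      beta_reduce
      have h1 := hac e y
      have h2 : (e + y) ^ (j + 1) =
          ∑ l ∈ Finset.range (j + 1), ((j + 1).choose l : ℝ) * y ^ l * e ^ (j + 1 - l)
            + y ^ (j + 1) := by
        rw [add_comm e y, add_pow, Finset.sum_range_succ]
        simp only [Nat.sub_self, pow_zero, mul_one, Nat.choose_self, Nat.cast_one]
        congr 1
        apply Finset.sum_congr rfl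
        intro l _; ring
      rw [Finset.sum_range_succ, ← Finset.insert_Icc_right_eq_Icc_add_one (by omega),
        Finset.sum_insert (by simp)]
      have h3 : ∑ k ∈ Finset.Icc 1 j, (if k = j + 1 then A else a k) *
            (y ^ k * e ^ (n - k) - mom k * e ^ (n - k) * (e + y) ^ k) =
          ∑ k ∈ Finset.Icc 1 j, a k *
            (y ^ k * e ^ (n - k) - mom k * e ^ (n - k) * (e + y) ^ k) := by
        apply Finset.sum_congr rfl
        intro k hk
        rw [Finset.mem_Icc] at hk
        rw [if_neg (by omega)]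
      rw [h3, if_pos rfl]
      have h4 : ∑ l ∈ Finset.range (j + 1),
            (h l + A * mom (j + 1) * ((j + 1).choose l : ℝ)) * y ^ l * e ^ (n - l) =
          ∑ l ∈ Finset.range (j + 1), h l * y ^ l * e ^ (n - l) +
            A * mom (j + 1) * e ^ (n - (j + 1)) *
              ∑ l ∈ Finset.range (j + 1), ((j + 1).choose l : ℝ) * y ^ l * e ^ (j + 1 - l) := by
        rw [Finset.mul_sum, ← Finset.sum_add_distrib]
        apply Finset.sum_congr rfl
        intro l hl
        rw [Finset.mem_range] at hl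
        rw [show n - l = (n - (j + 1)) + (j + 1 - l) by omega, pow_add]
        ring
      rw [h4] at h1
      have h5 : ∑ l ∈ Finset.range (j + 1), ((j + 1).choose l : ℝ) * y ^ l * e ^ (j + 1 - l)
          = (e + y) ^ (j + 1) - y ^ (j + 1) := by linarith
      rw [h5] at h1
      have h6 : h (j + 1) * y ^ (j + 1) * e ^ (n - (j + 1)) =
        A * (1 - mom (j + 1)) * y ^ (j + 1) * e ^ (n - (j + 1)) := by rw [hAeq]
      rw [h6]
      linarith

end Pool.Agent.Lib_helper63.DH
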