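import Mathlib

/-!
For every `α > 0`, a law of `Z` with `E[Z^α] = 1`, `log Z` non-arithmetic and
`E[Z^α log⁺ Z] = ∞`.
-/

open MeasureTheory Filter Topology Set

namespace Pool.Agent.Lib_helper63.DH

/-- `log Z` is arithmetic under `μ` -/
def Arith (μ : Measure ℝ) : Prop := ∃ c : ℝ, 0 < c ∧ ∀ᵐ z ∂μ, ∃ k : ℤ, c * Real.log z = k

/-- density part of the law of `log Z` -/
noncomputable def rho (α : ℝ) : Measure ℝ :=
  (volume.restrict (Ioi (1:ℝ))).withDensity
    (fun x => ENNReal.ofReal (Real.exp (-α * x) * x ^ (-2:ℝ)))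

theorem rho_dens_meas (α : ℝ) :
    Measurable (fun x : ℝ => ENNReal.ofReal (Real.exp (-α * x) * x ^ (-2:ℝ))) := by fun_prop

theorem rho_dens_nonneg (α : ℝ) {x : ℝ} (hx : 1 < x) : 0 ≤ Real.exp (-α * x) * x ^ (-2:ℝ) := by
  have : 0 < x := by linarith
  positivity

theorem rho_integrable_iff (α : ℝ) {f : ℝ → ℝ} :
    Integrable f (rho α) ↔
      IntegrableOn (fun x => Real.exp (-α * x) * x ^ (-2:ℝ) * f x) (Ioi (1:ℝ)) := by
  unfold rho IntegrableOn
  rw [integrable_withDensity_iff (rho_dens_meas α) (Eventually.of_forall fun z => by simp)]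
  apply integrable_congr
  filter_upwards [ae_restrict_mem measurableSet_Ioi] with x hx
  rw [ENNReal.toReal_ofReal (rho_dens_nonneg α hx)]
  ring

theorem rho_integral (α : ℝ) (f : ℝ → ℝ) :
    ∫ x, f x ∂(rho α) = ∫ x in Ioi (1:ℝ), Real.exp (-α * x) * x ^ (-2:ℝ) * f x := by
  unfold rho
  rw [integral_withDensity_eq_integral_toReal_smul (rho_dens_meas α)
      (Eventually.of_forall fun z => by simp)]
  apply integral_congr_ae
  filter_upwards [ae_restrict_mem measurableSet_Ioi] with x hx
  rw [ENNReal.toReal_ofReal (rho_dens_nonneg α hx)]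
  simp

theorem int_sq : IntegrableOn (fun x : ℝ => x ^ (-2:ℝ)) (Ioi (1:ℝ)) ∧
    ∫ x in Ioi (1:ℝ), x ^ (-2:ℝ) = 1 := by
  refine ⟨integrableOn_Ioi_rpow_of_lt (by norm_num) one_pos, ?_⟩
  rw [integral_Ioi_rpow_of_lt (by norm_num) one_pos]
  norm_num

theorem int_dens {α : ℝ} (hα : 0 < α) :
    IntegrableOn (fun x : ℝ => Real.exp (-α * x) * x ^ (-2:ℝ)) (Ioi (1:ℝ)) := by
  refine (int_sq.1).mono' (by fun_prop : Measurable fun x : ℝ =>
    Real.exp (-α * x) * x ^ (-2:ℝ)).aestronglyMeasurable ?_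
  filter_upwards [ae_restrict_mem measurableSet_Ioi] with x hx
  have hx' : (1:ℝ) < x := hx
  have h1 : 0 < x := by linarith
  rw [Real.norm_eq_abs, abs_of_nonneg (rho_dens_nonneg α hx)]
  have h2 : Real.exp (-α * x) ≤ 1 := Real.exp_le_one_iff.2 (by nlinarith)
  have h3 : 0 ≤ x ^ (-2:ℝ) := by positivity
  nlinarith

/-- total mass of `rho` -/
noncomputable def wm (α : ℝ) : ℝ := ∫ x in Ioi (1:ℝ), Real.exp (-α * x) * x ^ (-2:ℝ)

theorem wm_le {α : ℝ} (hα : 0 < α) : wm α ≤ 1 := by
  unfold wm
  refine le_trans ?_ int_sq.2.le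
  apply setIntegral_mono_on (int_dens hα) int_sq.1 measurableSet_Ioi
  intro x hx
  have hx' : (1:ℝ) < x := hx
  have h1 : 0 < x := by linarith
  have h2 : Real.exp (-α * x) ≤ 1 := Real.exp_le_one_iff.2 (by nlinarith)
  have h3 : 0 ≤ x ^ (-2:ℝ) := by positivity
  nlinarith

theorem wm_pos {α : ℝ} (hα : 0 < α) : 0 < wm α := by
  unfold wm
  rw [setIntegral_pos_iff_support_of_nonneg_ae _ (int_dens hα)]
  · have : (Function.support (fun x : ℝ => Real.exp (-α * x) * x ^ (-2:ℝ)) ∩ Ioi 1) = Ioi 1 := by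
      apply inter_eq_right.2
      intro x hx
      have hx' : (1:ℝ) < x := hx
      have h1 : 0 < x := by linarith
      rw [Function.mem_support]
      positivity
    rw [this]
    simp
  · filter_upwards [ae_restrict_mem measurableSet_Ioi] with x hx
    exact rho_dens_nonneg α hx

theorem rho_univ {α : ℝ} (hα : 0 < α) : rho α univ = ENNReal.ofReal (wm α) := by
  unfold rho wm
  rw [withDensity_apply _ MeasurableSet.univ, Measure.restrict_univ]
  rw [← ofReal_integral_eq_lintegral_ofReal (int_dens hα)]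
  filter_upwards [ae_restrict_mem measurableSet_Ioi] with x hx
  exact rho_dens_nonneg α hx

/-- the law of `log Z` -/
noncomputable def eta (α : ℝ) : Measure ℝ :=
  ENNReal.ofReal (1 / 2) • rho α +
    ENNReal.ofReal (1 - wm α / 2) • Measure.dirac (-Real.log (2 - wm α) / α)

theorem eta_prob {α : ℝ} (hα : 0 < α) : IsProbabilityMeasure (eta α) := by
  constructor
  unfold eta
  have h1 := wm_le hα
  have h2 := wm_pos hα
  rw [Measure.add_apply, Measure.smul_apply, Measure.smul_apply, rho_univ hα]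
  simp only [measure_univ, smul_eq_mul, mul_one]
  rw [← ENNReal.ofReal_mul (by norm_num), ← ENNReal.ofReal_add (by linarith) (by linarith)]
  rw [← ENNReal.ofReal_one]
  congr 1
  ring

/-- the law of `Z` -/
noncomputable def muEx (α : ℝ) : Measure ℝ := (eta α).map Real.exp

theorem muEx_prob {α : ℝ} (hα : 0 < α) : IsProbabilityMeasure (muEx α) := by
  have := eta_prob hα
  exact Measure.isProbabilityMeasure_map Real.measurable_exp.aemeasurable

theorem muEx_pos (α : ℝ) : ∀ᵐ z ∂(muEx α), 0 < z := by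
  unfold muEx
  rw [ae_map_iff Real.measurable_exp.aemeasurable measurableSet_Ioi]
  exact Eventually.of_forall fun x => Real.exp_pos x

theorem rho_ae {α : ℝ} {p : ℝ → Prop} (h : ∀ᵐ x ∂(eta α), p x) : ∀ᵐ x ∂(rho α), p x := by
  unfold eta at h
  rw [ae_add_measure_iff] at h
  exact (Measure.ae_ennreal_smul_measure_iff (by simp)).1 h.1

theorem rho_not_countable {α : ℝ} (hα : 0 < α) {s : Set ℝ} (hs : s.Countable)
    (h : ∀ᵐ x ∂(rho α), x ∈ s) : False := by
  have h1 : rho α s = 0 := by
    have h2 : rho α ≪ volume :=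
      (withDensity_absolutelyContinuous _ _).trans Measure.restrict_le_self.absolutelyContinuous
    exact h2 (hs.measure_zero volume)
  have h2 : rho α sᶜ = 0 := h
  have h3 : rho α univ ≤ rho α s + rho α sᶜ := by
    rw [← union_compl_self s]
    exact measure_union_le _ _
  rw [h1, h2, add_zero, rho_univ hα] at h3
  have h4 := wm_pos hα
  have h5 : 0 < ENNReal.ofReal (wm α) := ENNReal.ofReal_pos.2 h4
  exact absurd h3 (not_le.2 h5)

theorem muEx_not_arith {α : ℝ} (hα : 0 < α) : ¬ Arith (muEx α) := by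
  rintro ⟨c, hc, h⟩
  have h1 : ∀ᵐ x ∂(eta α), ∃ k : ℤ, c * Real.log (Real.exp x) = k :=
    ae_of_ae_map Real.measurable_exp.aemeasurable h
  have h2 := rho_ae h1
  refine rho_not_countable hα (s := range fun k : ℤ => (k:ℝ) / c) (countable_range _) ?_
  filter_upwards [h2] with x hx
  obtain ⟨k, hk⟩ := hx
  rw [Real.log_exp] at hk
  refine ⟨k, ?_⟩
  simp only
  rw [← hk]; field_simp

theorem muEx_not_const {α : ℝ} (hα : 0 < α) (c : ℝ) : ¬ ∀ᵐ z ∂(muEx α), z = c := by
  intro h
  have h1 : ∀ᵐ x ∂(eta α), Real.exp x = c :=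
    ae_of_ae_map Real.measurable_exp.aemeasurable h
  have h2 := rho_ae h1
  refine rho_not_countable hα (s := {Real.log c}) (countable_singleton _) ?_
  filter_upwards [h2] with x hx
  rw [mem_singleton_iff, ← hx, Real.log_exp]

theorem exp_exp_mul (α : ℝ) {x : ℝ} (y : ℝ) :
    Real.exp (-α * x) * y * Real.exp (α * x) = y := by
  have h1 : Real.exp (-α * x) * Real.exp (α * x) = 1 := by
    rw [← Real.exp_add]; simp
  calc _ = Real.exp (-α * x) * Real.exp (α * x) * y := by ring
    _ = y := by rw [h1, one_mul]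

theorem muEx_one {α : ℝ} (hα : 0 < α) : ∫ z, z ^ α ∂(muEx α) = 1 := by
  unfold muEx
  have hm : Measurable (fun z : ℝ => z ^ α) := by fun_prop
  rw [integral_map Real.measurable_exp.aemeasurable hm.aestronglyMeasurable]
  have h1 := wm_le hα
  have h2 := wm_pos hα
  have h3 : ∀ x : ℝ, Real.exp x ^ α = Real.exp (α * x) := by
    intro x; rw [← Real.exp_mul, mul_comm]
  simp only [h3]
  have hi : Integrable (fun x => Real.exp (α * x)) (rho α) := by
    rw [rho_integrable_iff]
    exact int_sq.1.congr_fun (fun x _ => (exp_exp_mul α _).symm) measurableSet_Ioi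
  have hI : ∫ x, Real.exp (α * x) ∂(rho α) = 1 := by
    rw [rho_integral]
    refine Eq.trans ?_ int_sq.2
    apply setIntegral_congr_fun measurableSet_Ioi
    intro x _
    exact exp_exp_mul α _
  unfold eta
  rw [integral_add_measure (hi.smul_measure (by simp))
    ((integrable_dirac (by simp)).smul_measure (by simp)),
    integral_smul_measure, integral_smul_measure, hI, integral_dirac]
  rw [ENNReal.toReal_ofReal (by norm_num), ENNReal.toReal_ofReal (by linarith)]
  have h4 : α * (-Real.log (2 - wm α) / α) = -Real.log (2 - wm α) := by field_simp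
  rw [h4, Real.exp_neg, Real.exp_log (by linarith)]
  have h5 : (2 - wm α) ≠ 0 := by linarith
  simp only [smul_eq_mul]
  field_simp
  ring

theorem muEx_log {α : ℝ} : ¬ Integrable (fun z => z ^ α * Real.log z) (muEx α) := by
  unfold muEx
  have hm : Measurable (fun z : ℝ => z ^ α * Real.log z) := by fun_prop
  rw [integrable_map_measure hm.aestronglyMeasurable Real.measurable_exp.aemeasurable]
  intro h
  unfold eta at h
  have h1 := (h.mono_measure (Measure.le_add_right le_rfl))
  have h2 : Integrable ((fun z : ℝ => z ^ α * Real.log z) ∘ Real.exp) (rho α) := by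
    have h3 := h1.smul_measure (c := ENNReal.ofReal 2) (by simp)
    rw [smul_smul, ← ENNReal.ofReal_mul (by norm_num)] at h3
    norm_num at h3
    exact h3
  rw [rho_integrable_iff] at h2
  apply not_integrableOn_Ioi_inv (a := 1)
  refine h2.congr_fun (fun x hx => ?_) measurableSet_Ioi
  have hx' : (1:ℝ) < x := hx
  have hx0 : 0 < x := by linarith
  simp only [Function.comp]
  rw [Real.log_exp, ← Real.exp_mul, mul_comm x α]
  have h4 : x ^ (-2:ℝ) = (x ^ 2)⁻¹ := by
    rw [Real.rpow_neg hx0.le]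
    norm_cast
  have h5 := exp_exp_mul α (x := x) (x ^ (-2:ℝ))
  calc Real.exp (-α * x) * x ^ (-2:ℝ) * (Real.exp (α * x) * x)
      = (Real.exp (-α * x) * x ^ (-2:ℝ) * Real.exp (α * x)) * x := by ring
    _ = x⁻¹ := by rw [h5, h4]; field_simp

end Pool.Agent.Lib_helper63.DH
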