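import Pool.Agent.Lib_helper63.DH.Alg

/-!
The exact expansion of `E log (1+Y)` for a stationary variable `Y`.
-/

open MeasureTheory

namespace Pool.Agent.Lib_helper63.DH

/-- `Y` behaves like the stationary variable `e X` up to moments of order `m` -/
structure Stat (mom : ℕ → ℝ) (m : ℕ) {Ω : Type} [MeasurableSpace Ω] (P : Measure Ω)
    (Y : Ω → ℝ) (e : ℝ) : Prop where
  meas : Measurable Y
  nonneg : ∀ᵐ ω ∂P, 0 ≤ Y ω
  epos : 0 < e
  elt : e < 1
  intm : Integrable (fun ω => Y ω ^ m) P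
  intlog : Integrable (fun ω => Real.log (1 + Y ω)) P
  mom_eq : ∀ k, 1 ≤ k → k ≤ m →
    ∫ ω, Y ω ^ k ∂P = mom k * ∫ ω, ((e + Y ω) / (1 + Y ω)) ^ k ∂P

variable {mom : ℕ → ℝ} {m : ℕ} {Ω : Type} [MeasurableSpace Ω] {P : Measure Ω}
  [IsProbabilityMeasure P] {Y : Ω → ℝ} {e : ℝ}

theorem Stat.int_one_add (h : Stat mom m P Y e) : Integrable (fun ω => (1 + Y ω) ^ m) P := by
  have h1 : Integrable (fun ω => 2 ^ (m - 1) * ((1:ℝ) ^ m + Y ω ^ m)) P :=
    ((integrable_const _).add h.intm).const_mul _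
  refine h1.mono' ((measurable_const.add h.meas).pow_const m).aestronglyMeasurable ?_
  filter_upwards [h.nonneg] with ω hω
  rw [Real.norm_eq_abs, abs_of_nonneg (by positivity)]
  exact add_pow_le zero_le_one hω m

theorem Stat.int_of_le (h : Stat mom m P Y e) {f : ℝ → ℝ} (hf : Measurable f) {C : ℝ} {j : ℕ}
    (hj : j ≤ m) (hC : ∀ y, 0 ≤ y → |f y| ≤ C * (1 + y) ^ j) :
    Integrable (fun ω => f (Y ω)) P := by
  refine (h.int_one_add.const_mul |C|).mono' (hf.comp h.meas).aestronglyMeasurable ?_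
  filter_upwards [h.nonneg] with ω hω
  rw [Real.norm_eq_abs]
  refine (hC _ hω).trans ?_
  have h1 : (1 + Y ω) ^ j ≤ (1 + Y ω) ^ m := pow_le_pow_right₀ (by linarith) hj
  have h2 : (0:ℝ) ≤ (1 + Y ω) ^ j := by positivity
  calc C * (1 + Y ω) ^ j ≤ |C| * (1 + Y ω) ^ j := by
        exact mul_le_mul_of_nonneg_right (le_abs_self C) h2
    _ ≤ |C| * (1 + Y ω) ^ m := mul_le_mul_of_nonneg_left h1 (abs_nonneg C)

theorem Stat.mono (h : Stat mom m P Y e) {j : ℕ} (hj : j ≤ m) : Stat mom j P Y e where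
  meas := h.meas
  nonneg := h.nonneg
  epos := h.epos
  elt := h.elt
  intm := h.int_of_le (f := fun y => y ^ j) (C := 1) (by fun_prop) hj (by
    intro y hy
    rw [abs_of_nonneg (by positivity), one_mul]
    exact pow_le_pow_left₀ hy (by linarith) j)
  intlog := h.intlog
  mom_eq := fun k h1 h2 => h.mom_eq k h1 (h2.trans hj)

theorem R_le_one_add (k n : ℕ) {y : ℝ} (hy : 0 ≤ y) : R k n y ≤ RC k n * (1 + y) ^ n := by
  refine (R_le k n hy).trans ?_
  apply mul_le_mul_of_nonneg_left _ (RC_nonneg k n)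
  rw [div_le_iff₀ (by linarith), pow_succ]
  have h1 : y ^ n ≤ (1 + y) ^ n := pow_le_pow_left₀ hy (by linarith) n
  have h2 : 0 ≤ y ^ n := by positivity
  nlinarith

theorem Stat.int_poly (h : Stat mom m P Y e) {k q : ℕ} (hkq : k + q ≤ m) :
    Integrable (fun ω => (e + Y ω) ^ k * Y ω ^ q) P := by
  refine h.int_of_le (f := fun y => (e + y) ^ k * y ^ q) (C := 1) (by fun_prop) hkq ?_
  intro y hy
  have he := h.epos
  have he' := h.elt
  rw [abs_of_nonneg (by positivity), one_mul, pow_add]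
  have h1 : (e + y) ^ k ≤ (1 + y) ^ k := pow_le_pow_left₀ (by linarith) (by linarith) k
  have h2 : y ^ q ≤ (1 + y) ^ q := pow_le_pow_left₀ hy (by linarith) q
  exact mul_le_mul h1 h2 (by positivity) (by positivity)

theorem Stat.int_R (h : Stat mom m P Y e) {k n : ℕ} (hkn : k + n ≤ m) :
    Integrable (fun ω => (e + Y ω) ^ k * R k n (Y ω)) P := by
  refine h.int_of_le (f := fun y => (e + y) ^ k * R k n y) (C := RC k n)
    (by have := R_measurable k n; fun_prop) hkn ?_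
  intro y hy
  have he := h.epos
  have he' := h.elt
  have hR := R_nonneg k n hy
  rw [abs_of_nonneg (by positivity), pow_add]
  have h1 : (e + y) ^ k ≤ (1 + y) ^ k := pow_le_pow_left₀ (by linarith) (by linarith) k
  have h2 := R_le_one_add k n hy
  calc (e + y) ^ k * R k n y ≤ (1 + y) ^ k * (RC k n * (1 + y) ^ n) :=
        mul_le_mul h1 h2 hR (by positivity)
    _ = RC k n * ((1 + y) ^ k * (1 + y) ^ n) := by ring

theorem Stat.int_H (h : Stat mom m P Y e) : Integrable (fun ω => H m (Y ω)) P := by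
  cases m with
  | zero => exact h.intlog
  | succ n =>
    refine h.int_of_le (f := H (n + 1)) (C := 1) (H_measurable _) le_rfl ?_
    intro y hy
    rw [abs_of_nonneg (H_nonneg _ hy), one_mul]
    refine (H_succ_le n hy).trans ?_
    refine (div_le_self (by positivity) (by
      have : (0:ℝ) ≤ n := by positivity
      linarith)).trans ?_
    exact pow_le_pow_left₀ hy (by linarith) _

/-- the remainder functional -/
noncomputable def rem (m : ℕ) (T : List (ℝ × ℕ × ℕ)) {Ω : Type} [MeasurableSpace Ω]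
    (P : Measure Ω) (Y : Ω → ℝ) (e : ℝ) : ℝ :=
  ∫ ω, H m (Y ω) ∂P + (T.map (fun t => t.1 * e ^ t.2.1 *
    ∫ ω, (e + Y ω) ^ t.2.2 * R t.2.2 (m - t.2.1 - t.2.2) (Y ω) ∂P)).sum

/-- the polynomial part of degree `D+1` -/
noncomputable def polyG (D : ℕ) (T : List (ℝ × ℕ × ℕ)) (e y : ℝ) : ℝ :=
  y ^ (D + 1) / ((D : ℝ) + 1) + (T.map (fun t => t.1 *
    (Nat.multichoose t.2.2 (D + 1 - t.2.1 - t.2.2) : ℝ) *
    (e ^ t.2.1 * (e + y) ^ t.2.2 * y ^ (D + 1 - t.2.1 - t.2.2)))).sum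

theorem polyG_hom (D : ℕ) (T : List (ℝ × ℕ × ℕ))
    (hT : ∀ t ∈ T, 0 ≤ t.1 ∧ 1 ≤ t.2.2 ∧ t.2.1 + t.2.2 ≤ D) : IsHom (D + 1) (polyG D T) := by
  have h1 : IsHom (D + 1) (fun _ y => y ^ (D + 1) / ((D : ℝ) + 1)) := by
    have := (IsHom.basic 0 0 (D + 1)).smul (c := 1 / ((D : ℝ) + 1)) (by positivity)
    rw [show 0 + 0 + (D + 1) = D + 1 by ring] at this
    refine (congrArg (IsHom (D+1)) ?_).mp this
    funext e y; ring
  have h2 : ∀ T : List (ℝ × ℕ × ℕ), (∀ t ∈ T, 0 ≤ t.1 ∧ 1 ≤ t.2.2 ∧ t.2.1 + t.2.2 ≤ D) →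
      IsHom (D + 1) (fun e y => (T.map (fun t => t.1 *
        (Nat.multichoose t.2.2 (D + 1 - t.2.1 - t.2.2) : ℝ) *
        (e ^ t.2.1 * (e + y) ^ t.2.2 * y ^ (D + 1 - t.2.1 - t.2.2)))).sum) := by
    intro T
    induction T with
    | nil => intro _; simpa using IsHom.zero (D + 1)
    | cons t T ih =>
      intro hT
      obtain ⟨a1, a2, a3⟩ := hT t List.mem_cons_self
      have ih' := ih (fun s hs => hT s (List.mem_cons_of_mem _ hs))
      have h3 := (IsHom.basic t.2.1 t.2.2 (D + 1 - t.2.1 - t.2.2)).smul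
        (c := t.1 * (Nat.multichoose t.2.2 (D + 1 - t.2.1 - t.2.2) : ℝ)) (by positivity)
      rw [show t.2.1 + t.2.2 + (D + 1 - t.2.1 - t.2.2) = D + 1 by omega] at h3
      have h4 := h3.add ih'
      refine (congrArg (IsHom (D+1)) ?_).mp h4
      funext e y
      simp only [List.map_cons, List.sum_cons]
  exact h1.add (h2 T hT)

theorem polyG_lead (D : ℕ) (T : List (ℝ × ℕ × ℕ))
    (hT : ∀ t ∈ T, 0 ≤ t.1 ∧ 1 ≤ t.2.2 ∧ t.2.1 + t.2.2 ≤ D) : 0 < polyG D T 0 1 := by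
  unfold polyG
  have h1 : (0:ℝ) < 1 ^ (D + 1) / ((D : ℝ) + 1) := by positivity
  have h2 : 0 ≤ (T.map (fun t => t.1 *
    (Nat.multichoose t.2.2 (D + 1 - t.2.1 - t.2.2) : ℝ) *
    ((0:ℝ) ^ t.2.1 * (0 + 1) ^ t.2.2 * 1 ^ (D + 1 - t.2.1 - t.2.2)))).sum := by
    apply List.sum_nonneg
    intro x hx
    rw [List.mem_map] at hx
    obtain ⟨t, ht, rfl⟩ := hx
    have := (hT t ht).1
    positivity
  exact add_pos_of_pos_of_nonneg h1 h2

theorem list_sum_map_sub (T : List (ℝ × ℕ × ℕ)) (f g : (ℝ × ℕ × ℕ) → ℝ) :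
    (T.map (fun t => f t - g t)).sum = (T.map f).sum - (T.map g).sum := by
  induction T with
  | nil => simp
  | cons t T ih => simp only [List.map_cons, List.sum_cons, ih]; ring

theorem list_range_sum (n : ℕ) (f : ℕ → ℝ) :
    ((List.range n).map f).sum = ∑ i ∈ Finset.range n, f i := by
  induction n with
  | zero => simp
  | succ n ih => rw [List.sum_range_succ, Finset.sum_range_succ, ih]

theorem sum_Icc_eq (n : ℕ) (f : ℕ → ℝ) :
    ∑ k ∈ Finset.Icc 1 n, f k = ∑ i ∈ Finset.range n, f (i + 1) := by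
  induction n with
  | zero => simp
  | succ n ih => rw [Finset.sum_Icc_succ_top (by omega), Finset.sum_range_succ, ih]

theorem integral_list_sum {T : List (ℝ × ℕ × ℕ)} {F : (ℝ × ℕ × ℕ) → Ω → ℝ}
    (hF : ∀ t ∈ T, Integrable (F t) P) :
    Integrable (fun ω => (T.map (fun t => F t ω)).sum) P ∧
    ∫ ω, (T.map (fun t => F t ω)).sum ∂P = (T.map (fun t => ∫ ω, F t ω ∂P)).sum := by
  induction T with
  | nil => simp
  | cons t T ih =>
    obtain ⟨h1, h2⟩ := ih (fun s hs => hF s (List.mem_cons_of_mem _ hs))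
    have h3 := hF t List.mem_cons_self
    simp only [List.map_cons, List.sum_cons]
    refine ⟨h3.add h1, ?_⟩
    rw [integral_add h3 h1, h2]

theorem step_identity {D : ℕ} (h : Stat mom (D + 1) P Y e) (T : List (ℝ × ℕ × ℕ))
    (hT : ∀ t ∈ T, 0 ≤ t.1 ∧ 1 ≤ t.2.2 ∧ t.2.1 + t.2.2 ≤ D) :
    rem D T P Y e = ∫ ω, polyG D T e (Y ω) ∂P - rem (D + 1) T P Y e := by
  have hH : ∫ ω, H D (Y ω) ∂P = ∫ ω, Y ω ^ (D + 1) / ((D : ℝ) + 1) ∂P
      - ∫ ω, H (D + 1) (Y ω) ∂P := by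
    rw [← integral_sub (h.intm.div_const _) h.int_H]
    congr 1
    funext ω
    simp only [H]
    ring
  have hterm : ∀ t ∈ T, t.1 * e ^ t.2.1 *
      ∫ ω, (e + Y ω) ^ t.2.2 * R t.2.2 (D - t.2.1 - t.2.2) (Y ω) ∂P =
      ∫ ω, t.1 * (Nat.multichoose t.2.2 (D + 1 - t.2.1 - t.2.2) : ℝ) *
        (e ^ t.2.1 * (e + Y ω) ^ t.2.2 * Y ω ^ (D + 1 - t.2.1 - t.2.2)) ∂P -
      t.1 * e ^ t.2.1 *
        ∫ ω, (e + Y ω) ^ t.2.2 * R t.2.2 (D + 1 - t.2.1 - t.2.2) (Y ω) ∂P := by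
    intro t ht
    obtain ⟨_, _, a3⟩ := hT t ht
    have hn : D + 1 - t.2.1 - t.2.2 = (D - t.2.1 - t.2.2) + 1 := by omega
    have e1 : ∫ ω, t.1 * (Nat.multichoose t.2.2 (D + 1 - t.2.1 - t.2.2) : ℝ) *
        (e ^ t.2.1 * (e + Y ω) ^ t.2.2 * Y ω ^ (D + 1 - t.2.1 - t.2.2)) ∂P =
        t.1 * e ^ t.2.1 * ∫ ω, (Nat.multichoose t.2.2 (D + 1 - t.2.1 - t.2.2) : ℝ) *
          ((e + Y ω) ^ t.2.2 * Y ω ^ (D + 1 - t.2.1 - t.2.2)) ∂P := by
      rw [← integral_const_mul]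
      congr 1
      funext ω
      ring
    rw [e1, ← mul_sub, ← integral_sub]
    · congr 2
      funext ω
      rw [hn]
      simp only [R]
      ring
    · exact (h.int_poly (by omega)).const_mul _
    · exact h.int_R (by omega)
  unfold rem polyG
  have hint : ∀ t ∈ T, Integrable (fun ω => t.1 *
      (Nat.multichoose t.2.2 (D + 1 - t.2.1 - t.2.2) : ℝ) *
      (e ^ t.2.1 * (e + Y ω) ^ t.2.2 * Y ω ^ (D + 1 - t.2.1 - t.2.2))) P := by
    intro t ht
    obtain ⟨_, _, a3⟩ := hT t ht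
    have := ((h.int_poly (k := t.2.2) (q := D + 1 - t.2.1 - t.2.2) (by omega)).const_mul
      (t.1 * (Nat.multichoose t.2.2 (D + 1 - t.2.1 - t.2.2) : ℝ) * e ^ t.2.1))
    refine this.congr (Filter.Eventually.of_forall fun ω => ?_)
    simp only
    ring
  obtain ⟨i1, i2⟩ := integral_list_sum (T := T) (F := fun t ω => t.1 *
      (Nat.multichoose t.2.2 (D + 1 - t.2.1 - t.2.2) : ℝ) *
      (e ^ t.2.1 * (e + Y ω) ^ t.2.2 * Y ω ^ (D + 1 - t.2.1 - t.2.2))) hint
  rw [integral_add (h.intm.div_const _) i1, i2, hH]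
  have h3 : (T.map (fun t => t.1 * e ^ t.2.1 *
      ∫ ω, (e + Y ω) ^ t.2.2 * R t.2.2 (D - t.2.1 - t.2.2) (Y ω) ∂P)).sum =
      (T.map (fun t => ∫ ω, t.1 * (Nat.multichoose t.2.2 (D + 1 - t.2.1 - t.2.2) : ℝ) *
        (e ^ t.2.1 * (e + Y ω) ^ t.2.2 * Y ω ^ (D + 1 - t.2.1 - t.2.2)) ∂P)).sum -
      (T.map (fun t => t.1 * e ^ t.2.1 *
        ∫ ω, (e + Y ω) ^ t.2.2 * R t.2.2 (D + 1 - t.2.1 - t.2.2) (Y ω) ∂P)).sum := by
    rw [← list_sum_map_sub]
    congr 1
    exact List.map_congr_left hterm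
  rw [h3]
  ring

theorem poly_identity {D : ℕ} (h : Stat mom (D + 1) P Y e) (a : ℕ → ℝ) (c : ℝ)
    (G : ℝ → ℝ → ℝ)
    (hG : ∀ e y : ℝ, G e y = c * e ^ (D + 1) + ∑ k ∈ Finset.Icc 1 (D + 1),
          a k * (y ^ k * e ^ (D + 1 - k) - mom k * e ^ (D + 1 - k) * (e + y) ^ k)) :
    ∫ ω, G e (Y ω) ∂P = c * e ^ (D + 1) - ∑ k ∈ Finset.Icc 1 (D + 1),
      a k * mom k * e ^ (D + 1 - k) * ∫ ω, (e + Y ω) ^ k * R k 0 (Y ω) ∂P := by
  have hint : ∀ k ∈ Finset.Icc 1 (D + 1), Integrable (fun ω => a k * (Y ω ^ k * e ^ (D + 1 - k)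
      - mom k * e ^ (D + 1 - k) * (e + Y ω) ^ k)) P := by
    intro k hk
    rw [Finset.mem_Icc] at hk
    have h1 := (h.mono hk.2).intm
    have h2 := h.int_poly (k := k) (q := 0) (by omega)
    simp only [pow_zero, mul_one] at h2
    exact ((h1.mul_const _).sub (h2.const_mul _)).const_mul _
  have h0 : ∫ ω, G e (Y ω) ∂P = c * e ^ (D + 1) + ∑ k ∈ Finset.Icc 1 (D + 1),
      ∫ ω, a k * (Y ω ^ k * e ^ (D + 1 - k) - mom k * e ^ (D + 1 - k) * (e + Y ω) ^ k) ∂P := by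
    simp only [hG]
    rw [integral_add (integrable_const _) (integrable_finsetSum _ hint),
      integral_finsetSum _ hint]
    simp
  rw [h0, sub_eq_add_neg, ← Finset.sum_neg_distrib]
  congr 1
  apply Finset.sum_congr rfl
  intro k hk
  rw [Finset.mem_Icc] at hk
  have h1 := (h.mono hk.2).intm
  have h2 := h.int_poly (k := k) (q := 0) (by omega)
  simp only [pow_zero, mul_one] at h2
  rw [integral_const_mul, integral_sub (h1.mul_const _) (h2.const_mul _), integral_mul_const,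
    integral_const_mul, h.mom_eq k hk.1 hk.2]
  have h3 : ∫ ω, (e + Y ω) ^ k * R k 0 (Y ω) ∂P = ∫ ω, (e + Y ω) ^ k ∂P -
      ∫ ω, ((e + Y ω) / (1 + Y ω)) ^ k ∂P := by
    rw [← integral_sub h2]
    · apply integral_congr_ae
      filter_upwards [h.nonneg] with ω hω
      simp only [R]
      rw [div_pow, div_eq_mul_inv]
      ring
    · refine h.int_of_le (f := fun y => ((e + y) / (1 + y)) ^ k) (C := 1) (j := 0) (by fun_prop)
        (Nat.zero_le _) ?_
      intro y hy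
      have he := h.epos
      have he' := h.elt
      rw [abs_of_nonneg (by positivity), pow_zero, mul_one]
      apply pow_le_one₀ (by positivity)
      rw [div_le_one (by positivity)]
      linarith
  rw [h3]
  ring

/-- **Exact expansion.** -/
theorem expansion (mom : ℕ → ℝ) : ∀ m : ℕ, (∀ k, 1 ≤ k → k ≤ m → 0 < mom k ∧ mom k < 1) →
    ∃ (l : ℕ → ℝ) (T : List (ℝ × ℕ × ℕ)), (∀ k, 1 ≤ k → k ≤ m → 0 < l k) ∧
      (∀ t ∈ T, 0 ≤ t.1 ∧ 1 ≤ t.2.2 ∧ t.2.1 + t.2.2 ≤ m) ∧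
      ∀ {Ω : Type} [MeasurableSpace Ω] (P : Measure Ω) [IsProbabilityMeasure P] (Y : Ω → ℝ)
        (e : ℝ), Stat mom m P Y e →
        (-1 : ℝ) ^ m * (∫ ω, Real.log (1 + Y ω) ∂P -
          ∑ k ∈ Finset.Icc 1 m, (-1 : ℝ) ^ (k + 1) * l k * e ^ k) = rem m T P Y e := by
  intro m
  induction m with
  | zero =>
    intro _
    refine ⟨fun _ => 1, [], fun _ _ _ => one_pos, by simp, ?_⟩
    intro Ω _ P _ Y e h
    simp [rem, H]
  | succ D ih =>
    intro hm
    obtain ⟨l, T, hl, hT, hid⟩ := ih (fun k h1 h2 => hm k h1 (by omega))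
    obtain ⟨hh, hh0, hhG⟩ := polyG_hom D T hT
    obtain ⟨a, c, ha, _, hc, hac⟩ := elim mom (D + 1) hm (D + 1) le_rfl hh hh0
    have hlead : 0 < hh (D + 1) := by
      have h1 := polyG_lead D T hT
      rw [hhG, Finset.sum_range_succ] at h1
      have h2 : ∑ l ∈ Finset.range (D + 1), hh l * (1:ℝ) ^ l * 0 ^ (D + 1 - l) = 0 := by
        apply Finset.sum_eq_zero
        intro l hl
        rw [Finset.mem_range] at hl
        rw [zero_pow (by omega)]; ring
      rw [h2] at h1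
      simpa using h1
    have hcpos : 0 < c := hc (by omega) hlead
    refine ⟨fun k => if k = D + 1 then c else l k,
      T ++ (List.range (D + 1)).map (fun k => (a (k + 1) * mom (k + 1), D - k, k + 1)),
      ?_, ?_, ?_⟩
    · intro k h1 h2
      beta_reduce
      split_ifs with h3
      · exact hcpos
      · exact hl k h1 (by omega)
    · intro t ht
      rw [List.mem_append] at ht
      rcases ht with ht | ht
      · obtain ⟨a1, a2, a3⟩ := hT t ht
        exact ⟨a1, a2, by omega⟩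
      · rw [List.mem_map] at ht
        obtain ⟨k, hk, rfl⟩ := ht
        rw [List.mem_range] at hk
        refine ⟨mul_nonneg (ha _) (hm (k + 1) (by omega) (by omega)).1.le, by simp, by
          simp only; omega⟩
    · intro Ω _ P _ Y e h
      have h1 := hid P Y e (h.mono (by omega))
      have h2 := step_identity h T hT
      have h3 := poly_identity h a c (polyG D T) (fun e y => by rw [hhG]; exact hac e y)
      have h4 : rem (D + 1) (T ++ (List.range (D + 1)).map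
          (fun k => (a (k + 1) * mom (k + 1), D - k, k + 1))) P Y e =
          rem (D + 1) T P Y e + ∑ k ∈ Finset.Icc 1 (D + 1),
            a k * mom k * e ^ (D + 1 - k) * ∫ ω, (e + Y ω) ^ k * R k 0 (Y ω) ∂P := by
        unfold rem
        rw [List.map_append, List.sum_append, List.map_map, add_assoc]
        congr 2
        rw [list_range_sum, sum_Icc_eq]
        apply Finset.sum_congr rfl
        intro k hk
        rw [Finset.mem_range] at hk
        simp only [Function.comp]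
        rw [show D + 1 - (D - k) - (k + 1) = 0 by omega, show D + 1 - (k + 1) = D - k by omega]
      rw [h4]
      have h5 : rem (D + 1) T P Y e = c * e ^ (D + 1) - ∑ k ∈ Finset.Icc 1 (D + 1),
          a k * mom k * e ^ (D + 1 - k) * ∫ ω, (e + Y ω) ^ k * R k 0 (Y ω) ∂P -
          (-1 : ℝ) ^ D * (∫ ω, Real.log (1 + Y ω) ∂P -
            ∑ k ∈ Finset.Icc 1 D, (-1 : ℝ) ^ (k + 1) * l k * e ^ k) := by
        rw [h1, h2, h3]; ring
      rw [h5, Finset.sum_Icc_succ_top (by omega)]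
      have h6 : ∑ k ∈ Finset.Icc 1 D, (-1 : ℝ) ^ (k + 1) * (if k = D + 1 then c else l k) * e ^ k =
          ∑ k ∈ Finset.Icc 1 D, (-1 : ℝ) ^ (k + 1) * l k * e ^ k := by
        apply Finset.sum_congr rfl
        intro k hk
        rw [Finset.mem_Icc] at hk
        rw [if_neg (by omega)]
      rw [h6]
      beta_reduce
      rw [if_pos rfl]
      have h7 : (-1 : ℝ) ^ (D + 1) * (-1 : ℝ) ^ (D + 1 + 1) = -1 := by
        rw [← pow_add, show D + 1 + (D + 1 + 1) = 2 * (D + 1) + 1 by ring, pow_succ, pow_mul]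
        simp
      have h8 : (-1 : ℝ) ^ (D + 1) * ((-1 : ℝ) ^ (D + 1 + 1) * c * e ^ (D + 1)) =
          - (c * e ^ (D + 1)) := by
        rw [← mul_assoc, ← mul_assoc, h7]; ring
      rw [mul_sub, mul_add, h8, pow_succ (-1 : ℝ) D]
      ring

end Pool.Agent.Lib_helper63.DH
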