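import Pool.Agent.Lib_helper63.DH.Lyap

/-!
Transfer from an arbitrary probability space to the sequence space.
-/

open MeasureTheory Filter Topology ProbabilityTheory

namespace Pool.Agent.Lib_helper63.DH

variable {Ω : Type*} [MeasurableSpace Ω] {P : Measure Ω} [IsProbabilityMeasure P]
  {Z : ℕ → Ω → ℝ} {α : ℝ}

omit [IsProbabilityMeasure P] in
theorem law_of (hmeas : ∀ n, Measurable (Z n)) (hpos : ∀ᵐ ω ∂P, 0 < Z 0 ω) (hα : 0 < α)
    (hone : ∫ ω, Z 0 ω ^ α ∂P = 1) (hne : ∀ c, ¬ ∀ᵐ ω ∂P, Z 0 ω = c) :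
    Law (P.map (Z 0)) α where
  pos := by
    rw [ae_map_iff (hmeas 0).aemeasurable measurableSet_Ioi]
    exact hpos
  apos := hα
  one := by
    rw [integral_map (hmeas 0).aemeasurable
      (by fun_prop : Measurable fun z : ℝ => z ^ α).aestronglyMeasurable]
    exact hone
  nondeg := by
    intro h
    exact hne 1 ((ae_map_iff (hmeas 0).aemeasurable (measurableSet_singleton (1:ℝ))).1 h)

theorem lyap_transfer (hmeas : ∀ n, Measurable (Z n)) (hind : iIndepFun Z P)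
    (hid : ∀ n, IdentDistrib (Z n) (Z 0) P P) (h : Law (P.map (Z 0)) α) {ε : ℝ} (hε : 0 < ε)
    (hε1 : ε < 1) :
    ∀ᵐ ω ∂P, Tendsto (fun n : ℕ => Real.log (nrm (prodM ε (fun k => Z k ω) n)) / n) atTop
      (𝓝 (lam (P.map (Z 0)) ε)) := by
  have hpr : IsProbabilityMeasure (P.map (Z 0)) :=
    Measure.isProbabilityMeasure_map (hmeas 0).aemeasurable
  have h1 := hind.map_fun_eq_infinitePi_map hmeas
  have h2 : (fun i => P.map (Z i)) = fun _ => P.map (Z 0) := by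
    funext i
    exact (hid i).map_eq
  rw [h2] at h1
  have h3 := h.lyap hε hε1
  have h4 : Pm (P.map (Z 0)) = P.map (fun ω i => Z i ω) := h1.symm
  rw [h4] at h3
  exact ae_of_ae_map (measurable_pi_iff.2 hmeas).aemeasurable h3

omit [IsProbabilityMeasure P] in
theorem integrable_transfer (hmeas : ∀ n, Measurable (Z n)) :
    Integrable (fun z => z ^ α * Real.log z) (P.map (Z 0)) ↔
      Integrable (fun ω => Z 0 ω ^ α * Real.log (Z 0 ω)) P := by
  rw [integrable_map_measure (by fun_prop : Measurable fun z : ℝ =>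
    z ^ α * Real.log z).aestronglyMeasurable (hmeas 0).aemeasurable]
  rfl

theorem mom_bounds {μ : Measure ℝ} [IsProbabilityMeasure μ] (h : Law μ α) {m : ℕ}
    (hm : (m:ℝ) < α) (k : ℕ) (h1 : 1 ≤ k) (h2 : k ≤ m) :
    0 < ∫ z, z ^ k ∂μ ∧ ∫ z, z ^ k ∂μ < 1 := by
  have hk : (k:ℝ) < α := lt_of_le_of_lt (by exact_mod_cast h2) hm
  have hk0 : (0:ℝ) < k := by exact_mod_cast h1
  have a1 := h.mom_pos (s := k) hk0.le hk.le
  have a2 := h.mom_lt_one (s := k) hk0 hk
  simp only [Real.rpow_natCast] at a1 a2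
  exact ⟨a1, a2⟩

/-- i.i.d. coordinates -/
theorem coord_iid (μ : Measure ℝ) [IsProbabilityMeasure μ] :
    (∀ n, Measurable (fun ω : ℕ → ℝ => ω n)) ∧
    iIndepFun (fun (n : ℕ) (ω : ℕ → ℝ) => ω n) (Pm μ) ∧
    (∀ n, (Pm μ).map (fun ω : ℕ → ℝ => ω n) = μ) ∧
    (∀ n, IdentDistrib (fun ω : ℕ → ℝ => ω n) (fun ω : ℕ → ℝ => ω 0) (Pm μ) (Pm μ)) := by
  have h1 : ∀ n, (Pm μ).map (fun ω : ℕ → ℝ => ω n) = μ := fun n =>
    (measurePreserving_eval_infinitePi (fun _ : ℕ => μ) n).map_eq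
  refine ⟨fun n => measurable_pi_apply n,
    iIndepFun_infinitePi (X := fun _ ω => ω) (fun _ => measurable_id), h1, fun n => ?_⟩
  exact ⟨(measurable_pi_apply n).aemeasurable, (measurable_pi_apply 0).aemeasurable, by
    rw [h1 n, h1 0]⟩

end Pool.Agent.Lib_helper63.DH
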