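import Pool.Agent.Lib_helper63.DH.Expand

/-!
The remainder functional is `E psi(Y) + O(e^(m+1))`.
-/

open MeasureTheory Filter Topology

namespace Pool.Agent.Lib_helper63.DH

/-- leading singular test function -/
noncomputable def psi (m : ℕ) (T : List (ℝ × ℕ × ℕ)) (y : ℝ) : ℝ :=
  H m y + (T.map (fun t => if t.2.1 = 0 then
    t.1 * (y ^ t.2.2 * R t.2.2 (m - t.2.2) y) else 0)).sum

/-- admissible lists of terms -/
def TOk (m : ℕ) (T : List (ℝ × ℕ × ℕ)) : Prop :=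
  ∀ t ∈ T, 0 ≤ t.1 ∧ 1 ≤ t.2.2 ∧ t.2.1 + t.2.2 ≤ m

variable {mom : ℕ → ℝ} {m : ℕ} {Ω : Type} [MeasurableSpace Ω] {P : Measure Ω}
  [IsProbabilityMeasure P] {Y : Ω → ℝ} {e : ℝ}

theorem pow_sub_le (k : ℕ) {e y : ℝ} (he : 0 ≤ e) (hy : 0 ≤ y) :
    (e + y) ^ (k + 1) - y ^ (k + 1) ≤ (k + 1) * e * (e + y) ^ k := by
  induction k with
  | zero => simp
  | succ k ih =>
    have h1 : y ^ (k + 1) ≤ (e + y) ^ (k + 1) := pow_le_pow_left₀ hy (by linarith) _
    have h2 : (e + y) ^ (k + 1 + 1) - y ^ (k + 1 + 1) =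
      (e + y) * ((e + y) ^ (k + 1) - y ^ (k + 1)) + e * y ^ (k + 1) := by ring
    rw [h2]
    have h3 : (e + y) * ((e + y) ^ (k + 1) - y ^ (k + 1)) ≤
        (e + y) * ((k + 1) * e * (e + y) ^ k) := mul_le_mul_of_nonneg_left ih (by linarith)
    have h4 : e * y ^ (k + 1) ≤ e * (e + y) ^ (k + 1) := mul_le_mul_of_nonneg_left h1 he
    have h5 : (e + y) * ((k + 1) * e * (e + y) ^ k) = (k + 1) * e * (e + y) ^ (k + 1) := by ring
    push_cast
    nlinarith

theorem add_pow_le' (k : ℕ) {e y : ℝ} (he : 0 ≤ e) (hy : 0 ≤ y) :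
    (e + y) ^ k ≤ 2 ^ k * (e ^ k + y ^ k) := by
  refine (add_pow_le he hy k).trans ?_
  apply mul_le_mul_of_nonneg_right _ (by positivity)
  exact pow_le_pow_right₀ (by norm_num) (by omega)

/-- bounding constant -/
noncomputable def cT (m : ℕ) (T : List (ℝ × ℕ × ℕ)) : ℝ :=
  (T.map (fun t => t.1 * (RC t.2.2 (m - t.2.1 - t.2.2) * (t.2.2 + 1) * 2 ^ (t.2.2 + 1)))).sum

theorem Stat.int_Ypow (h : Stat mom m P Y e) {j : ℕ} (hj : j ≤ m) :
    Integrable (fun ω => Y ω ^ j) P := (h.mono hj).intm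

theorem term_high (h : Stat mom m P Y e) {K : ℝ} (hK : ∀ j ≤ m, ∫ ω, Y ω ^ j ∂P ≤ K * e ^ j)
    {p k n : ℕ} (hp : 1 ≤ p) (hpk : p + k + n = m) (hK0 : 0 ≤ K) :
    |e ^ p * ∫ ω, (e + Y ω) ^ k * R k n (Y ω) ∂P| ≤
      RC k n * (k + 1) * 2 ^ (k + 1) * K * e ^ (m + 1) := by
  have he := h.epos
  have hnn : 0 ≤ ∫ ω, (e + Y ω) ^ k * R k n (Y ω) ∂P := by
    apply integral_nonneg_of_ae
    filter_upwards [h.nonneg] with ω hω
    have := R_nonneg k n hω
    simp only [Pi.zero_apply]; positivity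
  rw [abs_of_nonneg (by positivity)]
  have i1 := h.int_Ypow (j := n + 1) (by omega)
  have i2 := h.int_Ypow (j := k + n + 1) (by omega)
  have h1 : ∫ ω, (e + Y ω) ^ k * R k n (Y ω) ∂P ≤
      ∫ ω, RC k n * 2 ^ k * (e ^ k * Y ω ^ (n + 1) + Y ω ^ (k + n + 1)) ∂P := by
    apply integral_mono_ae (h.int_R (by omega)) (((i1.const_mul _).add i2).const_mul _)
    filter_upwards [h.nonneg] with ω hω
    have h2 := R_le' k n hω
    have h3 := add_pow_le' k he.le hω
    have h4 := R_nonneg k n hω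
    have h5 := RC_nonneg k n
    simp only [Pi.add_apply]
    calc (e + Y ω) ^ k * R k n (Y ω)
        ≤ (2 ^ k * (e ^ k + Y ω ^ k)) * (RC k n * Y ω ^ (n + 1)) :=
          mul_le_mul h3 h2 h4 (by positivity)
      _ = _ := by ring
  have h6 : ∫ ω, RC k n * 2 ^ k * (e ^ k * Y ω ^ (n + 1) + Y ω ^ (k + n + 1)) ∂P =
      RC k n * 2 ^ k * (e ^ k * ∫ ω, Y ω ^ (n + 1) ∂P + ∫ ω, Y ω ^ (k + n + 1) ∂P) := by
    rw [integral_const_mul, integral_add (i1.const_mul _) i2, integral_const_mul]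
  rw [h6] at h1
  have h7 := hK (n + 1) (by omega)
  have h8 := hK (k + n + 1) (by omega)
  have h5 := RC_nonneg k n
  calc e ^ p * ∫ ω, (e + Y ω) ^ k * R k n (Y ω) ∂P
      ≤ e ^ p * (RC k n * 2 ^ k * (e ^ k * (K * e ^ (n + 1)) + K * e ^ (k + n + 1))) := by
        apply mul_le_mul_of_nonneg_left _ (by positivity)
        refine h1.trans ?_
        gcongr
    _ = RC k n * 1 * 2 ^ (k + 1) * K * e ^ (m + 1) := by
        rw [← hpk]; ring
    _ ≤ RC k n * (k + 1) * 2 ^ (k + 1) * K * e ^ (m + 1) := by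
        have : (1:ℝ) ≤ (k:ℝ) + 1 := by
          have : (0:ℝ) ≤ (k:ℝ) := by positivity
          linarith
        gcongr

theorem term_low (h : Stat mom m P Y e) {K : ℝ} (hK : ∀ j ≤ m, ∫ ω, Y ω ^ j ∂P ≤ K * e ^ j)
    {k n : ℕ} (hk : 1 ≤ k) (hpk : k + n = m) (hK0 : 0 ≤ K) :
    |∫ ω, (e + Y ω) ^ k * R k n (Y ω) ∂P - ∫ ω, Y ω ^ k * R k n (Y ω) ∂P| ≤
      RC k n * (k + 1) * 2 ^ (k + 1) * K * e ^ (m + 1) := by
  have he := h.epos
  have iR := h.int_R (k := k) (n := n) (by omega)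
  have iR' : Integrable (fun ω => Y ω ^ k * R k n (Y ω)) P := by
    refine iR.mono' ((by have := R_measurable k n
                         fun_prop : Measurable fun y => y ^ k * R k n y).comp
                          h.meas).aestronglyMeasurable ?_
    filter_upwards [h.nonneg] with ω hω
    have h4 := R_nonneg k n hω
    rw [Real.norm_eq_abs]
    rw [abs_of_nonneg (by positivity)]
    exact mul_le_mul_of_nonneg_right (pow_le_pow_left₀ hω (by linarith) k) h4
  rw [← integral_sub iR iR']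
  obtain ⟨j, rfl⟩ : ∃ j, k = j + 1 := ⟨k - 1, by omega⟩
  have i1 := h.int_Ypow (j := n + 1) (by omega)
  have i2 := h.int_Ypow (j := j + n + 1) (by omega)
  have hnn : 0 ≤ ∫ ω, ((e + Y ω) ^ (j + 1) * R (j + 1) n (Y ω) -
      Y ω ^ (j + 1) * R (j + 1) n (Y ω)) ∂P := by
    apply integral_nonneg_of_ae
    filter_upwards [h.nonneg] with ω hω
    have h4 := R_nonneg (j + 1) n hω
    have h5 := pow_le_pow_left₀ hω (by linarith : Y ω ≤ e + Y ω) (j + 1)
    simp only [Pi.zero_apply]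
    nlinarith
  rw [abs_of_nonneg hnn]
  have h1 : ∫ ω, ((e + Y ω) ^ (j + 1) * R (j + 1) n (Y ω) -
      Y ω ^ (j + 1) * R (j + 1) n (Y ω)) ∂P ≤
      ∫ ω, RC (j + 1) n * (j + 1) * 2 ^ j * e *
        (e ^ j * Y ω ^ (n + 1) + Y ω ^ (j + n + 1)) ∂P := by
    apply integral_mono_ae (iR.sub iR') (((i1.const_mul _).add i2).const_mul _)
    filter_upwards [h.nonneg] with ω hω
    have h2 := R_le' (j + 1) n hω
    have h3 := add_pow_le' j he.le hω
    have h4 := R_nonneg (j + 1) n hω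
    have h5 := RC_nonneg (j + 1) n
    have h6 := pow_sub_le j he.le hω
    have h7 := pow_le_pow_left₀ hω (by linarith : Y ω ≤ e + Y ω) (j + 1)
    simp only [Pi.add_apply]
    calc (e + Y ω) ^ (j + 1) * R (j + 1) n (Y ω) - Y ω ^ (j + 1) * R (j + 1) n (Y ω)
        = ((e + Y ω) ^ (j + 1) - Y ω ^ (j + 1)) * R (j + 1) n (Y ω) := by ring
      _ ≤ ((j + 1) * e * (2 ^ j * (e ^ j + Y ω ^ j))) * (RC (j + 1) n * Y ω ^ (n + 1)) := by
          apply mul_le_mul _ h2 h4 (by positivity)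
          exact h6.trans (mul_le_mul_of_nonneg_left h3 (by positivity))
      _ = _ := by ring
  have h6 : ∫ ω, RC (j + 1) n * (j + 1) * 2 ^ j * e *
        (e ^ j * Y ω ^ (n + 1) + Y ω ^ (j + n + 1)) ∂P =
      RC (j + 1) n * (j + 1) * 2 ^ j * e *
        (e ^ j * ∫ ω, Y ω ^ (n + 1) ∂P + ∫ ω, Y ω ^ (j + n + 1) ∂P) := by
    rw [integral_const_mul, integral_add (i1.const_mul _) i2, integral_const_mul]
  rw [h6] at h1
  have h7 := hK (n + 1) (by omega)
  have h8 := hK (j + n + 1) (by omega)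
  have h5 := RC_nonneg (j + 1) n
  refine h1.trans ?_
  calc RC (j + 1) n * (j + 1) * 2 ^ j * e *
        (e ^ j * ∫ ω, Y ω ^ (n + 1) ∂P + ∫ ω, Y ω ^ (j + n + 1) ∂P)
      ≤ RC (j + 1) n * (j + 1) * 2 ^ j * e *
        (e ^ j * (K * e ^ (n + 1)) + K * e ^ (j + n + 1)) := by gcongr
    _ = RC (j + 1) n * (j + 1) * 2 ^ (j + 1) * K * e ^ (m + 1) := by
        rw [← hpk]; ring
    _ ≤ RC (j + 1) n * (((j + 1 : ℕ) : ℝ) + 1) * 2 ^ (j + 1 + 1) * K * e ^ (m + 1) := by
        push_cast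
        have h9 : (2:ℝ) ^ (j + 1) ≤ 2 ^ (j + 1 + 1) := pow_le_pow_right₀ (by norm_num) (by omega)
        have h10 : (0:ℝ) ≤ (j:ℝ) := by positivity
        gcongr
        linarith

theorem rem_sub_psi (h : Stat mom m P Y e) {K : ℝ} (hK0 : 0 ≤ K)
    (hK : ∀ j ≤ m, ∫ ω, Y ω ^ j ∂P ≤ K * e ^ j) {T : List (ℝ × ℕ × ℕ)} (hT : TOk m T) :
    Integrable (fun ω => psi m T (Y ω)) P ∧
    |rem m T P Y e - ∫ ω, psi m T (Y ω) ∂P| ≤ cT m T * K * e ^ (m + 1) := by
  have he := h.epos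
  have hterm : ∀ t ∈ T, Integrable (fun ω => if t.2.1 = 0 then
      t.1 * (Y ω ^ t.2.2 * R t.2.2 (m - t.2.2) (Y ω)) else 0) P ∧
      |t.1 * e ^ t.2.1 * ∫ ω, (e + Y ω) ^ t.2.2 * R t.2.2 (m - t.2.1 - t.2.2) (Y ω) ∂P -
        ∫ ω, (if t.2.1 = 0 then
          t.1 * (Y ω ^ t.2.2 * R t.2.2 (m - t.2.2) (Y ω)) else 0) ∂P| ≤
        t.1 * (RC t.2.2 (m - t.2.1 - t.2.2) * (t.2.2 + 1) * 2 ^ (t.2.2 + 1)) * K * e ^ (m + 1) := by
    rintro ⟨c, p, k⟩ ht
    obtain ⟨a1, a2, a3⟩ := hT _ ht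
    simp only at a1 a2 a3 ⊢
    rcases Nat.eq_zero_or_pos p with rfl | hp
    · simp only [if_true, Nat.sub_zero, pow_zero, mul_one]
      have h1 := term_low h hK (k := k) (n := m - k) a2 (by omega) hK0
      have iR := h.int_R (k := k) (n := m - k) (by omega)
      have iR' : Integrable (fun ω => Y ω ^ k * R k (m - k) (Y ω)) P := by
        refine iR.mono' ((by have := R_measurable k (m - k)
                             fun_prop : Measurable fun y => y ^ k * R k (m - k) y).comp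
                              h.meas).aestronglyMeasurable ?_
        filter_upwards [h.nonneg] with ω hω
        have h4 := R_nonneg k (m - k) hω
        rw [Real.norm_eq_abs]
        rw [abs_of_nonneg (by positivity)]
        exact mul_le_mul_of_nonneg_right (pow_le_pow_left₀ hω (by linarith) k) h4
      refine ⟨iR'.const_mul c, ?_⟩
      rw [integral_const_mul, ← mul_sub, abs_mul, abs_of_nonneg a1]
      calc c * _ ≤ c * (RC k (m - k) * (k + 1) * 2 ^ (k + 1) * K * e ^ (m + 1)) :=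
            mul_le_mul_of_nonneg_left h1 a1
        _ = _ := by ring
    · have hp0 : p ≠ 0 := by omega
      simp only [if_neg hp0, integral_zero, sub_zero]
      have h1 := term_high h hK (p := p) (k := k) (n := m - p - k) hp (by omega) hK0
      refine ⟨integrable_zero _ _ _, ?_⟩
      rw [mul_assoc, abs_mul, abs_of_nonneg a1]
      calc c * _ ≤ c * (RC k (m - p - k) * (k + 1) * 2 ^ (k + 1) * K * e ^ (m + 1)) :=
            mul_le_mul_of_nonneg_left h1 a1
        _ = _ := by ring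
  obtain ⟨j1, j2⟩ := integral_list_sum (P := P) (T := T) (F := fun t ω => if t.2.1 = 0 then
      t.1 * (Y ω ^ t.2.2 * R t.2.2 (m - t.2.2) (Y ω)) else 0) (fun t ht => (hterm t ht).1)
  refine ⟨h.int_H.add j1, ?_⟩
  have h2 : ∫ ω, psi m T (Y ω) ∂P = ∫ ω, H m (Y ω) ∂P + (T.map (fun t => ∫ ω, (if t.2.1 = 0 then
      t.1 * (Y ω ^ t.2.2 * R t.2.2 (m - t.2.2) (Y ω)) else 0) ∂P)).sum := by
    unfold psi
    rw [integral_add h.int_H j1, j2]
  rw [h2]
  unfold rem cT
  rw [add_sub_add_left_eq_sub, ← list_sum_map_sub]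
  have h3 : ∀ T : List (ℝ × ℕ × ℕ), (∀ t ∈ T,
      |t.1 * e ^ t.2.1 * ∫ ω, (e + Y ω) ^ t.2.2 * R t.2.2 (m - t.2.1 - t.2.2) (Y ω) ∂P -
        ∫ ω, (if t.2.1 = 0 then
          t.1 * (Y ω ^ t.2.2 * R t.2.2 (m - t.2.2) (Y ω)) else 0) ∂P| ≤
        t.1 * (RC t.2.2 (m - t.2.1 - t.2.2) * (t.2.2 + 1) * 2 ^ (t.2.2 + 1)) * K * e ^ (m + 1)) →
      |(T.map (fun t =>
        t.1 * e ^ t.2.1 * ∫ ω, (e + Y ω) ^ t.2.2 * R t.2.2 (m - t.2.1 - t.2.2) (Y ω) ∂P -
        ∫ ω, (if t.2.1 = 0 then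
          t.1 * (Y ω ^ t.2.2 * R t.2.2 (m - t.2.2) (Y ω)) else 0) ∂P)).sum| ≤
      (T.map (fun t => t.1 *
        (RC t.2.2 (m - t.2.1 - t.2.2) * (t.2.2 + 1) * 2 ^ (t.2.2 + 1)))).sum * K * e ^ (m + 1) := by
    intro T
    induction T with
    | nil => intro _; simp
    | cons t T ih =>
      intro hT
      have h4 := ih (fun s hs => hT s (List.mem_cons_of_mem _ hs))
      have h5 := hT t List.mem_cons_self
      simp only [List.map_cons, List.sum_cons]
      refine (abs_add_le _ _).trans ?_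
      calc _ ≤ _ := add_le_add h5 h4
        _ = _ := by ring
  exact h3 T (fun t ht => (hterm t ht).2)

/-! ### Properties of `psi` -/

theorem psi_measurable (m : ℕ) (T : List (ℝ × ℕ × ℕ)) : Measurable (psi m T) := by
  unfold psi
  apply (H_measurable m).add
  induction T with
  | nil => simp
  | cons t T ih =>
    simp only [List.map_cons, List.sum_cons]
    apply Measurable.add _ ih
    have := R_measurable t.2.2 (m - t.2.2)
    split_ifs
    · fun_prop
    · fun_prop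

theorem H_le_psi {m : ℕ} {T : List (ℝ × ℕ × ℕ)} (hT : TOk m T) {y : ℝ} (hy : 0 ≤ y) :
    H m y ≤ psi m T y := by
  unfold psi
  have : 0 ≤ (T.map (fun t => if t.2.1 = 0 then
    t.1 * (y ^ t.2.2 * R t.2.2 (m - t.2.2) y) else 0)).sum := by
    apply List.sum_nonneg
    intro x hx
    rw [List.mem_map] at hx
    obtain ⟨t, ht, rfl⟩ := hx
    have h1 := (hT t ht).1
    have h2 := R_nonneg t.2.2 (m - t.2.2) hy
    split_ifs
    · positivity
    · exact le_rfl
  linarith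

theorem psi_nonneg {m : ℕ} {T : List (ℝ × ℕ × ℕ)} (hT : TOk m T) {y : ℝ} (hy : 0 ≤ y) :
    0 ≤ psi m T y := (H_nonneg m hy).trans (H_le_psi hT hy)

/-- upper bound of the extra terms -/
theorem psi_sub_H_le {m : ℕ} {T : List (ℝ × ℕ × ℕ)} (hT : TOk m T) :
    ∃ C : ℝ, 0 ≤ C ∧ ∀ y : ℝ, 0 ≤ y → psi m T y - H m y ≤ C * (y ^ (m + 1) / (1 + y)) := by
  unfold psi
  induction T with
  | nil => exact ⟨0, le_rfl, fun y _ => by simp⟩
  | cons t T ih =>
    obtain ⟨C, hC0, hC⟩ := ih (fun s hs => hT s (List.mem_cons_of_mem _ hs))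
    obtain ⟨a1, a2, a3⟩ := hT t List.mem_cons_self
    refine ⟨t.1 * RC t.2.2 (m - t.2.2) + C, by
      have := RC_nonneg t.2.2 (m - t.2.2)
      positivity, ?_⟩
    intro y hy
    have h1 := hC y hy
    simp only [List.map_cons, List.sum_cons] at h1 ⊢
    have h2 : (if t.2.1 = 0 then t.1 * (y ^ t.2.2 * R t.2.2 (m - t.2.2) y) else 0) ≤
        t.1 * RC t.2.2 (m - t.2.2) * (y ^ (m + 1) / (1 + y)) := by
      have h3 := RC_nonneg t.2.2 (m - t.2.2)
      split_ifs with h4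
      · have h5 := R_le t.2.2 (m - t.2.2) hy
        calc t.1 * (y ^ t.2.2 * R t.2.2 (m - t.2.2) y)
            ≤ t.1 * (y ^ t.2.2 * (RC t.2.2 (m - t.2.2) * (y ^ (m - t.2.2 + 1) / (1 + y)))) := by
              gcongr
          _ = t.1 * RC t.2.2 (m - t.2.2) * (y ^ (t.2.2 + (m - t.2.2 + 1)) / (1 + y)) := by
              rw [pow_add]; ring
          _ = _ := by rw [show t.2.2 + (m - t.2.2 + 1) = m + 1 by omega]
      · positivity
    have h6 : (t.1 * RC t.2.2 (m - t.2.2) + C) * (y ^ (m + 1) / (1 + y)) =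
      t.1 * RC t.2.2 (m - t.2.2) * (y ^ (m + 1) / (1 + y)) + C * (y ^ (m + 1) / (1 + y)) := by
      ring
    rw [h6]
    linarith

theorem R_limit (k n : ℕ) : ∃ r : ℝ, 0 ≤ r ∧
    Tendsto (fun y : ℝ => R k n y / y ^ (n + 1)) (𝓝[>] 0) (𝓝 r) := by
  induction k with
  | zero =>
    refine ⟨0, le_rfl, ?_⟩
    simp only [R_zero, zero_div]
    exact tendsto_const_nhds
  | succ k ih =>
    obtain ⟨r, hr0, hr⟩ := ih
    refine ⟨Nat.multichoose (k + 1) n + r, by positivity, ?_⟩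
    have h2 : Tendsto (fun e : ℝ => e) (𝓝[>] 0) (𝓝 0) := tendsto_id.mono_left nhdsWithin_le_nhds
    have h1 : Tendsto (fun y : ℝ => ((Nat.multichoose (k + 1) n : ℝ) + R k n y / y ^ (n + 1)) /
        (1 + y)) (𝓝[>] 0) (𝓝 (((Nat.multichoose (k + 1) n : ℝ) + r) / (1 + 0))) :=
      (hr.const_add _).div (h2.const_add 1) (by simp)
    rw [add_zero, div_one] at h1
    refine h1.congr' ?_
    filter_upwards [self_mem_nhdsWithin] with y hy
    have hy' : 0 < y := hy
    have h3 := R_rec k n hy'.le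
    have h4 : R (k + 1) n y = ((Nat.multichoose (k + 1) n : ℝ) * y ^ (n + 1) + R k n y) /
        (1 + y) := by
      rw [← h3]; field_simp
    rw [h4]
    field_simp

theorem H_limit (m : ℕ) : Tendsto (fun y : ℝ => H m y / y ^ (m + 1)) (𝓝[>] 0)
    (𝓝 (1 / ((m : ℝ) + 1))) := by
  have h1 : ∀ y : ℝ, 0 < y → 1 / ((m : ℝ) + 1) - y ≤ H m y / y ^ (m + 1) ∧
      H m y / y ^ (m + 1) ≤ 1 / ((m : ℝ) + 1) := by
    intro y hy
    have h2 := H_le m hy.le
    have h3 := H_le (m + 1) hy.le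
    simp only [H] at h3
    have hp : 0 < y ^ (m + 1) := by positivity
    constructor
    · rw [le_div_iff₀ hp]
      have h4 : y ^ (m + 1 + 1) / (((m + 1 : ℕ) : ℝ) + 1) ≤ y * y ^ (m + 1) := by
        rw [← pow_succ']
        apply div_le_self (by positivity)
        have : (0:ℝ) ≤ ((m + 1 : ℕ) : ℝ) := by positivity
        linarith
      have h5 : (1 / ((m : ℝ) + 1) - y) * y ^ (m + 1) = y ^ (m + 1) / ((m:ℝ) + 1) -
          y * y ^ (m + 1) := by ring
      rw [h5]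
      linarith
    · rw [div_le_iff₀ hp]
      refine h2.trans (le_of_eq ?_)
      ring
  have h2 : Tendsto (fun e : ℝ => e) (𝓝[>] 0) (𝓝 0) := tendsto_id.mono_left nhdsWithin_le_nhds
  have h3 : Tendsto (fun y : ℝ => 1 / ((m : ℝ) + 1) - y) (𝓝[>] 0)
      (𝓝 (1 / ((m : ℝ) + 1) - 0)) := h2.const_sub _
  rw [sub_zero] at h3
  refine tendsto_of_tendsto_of_tendsto_of_le_of_le' h3 tendsto_const_nhds ?_ ?_
  · filter_upwards [self_mem_nhdsWithin] with y hy
    exact (h1 y hy).1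
  · filter_upwards [self_mem_nhdsWithin] with y hy
    exact (h1 y hy).2

theorem psi_limit {m : ℕ} {T : List (ℝ × ℕ × ℕ)} (hT : TOk m T) : ∃ c : ℝ, 0 < c ∧
    Tendsto (fun y : ℝ => psi m T y / y ^ (m + 1)) (𝓝[>] 0) (𝓝 c) := by
  have key : ∀ T : List (ℝ × ℕ × ℕ), TOk m T → ∃ c : ℝ, 0 ≤ c ∧
      Tendsto (fun y : ℝ => (T.map (fun t => if t.2.1 = 0 then
        t.1 * (y ^ t.2.2 * R t.2.2 (m - t.2.2) y) else 0)).sum / y ^ (m + 1)) (𝓝[>] 0) (𝓝 c) := by
    intro T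
    induction T with
    | nil =>
      intro _
      refine ⟨0, le_rfl, ?_⟩
      simp only [List.map_nil, List.sum_nil, zero_div]
      exact tendsto_const_nhds
    | cons t T ih =>
      intro hT
      obtain ⟨c, hc0, hc⟩ := ih (fun s hs => hT s (List.mem_cons_of_mem _ hs))
      obtain ⟨a1, a2, a3⟩ := hT t List.mem_cons_self
      by_cases h0 : t.2.1 = 0
      · obtain ⟨r, hr0, hr⟩ := R_limit t.2.2 (m - t.2.2)
        refine ⟨t.1 * r + c, by positivity, ?_⟩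
        have h1 := (hr.const_mul t.1).add hc
        refine h1.congr' ?_
        filter_upwards [self_mem_nhdsWithin] with y hy
        have hy' : 0 < y := hy
        simp only [List.map_cons, List.sum_cons, if_pos h0, add_div]
        congr 1
        have h5 : y ^ (m + 1) = y ^ t.2.2 * y ^ (m - t.2.2 + 1) := by
          rw [← pow_add]; congr 1; omega
        rw [h5]
        field_simp
      · refine ⟨c, hc0, ?_⟩
        simpa only [List.map_cons, List.sum_cons, if_neg h0, zero_add] using hc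
  obtain ⟨c, hc0, hc⟩ := key T hT
  refine ⟨1 / ((m:ℝ) + 1) + c, by positivity, ?_⟩
  have := (H_limit m).add hc
  refine this.congr fun y => ?_
  unfold psi
  rw [add_div]

end Pool.Agent.Lib_helper63.DH
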