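import Pool.Agent.Lib_helper63.DH.Limit
import Pool.Agent.Lib_helper63.DH.Rem

/-!
The integer case: `E[Y^α] / (e^α log(1/e))` converges.
-/

open MeasureTheory Filter Topology

namespace Pool.Agent.Lib_helper63.DH

variable {μ : Measure ℝ} [IsProbabilityMeasure μ] {α : ℝ}

/-- `log (1 + exp (-t))` -/
noncomputable def fL (t : ℝ) : ℝ := Real.log (1 + Real.exp (-t))

theorem fL_nonneg (t : ℝ) : 0 ≤ fL t :=
  Real.log_nonneg (by have := Real.exp_pos (-t); linarith)

theorem fL_measurable : Measurable fL := by unfold fL; fun_prop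

theorem Lg_nonneg (t : ℝ) : 0 ≤ Lg t :=
  Real.log_nonneg (by have := Real.exp_pos t; linarith)

theorem Lg_measurable : Measurable Lg := by unfold Lg; fun_prop

theorem Lg_le_exp (t : ℝ) : Lg t ≤ Real.exp t := by
  unfold Lg
  have := Real.log_le_sub_one_of_pos (x := 1 + Real.exp t) (by positivity)
  linarith

theorem fL_eq (t : ℝ) : fL t = -t + Lg t := by
  unfold fL Lg
  have h1 : (1:ℝ) + Real.exp t = Real.exp t * (1 + Real.exp (-t)) := by
    rw [mul_add, ← Real.exp_add, add_neg_cancel, Real.exp_zero]; ring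
  rw [h1, Real.log_mul (Real.exp_pos t).ne' (by positivity), Real.log_exp]
  ring

theorem fL_anti : Antitone fL := by
  intro s t hst
  unfold fL
  apply Real.log_le_log (by positivity)
  have := Real.exp_le_exp.2 (by linarith : -t ≤ -s)
  linarith

theorem fL_le_exp (t : ℝ) : fL t ≤ Real.exp (-t) := by
  unfold fL
  have := Real.log_le_sub_one_of_pos (x := 1 + Real.exp (-t)) (by positivity)
  linarith

theorem fL_adm (hα : 1 ≤ α) : Adm α fL where
  meas := fL_measurable
  bd := ⟨1, zero_le_one, fun t => by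
    rw [abs_of_nonneg (fL_nonneg t), one_mul]
    refine (fL_le_exp t).trans ?_
    rcases le_total 0 t with ht | ht
    · have := Real.exp_le_one_iff.2 (by linarith : -t ≤ 0)
      have := Real.exp_pos (-α*t); linarith
    · have : Real.exp (-t) ≤ Real.exp (-α*t) := Real.exp_le_exp.2 (by nlinarith)
      linarith⟩

theorem fL_lip (s t : ℝ) : |fL s - fL t| ≤ |s - t| := by
  have key : ∀ s t : ℝ, s ≤ t → |fL s - fL t| ≤ |s - t| := by
    intro s t hst
    have h1 := fL_anti hst
    rw [abs_of_nonneg (by linarith), abs_of_nonpos (by linarith)]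
    have h2 : fL s ≤ (t - s) + fL t := by
      unfold fL
      rw [← Real.log_exp (t - s), ← Real.log_mul (Real.exp_pos _).ne' (by positivity)]
      apply Real.log_le_log (by positivity)
      rw [mul_add, ← Real.exp_add, mul_one]
      have h3 : (1:ℝ) ≤ Real.exp (t - s) := Real.one_le_exp (by linarith)
      have h4 : t - s + -t = -s := by ring
      rw [h4]
      linarith
    linarith
  rcases le_total s t with h | h
  · exact key s t h
  · rw [abs_sub_comm, abs_sub_comm s t]; exact key t s h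

theorem fL_add (x s : ℝ) : fL (x + s) ≤ fL x + fL s := by
  unfold fL
  rw [← Real.log_mul (by positivity) (by positivity)]
  apply Real.log_le_log (by positivity)
  rw [neg_add, Real.exp_add]
  have h1 := Real.exp_pos (-x)
  have h2 := Real.exp_pos (-s)
  nlinarith [mul_pos h1 h2]

theorem Law.int_fL (h : Law μ α) (hα : 1 ≤ α) : Integrable fL (nu μ α) := by
  simpa using (fL_adm hα).integrable_trans h 0

omit [IsProbabilityMeasure μ] in
theorem Tn_fL_nonneg (s : ℝ) : 0 ≤ Tn (nu μ α) fL s := integral_nonneg fun _ => fL_nonneg _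

/-- the constant `∫ log(1+e^{-x}) dν` -/
noncomputable def cL (μ : Measure ℝ) (α : ℝ) : ℝ := ∫ x, fL x ∂(nu μ α)

omit [IsProbabilityMeasure μ] in
theorem cL_nonneg : 0 ≤ cL μ α := integral_nonneg fun _ => fL_nonneg _

theorem Law.Tn_fL_le (h : Law μ α) (hα : 1 ≤ α) (s : ℝ) :
    Tn (nu μ α) fL s ≤ cL μ α + fL s := by
  have := h.nu_prob
  unfold Tn cL
  calc ∫ x, fL (x + s) ∂(nu μ α) ≤ ∫ x, (fL x + fL s) ∂(nu μ α) :=
        integral_mono ((fL_adm hα).integrable_trans h s)
          ((h.int_fL hα).add (integrable_const _)) (fun x => fL_add x s)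
    _ = _ := by
      rw [integral_add (h.int_fL hα) (integrable_const _)]
      simp

theorem Law.Tn_fL_lip (h : Law μ α) (hα : 1 ≤ α) (s t : ℝ) :
    |Tn (nu μ α) fL s - Tn (nu μ α) fL t| ≤ |s - t| := by
  have := h.nu_prob
  unfold Tn
  rw [← integral_sub ((fL_adm hα).integrable_trans h s) ((fL_adm hα).integrable_trans h t)]
  refine (abs_integral_le_integral_abs).trans ?_
  calc ∫ x, |fL (x + s) - fL (x + t)| ∂(nu μ α) ≤ ∫ _, |s - t| ∂(nu μ α) := by
        apply integral_mono
          (((fL_adm hα).integrable_trans h s).sub ((fL_adm hα).integrable_trans h t)).abs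
          (integrable_const _)
        intro x
        have := fL_lip (x + s) (x + t)
        rwa [add_sub_add_left_eq_sub] at this
    _ = _ := by simp

theorem Law.Tn_fL_meas (h : Law μ α) (hα : 1 ≤ α) : Measurable (Tn (nu μ α) fL) := by
  have : LipschitzWith 1 (Tn (nu μ α) fL) := by
    apply LipschitzWith.of_dist_le_mul
    intro s t
    rw [Real.dist_eq, Real.dist_eq]
    simpa using h.Tn_fL_lip hα s t
  exact this.continuous.measurable

/-- `Tn f_L (log (e q(e))) / log (1/e) → 1` -/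
theorem Law.Tn_fL_limit (h : Law μ α) (hα : 1 ≤ α) (q : ℝ → ℝ) (q₀ : ℝ) (hq₀ : 0 < q₀)
    (hq : Tendsto q (𝓝[>] 0) (𝓝 q₀)) :
    Tendsto (fun e => Tn (nu μ α) fL (Real.log (e * q e)) / Real.log (1 / e)) (𝓝[>] 0)
      (𝓝 1) := by
  have hpr := h.nu_prob
  have hLt : Tendsto (fun e : ℝ => Real.log (1 / e)) (𝓝[>] 0) atTop := by
    have h1 : Tendsto (fun e : ℝ => 1 / e) (𝓝[>] 0) atTop := by
      simpa using tendsto_inv_nhdsGT_zero (𝕜 := ℝ)
    exact Real.tendsto_log_atTop.comp h1
  have hqpos : ∀ᶠ e in 𝓝[>] (0:ℝ), q₀ / 2 < q e ∧ q e < 2 * q₀ := by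
    have h1 := hq.eventually (lt_mem_nhds (by linarith : q₀ / 2 < q₀))
    have h2 := hq.eventually (gt_mem_nhds (by linarith : q₀ < 2 * q₀))
    filter_upwards [h1, h2] with e h1 h2
    exact ⟨h1, h2⟩
  have key : Tendsto (fun e => ∫ x, fL (x + Real.log (e * q e)) / Real.log (1 / e) ∂(nu μ α))
      (𝓝[>] 0) (𝓝 (∫ _, (1:ℝ) ∂(nu μ α))) := by
    apply tendsto_integral_filter_of_dominated_convergence
      (fun x => fL x + (2 + fL (Real.log (q₀ / 2))))
    · filter_upwards with e
      have := fL_measurable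
      exact (by fun_prop : Measurable fun x => fL (x + Real.log (e * q e)) /
        Real.log (1 / e)).aestronglyMeasurable
    · filter_upwards [hLt.eventually_ge_atTop 1, hqpos, small_e] with e hL1 hq1 he
      obtain ⟨he, he1⟩ := he
      filter_upwards with x
      have h1 : 0 ≤ fL (x + Real.log (e * q e)) / Real.log (1 / e) :=
        div_nonneg (fL_nonneg _) (by linarith)
      rw [Real.norm_eq_abs, abs_of_nonneg h1, div_le_iff₀ (by linarith)]
      have hqe : 0 < q e := by linarith [hq1.1]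
      rw [Real.log_mul he.ne' hqe.ne', one_div, Real.log_inv] at *
      have h2 := fL_add x (Real.log e + Real.log (q e))
      have h3 := fL_add (Real.log e) (Real.log (q e))
      have h4 : fL (Real.log (q e)) ≤ fL (Real.log (q₀ / 2)) :=
        fL_anti (Real.log_le_log (by linarith) hq1.1.le)
      have h5 : fL (Real.log e) ≤ -Real.log e + 1 := by
        rw [fL_eq]
        have := Lg_le_exp (Real.log e)
        rw [Real.exp_log he] at this
        linarith
      have h6 := fL_nonneg x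
      have h7 := fL_nonneg (Real.log (q₀ / 2))
      nlinarith
    · exact (h.int_fL hα).add (integrable_const _)
    · filter_upwards with x
      have h2 : Tendsto (fun e : ℝ => e) (𝓝[>] 0) (𝓝 0) :=
        tendsto_id.mono_left nhdsWithin_le_nhds
      have h3 : Tendsto (fun e : ℝ => 1 / Real.log (1 / e)) (𝓝[>] 0) (𝓝 0) :=
        hLt.inv_tendsto_atTop.congr fun e => (one_div _).symm
      have h4 : Tendsto (fun e => Real.log (q e)) (𝓝[>] 0) (𝓝 (Real.log q₀)) :=
        hq.log hq₀.ne'
      have h5 : Tendsto (fun e : ℝ => Lg (x + Real.log (e * q e))) (𝓝[>] 0) (𝓝 0) := by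
        have h6 : Tendsto (fun e : ℝ => Real.exp x * (e * q e)) (𝓝[>] 0)
            (𝓝 (Real.exp x * (0 * q₀))) := (h2.mul hq).const_mul _
        rw [zero_mul, mul_zero] at h6
        refine tendsto_of_tendsto_of_tendsto_of_le_of_le' tendsto_const_nhds h6 ?_ ?_
        · filter_upwards with e
          exact Lg_nonneg _
        · filter_upwards [hqpos, small_e] with e hq1 he
          obtain ⟨he, he1⟩ := he
          have hqe : 0 < q e := by linarith [hq1.1]
          refine (Lg_le_exp _).trans (le_of_eq ?_)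
          rw [Real.exp_add, Real.exp_log (by positivity)]
      have h6 : Tendsto (fun e : ℝ => 1 + (-x - Real.log (q e) + Lg (x + Real.log (e * q e))) *
          (1 / Real.log (1 / e))) (𝓝[>] 0) (𝓝 (1 + (-x - Real.log q₀ + 0) * 0)) :=
        (((h4.const_sub (-x)).add h5).mul h3).const_add 1
      rw [mul_zero, add_zero] at h6
      refine h6.congr' ?_
      filter_upwards [hLt.eventually_ge_atTop 1, hqpos, small_e] with e hL1 hq1 he
      obtain ⟨he, he1⟩ := he
      have hqe : 0 < q e := by linarith [hq1.1]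
      rw [fL_eq, Real.log_mul he.ne' hqe.ne']
      have h8 : Real.log e = -Real.log (1 / e) := by rw [one_div, Real.log_inv]; ring
      have h7 : Real.log (1 / e) ≠ 0 := by linarith
      rw [h8]
      field_simp
      ring
  have h8 : ∫ _, (1:ℝ) ∂(nu μ α) = 1 := by simp
  rw [h8] at key
  refine key.congr fun e => ?_
  unfold Tn
  rw [integral_div]


/-! ### The functional `S e g = E[Y^α g(log Y)]` -/

theorem Adm.of_bdd {g : ℝ → ℝ} (hg : Measurable g) {C : ℝ} (hC : ∀ t, |g t| ≤ C) : Adm α g where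
  meas := hg
  bd := ⟨C, (abs_nonneg _).trans (hC 0), fun t => by
    refine (hC t).trans ?_
    have h1 : 0 ≤ C := (abs_nonneg _).trans (hC 0)
    have := Real.exp_pos (-α * t)
    nlinarith⟩

theorem Adm.add {f g : ℝ → ℝ} (hf : Adm α f) (hg : Adm α g) : Adm α (fun t => f t + g t) where
  meas := hf.meas.add hg.meas
  bd := by
    obtain ⟨C, hC0, hC⟩ := hf.bd
    obtain ⟨D, hD0, hD⟩ := hg.bd
    refine ⟨C + D, by positivity, fun t => (abs_add_le _ _).trans ?_⟩
    have h1 := hC t
    have h2 := hD t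
    linarith

theorem Adm.const_mul {f : ℝ → ℝ} (hf : Adm α f) (c : ℝ) : Adm α (fun t => c * f t) where
  meas := hf.meas.const_mul c
  bd := by
    obtain ⟨C, hC0, hC⟩ := hf.bd
    refine ⟨|c| * C, by positivity, fun t => ?_⟩
    rw [abs_mul, mul_assoc]
    exact mul_le_mul_of_nonneg_left (hC t) (abs_nonneg c)

theorem Adm.sub {f g : ℝ → ℝ} (hf : Adm α f) (hg : Adm α g) : Adm α (fun t => f t - g t) := by
  have := hf.add (hg.const_mul (-1))
  refine ⟨hf.meas.sub hg.meas, ?_⟩
  obtain ⟨C, h0, hC⟩ := this.bd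
  exact ⟨C, h0, fun t => by simpa [sub_eq_add_neg] using hC t⟩

theorem Adm.const (c : ℝ) : Adm α (fun _ => c) :=
  Adm.of_bdd measurable_const (C := |c|) (fun _ => le_rfl)

/-- `E[Y^α g(log Y)]` -/
noncomputable def S (μ : Measure ℝ) (α e : ℝ) (g : ℝ → ℝ) : ℝ :=
  ∫ ω, Ye e ω ^ α * g (Real.log (Ye e ω)) ∂(Pm μ)

theorem Law.S_int (h : Law μ α) {e : ℝ} (he : 0 < e) (he1 : e < 1) {g : ℝ → ℝ} (hg : Adm α g) :
    Integrable (fun ω => Ye e ω ^ α * g (Real.log (Ye e ω))) (Pm μ) :=
  (h.stat_identity he he1 hg).1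

theorem Law.S_mono (h : Law μ α) {e : ℝ} (he : 0 < e) (he1 : e < 1) {f g : ℝ → ℝ}
    (hf : Adm α f) (hg : Adm α g) (hfg : ∀ t, f t ≤ g t) : S μ α e f ≤ S μ α e g := by
  apply integral_mono_ae (h.S_int he he1 hf) (h.S_int he he1 hg)
  filter_upwards [h.ae_good] with ω hω
  exact mul_le_mul_of_nonneg_left (hfg _) (Real.rpow_nonneg (Ye_pos he he1 hω).le α)

theorem Law.S_add (h : Law μ α) {e : ℝ} (he : 0 < e) (he1 : e < 1) {f g : ℝ → ℝ}
    (hf : Adm α f) (hg : Adm α g) : S μ α e (fun t => f t + g t) = S μ α e f + S μ α e g := by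
  unfold S
  rw [← integral_add (h.S_int he he1 hf) (h.S_int he he1 hg)]
  congr 1
  funext ω
  ring

omit [IsProbabilityMeasure μ] in
theorem S_const_mul (e c : ℝ) (f : ℝ → ℝ) :
    S μ α e (fun t => c * f t) = c * S μ α e f := by
  unfold S
  rw [← integral_const_mul]
  congr 1
  funext ω
  ring

omit [IsProbabilityMeasure μ] in
theorem S_const (e c : ℝ) : S μ α e (fun _ => c) = c * S μ α e (fun _ => 1) := by
  have := S_const_mul (μ := μ) (α := α) e c (fun _ => 1)
  simpa using this

theorem Law.S_sub (h : Law μ α) {e : ℝ} (he : 0 < e) (he1 : e < 1) {f g : ℝ → ℝ}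
    (hf : Adm α f) (hg : Adm α g) : S μ α e (fun t => f t - g t) = S μ α e f - S μ α e g := by
  unfold S
  rw [← integral_sub (h.S_int he he1 hf) (h.S_int he he1 hg)]
  congr 1
  funext ω
  ring

theorem Law.S_one_nonneg (h : Law μ α) {e : ℝ} (he : 0 < e) (he1 : e < 1) :
    0 ≤ S μ α e (fun _ => 1) := by
  apply integral_nonneg_of_ae
  filter_upwards [h.ae_good] with ω hω
  simp only [Pi.zero_apply, mul_one]
  exact Real.rpow_nonneg (Ye_pos he he1 hω).le α

/-- `1 - (1+e^t)^{-α}` -/
noncomputable def ua (α t : ℝ) : ℝ := 1 - (1 + Real.exp t) ^ (-α)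

theorem ua_nonneg (hα : 0 < α) (t : ℝ) : 0 ≤ ua α t := by
  unfold ua
  have := Real.rpow_le_one_of_one_le_of_nonpos (x := 1 + Real.exp t) (z := -α)
    (by have := Real.exp_pos t; linarith) (by linarith)
  linarith

theorem ua_pos (hα : 0 < α) (t : ℝ) : 0 < ua α t := by
  unfold ua
  have := Real.rpow_lt_one_of_one_lt_of_neg (x := 1 + Real.exp t) (z := -α)
    (by have := Real.exp_pos t; linarith) (by linarith)
  linarith

theorem ua_le_one (t : ℝ) : ua α t ≤ 1 := by
  unfold ua
  have : 0 ≤ (1 + Real.exp t) ^ (-α) := by positivity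
  linarith

theorem ua_mono (hα : 0 < α) : Monotone (ua α) := by
  intro s t hst
  unfold ua
  have h1 : (1 + Real.exp t) ^ (-α) ≤ (1 + Real.exp s) ^ (-α) := by
    apply Real.rpow_le_rpow_of_nonpos (by positivity) _ (by linarith)
    have := Real.exp_le_exp.2 hst
    linarith
  linarith

theorem ua_measurable : Measurable (ua α) := by unfold ua; fun_prop

theorem ua_adm (hα : 0 < α) : Adm α (ua α) :=
  Adm.of_bdd ua_measurable (C := 1) (fun t => by
    rw [abs_of_nonneg (ua_nonneg hα t)]; exact ua_le_one t)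

theorem lower_of_eventually (hα : 0 < α) {g : ℝ → ℝ} {N : ℝ}
    (hlow : ∀ T, ∃ C, ∀ t, T ≤ t → -C ≤ g t) (hg : ∀ᶠ t in atBot, N ≤ g t) :
    ∃ C : ℝ, 0 ≤ C ∧ ∀ t, N ≤ g t + C * ua α t := by
  obtain ⟨T, hT⟩ := eventually_atBot.1 hg
  obtain ⟨C, hC⟩ := hlow T
  have hu := ua_pos hα T
  refine ⟨(|C| + |N|) / ua α T, by positivity, fun t => ?_⟩
  rcases le_total t T with h1 | h1
  · have h2 := hT t h1
    have h3 := ua_nonneg hα t
    have : 0 ≤ (|C| + |N|) / ua α T * ua α t := by positivity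
    linarith
  · have h2 := hC t h1
    have h3 := ua_mono hα h1
    have h4 : |C| + |N| ≤ (|C| + |N|) / ua α T * ua α t := by
      rw [div_mul_eq_mul_div, le_div_iff₀ hu]
      exact mul_le_mul_of_nonneg_left h3 (by positivity)
    have h5 := le_abs_self C
    have h6 := le_abs_self N
    linarith

theorem Law.S_ua (h : Law μ α) (hα : 1 ≤ α) :
    Tendsto (fun e => S μ α e (ua α) / e ^ α) (𝓝[>] 0) (𝓝 (kap μ α)) := by
  have hpr := h.nu_prob
  have h1 := h.dct hα (fun _ _ => 1) (M := 1) (Λ := 0) (κ := 1) zero_le_one le_rfl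
    (fun _ => measurable_const) (Eventually.of_forall fun e q _ => by simp)
    (Eventually.of_forall fun e s t => by simp) (fun q q₀ _ _ => tendsto_const_nhds)
  rw [one_mul] at h1
  refine h1.congr' ?_
  filter_upwards [small_e] with e he
  obtain ⟨he, he1⟩ := he
  have hT : ∀ s, Tn (nu μ α) (fun _ => 1) s = 1 := by intro s; simp [Tn]
  have hK : ∀ t, Kt α (nu μ α) (fun _ => 1) t = (1 + Real.exp t) ^ (-α) := by
    intro t; unfold Kt; rw [hT, mul_one]
  have h2 := h.basic_identity he he1 (Adm.const (α := α) 1) (by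
    simp only [hK]
    have h3 : Adm α (fun t => (1 + Real.exp t) ^ (-α)) :=
      Adm.of_bdd (by fun_prop) (C := 1) (fun t => by
        rw [abs_of_nonneg (by positivity)]
        exact Real.rpow_le_one_of_one_le_of_nonpos (by have := Real.exp_pos t; linarith)
          (by linarith))
    exact h.S_int he he1 h3)
  simp only [hK, hT] at h2
  have h3 : (0:ℝ) < e ^ α := Real.rpow_pos_of_pos he α
  unfold S ua
  rw [h2]
  field_simp


/-! ### The function `chi` -/

theorem sub_Lg (t : ℝ) : t - Lg t = -fL t := by rw [fL_eq]; ring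

omit [IsProbabilityMeasure μ] in
theorem Kt_fL_nonneg (t : ℝ) : 0 ≤ Kt α (nu μ α) fL t := by
  unfold Kt
  have := Tn_fL_nonneg (μ := μ) (α := α) (t - Lg t)
  positivity

theorem Law.Kt_fL_le (h : Law μ α) (hα : 1 ≤ α) (t : ℝ) :
    Kt α (nu μ α) fL t ≤ cL μ α + 1 + fL t := by
  unfold Kt
  rw [sub_Lg]
  have h1 := Tn_fL_nonneg (μ := μ) (α := α) (-fL t)
  have h2 := h.Tn_fL_le hα (-fL t)
  have h3 : (1 + Real.exp t) ^ (-α) ≤ 1 :=
    Real.rpow_le_one_of_one_le_of_nonpos (by have := Real.exp_pos t; linarith) (by linarith)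
  have h4 : fL (-fL t) ≤ fL t + 1 := by
    rw [fL_eq (-fL t)]
    have h5 := Lg_le_exp (-fL t)
    have h6 : Real.exp (-fL t) ≤ 1 := Real.exp_le_one_iff.2 (by linarith [fL_nonneg t])
    linarith
  calc _ ≤ 1 * Tn (nu μ α) fL (-fL t) := mul_le_mul_of_nonneg_right h3 h1
    _ ≤ _ := by linarith

theorem Law.Kt_fL_adm (h : Law μ α) (hα : 1 ≤ α) : Adm α (Kt α (nu μ α) fL) where
  meas := by
    have h1 := h.Tn_fL_meas hα
    have h2 := Lg_measurable
    unfold Kt
    exact (by fun_prop : Measurable fun t : ℝ => (1 + Real.exp t) ^ (-α)).mul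
      (h1.comp (measurable_id.sub h2))
  bd := by
    refine ⟨cL μ α + 2, by have := cL_nonneg (μ := μ) (α := α); positivity, fun t => ?_⟩
    rw [abs_of_nonneg (Kt_fL_nonneg t)]
    refine (h.Kt_fL_le hα t).trans ?_
    obtain ⟨C, hC0, hC⟩ := (fL_adm hα).bd
    have h1 : fL t ≤ 1 + Real.exp (-α * t) := by
      refine (fL_le_exp t).trans ?_
      rcases le_total 0 t with ht | ht
      · have := Real.exp_le_one_iff.2 (by linarith : -t ≤ 0)
        have := Real.exp_pos (-α*t); linarith
      · have : Real.exp (-t) ≤ Real.exp (-α*t) := Real.exp_le_exp.2 (by nlinarith)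
        linarith
    have h2 := cL_nonneg (μ := μ) (α := α)
    have h3 := Real.exp_pos (-α * t)
    nlinarith

/-- `f_L - K f_L` -/
noncomputable def chi (μ : Measure ℝ) (α : ℝ) (t : ℝ) : ℝ := fL t - Kt α (nu μ α) fL t

theorem Law.chi_adm (h : Law μ α) (hα : 1 ≤ α) : Adm α (chi μ α) :=
  (fL_adm hα).sub (h.Kt_fL_adm hα)

theorem Law.S_chi (h : Law μ α) (hα : 1 ≤ α) :
    Tendsto (fun e => S μ α e (chi μ α) / (e ^ α * Real.log (1 / e))) (𝓝[>] 0)
      (𝓝 (kap μ α)) := by
  have hpr := h.nu_prob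
  have hLt : Tendsto (fun e : ℝ => Real.log (1 / e)) (𝓝[>] 0) atTop := by
    have h1 : Tendsto (fun e : ℝ => 1 / e) (𝓝[>] 0) atTop := by
      simpa using tendsto_inv_nhdsGT_zero (𝕜 := ℝ)
    exact Real.tendsto_log_atTop.comp h1
  have h1 := h.dct hα (fun e s => Tn (nu μ α) fL s / Real.log (1 / e))
    (M := cL μ α + 2) (Λ := 1) (κ := 1) (by have := cL_nonneg (μ := μ) (α := α); positivity)
    zero_le_one (fun e => (h.Tn_fL_meas hα).div_const _)
    (by
      filter_upwards [hLt.eventually_ge_atTop 1, small_e] with e hL he q hq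
      obtain ⟨he, he1⟩ := he
      have h2 := Tn_fL_nonneg (μ := μ) (α := α) (Real.log (e * q))
      have h3 := h.Tn_fL_le hα (Real.log (e * q))
      have h4 := cL_nonneg (μ := μ) (α := α)
      rw [abs_of_nonneg (by positivity), div_le_iff₀ (by linarith)]
      have h5 : fL (Real.log (e * q)) ≤ Real.log (1 / e) + 1 := by
        have h6 : fL (Real.log (e * q)) ≤ fL (Real.log e) :=
          fL_anti (Real.log_le_log he (by nlinarith))
        have h7 : fL (Real.log e) ≤ -Real.log e + 1 := by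
          rw [fL_eq]
          have := Lg_le_exp (Real.log e)
          rw [Real.exp_log he] at this
          linarith
        rw [one_div, Real.log_inv]
        linarith
      nlinarith)
    (by
      filter_upwards [hLt.eventually_ge_atTop 1, small_e] with e hL he s t
      rw [← sub_div, abs_div, abs_of_pos (by linarith : 0 < Real.log (1 / e)), one_mul]
      exact (div_le_self (abs_nonneg _) hL).trans (h.Tn_fL_lip hα s t))
    (fun q q₀ h0 hq => h.Tn_fL_limit hα q q₀ h0 hq)
  rw [one_mul] at h1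
  refine h1.congr' ?_
  filter_upwards [hLt.eventually_ge_atTop 1, small_e] with e hL he
  obtain ⟨he, he1⟩ := he
  have h2 := h.basic_identity he he1 (fL_adm hα) (h.S_int he he1 (h.Kt_fL_adm hα))
  have h3 : (0:ℝ) < e ^ α := Real.rpow_pos_of_pos he α
  have h4 : Real.log (1 / e) ≠ 0 := by linarith
  unfold S chi
  rw [h2, mul_div_mul_left _ _ h3.ne', ← integral_div]
  congr 1
  funext ω
  field_simp

/-- `D(a) = ∫ (Lg x - Lg (x - a)) dν` -/
noncomputable def Da (μ : Measure ℝ) (α a : ℝ) : ℝ := ∫ x, (Lg x - Lg (x - a)) ∂(nu μ α)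

theorem Lg_mono : Monotone Lg := by
  intro s t hst
  unfold Lg
  apply Real.log_le_log (by positivity)
  have := Real.exp_le_exp.2 hst
  linarith

theorem Lg_eq (t : ℝ) : Lg t = t + fL t := by rw [fL_eq]; ring

theorem Lg_sub_le {a : ℝ} (ha : 0 ≤ a) (x : ℝ) : Lg x - Lg (x - a) ≤ a := by
  rw [Lg_eq, Lg_eq]
  have := fL_anti (by linarith : x - a ≤ x)
  linarith

theorem Law.Tn_fL_neg (h : Law μ α) (hα : 1 ≤ α) {a : ℝ} (ha : 0 ≤ a) :
    Tn (nu μ α) fL (-a) = a + cL μ α - Da μ α a := by
  have hpr := h.nu_prob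
  have hi : Integrable (fun x => Lg x - Lg (x - a)) (nu μ α) := by
    refine (integrable_const a).mono' ?_ ?_
    · have := Lg_measurable
      exact (by fun_prop : Measurable fun x => Lg x - Lg (x - a)).aestronglyMeasurable
    · filter_upwards with x
      have h1 := Lg_mono (by linarith : x - a ≤ x)
      rw [Real.norm_eq_abs, abs_of_nonneg (by linarith)]
      exact Lg_sub_le ha x
  have h1 : ∀ x, fL (x + -a) = (a + fL x) - (Lg x - Lg (x - a)) := by
    intro x
    rw [← sub_eq_add_neg, fL_eq, fL_eq]; ring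
  unfold Tn cL Da
  simp only [h1]
  have h2 : Integrable (fun x => a + fL x) (nu μ α) := (integrable_const a).add (h.int_fL hα)
  rw [integral_sub h2 hi, integral_add (integrable_const a) (h.int_fL hα)]
  simp

theorem Law.chi_eq (h : Law μ α) (hα : 1 ≤ α) (t : ℝ) :
    chi μ α t = ua α t * fL t + (1 - ua α t) * (Da μ α (fL t) - cL μ α) := by
  unfold chi Kt
  rw [sub_Lg, h.Tn_fL_neg hα (fL_nonneg t)]
  unfold ua
  ring

theorem fL_tendsto : Tendsto fL atBot atTop := by
  apply tendsto_atTop_mono (f := fun t => -t)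
  · intro t
    rw [fL_eq]
    linarith [Lg_nonneg t]
  · exact tendsto_neg_atBot_atTop

theorem ua_tendsto (_hα : 0 < α) : Tendsto (ua α) atBot (𝓝 0) := by
  have h1 : Tendsto (fun t : ℝ => 1 - (1 + Real.exp t) ^ (-α)) atBot
      (𝓝 (1 - (1 + 0 : ℝ) ^ (-α))) := by
    apply Tendsto.const_sub
    exact (Real.tendsto_exp_atBot.const_add 1).rpow_const (Or.inl (by norm_num))
  rw [add_zero, Real.one_rpow, sub_self] at h1
  exact h1

theorem ua_le (hα : 0 < α) (t : ℝ) : ua α t ≤ α * Real.exp t := by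
  unfold ua
  have h1 : (1 + Real.exp t) ^ (-α) = Real.exp (-(α * Lg t)) := by
    rw [Real.rpow_def_of_pos (by positivity)]
    unfold Lg; ring_nf
  rw [h1]
  have h2 := Real.one_sub_le_exp_neg (α * Lg t)
  have h3 := Lg_le_exp t
  nlinarith

theorem ua_mul_fL_tendsto (hα : 0 < α) : Tendsto (fun t => ua α t * fL t) atBot (𝓝 0) := by
  have h1 : Tendsto (fun t : ℝ => α * ((-t) ^ 1 * Real.exp (-(-t)) + Real.exp t)) atBot
      (𝓝 (α * (0 + 0))) := by
    apply Tendsto.const_mul
    apply Tendsto.add _ _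
    · exact (Real.tendsto_pow_mul_exp_neg_atTop_nhds_zero 1).comp tendsto_neg_atBot_atTop
    · exact Real.tendsto_exp_atBot
  rw [add_zero, mul_zero] at h1
  refine tendsto_of_tendsto_of_tendsto_of_le_of_le' tendsto_const_nhds h1 ?_ ?_
  · filter_upwards with t
    exact mul_nonneg (ua_nonneg hα t) (fL_nonneg t)
  · filter_upwards [eventually_le_atBot (0:ℝ)] with t ht
    have h2 := ua_le hα t
    have h3 := ua_nonneg hα t
    have h4 := fL_nonneg t
    have h5 : fL t ≤ -t + 1 := by
      rw [fL_eq]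
      have := Lg_le_exp t
      have := Real.exp_le_one_iff.2 ht
      linarith
    have h6 := Real.exp_pos t
    calc ua α t * fL t ≤ (α * Real.exp t) * (-t + 1) := mul_le_mul h2 h5 h4 (by positivity)
      _ = _ := by rw [neg_neg]; ring

theorem Law.chi_tendsto_fin (h : Law μ α) (hα : 1 ≤ α) (hx : Integrable (fun x => x) (nu μ α)) :
    Tendsto (chi μ α) atBot (𝓝 (∫ x, x ∂(nu μ α))) := by
  have hpr := h.nu_prob
  have hL : Integrable Lg (nu μ α) := by
    have := hx.add (h.int_fL hα)
    refine this.congr (Eventually.of_forall fun x => ?_)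
    simp only [Pi.add_apply]
    rw [Lg_eq]
  have h1 : Tendsto (Da μ α) atTop (𝓝 (∫ x, Lg x ∂(nu μ α))) := by
    unfold Da
    apply tendsto_integral_filter_of_dominated_convergence (fun x => Lg x)
    · filter_upwards with a
      have := Lg_measurable
      exact (by fun_prop : Measurable fun x => Lg x - Lg (x - a)).aestronglyMeasurable
    · filter_upwards [eventually_ge_atTop (0:ℝ)] with a ha
      filter_upwards with x
      have h1 := Lg_mono (by linarith : x - a ≤ x)
      rw [Real.norm_eq_abs, abs_of_nonneg (by linarith)]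
      linarith [Lg_nonneg (x - a)]
    · exact hL
    · filter_upwards with x
      have h2 : Tendsto (fun a : ℝ => Lg (x - a)) atTop (𝓝 0) := by
        have h3 : Tendsto (fun a : ℝ => Real.exp (x - a)) atTop (𝓝 0) := by
          apply Real.tendsto_exp_atBot.comp
          exact tendsto_atBot_add_const_left _ x tendsto_neg_atTop_atBot
        exact tendsto_of_tendsto_of_tendsto_of_le_of_le tendsto_const_nhds h3
          (fun a => Lg_nonneg _) (fun a => Lg_le_exp _)
      simpa using h2.const_sub (Lg x)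
  have h2 : Tendsto (fun t => ua α t * fL t + (1 - ua α t) * (Da μ α (fL t) - cL μ α)) atBot
      (𝓝 (0 + (1 - 0) * (∫ x, Lg x ∂(nu μ α) - cL μ α))) :=
    (ua_mul_fL_tendsto (by linarith)).add (((ua_tendsto (by linarith)).const_sub 1).mul
      ((h1.comp fL_tendsto).sub_const _))
  have h3 : (0 + (1 - 0) * (∫ x, Lg x ∂(nu μ α) - cL μ α)) = ∫ x, x ∂(nu μ α) := by
    unfold cL
    rw [← integral_sub hL (h.int_fL hα), zero_add, sub_zero, one_mul]
    congr 1
    funext x
    rw [fL_eq]; ring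
  rw [h3] at h2
  exact h2.congr fun t => (h.chi_eq hα t).symm

theorem Law.Da_tendsto_inf (h : Law μ α) (hα : 1 ≤ α)
    (hx : ¬ Integrable (fun x => x) (nu μ α)) : Tendsto (Da μ α) atTop atTop := by
  have hpr := h.nu_prob
  have hLm := Lg_measurable
  have hL : ¬ Integrable Lg (nu μ α) := by
    intro hL
    apply hx
    have := hL.sub (h.int_fL hα)
    refine this.congr (Eventually.of_forall fun x => ?_)
    simp only [Pi.sub_apply]
    rw [Lg_eq]; ring
  have hinf : ∫⁻ x, ENNReal.ofReal (Lg x) ∂(nu μ α) = ⊤ := by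
    by_contra hcon
    apply hL
    refine ⟨hLm.aestronglyMeasurable, ?_⟩
    rw [hasFiniteIntegral_iff_ofReal (Eventually.of_forall fun x => Lg_nonneg x)]
    exact lt_top_iff_ne_top.2 hcon
  have hmono : ∀ x, Monotone (fun a : ℝ => Lg x - Lg (x - a)) := by
    intro x a b hab
    have := Lg_mono (by linarith : x - b ≤ x - a)
    simp only
    linarith
  have hint : ∀ a, 0 ≤ a → Integrable (fun x => Lg x - Lg (x - a)) (nu μ α) := by
    intro a ha
    refine (integrable_const a).mono' ?_ ?_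
    · exact (by fun_prop : Measurable fun x => Lg x - Lg (x - a)).aestronglyMeasurable
    · filter_upwards with x
      have h1 := Lg_mono (by linarith : x - a ≤ x)
      rw [Real.norm_eq_abs, abs_of_nonneg (by linarith)]
      exact Lg_sub_le ha x
  have hDmono : ∀ a b, 0 ≤ a → a ≤ b → Da μ α a ≤ Da μ α b := by
    intro a b ha hab
    exact integral_mono (hint a ha) (hint b (ha.trans hab)) (fun x => hmono x hab)
  have hlim : Tendsto (fun n : ℕ => ∫⁻ x, ENNReal.ofReal (Lg x - Lg (x - (n:ℝ))) ∂(nu μ α)) atTop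
      (𝓝 (∫⁻ x, ENNReal.ofReal (Lg x) ∂(nu μ α))) := by
    apply lintegral_tendsto_of_tendsto_of_monotone
    · intro n
      exact (by fun_prop : Measurable fun x =>
        ENNReal.ofReal (Lg x - Lg (x - (n:ℝ)))).aemeasurable
    · filter_upwards with x n m hnm
      exact ENNReal.ofReal_le_ofReal (hmono x (by exact_mod_cast hnm))
    · filter_upwards with x
      apply ENNReal.tendsto_ofReal
      have h2 : Tendsto (fun a : ℝ => Lg (x - a)) atTop (𝓝 0) := by
        have h3 : Tendsto (fun a : ℝ => Real.exp (x - a)) atTop (𝓝 0) := by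
          apply Real.tendsto_exp_atBot.comp
          exact tendsto_atBot_add_const_left _ x tendsto_neg_atTop_atBot
        exact tendsto_of_tendsto_of_tendsto_of_le_of_le tendsto_const_nhds h3
          (fun a => Lg_nonneg _) (fun a => Lg_le_exp _)
      have h3 := (h2.const_sub (Lg x)).comp (tendsto_natCast_atTop_atTop (R := ℝ))
      rw [sub_zero] at h3
      exact h3
  rw [hinf] at hlim
  rw [tendsto_atTop]
  intro N
  have h1 := hlim.eventually (lt_mem_nhds (ENNReal.ofReal_lt_top (r := N)))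
  obtain ⟨n, hn⟩ := h1.exists
  filter_upwards [eventually_ge_atTop (n:ℝ)] with a ha
  refine le_trans ?_ (hDmono n a (by positivity) ha)
  rw [← ofReal_integral_eq_lintegral_ofReal (hint n (by positivity))
    (Eventually.of_forall fun x => by
      have := Lg_mono (by have : (0:ℝ) ≤ n := by positivity
                          linarith : x - (n:ℝ) ≤ x)
      simp only [Pi.zero_apply]
      linarith)] at hn
  have h2 := (ENNReal.ofReal_lt_ofReal_iff').1 hn
  exact h2.1.le

theorem Law.chi_tendsto_inf (h : Law μ α) (hα : 1 ≤ α)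
    (hx : ¬ Integrable (fun x => x) (nu μ α)) : Tendsto (chi μ α) atBot atTop := by
  have h1 := (h.Da_tendsto_inf hα hx).comp fL_tendsto
  have h2 : Tendsto (fun t => (1 - ua α t) * (Da μ α (fL t) - cL μ α)) atBot atTop := by
    have h3 : Tendsto (fun t => 1 - ua α t) atBot (𝓝 (1 - 0)) :=
      (ua_tendsto (by linarith)).const_sub 1
    exact h3.pos_mul_atTop (by norm_num) (tendsto_atTop_add_const_right _ (-cL μ α) h1)
  have h3 : Tendsto (fun t => ua α t * fL t + (1 - ua α t) * (Da μ α (fL t) - cL μ α))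
      atBot atTop := by
    refine tendsto_atTop_mono (fun t => ?_) h2
    have := mul_nonneg (ua_nonneg (by linarith : 0 < α) t) (fL_nonneg t)
    linarith
  exact h3.congr fun t => (h.chi_eq hα t).symm

theorem Law.chi_lower (h : Law μ α) (hα : 1 ≤ α) (T : ℝ) : ∃ C, ∀ t, T ≤ t →
    -C ≤ chi μ α t := by
  refine ⟨cL μ α + 1 + fL T, fun t ht => ?_⟩
  unfold chi
  have h1 := h.Kt_fL_le hα t
  have h2 := fL_nonneg t
  have h3 := fL_anti ht
  linarith

omit [IsProbabilityMeasure μ] in
theorem chi_upper (T : ℝ) : ∃ C, ∀ t, T ≤ t → chi μ α t ≤ C := by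
  refine ⟨fL T, fun t ht => ?_⟩
  unfold chi
  have h1 := Kt_fL_nonneg (μ := μ) (α := α) t
  have h3 := fL_anti ht
  linarith


/-- the tilted mean is positive -/
theorem Law.mean_pos (h : Law μ α) (hx : Integrable (fun x => x) (nu μ α)) :
    0 < ∫ x, x ∂(nu μ α) := by
  have hα := h.apos
  rw [h.nu_integral (f := fun x => x) measurable_id]
  have hi : Integrable (fun z => z ^ α * Real.log z) μ :=
    (h.nu_integrable_iff (f := fun x => x) measurable_id).1 hx
  have hi2 : Integrable (fun z => (z ^ α - 1) / α) μ :=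
    (h.int_alpha.sub (integrable_const 1)).div_const α
  have h0 : ∫ z, (z ^ α - 1) / α ∂μ = 0 := by
    rw [integral_div, integral_sub h.int_alpha (integrable_const 1), h.one]
    simp
  have hlt : ∀ z : ℝ, 0 < z → z ≠ 1 → (z ^ α - 1) / α < z ^ α * Real.log z := by
    intro z hz hz1
    rw [div_lt_iff₀ hα]
    have h1 : Real.log (z ^ α) = α * Real.log z := Real.log_rpow hz α
    have h2 : z ^ α ≠ 1 := by
      intro h3
      have h4 : Real.log (z ^ α) = 0 := by rw [h3, Real.log_one]
      rw [h1] at h4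
      rcases mul_eq_zero.1 h4 with h5 | h5
      · linarith
      · exact hz1 (Real.eq_one_of_pos_of_log_eq_zero hz h5)
    have h3 : 0 < z ^ α := Real.rpow_pos_of_pos hz α
    have h4 := Real.log_lt_sub_one_of_pos (x := (z ^ α)⁻¹) (by positivity)
      (by intro h5; exact h2 (inv_eq_one.1 h5))
    rw [Real.log_inv, h1] at h4
    have h5 : z ^ α * ((z ^ α)⁻¹ - 1) = 1 - z ^ α := by field_simp
    nlinarith [mul_lt_mul_of_pos_left h4 h3]
  have hle : ∀ z : ℝ, 0 < z → (z ^ α - 1) / α ≤ z ^ α * Real.log z := by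
    intro z hz
    rcases eq_or_ne z 1 with rfl | h1
    · simp
    · exact (hlt z hz h1).le
  have hsub : ∫ z, z ^ α * Real.log z ∂μ =
      ∫ z, (z ^ α * Real.log z - (z ^ α - 1) / α) ∂μ := by
    rw [integral_sub hi hi2, h0, sub_zero]
  have hi3 : Integrable (fun z => z ^ α * Real.log z - (z ^ α - 1) / α) μ := hi.sub hi2
  rw [hsub, integral_pos_iff_support_of_nonneg_ae _ hi3]
  · rw [pos_iff_ne_zero]
    intro hcon
    apply h.nondeg
    have h1 : ∀ᵐ z ∂μ, z ∉ Function.support (fun z => z ^ α * Real.log z - (z ^ α - 1) / α) :=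
      measure_eq_zero_iff_ae_notMem.1 hcon
    filter_upwards [h1, h.pos] with z h1 hz
    by_contra hz1
    apply h1
    rw [Function.mem_support]
    have := hlt z hz hz1
    linarith
  · filter_upwards [h.pos] with z hz
    simp only [Pi.zero_apply]
    have := hle z hz
    linarith

/-- the normalised functional -/
noncomputable def V (μ : Measure ℝ) (α : ℝ) (g : ℝ → ℝ) (e : ℝ) : ℝ :=
  S μ α e g / (e ^ α * Real.log (1 / e))

theorem logL_tendsto : Tendsto (fun e : ℝ => Real.log (1 / e)) (𝓝[>] 0) atTop := by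
  have h1 : Tendsto (fun e : ℝ => 1 / e) (𝓝[>] 0) atTop := by
    simpa using tendsto_inv_nhdsGT_zero (𝕜 := ℝ)
  exact Real.tendsto_log_atTop.comp h1

theorem Law.V_ua (h : Law μ α) (hα : 1 ≤ α) : Tendsto (V μ α (ua α)) (𝓝[>] 0) (𝓝 0) := by
  have h1 := (h.S_ua hα).mul logL_tendsto.inv_tendsto_atTop
  rw [mul_zero] at h1
  refine h1.congr fun e => ?_
  unfold V
  simp only [Pi.inv_apply]
  rw [← div_eq_mul_inv, div_div]

theorem Law.V_lower (h : Law μ α) {g : ℝ → ℝ} (hα : 1 ≤ α)
    (hg : Adm α g) {N C : ℝ} (hC : ∀ t, N ≤ g t + C * ua α t) :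
    ∀ᶠ e in 𝓝[>] (0:ℝ), N * V μ α (fun _ => 1) e ≤ V μ α g e + C * V μ α (ua α) e := by
  filter_upwards [small_e, logL_tendsto.eventually_ge_atTop 1] with e he hL
  obtain ⟨he, he1⟩ := he
  have hα0 : 0 < α := by linarith
  have h1 := h.S_mono he he1 (Adm.const N) (hg.add ((ua_adm hα0).const_mul C)) hC
  rw [h.S_add he he1 hg ((ua_adm hα0).const_mul C), S_const_mul, S_const] at h1
  have h2 : 0 < e ^ α * Real.log (1 / e) := by
    have := Real.rpow_pos_of_pos he α
    positivity
  unfold V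
  rw [← mul_div_assoc, ← mul_div_assoc, ← add_div]
  exact div_le_div_of_nonneg_right h1 h2.le

theorem Law.V_one_nonneg (h : Law μ α) : ∀ᶠ e in 𝓝[>] (0:ℝ), 0 ≤ V μ α (fun _ => 1) e := by
  filter_upwards [small_e, logL_tendsto.eventually_ge_atTop 1] with e he hL
  obtain ⟨he, he1⟩ := he
  have h1 := h.S_one_nonneg he he1
  have h2 : 0 < e ^ α * Real.log (1 / e) := by
    have := Real.rpow_pos_of_pos he α
    positivity
  exact div_nonneg h1 h2.le

theorem Law.V_one_le (h : Law μ α) (hα : 1 ≤ α) {N : ℝ} (hN : 0 < N)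
    (hchi : ∀ᶠ t in atBot, N ≤ chi μ α t) :
    ∀ᶠ e in 𝓝[>] (0:ℝ), V μ α (fun _ => 1) e ≤ (kap μ α + 1) / N := by
  obtain ⟨C, hC0, hC⟩ := lower_of_eventually (by linarith : 0 < α) (h.chi_lower hα) hchi
  have h1 := h.V_lower hα (h.chi_adm hα) hC
  have h2 : Tendsto (fun e => V μ α (chi μ α) e + C * V μ α (ua α) e) (𝓝[>] 0)
      (𝓝 (kap μ α + C * 0)) := (h.S_chi hα).add ((h.V_ua hα).const_mul C)
  rw [mul_zero, add_zero] at h2
  filter_upwards [h1, h2.eventually (gt_mem_nhds (by linarith : kap μ α < kap μ α + 1))] with e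
    h1 h2
  rw [le_div_iff₀ hN]
  linarith

theorem Law.V_small (h : Law μ α) (hα : 1 ≤ α) {g : ℝ → ℝ} (hg : Adm α g)
    (hb : ∀ T, ∃ C, ∀ t, T ≤ t → |g t| ≤ C) (h0 : Tendsto g atBot (𝓝 0)) {B : ℝ} (hB0 : 0 < B)
    (hB : ∀ᶠ e in 𝓝[>] (0:ℝ), V μ α (fun _ => 1) e ≤ B) :
    Tendsto (V μ α g) (𝓝[>] 0) (𝓝 0) := by
  have hα0 : 0 < α := by linarith
  rw [Metric.tendsto_nhds]
  intro δ hδ
  have key : ∀ g : ℝ → ℝ, Adm α g → (∀ T, ∃ C, ∀ t, T ≤ t → |g t| ≤ C) →
      Tendsto g atBot (𝓝 0) → ∀ᶠ e in 𝓝[>] (0:ℝ), -δ < V μ α g e := by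
    intro g hg hb h0
    have hN : ∀ᶠ t in atBot, -(δ / (2 * B)) ≤ g t := by
      have h1 : -(δ / (2 * B)) < 0 := by
        have : 0 < δ / (2 * B) := by positivity
        linarith
      filter_upwards [h0.eventually (lt_mem_nhds h1)] with t ht
      exact ht.le
    obtain ⟨C, hC0, hC⟩ := lower_of_eventually hα0 (g := g) (N := -(δ / (2 * B)))
      (fun T => by
        obtain ⟨C, hC⟩ := hb T
        exact ⟨C, fun t ht => (abs_le.1 (hC t ht)).1⟩) hN
    have h1 := h.V_lower hα hg hC
    have h2 : Tendsto (fun e => C * V μ α (ua α) e) (𝓝[>] 0) (𝓝 (C * 0)) :=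
      (h.V_ua hα).const_mul C
    rw [mul_zero] at h2
    filter_upwards [h1, h2.eventually (gt_mem_nhds (by linarith : 0 < δ / 2)), hB,
      h.V_one_nonneg] with e h1 h2 h3 h4
    have h5 : δ / (2 * B) * V μ α (fun _ => 1) e ≤ δ / (2 * B) * B :=
      mul_le_mul_of_nonneg_left h3 (by positivity)
    have h6 : δ / (2 * B) * B = δ / 2 := by field_simp
    linarith
  have k1 := key g hg hb h0
  have k2 := key (fun t => (-1) * g t) (hg.const_mul (-1)) (fun T => by
    obtain ⟨C, hC⟩ := hb T
    exact ⟨C, fun t ht => by simpa using hC t ht⟩) (by simpa using h0.neg)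
  filter_upwards [k1, k2] with e k1 k2
  rw [Real.dist_eq, sub_zero, abs_lt]
  refine ⟨k1, ?_⟩
  unfold V at k2 ⊢
  rw [S_const_mul] at k2
  have : -1 * S μ α e g / (e ^ α * Real.log (1 / e)) = -(S μ α e g / (e ^ α * Real.log (1 / e))) := by
    ring
  linarith

theorem Law.V_one (h : Law μ α) (hα : 1 ≤ α) : ∃ κ : ℝ, 0 ≤ κ ∧
    (0 < κ ↔ Integrable (fun x => x) (nu μ α)) ∧
    Tendsto (V μ α (fun _ => 1)) (𝓝[>] 0) (𝓝 κ) := by
  have hk := h.kap_pos hα
  by_cases hx : Integrable (fun x => x) (nu μ α)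
  · have hm := h.mean_pos hx
    have hc := h.chi_tendsto_fin hα hx
    set M := ∫ x, x ∂(nu μ α) with hMdef
    have hB := h.V_one_le hα (N := M / 2) (by positivity) (by
      filter_upwards [hc.eventually (lt_mem_nhds (by linarith : M / 2 < M))] with t ht
      exact ht.le)
    refine ⟨kap μ α / M, by positivity, ⟨fun _ => hx, fun _ => by positivity⟩, ?_⟩
    have hg : Adm α (fun t => chi μ α t - M) := (h.chi_adm hα).sub (Adm.const M)
    have h1 := h.V_small hα hg (fun T => by
        obtain ⟨C, hC⟩ := h.chi_lower hα T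
        obtain ⟨D, hD⟩ := chi_upper (μ := μ) (α := α) T
        refine ⟨|C| + |D| + |M|, fun t ht => ?_⟩
        have a1 := hC t ht
        have a2 := hD t ht
        have a3 := le_abs_self C
        have a4 := le_abs_self D
        have a5 := le_abs_self M
        have a6 := neg_abs_le M
        have a7 := abs_nonneg C
        have a8 := abs_nonneg D
        rw [abs_le]
        constructor <;> linarith)
      (by simpa using hc.sub_const M) (B := (kap μ α + 1) / (M / 2)) (by positivity) hB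
    have h2 : Tendsto (fun e => (V μ α (chi μ α) e - V μ α (fun t => chi μ α t - M) e) / M)
        (𝓝[>] 0) (𝓝 ((kap μ α - 0) / M)) := ((h.S_chi hα).sub h1).div_const M
    rw [sub_zero] at h2
    refine h2.congr' ?_
    filter_upwards [small_e] with e he
    obtain ⟨he, he1⟩ := he
    unfold V
    rw [h.S_sub he he1 (h.chi_adm hα) (Adm.const M), S_const e M]
    field_simp
    ring
  · refine ⟨0, le_rfl, ⟨fun h0 => absurd h0 (lt_irrefl 0), fun h1 => absurd h1 hx⟩, ?_⟩
    have hc := h.chi_tendsto_inf hα hx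
    rw [Metric.tendsto_nhds]
    intro δ hδ
    have hN : 0 < 2 * (kap μ α + 1) / δ := by positivity
    have h1 := h.V_one_le hα hN (hc.eventually_ge_atTop _)
    filter_upwards [h1, h.V_one_nonneg] with e h1 h2
    rw [Real.dist_eq, sub_zero, abs_of_nonneg h2]
    refine lt_of_le_of_lt h1 ?_
    have : (kap μ α + 1) / (2 * (kap μ α + 1) / δ) = δ / 2 := by field_simp
    rw [this]
    linarith

/-- the remainder in the integer case -/
theorem Law.rem_int (h : Law μ α) {m : ℕ} (hm : α = m + 1) {T : List (ℝ × ℕ × ℕ)}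
    (hT : TOk m T) : ∃ C : ℝ, 0 ≤ C ∧ (0 < C ↔ Integrable (fun x => x) (nu μ α)) ∧
    Tendsto (fun e => rem m T (Pm μ) (Ye e) e / (e ^ α * Real.log (1 / e))) (𝓝[>] 0)
      (𝓝 C) := by
  have hm0 : (0:ℝ) ≤ m := Nat.cast_nonneg m
  have hα : 1 ≤ α := by linarith
  obtain ⟨κ, hκ0, hκ, hV⟩ := h.V_one hα
  obtain ⟨c, hc0, hc⟩ := psi_limit hT
  obtain ⟨D, hD0, hD⟩ := psi_sub_H_le hT
  obtain ⟨K, hK0, hK⟩ := h.Ye_moment (m := m) (by linarith)
  refine ⟨c * κ, by positivity, ?_, ?_⟩
  · rw [← hκ]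
    constructor
    · intro h1
      exact pos_of_mul_pos_right h1 hc0.le
    · intro h1; positivity
  -- the function `psi(e^t) / e^{(m+1)t}`
  set g : ℝ → ℝ := fun t => psi m T (Real.exp t) / Real.exp t ^ (m + 1) with hg
  have hpm := psi_measurable m T
  have hgm : Measurable g := by fun_prop
  have hgb : ∀ t, |g t| ≤ 1 + D := by
    intro t
    have h1 := psi_nonneg hT (Real.exp_pos t).le
    have h2 := hD (Real.exp t) (Real.exp_pos t).le
    have h3 := H_le m (Real.exp_pos t).le
    have h4 : 0 < Real.exp t ^ (m + 1) := by positivity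
    simp only [hg]
    rw [abs_of_nonneg (by positivity), div_le_iff₀ h4]
    have h5 : Real.exp t ^ (m + 1) / ((m:ℝ) + 1) ≤ Real.exp t ^ (m + 1) :=
      div_le_self h4.le (by linarith)
    have h6 : Real.exp t ^ (m + 1) / (1 + Real.exp t) ≤ Real.exp t ^ (m + 1) :=
      div_le_self h4.le (by linarith [Real.exp_pos t])
    nlinarith
  have hga : Adm α g := Adm.of_bdd hgm hgb
  have hg0 : Tendsto (fun t => g t - c) atBot (𝓝 0) := by
    have h1 : Tendsto Real.exp atBot (𝓝[>] 0) := by
      rw [tendsto_nhdsWithin_iff]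
      exact ⟨Real.tendsto_exp_atBot, Eventually.of_forall fun t => Real.exp_pos t⟩
    have h2 := (hc.comp h1).sub_const c
    rw [sub_self] at h2
    exact h2
  have hB : ∀ᶠ e in 𝓝[>] (0:ℝ), V μ α (fun _ => 1) e ≤ κ + 1 := by
    filter_upwards [hV.eventually (gt_mem_nhds (by linarith : κ < κ + 1))] with e he
    exact he.le
  have h1 := h.V_small hα (hga.sub (Adm.const c)) (fun T => ⟨1 + D + |c|, fun t _ => by
    have a1 := hgb t
    have a2 := abs_sub (g t) c
    linarith⟩) hg0 (B := κ + 1) (by positivity) hB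
  have h2 : Tendsto (fun e => V μ α (fun t => g t - c) e + c * V μ α (fun _ => 1) e) (𝓝[>] 0)
      (𝓝 (0 + c * κ)) := h1.add (hV.const_mul c)
  rw [zero_add] at h2
  have h3 : Tendsto (fun e : ℝ => cT m T * K / Real.log (1 / e)) (𝓝[>] 0) (𝓝 0) :=
    logL_tendsto.const_div_atTop _
  have h4 : Tendsto (fun e => rem m T (Pm μ) (Ye e) e / (e ^ α * Real.log (1 / e)) -
      (V μ α (fun t => g t - c) e + c * V μ α (fun _ => 1) e)) (𝓝[>] 0) (𝓝 0) := by
    rw [tendsto_zero_iff_abs_tendsto_zero]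
    refine tendsto_of_tendsto_of_tendsto_of_le_of_le' tendsto_const_nhds h3
      (Eventually.of_forall fun e => abs_nonneg _) ?_
    filter_upwards [small_e, logL_tendsto.eventually_ge_atTop 1] with e he hL
    obtain ⟨he, he1⟩ := he
    have hea : e ^ α = e ^ (m + 1) := by
      rw [hm]
      exact_mod_cast Real.rpow_natCast e (m + 1)
    have hS := h.stat he he1 (m := m) (by linarith)
    obtain ⟨i1, i2⟩ := rem_sub_psi hS hK0 (hK e he he1) hT
    have h5 : V μ α (fun t => g t - c) e + c * V μ α (fun _ => 1) e =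
        (∫ ω, psi m T (Ye e ω) ∂(Pm μ)) / (e ^ α * Real.log (1 / e)) := by
      unfold V
      rw [h.S_sub he he1 hga (Adm.const c), S_const e c, sub_div]
      have h6 : S μ α e g = ∫ ω, psi m T (Ye e ω) ∂(Pm μ) := by
        unfold S
        apply integral_congr_ae
        filter_upwards [h.ae_good] with ω hω
        have hY := Ye_pos he he1 hω
        simp only [hg]
        rw [Real.exp_log hY]
        have h7 : Ye e ω ^ α = Ye e ω ^ (m + 1) := by
          rw [hm]
          exact_mod_cast Real.rpow_natCast (Ye e ω) (m + 1)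
        rw [h7]
        field_simp
      rw [h6]
      ring
    have hep : 0 < e ^ (m + 1) := by positivity
    have hL0 : 0 < Real.log (1 / e) := by linarith
    simp only [Function.comp]
    rw [h5, ← sub_div, abs_div, hea, abs_of_pos (by positivity : 0 < e ^ (m + 1) *
      Real.log (1 / e)), div_le_div_iff₀ (by positivity) hL0]
    calc |rem m T (Pm μ) (Ye e) e - ∫ ω, psi m T (Ye e ω) ∂(Pm μ)| * Real.log (1 / e)
        ≤ (cT m T * K * e ^ (m + 1)) * Real.log (1 / e) :=
          mul_le_mul_of_nonneg_right i2 hL0.le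
      _ = _ := by ring
  have h5 := h4.add h2
  rw [zero_add] at h5
  refine h5.congr fun e => ?_
  ring

end Pool.Agent.Lib_helper63.DH
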