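import Pool.Agent.Lib_helper63.DH.Tilt
import Pool.Agent.Lib_helper63.DH.Expand

/-!
Moments of `Y` and the dominated convergence statement as `e → 0`.
-/

open MeasureTheory Filter Topology

namespace Pool.Agent.Lib_helper63.DH

variable {μ : Measure ℝ} [IsProbabilityMeasure μ] {α : ℝ}

theorem Ye_le {e : ℝ} (he : 0 < e) (he1 : e < 1) {ω : ℕ → ℝ} (h : GoodSeq ω) :
    Ye e ω ≤ ω 0 := by
  unfold Ye
  have := X_le he he1.le h.pos
  rw [le_div_iff₀ he] at this
  linarith

theorem Ye_le' {e : ℝ} (he : 0 < e) (he1 : e < 1) {ω : ℕ → ℝ} (h : GoodSeq ω) :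
    Ye e ω ≤ e * X 0 ω := by
  unfold Ye
  exact mul_le_mul_of_nonneg_left (X_anti le_rfl he.le he1.le h.pos h.bdd) he.le

theorem int_eval {f : ℝ → ℝ} (hf : Integrable f μ) : Integrable (fun ω => f (ω 0)) (Pm μ) :=
  (measurePreserving_eval_infinitePi (fun _ : ℕ => μ) 0).integrable_comp_of_integrable hf

theorem Law.Ye_int (h : Law μ α) {e : ℝ} (he : 0 < e) (he1 : e < 1) {s : ℝ} (hs : 0 ≤ s)
    (hsa : s ≤ α) : Integrable (fun ω => Ye e ω ^ s) (Pm μ) := by
  have hm := measurable_Ye e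
  refine (int_eval (h.int_rpow hs hsa)).mono' (by fun_prop : Measurable fun ω =>
    Ye e ω ^ s).aestronglyMeasurable ?_
  filter_upwards [h.ae_good] with ω hω
  have hY := Ye_pos he he1 hω
  rw [Real.norm_eq_abs, abs_of_nonneg (Real.rpow_nonneg hY.le s)]
  exact Real.rpow_le_rpow hY.le (Ye_le he he1 hω) hs

theorem Law.log_int (h : Law μ α) : Integrable (fun z => Real.log (1 + z)) μ := by
  have h1 : Integrable (fun z => (2 ^ α * (1 + z ^ α)) / α) μ :=
    ((((integrable_const (1:ℝ)).add h.int_alpha).const_mul (2 ^ α)).div_const α)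
  refine h1.mono' (by fun_prop : Measurable fun z : ℝ => Real.log (1 + z)).aestronglyMeasurable ?_
  filter_upwards [h.pos] with z hz
  have h2 : 0 ≤ Real.log (1 + z) := Real.log_nonneg (by linarith)
  rw [Real.norm_eq_abs, abs_of_nonneg h2]
  have h3 := Real.log_le_rpow_div (by linarith : (0:ℝ) ≤ 1 + z) h.apos
  refine h3.trans ?_
  apply div_le_div_of_nonneg_right _ h.apos.le
  rcases le_total z 1 with hz1 | hz1
  · have h4 : (1 + z) ^ α ≤ 2 ^ α := Real.rpow_le_rpow (by linarith) (by linarith) h.apos.le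
    have h5 : 0 ≤ z ^ α := Real.rpow_nonneg hz.le α
    have h6 : (0:ℝ) < 2 ^ α := by positivity
    nlinarith
  · have h4 : (1 + z) ^ α ≤ (2 * z) ^ α :=
      Real.rpow_le_rpow (by linarith) (by linarith) h.apos.le
    rw [Real.mul_rpow (by norm_num) hz.le] at h4
    have h6 : (0:ℝ) < 2 ^ α := by positivity
    nlinarith

theorem Law.stat (h : Law μ α) {e : ℝ} (he : 0 < e) (he1 : e < 1) {m : ℕ} (hm : (m:ℝ) ≤ α) :
    Stat (fun k => ∫ z, z ^ k ∂μ) m (Pm μ) (Ye e) e where
  meas := measurable_Ye e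
  nonneg := by
    filter_upwards [h.ae_good] with ω hω
    exact (Ye_pos he he1 hω).le
  epos := he
  elt := he1
  intm := by
    have := h.Ye_int he he1 (s := m) (by positivity) hm
    simpa only [Real.rpow_natCast] using this
  intlog := by
    have hmY := measurable_Ye e
    refine (int_eval h.log_int).mono' (by fun_prop : Measurable fun ω =>
      Real.log (1 + Ye e ω)).aestronglyMeasurable ?_
    filter_upwards [h.ae_good] with ω hω
    have hY := Ye_pos he he1 hω
    rw [Real.norm_eq_abs, abs_of_nonneg (Real.log_nonneg (by linarith))]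
    exact Real.log_le_log (by linarith) (by linarith [Ye_le he he1 hω])
  mom_eq := by
    intro k hk1 hkm
    have hmp := measurable_pe e
    have hk : (k:ℝ) ≤ α := le_trans (by exact_mod_cast hkm) hm
    let G : ℝ × (ℕ → ℝ) → ℝ := fun q => q.1 ^ k * (e * pe e q.2) ^ k
    have hGm : Measurable G := by fun_prop
    have hzk : Integrable (fun z : ℝ => z ^ k) μ := by
      have := h.int_rpow (s := k) (by positivity) hk
      simpa only [Real.rpow_natCast] using this
    have hpk : Integrable (fun ω => (e * pe e ω) ^ k) (Pm μ) := by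
      refine (integrable_const (1:ℝ)).mono' (by fun_prop : Measurable fun ω =>
        (e * pe e ω) ^ k).aestronglyMeasurable ?_
      filter_upwards [h.ae_good] with ω hω
      have h1 := one_le_pe he he1 hω
      rw [Real.norm_eq_abs, abs_of_nonneg (by positivity)]
      exact pow_le_one₀ (by positivity) (epe_le he he1 hω)
    have hcong : (fun ω => Ye e ω ^ k) =ᵐ[Pm μ] fun ω => G (ω 0, shift ω) := by
      filter_upwards [h.ae_good] with ω hω
      simp only [G]
      rw [Ye_eq he he1 hω]; ring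
    have hI2 : ∫ ω, G (ω 0, shift ω) ∂(Pm μ) = ∫ q, G q ∂(μ.prod (Pm μ)) := by
      have := integral_map (μ := Pm μ) (φ := fun ω : ℕ → ℝ => (ω 0, shift ω)) (f := G)
        (mp_split μ).measurable.aemeasurable
        (by rw [(mp_split μ).map_eq]; exact hGm.aestronglyMeasurable)
      rw [(mp_split μ).map_eq] at this
      exact this.symm
    rw [integral_congr_ae hcong, hI2, integral_prod_mul (fun z : ℝ => z ^ k)
      (fun ω => (e * pe e ω) ^ k)]
    congr 1
    apply integral_congr_ae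
    filter_upwards with ω
    unfold pe Ye
    ring

theorem Law.Ye_moment (h : Law μ α) {m : ℕ} (hm : (m:ℝ) < α) :
    ∃ K : ℝ, 0 ≤ K ∧ ∀ e : ℝ, 0 < e → e < 1 → ∀ j ≤ m,
      ∫ ω, Ye e ω ^ j ∂(Pm μ) ≤ K * e ^ j := by
  have h1 : ∀ j ≤ m, Integrable (fun ω => X 0 ω ^ j) (Pm μ) := by
    intro j hj
    rcases Nat.eq_zero_or_pos j with rfl | hj0
    · simpa using integrable_const (1:ℝ)
    · have := h.X0_moment (s := j) (by exact_mod_cast hj0)
        (lt_of_le_of_lt (by exact_mod_cast hj) hm)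
      simpa only [Real.rpow_natCast] using this
  have hnn : ∀ j, 0 ≤ ∫ ω, X 0 ω ^ j ∂(Pm μ) := by
    intro j
    apply integral_nonneg_of_ae
    filter_upwards [h.ae_good] with ω hω
    exact pow_nonneg (X_nonneg le_rfl zero_le_one hω.pos hω.bdd) j
  refine ⟨∑ j ∈ Finset.range (m + 1), ∫ ω, X 0 ω ^ j ∂(Pm μ),
    Finset.sum_nonneg fun j _ => hnn j, ?_⟩
  intro e he he1 j hj
  have h2 : ∫ ω, Ye e ω ^ j ∂(Pm μ) ≤ ∫ ω, e ^ j * X 0 ω ^ j ∂(Pm μ) := by
    apply integral_mono_ae ((h.stat he he1 hm.le).mono hj).intm ((h1 j hj).const_mul _)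
    filter_upwards [h.ae_good] with ω hω
    rw [← mul_pow]
    exact pow_le_pow_left₀ (Ye_pos he he1 hω).le (Ye_le' he he1 hω) j
  rw [integral_const_mul] at h2
  refine h2.trans ?_
  rw [mul_comm]
  apply mul_le_mul_of_nonneg_right _ (by positivity)
  exact Finset.single_le_sum (f := fun j => ∫ ω, X 0 ω ^ j ∂(Pm μ)) (fun j _ => hnn j)
    (Finset.mem_range.2 (by omega))

/-! ### The dominated convergence statement -/

theorem rpow_sub_le {p r α : ℝ} (hα : 1 ≤ α) (hr : 0 ≤ r) (hrp : r ≤ p) (hp : 0 < p) :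
    p ^ α - r ^ α ≤ α * p ^ (α - 1) * (p - r) := by
  have h1 := one_add_mul_self_le_rpow_one_add (s := r / p - 1)
    (by have : 0 ≤ r / p := by positivity
        linarith) hα
  rw [add_sub_cancel] at h1
  have h2 : r ^ α = p ^ α * (r / p) ^ α := by
    rw [← Real.mul_rpow hp.le (by positivity)]
    congr 1; field_simp
  have h3 : p ^ α = p ^ (α - 1) * p := by
    rw [← Real.rpow_add_one hp.ne']; ring_nf
  have h4 : 0 < p ^ α := Real.rpow_pos_of_pos hp α
  have h5 : α * p ^ (α - 1) * (p - r) = p ^ α * (α * (1 - r / p)) := by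
    rw [h3]; field_simp
  rw [h5, h2]
  nlinarith

theorem Law.int_one_add_X (h : Law μ α) (hα : 1 ≤ α) :
    Integrable (fun ω => (1 + X 0 ω) ^ (α - 1)) (Pm μ) := by
  have hm := measurable_X 0
  rcases hα.eq_or_lt with h1 | h1
  · rw [← h1]; simp
  · obtain ⟨C, hC0, hC⟩ := exists_rpow_bound (s := α - 1) (δ := 1) (by linarith) one_pos
    refine (((h.X0_moment (s := α - 1) (by linarith) (by linarith)).const_mul (1 + 1)).add
      (integrable_const C)).mono' (by fun_prop : Measurable fun ω =>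
        (1 + X 0 ω) ^ (α - 1)).aestronglyMeasurable ?_
    filter_upwards [h.ae_good] with ω hω
    have hX := X_nonneg le_rfl zero_le_one hω.pos hω.bdd
    rw [Real.norm_eq_abs, abs_of_nonneg (by positivity)]
    exact hC _ hX

/-- the constant `E[(1+X_0)^α - X_0^α]` -/
noncomputable def kap (μ : Measure ℝ) (α : ℝ) : ℝ :=
  ∫ ω, ((1 + X 0 ω) ^ α - X 0 ω ^ α) ∂(Pm μ)

theorem Law.kap_int (h : Law μ α) (hα : 1 ≤ α) :
    Integrable (fun ω => (1 + X 0 ω) ^ α - X 0 ω ^ α) (Pm μ) := by
  have hm := measurable_X 0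
  refine ((h.int_one_add_X hα).const_mul α).mono' (by fun_prop : Measurable fun ω =>
        (1 + X 0 ω) ^ α - X 0 ω ^ α).aestronglyMeasurable ?_
  filter_upwards [h.ae_good] with ω hω
  have hX := X_nonneg le_rfl zero_le_one hω.pos hω.bdd
  have h1 := rpow_sub_le (p := 1 + X 0 ω) (r := X 0 ω) hα hX (by linarith) (by linarith)
  have h2 : X 0 ω ^ α ≤ (1 + X 0 ω) ^ α :=
    Real.rpow_le_rpow hX (by linarith) (by linarith)
  rw [Real.norm_eq_abs, abs_of_nonneg (by linarith)]
  refine h1.trans (le_of_eq ?_)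
  ring

theorem Law.kap_pos (h : Law μ α) (hα : 1 ≤ α) : 0 < kap μ α := by
  unfold kap
  rw [integral_pos_iff_support_of_nonneg_ae _ (h.kap_int hα)]
  · have h1 : ∀ᵐ ω ∂(Pm μ), ω ∈ Function.support (fun ω => (1 + X 0 ω) ^ α - X 0 ω ^ α) := by
      filter_upwards [h.ae_good] with ω hω
      have hX := X_nonneg le_rfl zero_le_one hω.pos hω.bdd
      have h2 : X 0 ω ^ α < (1 + X 0 ω) ^ α :=
        Real.rpow_lt_rpow hX (by linarith) (by linarith)
      rw [Function.mem_support]
      linarith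
    have h2 : Pm μ (Function.support (fun ω => (1 + X 0 ω) ^ α - X 0 ω ^ α)) = 1 := by
      have h3 := measure_mono_ae (μ := Pm μ) (s := Set.univ)
        (t := Function.support (fun ω => (1 + X 0 ω) ^ α - X 0 ω ^ α))
        (by filter_upwards [h1] with ω hω; intro _; exact hω)
      rw [measure_univ] at h3
      exact le_antisymm prob_le_one h3
    rw [h2]; exact zero_lt_one
  · filter_upwards [h.ae_good] with ω hω
    have hX := X_nonneg le_rfl zero_le_one hω.pos hω.bdd
    have h2 : X 0 ω ^ α ≤ (1 + X 0 ω) ^ α :=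
      Real.rpow_le_rpow hX (by linarith) (by linarith)
    simp only [Pi.zero_apply]
    linarith

theorem pe_tendsto {ω : ℕ → ℝ} (hω : GoodSeq ω) :
    Tendsto (fun e => pe e ω) (𝓝[>] 0) (𝓝 (1 + X 0 ω)) := by
  have h1 := X_tendsto_zero hω.pos hω.bdd
  have h2 : Tendsto (fun e : ℝ => e) (𝓝[>] 0) (𝓝 0) := tendsto_id.mono_left nhdsWithin_le_nhds
  have h3 : Tendsto (fun e => pe e ω) (𝓝[>] 0) (𝓝 ((1 + X 0 ω) / (1 + 0 * X 0 ω))) := by
    unfold pe
    apply Tendsto.div (h1.const_add 1) ((h2.mul h1).const_add 1)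
    simp
  simpa using h3

theorem re_tendsto {ω : ℕ → ℝ} (hω : GoodSeq ω) :
    Tendsto (fun e => re e ω) (𝓝[>] 0) (𝓝 (X 0 ω)) := by
  have h1 := X_tendsto_zero hω.pos hω.bdd
  have h2 : Tendsto (fun e : ℝ => e) (𝓝[>] 0) (𝓝 0) := tendsto_id.mono_left nhdsWithin_le_nhds
  have h3 : Tendsto (fun e => re e ω) (𝓝[>] 0) (𝓝 ((X 0 ω) / (1 + 0 * X 0 ω))) := by
    unfold re
    apply Tendsto.div h1 ((h2.mul h1).const_add 1)
    simp
  simpa using h3

theorem small_e : ∀ᶠ e in 𝓝[>] (0:ℝ), 0 < e ∧ e < 1 := by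
  filter_upwards [self_mem_nhdsWithin, nhdsWithin_le_nhds (gt_mem_nhds zero_lt_one)] with e h1 h2
  exact ⟨h1, h2⟩

/-- dominated convergence for the increments at scale `e` -/
theorem Law.dct (h : Law μ α) (hα : 1 ≤ α) (G : ℝ → ℝ → ℝ) {M Λ κ : ℝ} (hM : 0 ≤ M) (hΛ : 0 ≤ Λ)
    (hmeas : ∀ e, Measurable (G e))
    (hbd : ∀ᶠ e in 𝓝[>] (0:ℝ), ∀ q, 1 ≤ q → |G e (Real.log (e * q))| ≤ M)
    (hlip : ∀ᶠ e in 𝓝[>] (0:ℝ), ∀ s t, |G e s - G e t| ≤ Λ * |s - t|)
    (hlim : ∀ (q : ℝ → ℝ) (q₀ : ℝ), 0 < q₀ → Tendsto q (𝓝[>] 0) (𝓝 q₀) →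
      Tendsto (fun e => G e (Real.log (e * q e))) (𝓝[>] 0) (𝓝 κ)) :
    Tendsto (fun e => ∫ ω, (pe e ω ^ α * G e (Real.log (e * pe e ω)) -
        re e ω ^ α * G e (Real.log (e * re e ω))) ∂(Pm μ)) (𝓝[>] 0) (𝓝 (κ * kap μ α)) := by
  unfold kap
  rw [← integral_const_mul]
  apply tendsto_integral_filter_of_dominated_convergence
    (fun ω => (α * M + Λ) * (1 + X 0 ω) ^ (α - 1))
  · filter_upwards with e
    have h1 := measurable_pe e
    have h2 := measurable_re e
    have h3 := hmeas e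
    have h4 : Measurable (fun ω => pe e ω ^ α * G e (Real.log (e * pe e ω)) -
        re e ω ^ α * G e (Real.log (e * re e ω))) :=
      ((h1.pow_const α).mul (h3.comp (Real.measurable_log.comp (h1.const_mul e)))).sub
      ((h2.pow_const α).mul (h3.comp (Real.measurable_log.comp (h2.const_mul e))))
    exact h4.aestronglyMeasurable
  · filter_upwards [hbd, hlip, small_e] with e hb hl he
    obtain ⟨he, he1⟩ := he
    filter_upwards [h.ae_good] with ω hω
    have hX := X_pos he.le he1.le hω.pos hω.bdd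
    have hXX := X_anti le_rfl he.le he1.le hω.pos hω.bdd
    have hX0 : 0 < X 0 ω := lt_of_lt_of_le hX hXX
    have hp := one_le_pe he he1 hω
    have hp' := pe_le he he1 hω
    have hr := re_pos he he1 hω
    have hr' := re_le he he1 hω
    obtain ⟨hd0, hd1⟩ := pe_sub_re he he1 hω
    set p := pe e ω
    set r := re e ω
    have hsplit : p ^ α * G e (Real.log (e * p)) - r ^ α * G e (Real.log (e * r)) =
        (p ^ α - r ^ α) * G e (Real.log (e * p)) +
        r ^ α * (G e (Real.log (e * p)) - G e (Real.log (e * r))) := by ring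
    have hP : (1:ℝ) ≤ 1 + X e ω := by linarith
    have hpa : p ^ (α - 1) ≤ (1 + X 0 ω) ^ (α - 1) :=
      Real.rpow_le_rpow (by linarith) (by linarith) (by linarith)
    have h1 : p ^ α - r ^ α ≤ α * (1 + X 0 ω) ^ (α - 1) := by
      refine (rpow_sub_le hα hr.le (by linarith) (by linarith)).trans ?_
      have h2 : 0 ≤ p ^ (α - 1) := by positivity
      have h3 : 0 ≤ (1 + X 0 ω) ^ (α - 1) := by positivity
      have : α * p ^ (α - 1) * (p - r) ≤ α * p ^ (α - 1) * 1 :=
        mul_le_mul_of_nonneg_left hd1 (by positivity)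
      nlinarith
    have h1' : 0 ≤ p ^ α - r ^ α := by
      have := Real.rpow_le_rpow hr.le (by linarith : r ≤ p) (by linarith : 0 ≤ α)
      linarith
    have h2 : |(p ^ α - r ^ α) * G e (Real.log (e * p))| ≤ α * (1 + X 0 ω) ^ (α - 1) * M := by
      rw [abs_mul, abs_of_nonneg h1']
      exact mul_le_mul h1 (hb p hp) (abs_nonneg _) (by positivity)
    have hlog : |Real.log (e * p) - Real.log (e * r)| ≤ 1 / X e ω := by
      have e1 : Real.log (e * p) - Real.log (e * r) = Real.log (1 + 1 / X e ω) := by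
        rw [← Real.log_div (by positivity) (by positivity)]
        congr 1
        have : p = (1 + X e ω) / (1 + e * X e ω) := rfl
        rw [this]
        have : r = X e ω / (1 + e * X e ω) := rfl
        rw [this]
        have : (0:ℝ) < 1 + e * X e ω := by positivity
        field_simp
        ring
      rw [e1, abs_of_nonneg (Real.log_nonneg (by
        have : 0 < 1 / X e ω := by positivity
        linarith))]
      have := Real.log_le_sub_one_of_pos (x := 1 + 1 / X e ω) (by positivity)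
      linarith
    have h3 : |r ^ α * (G e (Real.log (e * p)) - G e (Real.log (e * r)))| ≤
        Λ * (1 + X 0 ω) ^ (α - 1) := by
      rw [abs_mul, abs_of_pos (Real.rpow_pos_of_pos hr α)]
      have h4 : r ^ α ≤ X e ω ^ (α - 1) * X e ω := by
        rw [← Real.rpow_add_one hX.ne']
        simp only [sub_add_cancel]
        exact Real.rpow_le_rpow hr.le hr' (by linarith)
      have h5 : X e ω ^ (α - 1) ≤ (1 + X 0 ω) ^ (α - 1) :=
        Real.rpow_le_rpow hX.le (by linarith) (by linarith)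
      calc r ^ α * |G e (Real.log (e * p)) - G e (Real.log (e * r))|
          ≤ (X e ω ^ (α - 1) * X e ω) * (Λ * (1 / X e ω)) := by
            apply mul_le_mul h4 ((hl _ _).trans (mul_le_mul_of_nonneg_left hlog hΛ))
              (abs_nonneg _) (by positivity)
        _ = Λ * X e ω ^ (α - 1) := by field_simp
        _ ≤ Λ * (1 + X 0 ω) ^ (α - 1) := mul_le_mul_of_nonneg_left h5 hΛ
    rw [hsplit, Real.norm_eq_abs]
    refine (abs_add_le _ _).trans ?_
    calc _ ≤ α * (1 + X 0 ω) ^ (α - 1) * M + Λ * (1 + X 0 ω) ^ (α - 1) := add_le_add h2 h3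
      _ = _ := by ring
  · exact (h.int_one_add_X hα).const_mul _
  · filter_upwards [h.ae_good] with ω hω
    have hX0 := X_pos le_rfl zero_le_one hω.pos hω.bdd
    have h1 := pe_tendsto hω
    have h2 := re_tendsto hω
    have h3 := hlim _ _ (by linarith) h1
    have h4 := hlim _ _ hX0 h2
    have h5 : Tendsto (fun e => pe e ω ^ α) (𝓝[>] 0) (𝓝 ((1 + X 0 ω) ^ α)) :=
      h1.rpow_const (Or.inl (by linarith))
    have h6 : Tendsto (fun e => re e ω ^ α) (𝓝[>] 0) (𝓝 (X 0 ω ^ α)) :=
      h2.rpow_const (Or.inl hX0.ne')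
    have h7 := (h5.mul h3).sub (h6.mul h4)
    refine h7.congr' (Eventually.of_forall fun e => rfl) |>.trans (le_of_eq ?_)
    congr 1
    ring

end Pool.Agent.Lib_helper63.DH
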