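import Pool.Agent.Lib_helper63.DH.Seq

/-!
A strong law of large numbers along blocks.
-/

open MeasureTheory Filter Topology ProbabilityTheory

namespace Pool.Agent.Lib_helper63.DH

variable (μ : Measure ℝ) [IsProbabilityMeasure μ]

theorem shift_iterate (n : ℕ) (ω : ℕ → ℝ) : shift^[n] ω = fun k => ω (k + n) := by
  induction n generalizing ω with
  | zero => rfl
  | succ n ih =>
    rw [Function.iterate_succ_apply, ih]
    funext k
    unfold shift
    congr 1

theorem slln_block {G : (ℕ → ℝ) → ℝ} (hG : Measurable G) (hint : Integrable G (Pm μ)) {N : ℕ}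
    (hN : 0 < N) (hdep : ∀ ω ω' : ℕ → ℝ, (∀ k < N, ω k = ω' k) → G ω = G ω') :
    ∀ᵐ ω ∂(Pm μ), Tendsto (fun n : ℕ => (∑ i ∈ Finset.range n, G (shift^[i * N] ω)) / n) atTop
      (𝓝 (∫ ω, G ω ∂(Pm μ))) := by
  have hmp : ∀ n : ℕ, MeasurePreserving (shift^[n]) (Pm μ) (Pm μ) := fun n =>
    (mp_shift μ).iterate n
  have h0 : (fun ω => G (shift^[0 * N] ω)) = G := by
    funext ω; simp
  have key := strong_law_ae_real (μ := Pm μ) (fun i ω => G (shift^[i * N] ω))
    (by rw [h0]; exact hint) ?_ ?_
  · rw [h0] at key
    exact key
  · intro i j hij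
    -- independence
    have hind : iIndepFun (fun (i : ℕ) (ω : ℕ → ℝ) => ω i) (Pm μ) :=
      iIndepFun_infinitePi (X := fun _ ω => ω) (fun _ => measurable_id)
    let Sb : ℕ → Finset ℕ := fun i => Finset.Ico (i * N) (i * N + N)
    have hdisj : Disjoint (Sb i) (Sb j) := by
      rw [Finset.disjoint_left]
      intro x hx hy
      simp only [Sb, Finset.mem_Ico] at hx hy
      apply hij
      have hxi : x / N = i := by
        rw [Nat.div_eq_iff hN]
        constructor
        · exact hx.1
        · have := hx.2; omega
      have hxj : x / N = j := by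
        rw [Nat.div_eq_iff hN]
        constructor
        · exact hy.1
        · have := hy.2; omega
      rw [← hxi, ← hxj]
    have hI := hind.indepFun_finset (Sb i) (Sb j) hdisj (fun i => measurable_pi_apply i)
    let φ : (i : ℕ) → ((Sb i) → ℝ) → ℝ := fun i w =>
      G (fun k => if h : k + i * N ∈ Sb i then w ⟨k + i * N, h⟩ else 1)
    have hφ : ∀ i, Measurable (φ i) := by
      intro i
      apply hG.comp
      rw [measurable_pi_iff]
      intro k
      by_cases h : k + i * N ∈ Sb i
      · simp only [h, dif_pos]
        exact measurable_pi_apply _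
      · simp only [h, dif_neg, not_false_eq_true]
        exact measurable_const
    have hcomp : ∀ i, (fun ω => G (shift^[i * N] ω)) = φ i ∘ fun a (k : Sb i) => a k := by
      intro i
      funext ω
      simp only [φ, Function.comp]
      apply hdep
      intro k hk
      rw [shift_iterate]
      have : k + i * N ∈ Sb i := by
        simp only [Sb, Finset.mem_Ico]
        constructor <;> omega
      simp only [this, dif_pos]
    change IndepFun (fun ω => G (shift^[i * N] ω)) (fun ω => G (shift^[j * N] ω)) (Pm μ)
    rw [hcomp i, hcomp j]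
    exact hI.comp (hφ i) (hφ j)
  · intro i
    simp only [h0]
    refine ⟨(hG.comp (hmp _).measurable).aemeasurable, hG.aemeasurable, ?_⟩
    have : (fun ω => G (shift^[i * N] ω)) = G ∘ shift^[i * N] := rfl
    rw [this, ← Measure.map_map hG (hmp _).measurable, (hmp _).map_eq]

end Pool.Agent.Lib_helper63.DH
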