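import Pool.Agent.Lib_helper63.DH.Limit
import Pool.Agent.Lib_helper63.DH.Slln

/-!
The Lyapunov exponent equals `E[log(1+Y)]`.
-/

open MeasureTheory Filter Topology ProbabilityTheory

namespace Pool.Agent.Lib_helper63.DH

/-- the random matrix -/
noncomputable def Mz (ε z : ℝ) : Matrix (Fin 2) (Fin 2) ℝ := !![1, ε; ε * z, z]

/-- the product `M_n ⋯ M_1` -/
noncomputable def prodM (ε : ℝ) (z : ℕ → ℝ) : ℕ → Matrix (Fin 2) (Fin 2) ℝ
  | 0 => 1
  | n + 1 => Mz ε (z n) * prodM ε z n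

/-- the sum of the absolute values of the entries -/
def nrm (A : Matrix (Fin 2) (Fin 2) ℝ) : ℝ := ∑ i, ∑ j, |A i j|

theorem prodM_succ0 (ε : ℝ) (z : ℕ → ℝ) (n : ℕ) (j : Fin 2) :
    prodM ε z (n + 1) 0 j = prodM ε z n 0 j + ε * prodM ε z n 1 j := by
  simp [prodM, Mz, Matrix.mul_apply, Fin.sum_univ_two]

theorem prodM_succ1 (ε : ℝ) (z : ℕ → ℝ) (n : ℕ) (j : Fin 2) :
    prodM ε z (n + 1) 1 j = z n * (ε * prodM ε z n 0 j + prodM ε z n 1 j) := by
  simp [prodM, Mz, Matrix.mul_apply, Fin.sum_univ_two]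
  ring

theorem prodM_nonneg {ε : ℝ} (hε : 0 < ε) {z : ℕ → ℝ} (hz : ∀ n, 0 < z n) (n : ℕ) (i j : Fin 2) :
    0 ≤ prodM ε z n i j := by
  induction n generalizing i j with
  | zero =>
    simp only [prodM, Matrix.one_apply]
    split_ifs <;> norm_num
  | succ n ih =>
    have h1 := ih 0 j
    have h2 := ih 1 j
    have h3 := hz n
    fin_cases i
    · show 0 ≤ prodM ε z (n + 1) 0 j
      rw [prodM_succ0]; positivity
    · show 0 ≤ prodM ε z (n + 1) 1 j
      rw [prodM_succ1]; positivity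

theorem prodM_add (ε : ℝ) (z : ℕ → ℝ) (n m : ℕ) :
    prodM ε z (n + m) = prodM ε (fun k => z (k + n)) m * prodM ε z n := by
  induction m with
  | zero => simp [prodM]
  | succ m ih =>
    rw [← add_assoc]
    simp only [prodM]
    rw [ih, Matrix.mul_assoc, add_comm m n]

/-- the top left entry -/
noncomputable def aN (ε : ℝ) (n : ℕ) (z : ℕ → ℝ) : ℝ := prodM ε z n 0 0

theorem aN_mono {ε : ℝ} (hε : 0 < ε) {z : ℕ → ℝ} (hz : ∀ n, 0 < z n) :
    Monotone (fun n => aN ε n z) := by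
  apply monotone_nat_of_le_succ
  intro n
  simp only [aN]
  rw [prodM_succ0]
  have := prodM_nonneg hε hz n 1 0
  have : 0 ≤ ε * prodM ε z n 1 0 := by positivity
  linarith

theorem one_le_aN {ε : ℝ} (hε : 0 < ε) {z : ℕ → ℝ} (hz : ∀ n, 0 < z n) (n : ℕ) :
    1 ≤ aN ε n z := by
  have h1 : aN ε 0 z ≤ aN ε n z := aN_mono hε hz (Nat.zero_le n)
  have h2 : aN ε 0 z = 1 := by simp [aN, prodM]
  linarith

theorem prodM_row {ε : ℝ} (hε : 0 < ε) (hε1 : ε < 1) {z : ℕ → ℝ} (hz : ∀ n, 0 < z n) (n : ℕ)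
    (j : Fin 2) : prodM ε z (n + 1) 1 j ≤ z n / ε * prodM ε z (n + 1) 0 j := by
  rw [prodM_succ0, prodM_succ1, div_mul_eq_mul_div, le_div_iff₀ hε]
  have h1 := prodM_nonneg hε hz n 0 j
  have h2 := prodM_nonneg hε hz n 1 j
  have h3 := hz n
  have h4 : (ε * prodM ε z n 0 j + prodM ε z n 1 j) * ε ≤
      prodM ε z n 0 j + ε * prodM ε z n 1 j := by
    have : ε * ε ≤ 1 := by nlinarith
    nlinarith
  rw [mul_assoc]
  exact mul_le_mul_of_nonneg_left h4 h3.le

theorem prodM_col {ε : ℝ} (hε : 0 < ε) (hε1 : ε < 1) {z : ℕ → ℝ} (hz : ∀ n, 0 < z n) (n : ℕ)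
    (i : Fin 2) : prodM ε z (n + 1) i 1 ≤ 1 / ε * prodM ε z (n + 1) i 0 := by
  induction n generalizing i with
  | zero =>
    have h3 := hz 0
    fin_cases i
    · show prodM ε z (0 + 1) 0 1 ≤ 1 / ε * prodM ε z (0 + 1) 0 0
      rw [prodM_succ0, prodM_succ0]
      simp only [prodM, Matrix.one_apply]
      simp only [Fin.isValue, zero_ne_one, one_ne_zero, if_true, if_false, zero_add, mul_one,
        mul_zero, add_zero]
      rw [le_div_iff₀ hε]
      nlinarith
    · show prodM ε z (0 + 1) 1 1 ≤ 1 / ε * prodM ε z (0 + 1) 1 0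
      rw [prodM_succ1, prodM_succ1]
      simp only [prodM, Matrix.one_apply]
      simp only [Fin.isValue, zero_ne_one, one_ne_zero, if_true, if_false, zero_add, mul_one,
        mul_zero, add_zero]
      apply le_of_eq
      field_simp
  | succ n ih =>
    have h0 := ih 0
    have h1 := ih 1
    have h3 := hz (n + 1)
    fin_cases i
    · show prodM ε z (n + 1 + 1) 0 1 ≤ 1 / ε * prodM ε z (n + 1 + 1) 0 0
      rw [prodM_succ0 ε z (n + 1) 1, prodM_succ0 ε z (n + 1) 0]
      calc _ ≤ 1 / ε * prodM ε z (n + 1) 0 0 + ε * (1 / ε * prodM ε z (n + 1) 1 0) := by gcongr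
        _ = _ := by ring
    · show prodM ε z (n + 1 + 1) 1 1 ≤ 1 / ε * prodM ε z (n + 1 + 1) 1 0
      rw [prodM_succ1 ε z (n + 1) 1, prodM_succ1 ε z (n + 1) 0]
      calc _ ≤ z (n + 1) * (ε * (1 / ε * prodM ε z (n + 1) 0 0) +
            1 / ε * prodM ε z (n + 1) 1 0) := by gcongr
        _ = _ := by ring

theorem aN_super {ε : ℝ} (hε : 0 < ε) {z : ℕ → ℝ} (hz : ∀ n, 0 < z n) (n m : ℕ) :
    aN ε n z * aN ε m (fun k => z (k + n)) ≤ aN ε (n + m) z := by
  unfold aN
  rw [prodM_add, Matrix.mul_apply, Fin.sum_univ_two]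
  have h1 := prodM_nonneg hε (z := fun k => z (k + n)) (fun k => hz (k + n)) m 0 1
  have h2 := prodM_nonneg hε hz n 1 0
  nlinarith [mul_nonneg h1 h2]

theorem aN_sub {ε : ℝ} (hε : 0 < ε) (hε1 : ε < 1) {z : ℕ → ℝ} (hz : ∀ n, 0 < z n) (n m : ℕ) :
    aN ε (n + 1 + m) z ≤ aN ε (n + 1) z * aN ε m (fun k => z (k + (n + 1))) *
      (1 + z n / ε ^ 2) := by
  rcases Nat.eq_zero_or_pos m with rfl | hm
  · have h1 : aN ε 0 (fun k => z (k + (n + 1))) = 1 := by simp [aN, prodM]
    rw [h1, add_zero, mul_one]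
    have h2 := one_le_aN hε hz (n + 1)
    have h3 : 0 ≤ z n / ε ^ 2 := div_nonneg (hz n).le (by positivity)
    nlinarith
  obtain ⟨m, rfl⟩ : ∃ m', m = m' + 1 := ⟨m - 1, by omega⟩
  unfold aN
  rw [prodM_add, Matrix.mul_apply, Fin.sum_univ_two]
  have h0 := prodM_nonneg hε (z := fun k => z (k + (n + 1))) (fun k => hz (k + (n + 1))) (m + 1) 0 0
  have h1 := prodM_col hε hε1 (z := fun k => z (k + (n + 1))) (fun k => hz (k + (n + 1))) m 0
  have h2 := prodM_row hε hε1 hz n 0
  have h3 := prodM_nonneg hε hz (n + 1) 1 0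
  have h4 := prodM_nonneg hε hz (n + 1) 0 0
  set A := prodM ε (fun k => z (k + (n + 1))) (m + 1) 0 0
  set B := prodM ε (fun k => z (k + (n + 1))) (m + 1) 0 1
  set a := prodM ε z (n + 1) 0 0
  set b := prodM ε z (n + 1) 1 0
  calc A * a + B * b ≤ A * a + (1 / ε * A) * (z n / ε * a) := by gcongr
    _ = _ := by field_simp

/-- the forward chain -/
noncomputable def xs (e : ℝ) (z : ℕ → ℝ) (x : ℝ) : ℕ → ℝ
  | 0 => x
  | n + 1 => F e (z n) (xs e z x n)

theorem xs_nonneg {e : ℝ} (he : 0 ≤ e) {z : ℕ → ℝ} (hz : ∀ n, 0 < z n) (n : ℕ) :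
    0 ≤ xs e z 0 n := by
  induction n with
  | zero => exact le_rfl
  | succ n ih => exact F_nonneg he (hz n).le ih

theorem prodM_xs {ε : ℝ} (hε : 0 < ε) {z : ℕ → ℝ} (hz : ∀ n, 0 < z n) (n : ℕ) :
    prodM ε z n 1 0 = ε * aN ε n z * xs (ε ^ 2) z 0 n := by
  induction n with
  | zero => simp [prodM, xs, aN]
  | succ n ih =>
    have h1 := one_le_aN hε hz n
    have h2 := xs_nonneg (e := ε ^ 2) (by positivity) hz n
    have h3 : aN ε (n + 1) z = aN ε n z * (1 + ε ^ 2 * xs (ε ^ 2) z 0 n) := by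
      unfold aN at ih ⊢
      rw [prodM_succ0, ih]; ring
    have h4 : prodM ε z n 0 0 = aN ε n z := rfl
    have h6 : xs (ε ^ 2) z 0 (n + 1) = F (ε ^ 2) (z n) (xs (ε ^ 2) z 0 n) := rfl
    have h5 : 0 < 1 + ε ^ 2 * xs (ε ^ 2) z 0 n := by positivity
    rw [h3, prodM_succ1, ih, h4, h6]
    unfold F
    generalize xs (ε ^ 2) z 0 n = x at *
    field_simp

theorem aN_succ {ε : ℝ} (hε : 0 < ε) {z : ℕ → ℝ} (hz : ∀ n, 0 < z n) (n : ℕ) :
    aN ε (n + 1) z = aN ε n z * (1 + ε ^ 2 * xs (ε ^ 2) z 0 n) := by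
  have := prodM_xs hε hz n
  unfold aN at this ⊢
  rw [prodM_succ0, this]; ring

theorem log_aN {ε : ℝ} (hε : 0 < ε) {z : ℕ → ℝ} (hz : ∀ n, 0 < z n) (n : ℕ) :
    Real.log (aN ε n z) = ∑ k ∈ Finset.range n, Real.log (1 + ε ^ 2 * xs (ε ^ 2) z 0 k) := by
  induction n with
  | zero => simp [aN, prodM]
  | succ n ih =>
    have h1 := one_le_aN hε hz n
    have h2 := xs_nonneg (e := ε ^ 2) (by positivity) hz n
    rw [aN_succ hε hz, Finset.sum_range_succ, ← ih, Real.log_mul (by positivity) (by positivity)]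

theorem measurable_prodM (ε : ℝ) (n : ℕ) (i j : Fin 2) :
    Measurable (fun z : ℕ → ℝ => prodM ε z n i j) := by
  induction n generalizing i j with
  | zero => simp only [prodM]; exact measurable_const
  | succ n ih =>
    have h1 := ih 0 j
    have h2 := ih 1 j
    fin_cases i
    · have : (fun z : ℕ → ℝ => prodM ε z (n + 1) 0 j) =
        fun z => prodM ε z n 0 j + ε * prodM ε z n 1 j := by
        funext z; rw [prodM_succ0]
      show Measurable (fun z : ℕ → ℝ => prodM ε z (n + 1) 0 j)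
      rw [this]; fun_prop
    · have : (fun z : ℕ → ℝ => prodM ε z (n + 1) 1 j) =
        fun z => z n * (ε * prodM ε z n 0 j + prodM ε z n 1 j) := by
        funext z; rw [prodM_succ1]
      show Measurable (fun z : ℕ → ℝ => prodM ε z (n + 1) 1 j)
      rw [this]; fun_prop

theorem prodM_dep (ε : ℝ) (n : ℕ) {z z' : ℕ → ℝ} (h : ∀ k < n, z k = z' k) :
    prodM ε z n = prodM ε z' n := by
  induction n with
  | zero => rfl
  | succ n ih =>
    simp only [prodM]
    rw [ih (fun k hk => h k (by omega)), h n (by omega)]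

/-! ### Equality in law of forward and backward iterates -/

variable {μ : Measure ℝ} [IsProbabilityMeasure μ] {α : ℝ}

theorem xs_shift (e : ℝ) (z : ℕ → ℝ) (x : ℝ) (n : ℕ) :
    xs e z x (n + 1) = xs e (shift z) (F e (z 0) x) n := by
  induction n with
  | zero => rfl
  | succ n ih =>
    rw [xs, ih]; rfl

theorem measurable_F (e : ℝ) : Measurable (fun q : ℝ × ℝ => F e q.1 q.2) := by
  unfold F; fun_prop

theorem measurable_xs (e : ℝ) (n : ℕ) : Measurable (fun q : (ℕ → ℝ) × ℝ => xs e q.1 q.2 n) := by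
  induction n with
  | zero => exact measurable_snd
  | succ n ih =>
    have h1 : Measurable (fun q : (ℕ → ℝ) × ℝ => (q.1 n, xs e q.1 q.2 n)) :=
      ((measurable_pi_apply n).comp measurable_fst).prodMk ih
    exact (measurable_F e).comp h1

/-- the transition operator -/
noncomputable def Pop (μ : Measure ℝ) (e : ℝ) (φ : ℝ → ENNReal) (x : ℝ) : ENNReal :=
  ∫⁻ z, φ (F e z x) ∂μ

theorem measurable_Pop (e : ℝ) {φ : ℝ → ENNReal} (hφ : Measurable φ) :
    Measurable (Pop μ e φ) := by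
  unfold Pop
  have h1 : Measurable (fun q : ℝ × ℝ => φ (F e q.2 q.1)) :=
    hφ.comp ((measurable_F e).comp measurable_swap)
  exact h1.lintegral_prod_right'

theorem measurable_Pop_iter (e : ℝ) {φ : ℝ → ENNReal} (hφ : Measurable φ) (n : ℕ) :
    Measurable ((Pop μ e)^[n] φ) := by
  induction n with
  | zero => exact hφ
  | succ n ih =>
    rw [Function.iterate_succ_apply']
    exact measurable_Pop e ih

theorem lint_xs (e : ℝ) {φ : ℝ → ENNReal} (hφ : Measurable φ) (n : ℕ) (x : ℝ) :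
    ∫⁻ ω, φ (xs e ω x n) ∂(Pm μ) = (Pop μ e)^[n] φ x := by
  induction n generalizing x with
  | zero => simp [xs]
  | succ n ih =>
    simp only [xs_shift]
    have h1 : Measurable (fun q : ℝ × (ℕ → ℝ) => φ (xs e q.2 (F e q.1 x) n)) := by
      have h2 : Measurable (fun q : ℝ × (ℕ → ℝ) => (q.2, F e q.1 x)) := by
        unfold F; fun_prop
      exact hφ.comp ((measurable_xs e n).comp h2)
    have h3 := (mp_split μ).lintegral_comp h1
    simp only at h3
    rw [h3, lintegral_prod _ h1.aemeasurable, Function.iterate_succ_apply']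
    unfold Pop
    apply lintegral_congr
    intro z
    exact ih (F e z x)

theorem lint_B (e : ℝ) {φ : ℝ → ENNReal} (hφ : Measurable φ) (n : ℕ) :
    ∫⁻ ω, φ (B e n ω) ∂(Pm μ) = (Pop μ e)^[n] φ 0 := by
  induction n generalizing φ with
  | zero => simp [B]
  | succ n ih =>
    have h1 : Measurable (fun q : ℝ × (ℕ → ℝ) => φ (F e q.1 (B e n q.2))) := by
      have h2 : Measurable (fun q : ℝ × (ℕ → ℝ) => (q.1, B e n q.2)) :=
        measurable_fst.prodMk ((measurable_B e n).comp measurable_snd)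
      exact hφ.comp ((measurable_F e).comp h2)
    have h3 := lint_split (μ := μ) h1
    simp only at h3
    have h4 : ∀ ω, B e (n + 1) ω = F e (ω 0) (B e n (shift ω)) := fun _ => rfl
    simp only [h4]
    rw [h3, Function.iterate_succ_apply, ← ih (measurable_Pop e hφ)]
    rfl

theorem ident_xs_B (e : ℝ) (n : ℕ) :
    IdentDistrib (fun ω : ℕ → ℝ => xs e ω 0 n) (B e n) (Pm μ) (Pm μ) := by
  have hm : Measurable (fun ω : ℕ → ℝ => xs e ω 0 n) :=
    (measurable_xs e n).comp (measurable_id.prodMk measurable_const)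
  refine ⟨hm.aemeasurable, (measurable_B e n).aemeasurable, ?_⟩
  ext s hs
  have h1 : Measurable (s.indicator (fun _ => (1:ENNReal))) := measurable_one.indicator hs
  rw [← lintegral_indicator_one hs, ← lintegral_indicator_one hs, lintegral_map
    (measurable_one.indicator hs) hm, lintegral_map (measurable_one.indicator hs)
    (measurable_B e n)]
  exact (lint_xs (μ := μ) e (measurable_one.indicator hs) n 0).trans
    (lint_B (μ := μ) e (measurable_one.indicator hs) n).symm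


/-! ### The limit in mean -/

/-- `E[log(1+Y)]` at `e = ε²` -/
noncomputable def lam (μ : Measure ℝ) (ε : ℝ) : ℝ := ∫ ω, Real.log (1 + Ye (ε ^ 2) ω) ∂(Pm μ)

theorem Law.log_bound_int (h : Law μ α) {c : ℝ} (hc : 1 ≤ c) :
    Integrable (fun z => Real.log (1 + c * z)) μ := by
  refine (h.log_int.add (integrable_const (Real.log c))).mono'
    (by fun_prop : Measurable fun z : ℝ => Real.log (1 + c * z)).aestronglyMeasurable ?_
  filter_upwards [h.pos] with z hz
  rw [Real.norm_eq_abs, abs_of_nonneg (Real.log_nonneg (by nlinarith))]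
  simp only [Pi.add_apply]
  rw [← Real.log_mul (by positivity) (by positivity)]
  apply Real.log_le_log (by positivity)
  nlinarith

theorem int_eval' {f : ℝ → ℝ} (hf : Integrable f μ) (n : ℕ) :
    Integrable (fun ω => f (ω n)) (Pm μ) :=
  (measurePreserving_eval_infinitePi (fun _ : ℕ => μ) n).integrable_comp_of_integrable hf

theorem xs_le {e : ℝ} (he : 0 < e) (he1 : e ≤ 1) {z : ℕ → ℝ} (hz : ∀ n, 0 < z n) (n : ℕ) :
    e * xs e z 0 (n + 1) ≤ z n := by
  have h1 := F_le he he1 (hz n).le (xs_nonneg he.le hz n)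
  have h2 : xs e z 0 (n + 1) = F e (z n) (xs e z 0 n) := rfl
  rw [h2]
  rw [le_div_iff₀ he] at h1
  linarith

theorem Law.int_log_xs (h : Law μ α) {e : ℝ} (he : 0 < e) (he1 : e < 1) (n : ℕ) :
    Integrable (fun ω => Real.log (1 + e * xs e ω 0 n)) (Pm μ) := by
  have hm : Measurable (fun ω : ℕ → ℝ => xs e ω 0 n) :=
    (measurable_xs e n).comp (measurable_id.prodMk measurable_const)
  cases n with
  | zero =>
    simp only [xs, mul_zero, add_zero, Real.log_one]
    exact integrable_zero _ _ _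
  | succ n =>
    refine (int_eval' h.log_int n).mono' (by fun_prop : Measurable fun ω : ℕ → ℝ =>
      Real.log (1 + e * xs e ω 0 (n + 1))).aestronglyMeasurable ?_
    filter_upwards [h.ae_good] with ω hω
    have h1 := xs_nonneg he.le hω.pos (n + 1)
    have h2 := xs_le he he1.le hω.pos n
    have h3 : 0 ≤ e * xs e ω 0 (n + 1) := by positivity
    rw [Real.norm_eq_abs, abs_of_nonneg (Real.log_nonneg (by linarith))]
    exact Real.log_le_log (by linarith) (by linarith)

theorem Law.tendsto_log_B (h : Law μ α) {e : ℝ} (he : 0 < e) (he1 : e < 1) :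
    Tendsto (fun n => ∫ ω, Real.log (1 + e * B e n ω) ∂(Pm μ)) atTop
      (𝓝 (∫ ω, Real.log (1 + Ye e ω) ∂(Pm μ))) := by
  apply tendsto_integral_of_dominated_convergence (fun ω => Real.log (1 + ω 0))
  · intro n
    have := measurable_B e n
    exact (by fun_prop : Measurable fun ω : ℕ → ℝ =>
      Real.log (1 + e * B e n ω)).aestronglyMeasurable
  · exact int_eval h.log_int
  · intro n
    filter_upwards [h.ae_good] with ω hω
    have h1 := B_nonneg he.le n hω.pos
    have h2 := B_le he he1.le n hω.pos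
    rw [le_div_iff₀ he] at h2
    have h3 : 0 ≤ e * B e n ω := by positivity
    rw [Real.norm_eq_abs, abs_of_nonneg (Real.log_nonneg (by linarith))]
    exact Real.log_le_log (by linarith) (by linarith)
  · filter_upwards [h.ae_good] with ω hω
    have h1 := X_tendsto he.le he1.le hω.pos hω.bdd
    have h2 := X_pos he.le he1.le hω.pos hω.bdd
    have h3 : Tendsto (fun n => 1 + e * B e n ω) atTop (𝓝 (1 + e * X e ω)) :=
      (h1.const_mul e).const_add 1
    exact h3.log (by positivity)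

theorem Law.tendsto_log_xs (h : Law μ α) {e : ℝ} (he : 0 < e) (he1 : e < 1) :
    Tendsto (fun n => ∫ ω, Real.log (1 + e * xs e ω 0 n) ∂(Pm μ)) atTop
      (𝓝 (∫ ω, Real.log (1 + Ye e ω) ∂(Pm μ))) := by
  refine (h.tendsto_log_B he he1).congr fun n => ?_
  have h1 := (ident_xs_B (μ := μ) e n).comp
    (by fun_prop : Measurable fun x : ℝ => Real.log (1 + e * x))
  exact h1.integral_eq.symm

theorem Law.int_log_aN (h : Law μ α) {ε : ℝ} (hε : 0 < ε) (hε1 : ε < 1) (n : ℕ) :
    Integrable (fun ω => Real.log (aN ε n ω)) (Pm μ) ∧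
    ∫ ω, Real.log (aN ε n ω) ∂(Pm μ) =
      ∑ k ∈ Finset.range n, ∫ ω, Real.log (1 + ε ^ 2 * xs (ε ^ 2) ω 0 k) ∂(Pm μ) := by
  have he : 0 < ε ^ 2 := by positivity
  have he1 : ε ^ 2 < 1 := by nlinarith
  have hcong : (fun ω => Real.log (aN ε n ω)) =ᵐ[Pm μ]
      fun ω => ∑ k ∈ Finset.range n, Real.log (1 + ε ^ 2 * xs (ε ^ 2) ω 0 k) := by
    filter_upwards [h.ae_good] with ω hω
    exact log_aN hε hω.pos n
  rw [integrable_congr hcong, integral_congr_ae hcong]
  refine ⟨integrable_finsetSum _ fun k _ => h.int_log_xs he he1 k, ?_⟩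
  exact integral_finsetSum _ fun k _ => h.int_log_xs he he1 k

theorem Law.tendsto_mean (h : Law μ α) {ε : ℝ} (hε : 0 < ε) (hε1 : ε < 1) :
    Tendsto (fun n : ℕ => (∫ ω, Real.log (aN ε n ω) ∂(Pm μ)) / n) atTop (𝓝 (lam μ ε)) := by
  have he : 0 < ε ^ 2 := by positivity
  have he1 : ε ^ 2 < 1 := by nlinarith
  have h1 := (h.tendsto_log_xs he he1).cesaro
  refine h1.congr fun n => ?_
  rw [(h.int_log_aN hε hε1 n).2, div_eq_inv_mul]

/-! ### Almost sure convergence -/

theorem lower_blocks {ε : ℝ} (hε : 0 < ε) {z : ℕ → ℝ} (hz : ∀ n, 0 < z n) (N k : ℕ) :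
    ∑ i ∈ Finset.range k, Real.log (aN ε N (shift^[i * N] z)) ≤ Real.log (aN ε (k * N) z) := by
  induction k with
  | zero => simp [aN, prodM]
  | succ k ih =>
    rw [Finset.sum_range_succ, shift_iterate (k * N)]
    have h1 := aN_super hε hz (k * N) N
    have h2 := one_le_aN hε hz (k * N)
    have h3 := one_le_aN hε (z := fun j => z (j + k * N)) (fun j => hz (j + k * N)) N
    have h4 : (k + 1) * N = k * N + N := by ring
    rw [h4]
    calc _ ≤ Real.log (aN ε (k * N) z) + Real.log (aN ε N (fun j => z (j + k * N))) := by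
          linarith
      _ = Real.log (aN ε (k * N) z * aN ε N (fun j => z (j + k * N))) := by
          rw [Real.log_mul (by positivity) (by positivity)]
      _ ≤ _ := Real.log_le_log (by positivity) h1

theorem upper_blocks' {ε : ℝ} (hε : 0 < ε) (hε1 : ε < 1) {z : ℕ → ℝ} (hz : ∀ n, 0 < z n)
    (N k : ℕ) :
    Real.log (aN ε ((k + 1) * (N + 1)) z) ≤
      ∑ i ∈ Finset.range k, (Real.log (aN ε (N + 1) (shift^[i * (N + 1)] z)) +
        Real.log (1 + 1 / ε ^ 2 * (shift^[i * (N + 1)] z N))) +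
      Real.log (aN ε (N + 1) (shift^[k * (N + 1)] z)) := by
  induction k with
  | zero => simp
  | succ k ih =>
    have h1 := aN_sub hε hε1 hz (k * (N + 1) + N) (N + 1)
    have e1 : k * (N + 1) + N + 1 = (k + 1) * (N + 1) := by ring
    have e2 : (k + 1 + 1) * (N + 1) = (k + 1) * (N + 1) + (N + 1) := by ring
    rw [e1] at h1
    rw [e2]
    have h2 := one_le_aN hε hz ((k + 1) * (N + 1))
    have h3 := one_le_aN hε (z := fun j => z (j + (k + 1) * (N + 1)))
      (fun j => hz (j + (k + 1) * (N + 1))) (N + 1)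
    have h4 : 0 < z (k * (N + 1) + N) / ε ^ 2 := div_pos (hz _) (by positivity)
    have h5 := Real.log_le_log (by
      have := one_le_aN hε hz ((k + 1) * (N + 1) + (N + 1))
      linarith) h1
    rw [Real.log_mul (by positivity) (by positivity), Real.log_mul (by positivity)
      (by positivity)] at h5
    rw [Finset.sum_range_succ]
    have h6 : shift^[k * (N + 1)] z N = z (k * (N + 1) + N) := by
      rw [shift_iterate]
      show z (N + k * (N + 1)) = z (k * (N + 1) + N)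
      rw [add_comm]
    have h7 : shift^[(k + 1) * (N + 1)] z = fun j => z (j + (k + 1) * (N + 1)) := by
      rw [shift_iterate]
    rw [h6, h7]
    have h8 : 1 / ε ^ 2 * z (k * (N + 1) + N) = z (k * (N + 1) + N) / ε ^ 2 := by ring
    rw [h8]
    linarith

theorem upper_blocks {ε : ℝ} (hε : 0 < ε) (hε1 : ε < 1) {z : ℕ → ℝ} (hz : ∀ n, 0 < z n)
    (N k : ℕ) :
    Real.log (aN ε ((k + 1) * (N + 1)) z) ≤
      ∑ i ∈ Finset.range (k + 1), (Real.log (aN ε (N + 1) (shift^[i * (N + 1)] z)) +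
        Real.log (1 + 1 / ε ^ 2 * (shift^[i * (N + 1)] z N))) := by
  refine (upper_blocks' hε hε1 hz N k).trans ?_
  rw [Finset.sum_range_succ]
  have h1 : 0 < shift^[k * (N + 1)] z N := by rw [shift_iterate]; exact hz _
  have h2 : 0 ≤ Real.log (1 + 1 / ε ^ 2 * (shift^[k * (N + 1)] z N)) := by
    apply Real.log_nonneg
    have : 0 ≤ 1 / ε ^ 2 * (shift^[k * (N + 1)] z N) := by positivity
    linarith
  linarith

theorem tendsto_div_nat (N : ℕ) (hN : 0 < N) :
    Tendsto (fun n : ℕ => ((n / N : ℕ) : ℝ) / n) atTop (𝓝 (1 / N)) := by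
  have h1 := (tendsto_nat_floor_mul_div_atTop (R := ℝ) (a := 1 / N) (by positivity)).comp
    (tendsto_natCast_atTop_atTop (R := ℝ))
  refine h1.congr fun n => ?_
  simp only [Function.comp]
  congr 2
  rw [one_div_mul_eq_div]
  exact Nat.floor_div_eq_div n N

theorem tendsto_blocks {u : ℕ → ℝ} {c : ℝ} (N : ℕ) (hN : 0 < N)
    (hu : Tendsto (fun n : ℕ => u n / n) atTop (𝓝 c)) :
    Tendsto (fun n : ℕ => u (n / N) / n) atTop (𝓝 (c / N)) ∧
    Tendsto (fun n : ℕ => u (n / N + 1) / n) atTop (𝓝 (c / N)) := by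
  have h0 : Tendsto (fun n : ℕ => n / N) atTop atTop := Nat.tendsto_div_const_atTop hN.ne'
  have h1 := tendsto_div_nat N hN
  have hinv : Tendsto (fun n : ℕ => (1:ℝ) / n) atTop (𝓝 0) := tendsto_one_div_atTop_nhds_zero_nat
  constructor
  · have h2 := (hu.comp h0).mul h1
    have h3 : c * (1 / (N:ℝ)) = c / N := by ring
    rw [h3] at h2
    refine h2.congr' ?_
    filter_upwards [h0.eventually_ge_atTop 1, eventually_ge_atTop 1] with n hn hn1
    simp only [Function.comp]
    have a1 : ((n / N : ℕ) : ℝ) ≠ 0 := by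
      have : n / N ≠ 0 := by omega
      exact_mod_cast this
    have a2 : (n:ℝ) ≠ 0 := by
      have : n ≠ 0 := by omega
      exact_mod_cast this
    generalize ((n / N : ℕ) : ℝ) = w at *
    field_simp
  · have h2 := (hu.comp ((tendsto_add_atTop_nat 1).comp h0)).mul (h1.add hinv)
    have h3 : c * (1 / (N:ℝ) + 0) = c / N := by ring
    rw [h3] at h2
    refine h2.congr' ?_
    filter_upwards [eventually_ge_atTop 1] with n hn1
    simp only [Function.comp]
    have a2 : (n:ℝ) ≠ 0 := by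
      have : n ≠ 0 := by omega
      exact_mod_cast this
    push_cast
    have a3 : (0:ℝ) ≤ ((n / N : ℕ) : ℝ) := by positivity
    generalize ((n / N : ℕ) : ℝ) = w at *
    have a4 : w + 1 ≠ 0 := by positivity
    field_simp

theorem Law.ae_tendsto_aN (h : Law μ α) {ε : ℝ} (hε : 0 < ε) (hε1 : ε < 1) :
    ∀ᵐ ω ∂(Pm μ), Tendsto (fun n : ℕ => Real.log (aN ε n ω) / n) atTop (𝓝 (lam μ ε)) := by
  have hmA : ∀ N, Measurable (fun ω : ℕ → ℝ => Real.log (aN ε N ω)) := fun N =>
    Real.measurable_log.comp (measurable_prodM ε N 0 0)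
  have hc1 : 1 ≤ 1 / ε ^ 2 := by
    rw [le_div_iff₀ (by positivity)]; nlinarith
  have hiL := h.log_bound_int hc1
  set c0 := ∫ z, Real.log (1 + 1 / ε ^ 2 * z) ∂μ with hc0
  have hintL : ∀ N : ℕ, ∫ ω, Real.log (1 + 1 / ε ^ 2 * ω N) ∂(Pm μ) = c0 := by
    intro N
    have h1 := (measurePreserving_eval_infinitePi (fun _ : ℕ => μ) N)
    have h2 := integral_map (μ := Pm μ) (φ := Function.eval N)
      (f := fun z => Real.log (1 + 1 / ε ^ 2 * z)) h1.measurable.aemeasurable
      (by fun_prop : Measurable fun z : ℝ => Real.log (1 + 1 / ε ^ 2 * z)).aestronglyMeasurable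
    rw [h1.map_eq] at h2
    exact h2.symm
  have hG : ∀ᵐ ω ∂(Pm μ), ∀ N : ℕ, Tendsto (fun n : ℕ => (∑ i ∈ Finset.range n,
      Real.log (aN ε (N + 1) (shift^[i * (N + 1)] ω))) / n) atTop
      (𝓝 (∫ ω, Real.log (aN ε (N + 1) ω) ∂(Pm μ))) := by
    rw [ae_all_iff]
    intro N
    exact slln_block μ (hmA (N + 1)) (h.int_log_aN hε hε1 (N + 1)).1 (Nat.succ_pos N)
      (fun ω ω' hω => by unfold aN; rw [prodM_dep ε (N + 1) hω])
  have hH : ∀ᵐ ω ∂(Pm μ), ∀ N : ℕ, Tendsto (fun n : ℕ => (∑ i ∈ Finset.range n,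
      (Real.log (aN ε (N + 1) (shift^[i * (N + 1)] ω)) +
        Real.log (1 + 1 / ε ^ 2 * (shift^[i * (N + 1)] ω N)))) / n) atTop
      (𝓝 (∫ ω, Real.log (aN ε (N + 1) ω) ∂(Pm μ) + c0)) := by
    rw [ae_all_iff]
    intro N
    have i1 := (h.int_log_aN hε hε1 (N + 1)).1
    have i2 := int_eval' hiL N
    have h1 := slln_block μ (G := fun ω => Real.log (aN ε (N + 1) ω) +
      Real.log (1 + 1 / ε ^ 2 * ω N)) ((hmA (N + 1)).add (by fun_prop))
      (i1.add i2) (Nat.succ_pos N)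
      (fun ω ω' hω => by
        unfold aN
        rw [prodM_dep ε (N + 1) hω, hω N (by omega)])
    rw [integral_add i1 i2, hintL N] at h1
    exact h1
  filter_upwards [hG, hH, h.ae_good] with ω hG hH hω
  rw [Metric.tendsto_nhds]
  intro δ hδ
  -- choose N
  have hmean := h.tendsto_mean hε hε1
  have hcN : Tendsto (fun n : ℕ => c0 / (n:ℝ)) atTop (𝓝 0) := tendsto_const_div_atTop_nhds_zero_nat c0
  have hev := (((Metric.tendsto_nhds.1 hmean) (δ / 3) (by positivity)).and
    ((Metric.tendsto_nhds.1 hcN) (δ / 3) (by positivity))).and (eventually_ge_atTop 1)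
  obtain ⟨N', ⟨hN1, hN2⟩, hN3⟩ := hev.exists
  obtain ⟨N, rfl⟩ : ∃ N, N' = N + 1 := ⟨N' - 1, by omega⟩
  rw [Real.dist_eq] at hN1 hN2
  rw [sub_zero] at hN2
  have hl := (tendsto_blocks (N + 1) (Nat.succ_pos N) (hG N)).1
  have hu := (tendsto_blocks (N + 1) (Nat.succ_pos N) (hH N)).2
  have hl' := (Metric.tendsto_nhds.1 hl) (δ / 3) (by positivity)
  have hu' := (Metric.tendsto_nhds.1 hu) (δ / 3) (by positivity)
  filter_upwards [hl', hu', eventually_ge_atTop 1] with n hl hu hn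
  rw [Real.dist_eq] at hl hu ⊢
  have hnpos : (0:ℝ) < n := by
    have : 0 < n := by omega
    exact_mod_cast this
  have b1 : (∑ i ∈ Finset.range (n / (N + 1)),
      Real.log (aN ε (N + 1) (shift^[i * (N + 1)] ω))) ≤ Real.log (aN ε n ω) := by
    refine (lower_blocks hε hω.pos (N + 1) (n / (N + 1))).trans ?_
    apply Real.log_le_log
    · have := one_le_aN hε hω.pos (n / (N + 1) * (N + 1))
      linarith
    · exact aN_mono hε hω.pos (Nat.div_mul_le_self n (N + 1))
  have b2 : Real.log (aN ε n ω) ≤ (∑ i ∈ Finset.range (n / (N + 1) + 1),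
      (Real.log (aN ε (N + 1) (shift^[i * (N + 1)] ω)) +
        Real.log (1 + 1 / ε ^ 2 * (shift^[i * (N + 1)] ω N)))) := by
    refine le_trans ?_ (upper_blocks hε hε1 hω.pos N (n / (N + 1)))
    apply Real.log_le_log
    · have := one_le_aN hε hω.pos n
      linarith
    · apply aN_mono hε hω.pos
      have := Nat.lt_div_mul_add (a := n) (b := N + 1) (Nat.succ_pos N)
      nlinarith
  have b3 := div_le_div_of_nonneg_right b1 hnpos.le
  have b4 := div_le_div_of_nonneg_right b2 hnpos.le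
  rw [abs_lt] at hl hu hN1 hN2 ⊢
  rw [add_div] at hu
  constructor <;> linarith [hl.1, hl.2, hu.1, hu.2, hN1.1, hN1.2, hN2.1, hN2.2]

theorem Law.ae_last (h : Law μ α) {c : ℝ} (hc : 1 ≤ c) :
    ∀ᵐ ω ∂(Pm μ), Tendsto (fun n : ℕ => Real.log (1 + c * ω n) / ((n:ℝ) + 1)) atTop (𝓝 0) := by
  have h1 := slln_block μ (G := fun ω => Real.log (1 + c * ω 0)) (by fun_prop)
    (int_eval' (h.log_bound_int hc) 0) (N := 1) one_pos
    (fun ω ω' hω => by simp only [hω 0 one_pos])
  filter_upwards [h1] with ω h1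
  simp only [mul_one] at h1
  set L := ∫ ω, Real.log (1 + c * ω 0) ∂(Pm μ)
  have h2 := h1.comp (tendsto_add_atTop_nat 1)
  have h3 : Tendsto (fun n : ℕ => (n:ℝ) / ((n:ℝ) + 1)) atTop (𝓝 1) :=
    tendsto_natCast_div_add_atTop 1
  have h4 := h2.sub (h1.mul h3)
  rw [mul_one, sub_self] at h4
  refine h4.congr' ?_
  filter_upwards [eventually_ge_atTop 1] with n hn
  simp only [Function.comp]
  rw [Finset.sum_range_succ]
  have h5 : shift^[n] ω 0 = ω n := by rw [shift_iterate]; simp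
  rw [h5]
  have h6 : (n:ℝ) ≠ 0 := by
    have : n ≠ 0 := by omega
    exact_mod_cast this
  have h7 : (n:ℝ) + 1 ≠ 0 := by positivity
  push_cast
  field_simp
  ring

theorem nrm_bounds {ε : ℝ} (hε : 0 < ε) (hε1 : ε < 1) {z : ℕ → ℝ} (hz : ∀ n, 0 < z n) (n : ℕ) :
    aN ε (n + 1) z ≤ nrm (prodM ε z (n + 1)) ∧
    nrm (prodM ε z (n + 1)) ≤ (1 + 1 / ε) * (1 + 1 / ε * z n) * aN ε (n + 1) z := by
  have h00 := prodM_nonneg hε hz (n + 1) 0 0
  have h01 := prodM_nonneg hε hz (n + 1) 0 1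
  have h10 := prodM_nonneg hε hz (n + 1) 1 0
  have h11 := prodM_nonneg hε hz (n + 1) 1 1
  have c0 := prodM_col hε hε1 hz n 0
  have c1 := prodM_col hε hε1 hz n 1
  have r0 := prodM_row hε hε1 hz n 0
  unfold nrm
  simp only [Fin.sum_univ_two, abs_of_nonneg h00, abs_of_nonneg h01, abs_of_nonneg h10,
    abs_of_nonneg h11]
  unfold aN
  constructor
  · linarith
  · have e1 : 0 < 1 / ε := by positivity
    calc _ ≤ prodM ε z (n + 1) 0 0 + 1 / ε * prodM ε z (n + 1) 0 0 +
          (prodM ε z (n + 1) 1 0 + 1 / ε * prodM ε z (n + 1) 1 0) := by linarith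
      _ = (1 + 1 / ε) * (prodM ε z (n + 1) 0 0 + prodM ε z (n + 1) 1 0) := by ring
      _ ≤ (1 + 1 / ε) * (prodM ε z (n + 1) 0 0 + z n / ε * prodM ε z (n + 1) 0 0) := by
          gcongr
      _ = _ := by ring

/-- **The Lyapunov exponent.** -/
theorem Law.lyap (h : Law μ α) {ε : ℝ} (hε : 0 < ε) (hε1 : ε < 1) :
    ∀ᵐ ω ∂(Pm μ), Tendsto (fun n : ℕ => Real.log (nrm (prodM ε ω n)) / n) atTop
      (𝓝 (lam μ ε)) := by
  have hc1 : 1 ≤ 1 / ε := by
    rw [le_div_iff₀ hε]; linarith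
  filter_upwards [h.ae_tendsto_aN hε hε1, h.ae_last hc1, h.ae_good] with ω h1 h2 hω
  rw [← tendsto_add_atTop_iff_nat 1]
  have h3 := h1.comp (tendsto_add_atTop_nat 1)
  have h4 : Tendsto (fun n : ℕ => Real.log (1 + 1 / ε) / ((n:ℝ) + 1)) atTop (𝓝 0) := by
    have := (tendsto_const_div_atTop_nhds_zero_nat (Real.log (1 + 1 / ε))).comp
      (tendsto_add_atTop_nat 1)
    refine this.congr fun n => ?_
    simp [Function.comp]
  have h5 := (h4.add h2).add h3
  rw [zero_add, zero_add] at h5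
  refine tendsto_of_tendsto_of_tendsto_of_le_of_le h3 h5 ?_ ?_
  · intro n
    simp only [Function.comp]
    apply div_le_div_of_nonneg_right _ (by positivity)
    apply Real.log_le_log _ (nrm_bounds hε hε1 hω.pos n).1
    have := one_le_aN hε hω.pos (n + 1)
    linarith
  · intro n
    simp only [Function.comp]
    push_cast
    rw [← add_div, ← add_div]
    apply div_le_div_of_nonneg_right _ (by positivity)
    obtain ⟨b1, b2⟩ := nrm_bounds hε hε1 hω.pos n
    have h6 := one_le_aN hε hω.pos (n + 1)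
    have h7 := hω.pos n
    have h8 : 0 < 1 + 1 / ε := by positivity
    have h9 : 0 < 1 + 1 / ε * ω n := by positivity
    rw [← Real.log_mul h8.ne' h9.ne', ← Real.log_mul (by positivity) (by positivity)]
    exact Real.log_le_log (by linarith) b2

end Pool.Agent.Lib_helper63.DH
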