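import Pool.Agent.Lib_helper63.DH.Pot

/-!
An elementary renewal theorem for `f = T f + g`.
-/

open MeasureTheory Filter Topology Set

namespace Pool.Agent.Lib_helper63.DH

variable {ν : Measure ℝ} [IsProbabilityMeasure ν]

theorem tail_small {η : ℝ} (hη : 0 < η) : ∃ X : ℝ, (ν (Ioi X)).toReal ≤ η := by
  have h1 := tendsto_measure_Iic_atTop ν
  rw [measure_univ] at h1
  have h2 : Tendsto (fun x : ℝ => (ν (Iic x)).toReal) atTop (𝓝 1) := by
    have := (ENNReal.tendsto_toReal ENNReal.one_ne_top).comp h1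
    rw [ENNReal.toReal_one] at this
    exact this
  obtain ⟨X, hX⟩ := (h2.eventually (lt_mem_nhds (by linarith : 1 - η < 1))).exists
  refine ⟨X, ?_⟩
  have h3 : (ν (Ioi X)).toReal = 1 - (ν (Iic X)).toReal := by
    have := prob_compl_eq_one_sub (μ := ν) (measurableSet_Iic (a := X))
    rw [compl_Iic] at this
    rw [this, ENNReal.toReal_sub_of_le prob_le_one ENNReal.one_ne_top]
    simp
  rw [h3]
  linarith

theorem one_step {f : ℝ → ℝ} {M Λ a : ℝ} (hM : ∀ t, |f t| ≤ M)
    (hΛ : ∀ s t, |f s - f t| ≤ Λ * |s - t|)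
    (hg : Tendsto (fun t => f t - Tn ν f t) atBot (𝓝 0))
    (ha : ∀ r : ℝ, 0 < r → 0 < ν (Metric.ball a r)) {L : ℝ} (hL0 : 0 ≤ L)
    (hL : ∀ η : ℝ, 0 < η → ∀ᶠ t in atBot, f (t + a) - f t ≤ L + η) {η : ℝ} (hη : 0 < η) :
    ∃ η' : ℝ, 0 < η' ∧ η' ≤ η ∧ ∃ T1 : ℝ, ∀ t ≤ T1, L - η' ≤ f (t + a) - f t →
      L - η ≤ f (t + a + a) - f (t + a) := by
  have hM0 : 0 ≤ M := (abs_nonneg _).trans (hM 0)
  have hΛ0 : 0 ≤ Λ := by
    have := (abs_nonneg _).trans (hΛ 1 0)
    simpa using this
  have hfm : Measurable f := lip_measurable hΛ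
  have hbm : BM f := ⟨hfm, M, hM⟩
  set r := η / (2 * (2 * Λ + 1)) with hr
  have hr0 : 0 < r := by positivity
  set p := (ν (Metric.ball a r)).toReal with hp
  have hp0 : 0 < p := ENNReal.toReal_pos (ha r hr0).ne' (measure_ne_top _ _)
  obtain ⟨X, hX⟩ := tail_small (ν := ν) (η := η * p / (16 * (2 * M + 1))) (by positivity)
  set η' := min η (η * p / 16) with hη'
  have hη'0 : 0 < η' := lt_min hη (by positivity)
  have hη'1 : η' ≤ η * p / 16 := min_le_right _ _
  obtain ⟨T2, hT2⟩ := eventually_atBot.1 (hL η' hη'0)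
  -- the increments of f - Tf
  have hgd : Tendsto (fun t => (f (t + a) - Tn ν f (t + a)) - (f t - Tn ν f t)) atBot (𝓝 0) := by
    have h1 : Tendsto (fun t : ℝ => t + a) atBot atBot := tendsto_atBot_add_const_right _ a tendsto_id
    have := (hg.comp h1).sub hg
    simpa using this
  obtain ⟨T3, hT3⟩ := eventually_atBot.1 (hgd.eventually (gt_mem_nhds hη'0))
  refine ⟨η', hη'0, min_le_left _ _, min (T2 - X) T3, ?_⟩
  intro t ht hD
  by_contra hcon
  push Not at hcon
  have ht2 : t ≤ T2 - X := ht.trans (min_le_left _ _)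
  have ht3 := hT3 t (ht.trans (min_le_right _ _))
  -- pointwise bound
  have hpt : ∀ x, f (x + (t + a)) - f (x + t) ≤
      (L + η') + 2 * M * (Ioi X).indicator (fun _ => (1:ℝ)) x -
        η / 2 * (Metric.ball a r).indicator (fun _ => (1:ℝ)) x := by
    intro x
    by_cases hx : x ∈ Metric.ball a r
    · have h1 : f (x + (t + a)) - f (x + t) ≤ L - η / 2 := by
        have e1 := hΛ (x + (t + a)) (t + a + a)
        have e2 := hΛ (x + t) (t + a)
        have e3 : x + (t + a) - (t + a + a) = x - a := by ring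
        have e4 : x + t - (t + a) = x - a := by ring
        rw [e3] at e1
        rw [e4] at e2
        have e5 : |x - a| < r := by rwa [Metric.mem_ball, Real.dist_eq] at hx
        have e6 := (abs_le.1 e1).2
        have e7 := (abs_le.1 e2).1
        have e8 : Λ * |x - a| + Λ * |x - a| ≤ η / 2 := by
          have : (2 * Λ + 1) * r = η / 2 := by rw [hr]; field_simp
          nlinarith [abs_nonneg (x - a)]
        linarith
      rw [indicator_of_mem hx]
      have h2 : 0 ≤ (Ioi X).indicator (fun _ => (1:ℝ)) x := indicator_nonneg (fun _ _ => by norm_num) x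
      have h3 : 0 ≤ 2 * M * (Ioi X).indicator (fun _ => (1:ℝ)) x := by positivity
      linarith
    · rw [indicator_of_notMem hx]
      by_cases hx2 : x ∈ Ioi X
      · rw [indicator_of_mem hx2]
        have e1 := (abs_le.1 (hM (x + (t + a)))).2
        have e2 := (abs_le.1 (hM (x + t))).1
        linarith
      · rw [indicator_of_notMem hx2]
        have hxX : x ≤ X := not_lt.1 hx2
        have := hT2 (x + t) (by linarith)
        rw [add_assoc] at this
        linarith
  have iD : Integrable (fun x => f (x + (t + a)) - f (x + t)) ν := (hbm.int _).sub (hbm.int _)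
  have i1 : Integrable ((Ioi X).indicator (fun _ => (1:ℝ))) ν :=
    (integrable_const _).indicator measurableSet_Ioi
  have i2 : Integrable ((Metric.ball a r).indicator (fun _ => (1:ℝ))) ν :=
    (integrable_const _).indicator measurableSet_ball
  have i3 : Integrable (fun x => (L + η') + 2 * M * (Ioi X).indicator (fun _ => (1:ℝ)) x) ν :=
    (integrable_const _).add (i1.const_mul _)
  have hint := integral_mono iD (i3.sub (i2.const_mul (η / 2))) hpt
  have hR : ∫ x, ((L + η') + 2 * M * (Ioi X).indicator (fun _ => (1:ℝ)) x -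
        η / 2 * (Metric.ball a r).indicator (fun _ => (1:ℝ)) x) ∂ν =
      (L + η') + 2 * M * (ν (Ioi X)).toReal - η / 2 * p := by
    rw [integral_sub i3 (i2.const_mul _), integral_add (integrable_const _) (i1.const_mul _),
      integral_const_mul, integral_const_mul, integral_indicator measurableSet_Ioi,
      integral_indicator measurableSet_ball]
    simp [hp, Measure.real]
  have hLHS : ∫ x, (f (x + (t + a)) - f (x + t)) ∂ν = Tn ν f (t + a) - Tn ν f t := by
    unfold Tn
    rw [integral_sub (hbm.int _) (hbm.int _)]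
  have hint' : Tn ν f (t + a) - Tn ν f t ≤ (L + η') + 2 * M * (ν (Ioi X)).toReal - η / 2 * p := by
    rw [← hLHS, ← hR]; exact hint
  have h5 : 2 * M * (ν (Ioi X)).toReal ≤ η * p / 16 := by
    calc 2 * M * (ν (Ioi X)).toReal ≤ 2 * M * (η * p / (16 * (2 * M + 1))) :=
          mul_le_mul_of_nonneg_left hX (by positivity)
      _ ≤ (2 * M + 1) * (η * p / (16 * (2 * M + 1))) :=
          mul_le_mul_of_nonneg_right (by linarith) (by positivity)
      _ = η * p / 16 := by field_simp
  have h6 : 0 < η * p := by positivity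
  linarith

theorem stepA {f : ℝ → ℝ} {M Λ a : ℝ} (hM : ∀ t, |f t| ≤ M)
    (hΛ : ∀ s t, |f s - f t| ≤ Λ * |s - t|)
    (hg : Tendsto (fun t => f t - Tn ν f t) atBot (𝓝 0))
    (ha : ∀ r : ℝ, 0 < r → 0 < ν (Metric.ball a r)) {l : ℝ} (hl : 0 < l) :
    ∀ᶠ t in atBot, f (t + a) - f t ≤ l := by
  by_contra hcon
  have hM0 : 0 ≤ M := (abs_nonneg _).trans (hM 0)
  set S : Set ℝ := {c | 0 ≤ c ∧ ∀ᶠ t in atBot, f (t + a) - f t ≤ c} with hS
  have hSne : S.Nonempty := by
    refine ⟨2 * M, by positivity, Eventually.of_forall fun t => ?_⟩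
    have e1 := (abs_le.1 (hM (t + a))).2
    have e2 := (abs_le.1 (hM t)).1
    linarith
  have hSb : BddBelow S := ⟨0, fun c hc => hc.1⟩
  set L := sInf S with hLdef
  have hSl : ∀ c ∈ S, l ≤ c := by
    intro c hc
    by_contra h1
    push Not at h1
    apply hcon
    filter_upwards [hc.2] with t ht
    linarith
  have hLl : l ≤ L := le_csInf hSne hSl
  have hL0 : 0 < L := by linarith
  have hL1 : ∀ η : ℝ, 0 < η → ∀ᶠ t in atBot, f (t + a) - f t ≤ L + η := by
    intro η hη
    obtain ⟨c, hc, hcL⟩ := exists_lt_of_csInf_lt hSne (by linarith : sInf S < L + η)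
    filter_upwards [hc.2] with t ht
    linarith
  have hL2 : ∀ η : ℝ, 0 < η → η < L → ∀ T0 : ℝ, ∃ t ≤ T0, L - η ≤ f (t + a) - f t := by
    intro η hη hηL T0
    by_contra h1
    push Not at h1
    have h2 : L - η ∈ S := by
      refine ⟨by linarith, ?_⟩
      filter_upwards [eventually_le_atBot T0] with t ht
      exact (h1 t ht).le
    have := csInf_le hSb h2
    linarith
  have hP : ∀ n : ℕ, ∀ η : ℝ, 0 < η → η < L → ∀ T0 : ℝ, ∃ t ≤ T0, ∀ k ≤ n,
      L - η ≤ f (t + k * a + a) - f (t + k * a) := by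
    intro n
    induction n with
    | zero =>
      intro η hη hηL T0
      obtain ⟨t, ht, h1⟩ := hL2 η hη hηL T0
      refine ⟨t, ht, fun k hk => ?_⟩
      have : k = 0 := by omega
      subst this
      simpa using h1
    | succ n ih =>
      intro η hη hηL T0
      obtain ⟨η', h1, h2, T1, hT1⟩ := one_step hM hΛ hg ha hL0.le hL1 hη
      obtain ⟨t, ht, hk⟩ := ih η' h1 (by linarith) (min T0 (T1 - n * a))
      refine ⟨t, ht.trans (min_le_left _ _), fun k hkn => ?_⟩
      rcases Nat.lt_or_ge k (n + 1) with h3 | h3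
      · have := hk k (by omega)
        linarith
      · have hkk : k = n + 1 := by omega
        subst hkk
        have h4 := hT1 (t + n * a) (by
          have := ht.trans (min_le_right _ _)
          linarith) (hk n le_rfl)
        have e1 : t + n * a + a = t + ((n + 1 : ℕ) : ℝ) * a := by push_cast; ring
        rw [e1] at h4
        exact h4
  obtain ⟨n, hn⟩ := exists_nat_gt (2 * M / (L / 2))
  obtain ⟨t, _, hk⟩ := hP n (L / 2) (by positivity) (by linarith) 0
  have hsum : ∑ k ∈ Finset.range (n + 1), (f (t + k * a + a) - f (t + k * a)) =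
      f (t + (n + 1 : ℕ) * a) - f t := by
    have h1 : ∀ k : ℕ, f (t + k * a + a) - f (t + k * a) =
        (fun k : ℕ => f (t + k * a)) (k + 1) - (fun k : ℕ => f (t + k * a)) k := by
      intro k
      simp only
      congr 2
      push_cast; ring
    simp only [h1]
    rw [Finset.sum_range_sub (fun k : ℕ => f (t + k * a)) (n + 1)]
    simp
  have hlow : ((n:ℝ) + 1) * (L / 2) ≤
      ∑ k ∈ Finset.range (n + 1), (f (t + k * a + a) - f (t + k * a)) := by
    have : ∑ _k ∈ Finset.range (n + 1), (L / 2) ≤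
        ∑ k ∈ Finset.range (n + 1), (f (t + k * a + a) - f (t + k * a)) := by
      apply Finset.sum_le_sum
      intro k hk'
      rw [Finset.mem_range] at hk'
      have := hk k (by omega)
      linarith
    simpa using this
  rw [hsum] at hlow
  have e1 := (abs_le.1 (hM (t + (n + 1 : ℕ) * a))).2
  have e2 := (abs_le.1 (hM t)).1
  rw [div_lt_iff₀ (by positivity)] at hn
  nlinarith

theorem stepA' {f : ℝ → ℝ} {M Λ a : ℝ} (hM : ∀ t, |f t| ≤ M)
    (hΛ : ∀ s t, |f s - f t| ≤ Λ * |s - t|)
    (hg : Tendsto (fun t => f t - Tn ν f t) atBot (𝓝 0))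
    (ha : ∀ r : ℝ, 0 < r → 0 < ν (Metric.ball a r)) :
    Tendsto (fun t => f (t + a) - f t) atBot (𝓝 0) := by
  rw [Metric.tendsto_nhds]
  intro δ hδ
  have h1 := stepA hM hΛ hg ha (l := δ / 2) (by positivity)
  have hT : ∀ t, Tn ν (fun t => -f t) t = -Tn ν f t := by
    intro t; unfold Tn; rw [integral_neg]
  have h2 := stepA (ν := ν) (f := fun t => -f t) (M := M) (Λ := Λ)
    (fun t => by rw [abs_neg]; exact hM t)
    (fun s t => by
      have := hΛ s t
      rw [← abs_neg] at this
      have e : -f s - -f t = -(f s - f t) := by ring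
      rw [e]; exact this)
    (by
      have := hg.neg
      rw [neg_zero] at this
      refine this.congr fun t => ?_
      rw [hT]; ring) ha (l := δ / 2) (by positivity)
  filter_upwards [h1, h2] with t h1 h2
  rw [Real.dist_eq, sub_zero, abs_lt]
  constructor <;> linarith

theorem stepB {f : ℝ → ℝ} {M Λ : ℝ} (hM : ∀ t, |f t| ≤ M)
    (hΛ : ∀ s t, |f s - f t| ≤ Λ * |s - t|)
    (hg : Tendsto (fun t => f t - Tn ν f t) atBot (𝓝 0))
    (hnl : ∀ a : ℝ, ¬ ∀ᵐ x ∂ν, ∃ k : ℤ, x = k * a) (a : ℝ) :
    Tendsto (fun t => f (t + a) - f t) atBot (𝓝 0) := by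
  have hΛ0 : 0 ≤ Λ := by
    have := (abs_nonneg _).trans (hΛ 1 0)
    simpa using this
  let A : AddSubgroup ℝ :=
    { carrier := {a | Tendsto (fun t => f (t + a) - f t) atBot (𝓝 0)}
      add_mem' := by
        intro a b ha hb
        have h1 : Tendsto (fun t : ℝ => t + a) atBot atBot :=
          tendsto_atBot_add_const_right _ a tendsto_id
        have h2 := (Tendsto.comp hb h1).add ha
        rw [add_zero] at h2
        show Tendsto (fun t => f (t + (a + b)) - f t) atBot (𝓝 0)
        refine h2.congr fun t => ?_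
        simp only [Function.comp]
        rw [add_assoc]; ring
      zero_mem' := by
        show Tendsto (fun t => f (t + 0) - f t) atBot (𝓝 0)
        simp
      neg_mem' := by
        intro a ha
        have h1 : Tendsto (fun t : ℝ => t + -a) atBot atBot :=
          tendsto_atBot_add_const_right _ (-a) tendsto_id
        have h2 := (Tendsto.comp ha h1).neg
        rw [neg_zero] at h2
        show Tendsto (fun t => f (t + -a) - f t) atBot (𝓝 0)
        refine h2.congr fun t => ?_
        simp only [Function.comp]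
        rw [neg_add_cancel_right]; ring }
  have hmem : ∀ x : ℝ, x ∈ A ↔ Tendsto (fun t => f (t + x) - f t) atBot (𝓝 0) := fun x => Iff.rfl
  have hclosed : ∀ x : ℝ, (∀ r : ℝ, 0 < r → ∃ y ∈ A, |x - y| < r) → x ∈ A := by
    intro x hx
    rw [hmem, Metric.tendsto_nhds]
    intro δ hδ
    obtain ⟨y, hy, hxy⟩ := hx (δ / (2 * (Λ + 1))) (by positivity)
    have h1 := (Metric.tendsto_nhds.1 ((hmem y).1 hy)) (δ / 2) (by positivity)
    filter_upwards [h1] with t ht
    rw [Real.dist_eq, sub_zero] at ht ⊢
    have h2 := hΛ (t + x) (t + y)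
    rw [add_sub_add_left_eq_sub] at h2
    have h3 : Λ * |x - y| ≤ δ / 2 := by
      have : (Λ + 1) * (δ / (2 * (Λ + 1))) = δ / 2 := by field_simp
      nlinarith [abs_nonneg (x - y)]
    have h4 : f (t + x) - f t = (f (t + x) - f (t + y)) + (f (t + y) - f t) := by ring
    rw [h4]
    refine lt_of_le_of_lt (abs_add_le _ _) ?_
    linarith
  have hsupp : ∀ x : ℝ, (∀ r : ℝ, 0 < r → 0 < ν (Metric.ball x r)) → x ∈ A := by
    intro x hx
    exact stepA' hM hΛ hg hx
  rcases AddSubgroup.dense_or_cyclic A with hd | ⟨c, hc⟩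
  · rw [← hmem]
    apply hclosed
    intro r hr
    obtain ⟨y, hy, hxy⟩ := Metric.mem_closure_iff.1 (hd a) r hr
    exact ⟨y, hy, by rwa [Real.dist_eq] at hxy⟩
  · exfalso
    apply hnl c
    have h1 : ν ((A : Set ℝ)ᶜ) = 0 := by
      apply measure_null_of_locally_null
      intro x hx
      have h2 : ¬ ∀ r : ℝ, 0 < r → 0 < ν (Metric.ball x r) := fun h => hx (hsupp x h)
      push Not at h2
      obtain ⟨r, hr, hr2⟩ := h2
      exact ⟨Metric.ball x r, mem_nhdsWithin_of_mem_nhds (Metric.ball_mem_nhds x hr),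
        le_antisymm hr2 zero_le⟩
    have h2 : ∀ᵐ x ∂ν, x ∈ A := by
      rw [ae_iff]
      exact h1
    filter_upwards [h2] with x hx
    rw [hc, AddSubgroup.mem_closure_singleton] at hx
    obtain ⟨k, hk⟩ := hx
    exact ⟨k, by rw [← hk]; simp⟩


/-! ### Identification of the limit -/

section StepC

variable {f : ℝ → ℝ} {M Λ b : ℝ} (hb : 0 < b) (hf0 : ∀ t, 0 ≤ f t) (hM : ∀ t, f t ≤ M)
  (hdec : ∀ t, f t ≤ M * Real.exp (-b * t)) (hΛ : ∀ s t, |f s - f t| ≤ Λ * |s - t|)
  (hiexp : Integrable (fun x => Real.exp (-b * x)) ν)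

/-- the tail integral -/
noncomputable def Jt (f : ℝ → ℝ) (x : ℝ) : ℝ := ∫ s in Ioi x, f s

include hb hf0 hdec hΛ in
theorem f_intOn (x : ℝ) : IntegrableOn f (Ioi x) := by
  refine ((exp_neg_integrableOn_Ioi x hb).const_mul M).mono'
    (lip_measurable hΛ).aestronglyMeasurable ?_
  filter_upwards with t
  rw [Real.norm_eq_abs, abs_of_nonneg (hf0 t)]
  exact hdec t

include hΛ in
theorem f_cont : Continuous f := by
  have h0 : 0 ≤ Λ := by
    have := (abs_nonneg _).trans (hΛ 1 0)
    simpa using this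
  have : LipschitzWith ⟨Λ, h0⟩ f := by
    apply LipschitzWith.of_dist_le_mul
    intro s t
    rw [Real.dist_eq, Real.dist_eq]
    exact hΛ s t
  exact this.continuous

include hb hf0 hdec hΛ in
theorem Jt_sub (x u : ℝ) : Jt f x - Jt f (x + u) = ∫ s in (0:ℝ)..u, f (x + s) := by
  unfold Jt
  rw [intervalIntegral.integral_Ioi_sub_Ioi' (f_intOn hb hf0 hdec hΛ x)
    (f_intOn hb hf0 hdec hΛ (x + u)), intervalIntegral.integral_comp_add_left]
  simp

include hb hf0 hdec hΛ in
theorem Jt_anti : Antitone (Jt f) := by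
  intro x y hxy
  have h1 := Jt_sub hb hf0 hdec hΛ x (y - x)
  rw [add_sub_cancel] at h1
  have h2 : 0 ≤ ∫ s in (0:ℝ)..(y - x), f (x + s) :=
    intervalIntegral.integral_nonneg (by linarith) (fun s _ => hf0 _)
  linarith

include hb hf0 hdec hΛ hM in
theorem Jt_lin (x u : ℝ) : |Jt f x - Jt f (x + u) - u * f x| ≤ M * |u| := by
  have hfc := f_cont hΛ
  rw [Jt_sub hb hf0 hdec hΛ]
  have h1 : ∫ s in (0:ℝ)..u, f x = u * f x := by simp
  rw [← h1, ← intervalIntegral.integral_sub (by
    exact (hfc.comp (continuous_const.add continuous_id)).intervalIntegrable _ _)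
    (continuous_const.intervalIntegrable _ _)]
  have := intervalIntegral.norm_integral_le_of_norm_le_const (a := (0:ℝ)) (b := u)
    (f := fun s => f (x + s) - f x) (C := M) (fun s _ => by
      rw [Real.norm_eq_abs, abs_le]
      have e1 := hf0 (x + s)
      have e2 := hf0 x
      have e3 := hM (x + s)
      have e4 := hM x
      constructor <;> linarith)
  rw [Real.norm_eq_abs, sub_zero] at this
  exact this

include hb hf0 hdec hΛ hM in
theorem Jt_lim (hlim : ∀ a, Tendsto (fun t => f (t + a) - f t) atBot (𝓝 0)) (u : ℝ) :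
    Tendsto (fun x => Jt f x - Jt f (x + u) - u * f x) atBot (𝓝 0) := by
  have hfc := f_cont hΛ
  have h0 : Tendsto (fun x => ∫ s in (0:ℝ)..u, (f (x + s) - f x)) atBot
      (𝓝 (∫ _ in (0:ℝ)..u, (0:ℝ))) := by
    apply intervalIntegral.tendsto_integral_filter_of_dominated_convergence (fun _ => M)
    · filter_upwards with x
      exact ((hfc.comp (continuous_const.add continuous_id)).sub
        continuous_const).aestronglyMeasurable
    · filter_upwards with x
      filter_upwards with s _
      rw [Real.norm_eq_abs, abs_le]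
      have e1 := hf0 (x + s)
      have e2 := hf0 x
      have e3 := hM (x + s)
      have e4 := hM x
      constructor <;> linarith
    · exact continuous_const.intervalIntegrable _ _
    · filter_upwards with s _
      exact hlim s
  rw [intervalIntegral.integral_zero] at h0
  refine h0.congr fun x => ?_
  rw [Jt_sub hb hf0 hdec hΛ, intervalIntegral.integral_sub (by
    exact (hfc.comp (continuous_const.add continuous_id)).intervalIntegrable _ _)
    (continuous_const.intervalIntegrable _ _)]
  simp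

include hb hf0 hdec hΛ hiexp in
theorem Jt_fubini (x : ℝ) : Integrable (fun u => Jt f (x + u)) ν ∧
    IntegrableOn (Tn ν f) (Ioi x) ∧ ∫ s in Ioi x, Tn ν f s = ∫ u, Jt f (x + u) ∂ν := by
  have hfm := lip_measurable hΛ
  have hprod : Integrable (fun p : ℝ × ℝ => f (p.2 + p.1))
      ((volume.restrict (Ioi x)).prod ν) := by
    have h1 := ((exp_neg_integrableOn_Ioi x hb).mul_prod hiexp).const_mul M
    refine h1.mono' (by fun_prop : Measurable fun p : ℝ × ℝ => f (p.2 + p.1)).aestronglyMeasurable ?_
    filter_upwards with p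
    rw [Real.norm_eq_abs, abs_of_nonneg (hf0 _)]
    refine (hdec _).trans (le_of_eq ?_)
    rw [← Real.exp_add]
    ring_nf
  have hinner : ∀ u : ℝ, ∫ s in Ioi x, f (u + s) = Jt f (x + u) := by
    intro u
    have h1 := (measurePreserving_add_left volume u).setIntegral_preimage_emb
      (measurableEmbedding_addLeft u) f (Ioi (x + u))
    have h2 : (fun s => u + s) ⁻¹' (Ioi (x + u)) = Ioi x := by
      ext s
      simp only [mem_preimage, mem_Ioi]
      constructor <;> intro h <;> linarith
    rw [h2] at h1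
    exact h1
  refine ⟨?_, ?_, ?_⟩
  · have := hprod.integral_prod_right
    simp only [hinner] at this
    exact this
  · exact hprod.integral_prod_left
  · unfold Tn
    rw [integral_integral_swap (f := fun s u => f (u + s)) hprod]
    simp only [hinner]

include hb hf0 hdec hΛ hiexp in
theorem Jt_identity (x : ℝ) : ∫ s in Ioi x, (f s - Tn ν f s) =
    ∫ u, (Jt f x - Jt f (x + u)) ∂ν := by
  obtain ⟨h1, h2, h3⟩ := Jt_fubini (ν := ν) hb hf0 hdec hΛ hiexp x
  rw [integral_sub (f_intOn hb hf0 hdec hΛ x) h2, h3, integral_sub (integrable_const _) h1]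
  simp [Jt]

include hb hf0 hM hdec hΛ hiexp in
theorem renewal_fin (hgint : Integrable (fun t => f t - Tn ν f t))
    (hlim : ∀ a, Tendsto (fun t => f (t + a) - f t) atBot (𝓝 0))
    (hx : Integrable (fun x => x) ν) (hpos : 0 < ∫ x, x ∂ν) :
    Tendsto f atBot (𝓝 ((∫ t, (f t - Tn ν f t)) / ∫ x, x ∂ν)) := by
  set m := ∫ x, x ∂ν with hm
  have hJm : Measurable (Jt f) := (Jt_anti hb hf0 hdec hΛ).measurable
  have h1 : Tendsto (fun x => ∫ s in Ioi x, (f s - Tn ν f s)) atBot
      (𝓝 (∫ t, (f t - Tn ν f t))) :=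
    (aecover_Ioi (μ := volume) tendsto_id).integral_tendsto_of_countably_generated hgint
  have h2 : Tendsto (fun x => ∫ u, (Jt f x - Jt f (x + u) - u * f x) ∂ν) atBot
      (𝓝 (∫ _, (0:ℝ) ∂ν)) := by
    apply tendsto_integral_filter_of_dominated_convergence (fun u => M * |u|)
    · filter_upwards with x
      exact (by fun_prop : Measurable fun u => Jt f x - Jt f (x + u) -
        u * f x).aestronglyMeasurable
    · filter_upwards with x
      filter_upwards with u
      exact Jt_lin hb hf0 hM hdec hΛ x u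
    · exact hx.abs.const_mul M
    · filter_upwards with u
      exact Jt_lim hb hf0 hM hdec hΛ hlim u
  rw [integral_zero] at h2
  have h3 : ∀ x, ∫ u, (Jt f x - Jt f (x + u) - u * f x) ∂ν =
      (∫ s in Ioi x, (f s - Tn ν f s)) - m * f x := by
    intro x
    rw [Jt_identity hb hf0 hdec hΛ hiexp]
    have i1 := (Jt_fubini (ν := ν) hb hf0 hdec hΛ hiexp x).1
    have i2 : Integrable (fun u => Jt f x - Jt f (x + u)) ν := (integrable_const _).sub i1
    rw [integral_sub i2 (hx.mul_const _), integral_mul_const]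
  simp only [h3] at h2
  have h4 := (h1.sub h2).div_const m
  rw [sub_zero] at h4
  refine h4.congr fun x => ?_
  field_simp
  ring

theorem trunc_mean_large (hmin : Integrable (fun x => min x 0) ν)
    (hx : ¬ Integrable (fun x => x) ν) (C : ℝ) :
    ∃ K : ℝ, 0 ≤ K ∧ Integrable (fun x => min x K) ν ∧ C ≤ ∫ x, min x K ∂ν := by
  have hinf : ∫⁻ x, ENNReal.ofReal (max x 0) ∂ν = ⊤ := by
    by_contra hcon
    apply hx
    have h1 : Integrable (fun x => max x 0) ν := by
      refine ⟨by fun_prop, ?_⟩
      rw [hasFiniteIntegral_iff_ofReal (f := fun x : ℝ => max x 0)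
        (Eventually.of_forall fun x => le_max_right _ _)]
      exact lt_top_iff_ne_top.2 hcon
    refine (h1.add hmin).congr (Eventually.of_forall fun x => ?_)
    simp only [Pi.add_apply]
    rcases le_total x 0 with h | h
    · rw [max_eq_right h, min_eq_left h, zero_add]
    · rw [max_eq_left h, min_eq_right h, add_zero]
  have hint : ∀ n : ℕ, Integrable (fun x => min (max x 0) (n:ℝ)) ν := by
    intro n
    refine (integrable_const (n:ℝ)).mono' (by fun_prop : Measurable fun x : ℝ =>
      min (max x 0) (n:ℝ)).aestronglyMeasurable ?_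
    filter_upwards with x
    rw [Real.norm_eq_abs, abs_of_nonneg (le_min (le_max_right _ _) (by positivity))]
    exact min_le_right _ _
  have hlim : Tendsto (fun n : ℕ => ∫⁻ x, ENNReal.ofReal (min (max x 0) (n:ℝ)) ∂ν) atTop
      (𝓝 (∫⁻ x, ENNReal.ofReal (max x 0) ∂ν)) := by
    apply lintegral_tendsto_of_tendsto_of_monotone
    · intro n
      exact (by fun_prop : Measurable fun x : ℝ =>
        ENNReal.ofReal (min (max x 0) (n:ℝ))).aemeasurable
    · filter_upwards with x n m hnm
      exact ENNReal.ofReal_le_ofReal (min_le_min le_rfl (by exact_mod_cast hnm))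
    · filter_upwards with x
      apply ENNReal.tendsto_ofReal
      apply tendsto_const_nhds.congr'
      obtain ⟨n, hn⟩ := exists_nat_ge (max x 0)
      filter_upwards [eventually_ge_atTop n] with k hk
      have : (n:ℝ) ≤ k := by exact_mod_cast hk
      rw [min_eq_left (hn.trans this)]
  rw [hinf] at hlim
  obtain ⟨n, hn⟩ := (hlim.eventually (lt_mem_nhds
    (ENNReal.ofReal_lt_top (r := C - ∫ x, min x 0 ∂ν)))).exists
  rw [← ofReal_integral_eq_lintegral_ofReal (hint n)
    (Eventually.of_forall fun x => le_min (le_max_right _ _) (by positivity))] at hn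
  have h2 := ((ENNReal.ofReal_lt_ofReal_iff').1 hn).1
  have hn0 : (0:ℝ) ≤ n := by positivity
  have hsplit : ∀ x : ℝ, min x (n:ℝ) = min (max x 0) (n:ℝ) + min x 0 := by
    intro x
    rcases le_total x 0 with h | h
    · rw [max_eq_right h, min_eq_left h, min_eq_left hn0, min_eq_left (h.trans hn0), zero_add]
    · rw [max_eq_left h, min_eq_right h, add_zero]
  refine ⟨n, hn0, ?_, ?_⟩
  · exact ((hint n).add hmin).congr (Eventually.of_forall fun x => (hsplit x).symm)
  · have hfun : (fun x : ℝ => min x (n:ℝ)) = fun x => min (max x 0) (n:ℝ) + min x 0 :=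
      funext hsplit
    rw [hfun, integral_add (hint n) hmin]
    linarith

include hb hf0 hM hdec hΛ hiexp in
theorem renewal_inf (hgint : Integrable (fun t => f t - Tn ν f t))
    (hlim : ∀ a, Tendsto (fun t => f (t + a) - f t) atBot (𝓝 0))
    (hmin : Integrable (fun x => min x 0) ν) (hx : ¬ Integrable (fun x => x) ν) :
    Tendsto f atBot (𝓝 0) := by
  have hJm : Measurable (Jt f) := (Jt_anti hb hf0 hdec hΛ).measurable
  set G := ∫ t, (f t - Tn ν f t) with hG
  have h1 : Tendsto (fun x => ∫ s in Ioi x, (f s - Tn ν f s)) atBot (𝓝 G) :=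
    (aecover_Ioi (μ := volume) tendsto_id).integral_tendsto_of_countably_generated hgint
  rw [Metric.tendsto_nhds]
  intro δ hδ
  obtain ⟨K, hK0, hKi, hK⟩ := trunc_mean_large hmin hx ((|G| + 3) / δ)
  set mK := ∫ x, min x K ∂ν with hmK
  have hmK0 : 0 < mK := lt_of_lt_of_le (by positivity) hK
  have h2 : Tendsto (fun x => ∫ u, (Jt f x - Jt f (x + min u K) - min u K * f x) ∂ν) atBot
      (𝓝 (∫ _, (0:ℝ) ∂ν)) := by
    apply tendsto_integral_filter_of_dominated_convergence (fun u => M * |min u K|)
    · filter_upwards with x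
      exact (by fun_prop : Measurable fun u => Jt f x - Jt f (x + min u K) -
        min u K * f x).aestronglyMeasurable
    · filter_upwards with x
      filter_upwards with u
      exact Jt_lin hb hf0 hM hdec hΛ x (min u K)
    · exact hKi.abs.const_mul M
    · filter_upwards with u
      exact Jt_lim hb hf0 hM hdec hΛ hlim (min u K)
  rw [integral_zero] at h2
  have h3 : ∀ x, mK * f x + ∫ u, (Jt f x - Jt f (x + min u K) - min u K * f x) ∂ν ≤
      ∫ s in Ioi x, (f s - Tn ν f s) := by
    intro x
    rw [Jt_identity hb hf0 hdec hΛ hiexp]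
    have i1 := (Jt_fubini (ν := ν) hb hf0 hdec hΛ hiexp x).1
    have i2 : Integrable (fun u => Jt f x - Jt f (x + u)) ν := (integrable_const _).sub i1
    have i4 : Integrable (fun u => Jt f x - Jt f (x + min u K) - min u K * f x) ν := by
      refine (hKi.abs.const_mul M).mono' (by fun_prop : Measurable fun u =>
        Jt f x - Jt f (x + min u K) - min u K * f x).aestronglyMeasurable ?_
      filter_upwards with u
      exact Jt_lin hb hf0 hM hdec hΛ x (min u K)
    have i5 : mK * f x = ∫ u, min u K * f x ∂ν := by rw [integral_mul_const]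
    rw [i5, ← integral_add (hKi.mul_const _) i4]
    apply integral_mono ((hKi.mul_const _).add i4) i2
    intro u
    simp only [Pi.add_apply]
    have := Jt_anti hb hf0 hdec hΛ (by linarith [min_le_left u K] : x + min u K ≤ x + u)
    linarith
  filter_upwards [h1.eventually (gt_mem_nhds (by linarith : G < G + 1)),
    h2.eventually (lt_mem_nhds (by norm_num : (-1:ℝ) < 0))] with x h4 h5
  rw [Real.dist_eq, sub_zero, abs_of_nonneg (hf0 x)]
  have h6 := h3 x
  have h7 : mK * f x < |G| + 3 := by
    have := le_abs_self G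
    linarith
  have h8 : |G| + 3 ≤ mK * δ := by
    rw [div_le_iff₀ hδ] at hK
    exact hK
  exact lt_of_mul_lt_mul_left (h7.trans_le h8) hmK0.le

end StepC

end Pool.Agent.Lib_helper63.DH
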