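import Pool.Agent.Lib_helper63.DH.PsiReg
import Pool.Agent.Lib_helper63.DH.Renewal

/-!
The non-integer case.
-/

open MeasureTheory Filter Topology Set

namespace Pool.Agent.Lib_helper63.DH

variable {μ : Measure ℝ} [IsProbabilityMeasure μ] {α : ℝ}

theorem Law.int_min (h : Law μ α) (c : ℝ) : Integrable (fun x => min x c) (nu μ α) := by
  have hpr := h.nu_prob
  have hα := h.apos
  have h1 := (h.nu_exp h.apos.le le_rfl).1
  refine ((h1.div_const α).add (integrable_const |c|)).mono'
    (by fun_prop : Measurable fun x : ℝ => min x c).aestronglyMeasurable ?_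
  filter_upwards with x
  rw [Real.norm_eq_abs]
  simp only [Pi.add_apply]
  have h2 : 0 < Real.exp (-α * x) / α := by positivity
  rcases le_total x c with hx | hx
  · rw [min_eq_left hx]
    rcases le_total 0 x with h0 | h0
    · rw [abs_of_nonneg h0]
      have := le_abs_self c
      linarith
    · rw [abs_of_nonpos h0]
      have h3 : -x ≤ Real.exp (-α * x) / α := by
        rw [le_div_iff₀ hα]
        have := Real.add_one_le_exp (-α * x)
        nlinarith
      have := abs_nonneg c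
      linarith
  · rw [min_eq_right hx]
    linarith

theorem Law.trunc_mean_pos (h : Law μ α) : 0 < ∫ x, min x (1 / α) ∂(nu μ α) := by
  have hα := h.apos
  have hmm : Measurable (fun x : ℝ => min x (1 / α)) := by fun_prop
  rw [h.nu_integral hmm]
  have hi : Integrable (fun z => z ^ α * min (Real.log z) (1 / α)) μ :=
    (h.nu_integrable_iff hmm).1 (h.int_min _)
  have hi2 : Integrable (fun z => (z ^ α - 1) / α) μ :=
    (h.int_alpha.sub (integrable_const 1)).div_const α
  have h0 : ∫ z, (z ^ α - 1) / α ∂μ = 0 := by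
    rw [integral_div, integral_sub h.int_alpha (integrable_const 1), h.one]
    simp
  have hlt : ∀ z : ℝ, 0 < z → z ≠ 1 → (z ^ α - 1) / α < z ^ α * min (Real.log z) (1 / α) := by
    intro z hz hz1
    have h3 : 0 < z ^ α := Real.rpow_pos_of_pos hz α
    rcases le_total (Real.log z) (1 / α) with hle | hle
    · rw [min_eq_left hle]
      rw [div_lt_iff₀ hα]
      have h1 : Real.log (z ^ α) = α * Real.log z := Real.log_rpow hz α
      have h2 : z ^ α ≠ 1 := by
        intro h3
        have h4 : Real.log (z ^ α) = 0 := by rw [h3, Real.log_one]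
        rw [h1] at h4
        rcases mul_eq_zero.1 h4 with h5 | h5
        · linarith
        · exact hz1 (Real.eq_one_of_pos_of_log_eq_zero hz h5)
      have h4 := Real.log_lt_sub_one_of_pos (x := (z ^ α)⁻¹) (by positivity)
        (by intro h5; exact h2 (inv_eq_one.1 h5))
      rw [Real.log_inv, h1] at h4
      have h5 : z ^ α * ((z ^ α)⁻¹ - 1) = 1 - z ^ α := by field_simp
      nlinarith [mul_lt_mul_of_pos_left h4 h3]
    · rw [min_eq_right hle, mul_one_div]
      apply div_lt_div_of_pos_right _ hα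
      linarith
  have hle : ∀ z : ℝ, 0 < z → (z ^ α - 1) / α ≤ z ^ α * min (Real.log z) (1 / α) := by
    intro z hz
    rcases eq_or_ne z 1 with rfl | h1
    · have : 0 < 1 / α := by positivity
      simp
      linarith [inv_pos.2 hα]
    · exact (hlt z hz h1).le
  have hsub : ∫ z, z ^ α * min (Real.log z) (1 / α) ∂μ =
      ∫ z, (z ^ α * min (Real.log z) (1 / α) - (z ^ α - 1) / α) ∂μ := by
    rw [integral_sub hi hi2, h0, sub_zero]
  have hi3 : Integrable (fun z => z ^ α * min (Real.log z) (1 / α) - (z ^ α - 1) / α) μ :=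
    hi.sub hi2
  rw [hsub, integral_pos_iff_support_of_nonneg_ae _ hi3]
  · rw [pos_iff_ne_zero]
    intro hcon
    apply h.nondeg
    have h1 : ∀ᵐ z ∂μ, z ∉ Function.support
        (fun z => z ^ α * min (Real.log z) (1 / α) - (z ^ α - 1) / α) :=
      measure_eq_zero_iff_ae_notMem.1 hcon
    filter_upwards [h1, h.pos] with z h1 hz
    by_contra hz1
    apply h1
    rw [Function.mem_support]
    have := hlt z hz hz1
    linarith
  · filter_upwards [h.pos] with z hz
    simp only [Pi.zero_apply]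
    have := hle z hz
    linarith

theorem Law.nux (h : Law μ α) {b : ℝ} (hb : 0 < b) (hbα : b < α) :
    Nux α (nu μ α) b (∫ z, z ^ (α - b) ∂μ) (1 / α) ((∫ x, min x (1 / α) ∂(nu μ α)) / 2)
      (-∫ x, min x 0 ∂(nu μ α)) where
  bpos := hb
  bα := hbα.le
  iexp := (h.nu_exp hb.le hbα.le).1
  exp_eq := (h.nu_exp hb.le hbα.le).2
  ρ1 := h.mom_lt_one (by linarith) (by linarith)
  R0 := by have := h.apos; positivity
  c1pos := by have := h.trunc_mean_pos; linarith
  imin := h.int_min _
  min_le := by linarith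
  imin0 := h.int_min _
  N_eq := by rw [neg_neg]

omit [IsProbabilityMeasure μ] in
theorem Law.nonlattice (h : Law μ α)
    (hna : ¬ ∃ c : ℝ, 0 < c ∧ ∀ᵐ z ∂μ, ∃ k : ℤ, c * Real.log z = k) (a : ℝ) :
    ¬ ∀ᵐ x ∂(nu μ α), ∃ k : ℤ, x = k * a := by
  intro hx
  apply hna
  have h1 : ∀ᵐ z ∂μ, ∃ k : ℤ, Real.log z = k * a := by
    unfold nu at hx
    have h2 := ae_of_ae_map Real.measurable_log.aemeasurable hx
    rw [ae_withDensity_iff measurable_dens] at h2
    filter_upwards [h2, h.pos] with z hz hz0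
    apply hz
    have : 0 < z ^ α := Real.rpow_pos_of_pos hz0 α
    exact (ENNReal.ofReal_pos.2 this).ne'
  rcases eq_or_ne a 0 with rfl | ha
  · refine ⟨1, one_pos, ?_⟩
    filter_upwards [h1] with z hz
    obtain ⟨k, hk⟩ := hz
    exact ⟨0, by rw [hk]; simp⟩
  · refine ⟨|a|⁻¹, by positivity, ?_⟩
    filter_upwards [h1] with z hz
    obtain ⟨k, hk⟩ := hz
    rcases lt_or_gt_of_ne ha with h3 | h3
    · refine ⟨-k, ?_⟩
      rw [hk, abs_of_neg h3]
      push_cast
      field_simp
    · refine ⟨k, ?_⟩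
      rw [hk, abs_of_pos h3]
      field_simp

theorem wt_le_exp {b : ℝ} (hb0 : 0 ≤ b) (hb : b ≤ α) (t : ℝ) :
    (1 + Real.exp t) ^ (-α) ≤ Real.exp (-b * t) := by
  have h1 : (1 + Real.exp t) ^ (-α) = Real.exp (-α * Lg t) := by
    rw [Real.rpow_def_of_pos (by positivity)]
    unfold Lg; ring_nf
  rw [h1]
  apply Real.exp_le_exp.2
  have h2 := Lg_nonneg t
  have h3 : t ≤ Lg t := by rw [Lg_eq]; linarith [fL_nonneg t]
  nlinarith

/-- **Minimum principle.** -/
theorem Nux.min_principle {ν : Measure ℝ} [IsProbabilityMeasure ν] {b ρ R₀ c1 N : ℝ}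
    (h : Nux α ν b ρ R₀ c1 N) {D : ℝ → ℝ} (hD : BM D) (hlow : ∀ t, -1 ≤ D t)
    (hKD : ∀ t, Kt α ν D t ≤ D t) (t : ℝ) : 0 ≤ D t := by
  have hα := h.α0
  have hρ0 := h.ρ0
  have key : ∀ n : ℕ, ∀ t, -(ρ ^ n * Real.exp (-b * t)) ≤ D t := by
    intro n
    induction n with
    | zero =>
      intro t
      refine le_trans ?_ (hKD t)
      have h1 := Kt_mono (α := α) (ν := ν) (f := fun _ => -1) (g := D)
        (fun s => integrable_const _) hD.int hlow t
      refine le_trans ?_ h1
      unfold Kt Tn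
      have h2 := wt_le_exp h.bpos.le h.bα t
      have e : -b * t = -(b * t) := by ring
      rw [e] at h2
      simp
      linarith
    | succ n ih =>
      intro t
      refine le_trans ?_ (hKD t)
      have hi : ∀ s, Integrable (fun x => (fun t => -ρ ^ n * Real.exp (-b * t)) (x + s)) ν := by
        intro s
        exact (h.exp_int s).1.const_mul _
      have h1 := Kt_mono (α := α) (ν := ν) (f := fun t => -ρ ^ n * Real.exp (-b * t)) (g := D)
        hi hD.int (fun t => by have := ih t; linarith) t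
      refine le_trans ?_ h1
      rw [Kt_const_mul]
      have h2 := h.Kt_exp t
      have h3 : 0 ≤ ρ ^ n := by positivity
      have h4 := mul_le_mul_of_nonneg_left h2 h3
      rw [pow_succ]
      linarith
  have hlim : Tendsto (fun n : ℕ => -(ρ ^ n * Real.exp (-b * t))) atTop (𝓝 0) := by
    have h1 := (tendsto_pow_atTop_nhds_zero_of_lt_one hρ0 h.ρ1).mul_const (Real.exp (-b * t))
    rw [zero_mul] at h1
    simpa using h1.neg
  exact le_of_tendsto' hlim fun n => key n t

/-- existence of the potential -/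
theorem Law.exists_pot (h : Law μ α) {m : ℕ} (hm : 1 ≤ m) (h1 : (m:ℝ) < α)
    (h2 : α < (m:ℝ) + 1) {T : List (ℝ × ℕ × ℕ)} (hT : TOk m T) :
    ∃ (b ρ R₀ c1 N M : ℝ) (f : ℝ → ℝ), Nux α (nu μ α) b ρ R₀ c1 N ∧ b ≤ 1 ∧
      Reg α ((m:ℝ) + 1 - α) M f ∧ (∀ t, f t = g0 α m T t + Kt α (nu μ α) f t) ∧
      (∀ t, f t ≤ M * Real.exp (-b * t)) ∧ (∀ t, t ≤ 0 → g0 α m T t ≤ M * Real.exp (b * t)) := by
  have hpr := h.nu_prob
  have hα := h.apos
  have hm' : (1:ℝ) ≤ m := by exact_mod_cast hm
  set b := min ((m:ℝ) + 1 - α) (α - m) with hbdef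
  have hb0 : 0 < b := lt_min (by linarith) (by linarith)
  have hb1 : b ≤ (m:ℝ) + 1 - α := min_le_left _ _
  have hb2 : b ≤ α - m := min_le_right _ _
  have hbα : b < α := by linarith
  have hn := h.nux hb0 hbα
  set ρ := ∫ z, z ^ (α - b) ∂μ
  set R₀ := 1 / α
  set c1 := (∫ x, min x (1 / α) ∂(nu μ α)) / 2
  set N := -∫ x, min x 0 ∂(nu μ α)
  obtain ⟨C, hC0, hC1, hC2⟩ := g0_bound hm hT hb1 hb2
  have hg0C : ∀ t, g0 α m T t ≤ C := by
    intro t
    rcases le_total 0 t with ht | ht
    · refine (hC1 t ht).trans ?_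
      have : Real.exp (-b * t) ≤ 1 := Real.exp_le_one_iff.2 (by nlinarith)
      nlinarith
    · refine (hC2 t ht).trans ?_
      have : Real.exp (b * t) ≤ 1 := Real.exp_le_one_iff.2 (by nlinarith)
      nlinarith
  have hg0 := g0_reg hT hg0C
  -- the threshold
  set τ := min 0 (Real.log c1) with hτ
  have hτ0 : τ ≤ 0 := min_le_left _ _
  have hLτ : Lg τ ≤ c1 := by
    refine (Lg_le_exp τ).trans ?_
    rw [← Real.exp_log hn.c1pos]
    exact Real.exp_le_exp.2 (min_le_right _ _)
  set v : ℝ → ℝ := fun t => Real.exp (b * t) / b with hv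
  set q : ℝ → ℝ := fun t => Real.exp (b * t) with hq
  have hq0 : ∀ t, 0 ≤ q t := fun t => (Real.exp_pos _).le
  have hv0 : ∀ t, 0 ≤ v t := fun t => by simp only [hv]; positivity
  have hvq : ∀ s t, q s * (t - s) ≤ v t - v s := by
    intro s t
    simp only [hq, hv]
    rw [← sub_div, le_div_iff₀ hb0]
    have e1 : Real.exp (b * t) = Real.exp (b * s) * Real.exp (b * (t - s)) := by
      rw [← Real.exp_add]; ring_nf
    rw [e1]
    have e2 := Real.add_one_le_exp (b * (t - s))
    have e3 := Real.exp_pos (b * s)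
    nlinarith
  set A := 1 / c1 with hA
  set B := (A * (N + c1 + ρ / b) + 1) / (1 - ρ) with hB
  have hc1 := hn.c1pos
  have hN0 := hn.N0
  have hρ0 := hn.ρ0
  have hρ1 := hn.ρ1
  have hA0 : 0 ≤ A := by rw [hA]; positivity
  have hB0 : 0 ≤ B := by
    rw [hB]
    have : 0 < 1 - ρ := by linarith
    positivity
  have hL := hn.lyap_fun hq0 hv0 hvq hA hB hLτ
  have hWbm : BM (WL v q A B b R₀ τ) := WL_BM hq0 hv0 hvq hA0 hB0
  have hWb := WL_bounds (b := b) (R₀ := R₀) hq0 hv0 hvq hA0 hB0 (τ := τ)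
  set C' := C * Real.exp (-2 * b * τ) with hC'
  have hC'0 : 0 < C' := by positivity
  have hCC' : C ≤ C' := by
    have : 1 ≤ Real.exp (-2 * b * τ) := Real.one_le_exp (by nlinarith)
    nlinarith
  set W : ℝ → ℝ := fun t => C' * WL v q A B b R₀ τ t with hW
  have hWB : BM W := hWbm.const_mul C'
  set Mw := C' * (A * v τ + B * q τ * Real.exp (b * R₀)) with hMw
  have hW0 : ∀ t, 0 ≤ W t := fun t => mul_nonneg hC'0.le (hWb t).1
  have hWM : ∀ t, W t ≤ Mw := fun t => mul_le_mul_of_nonneg_left (hWb t).2 hC'0.le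
  have hgW : ∀ t, g0 α m T t ≤ W t - Kt α (nu μ α) W t := by
    intro t
    simp only [hW]
    rw [Kt_const_mul, ← mul_sub]
    refine le_trans ?_ (mul_le_mul_of_nonneg_left (hL t) hC'0.le)
    rcases le_total t τ with ht | ht
    · rw [min_eq_left ht, min_eq_left (Real.one_le_exp (by nlinarith)), mul_one]
      refine (hC2 t (ht.trans hτ0)).trans ?_
      exact mul_le_mul_of_nonneg_right hCC' (Real.exp_pos _).le
    · rw [min_eq_right ht, min_eq_right (Real.exp_le_one_iff.2 (by nlinarith))]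
      simp only [hq, hC']
      have e1 : C * Real.exp (-2 * b * τ) * (Real.exp (b * τ) * Real.exp (-b * (t - τ))) =
          C * Real.exp (-b * t) := by
        rw [mul_assoc, ← Real.exp_add, ← Real.exp_add]; ring_nf
      rw [e1]
      rcases le_total 0 t with h0 | h0
      · exact hC1 t h0
      · refine (hC2 t h0).trans ?_
        apply mul_le_mul_of_nonneg_left _ hC0.le
        apply Real.exp_le_exp.2
        nlinarith
  have hγ : 0 ≤ (m:ℝ) + 1 - α := by linarith
  obtain ⟨hPr, hPW⟩ := Pot_reg (ν := nu μ α) hα.le hγ hg0 hWB hW0 hWM hgW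
  have hPe := Pot_eq (ν := nu μ α) hα.le hγ hg0 hWB hW0 hWM hgW
  have hMw0 : 0 ≤ Mw := (hW0 0).trans (hWM 0)
  refine ⟨b, ρ, R₀, c1, N, C + Mw, Pot α (nu μ α) (g0 α m T), hn, by linarith,
    hPr.of_le (fun t => (hPr.le t).trans (by linarith)), hPe, ?_, ?_⟩
  · intro t
    rcases le_total 0 t with ht | ht
    · rw [hPe t]
      have e1 := hC1 t ht
      have e2 : Kt α (nu μ α) (Pot α (nu μ α) (g0 α m T)) t ≤ Mw * Real.exp (-b * t) := by
        unfold Kt
        have e3 : Tn (nu μ α) (Pot α (nu μ α) (g0 α m T)) (t - Lg t) ≤ Mw := by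
          unfold Tn
          calc _ ≤ ∫ _, Mw ∂(nu μ α) := integral_mono ((hPr.BM hα.le hγ).int _)
                (integrable_const _) (fun x => hPr.le _)
            _ = Mw := by simp
        have e4 := wt_le_exp hb0.le hbα.le t
        have e5 := wt_pos (α := α) t
        have e6 : 0 ≤ Tn (nu μ α) (Pot α (nu μ α) (g0 α m T)) (t - Lg t) :=
          integral_nonneg fun x => hPr.nonneg _
        calc _ ≤ Real.exp (-b * t) * Mw := mul_le_mul e4 e3 e6 (Real.exp_pos _).le
          _ = _ := by ring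
      linarith
    · have e1 := hPr.le t
      have e2 : 1 ≤ Real.exp (-b * t) := Real.one_le_exp (by nlinarith)
      nlinarith
  · intro t ht
    refine (hC2 t ht).trans ?_
    apply mul_le_mul_of_nonneg_right _ (Real.exp_pos _).le
    linarith


/-! ### The equation `f = T f + g` -/

section Eqn

variable {ν : Measure ℝ} [IsProbabilityMeasure ν] {b ρ R₀ c1 N M : ℝ} {m : ℕ}
  {T : List (ℝ × ℕ × ℕ)} {f : ℝ → ℝ}

theorem ua_le' (hα : 0 < α) (t : ℝ) : 1 - (1 + Real.exp t) ^ (-α) ≤ α * Real.exp t := ua_le hα t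

theorem Tn_le (hn : Nux α ν b ρ R₀ c1 N) {γ : ℝ} (hγ : 0 ≤ γ) (hf : Reg α γ M f) (t : ℝ) :
    0 ≤ Tn ν f t ∧ Tn ν f t ≤ M := by
  refine ⟨integral_nonneg fun x => hf.nonneg _, ?_⟩
  unfold Tn
  calc _ ≤ ∫ _, M ∂ν := integral_mono ((hf.BM hn.α0.le hγ).int _)
        (integrable_const _) (fun x => hf.le _)
    _ = M := by simp

theorem Tn_lip (hn : Nux α ν b ρ R₀ c1 N) {γ : ℝ} (hγ : 0 ≤ γ) (hf : Reg α γ M f) (s t : ℝ) :
    |Tn ν f s - Tn ν f t| ≤ (α + γ) * M * |s - t| := by
  have hbm := hf.BM hn.α0.le hγ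
  unfold Tn
  rw [← integral_sub (hbm.int _) (hbm.int _)]
  refine (abs_integral_le_integral_abs).trans ?_
  calc ∫ x, |f (x + s) - f (x + t)| ∂ν ≤ ∫ _, (α + γ) * M * |s - t| ∂ν := by
        apply integral_mono (((hbm.int s)).sub (hbm.int t)).abs (integrable_const _)
        intro x
        have := hf.lip hn.α0.le hγ (x + s) (x + t)
        rwa [add_sub_add_left_eq_sub] at this
    _ = _ := by simp

theorem eqn_bounds (hn : Nux α ν b ρ R₀ c1 N) (hb1 : b ≤ 1) {γ : ℝ} (hγ : 0 ≤ γ)
    (hf : Reg α γ M f) (hfe : ∀ t, f t = g0 α m T t + Kt α ν f t)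
    (hdec : ∀ t, f t ≤ M * Real.exp (-b * t)) (hT : TOk m T)
    (hg0 : ∀ t, t ≤ 0 → g0 α m T t ≤ M * Real.exp (b * t)) :
    (∀ t, 0 ≤ t → |f t - Tn ν f t| ≤ (M + M * ρ) * Real.exp (-b * t)) ∧
    (∀ t, t ≤ 0 → |f t - Tn ν f t| ≤ (M + α * M + (α + γ) * M) * Real.exp (b * t)) := by
  have hα := hn.α0
  have hM : 0 ≤ M := (hf.nonneg 0).trans (hf.le 0)
  have hρ0 := hn.ρ0
  constructor
  · intro t ht
    have h1 := hf.nonneg t
    have h2 := (Tn_le hn hγ hf t).1
    have h3 : Tn ν f t ≤ M * ρ * Real.exp (-b * t) := by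
      have e1 := hn.exp_int t
      calc Tn ν f t ≤ ∫ x, M * Real.exp (-b * (x + t)) ∂ν :=
            integral_mono ((hf.BM hα.le hγ).int _) (e1.1.const_mul _) (fun x => hdec _)
        _ = _ := by rw [integral_const_mul, e1.2]; ring
    have h4 := hdec t
    have h5 : 0 ≤ M * Real.exp (-b * t) := by positivity
    have h6 : 0 ≤ M * ρ * Real.exp (-b * t) := by positivity
    rw [abs_le]
    constructor <;> nlinarith
  · intro t ht
    have hE : Real.exp t ≤ Real.exp (b * t) := Real.exp_le_exp.2 (by nlinarith [hn.bpos])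
    have h0 : 0 ≤ g0 α m T t :=
      mul_nonneg (psi_nonneg hT (Real.exp_pos t).le) (Real.exp_pos _).le
    have h1 := hg0 t ht
    have h2 := Tn_le hn hγ hf (t - Lg t)
    have h3 := Tn_lip hn hγ hf (t - Lg t) t
    have e1 : t - Lg t - t = -Lg t := by ring
    rw [e1, abs_neg, abs_of_nonneg (Lg_nonneg t)] at h3
    have h4 := Lg_le_exp t
    have h5 : f t - Tn ν f t = g0 α m T t -
        (1 - (1 + Real.exp t) ^ (-α)) * Tn ν f (t - Lg t) +
        (Tn ν f (t - Lg t) - Tn ν f t) := by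
      rw [hfe t]; unfold Kt; ring
    have h6 := ua_le' hα t
    have h7 : 0 ≤ 1 - (1 + Real.exp t) ^ (-α) := ua_nonneg hα t
    have h8 : |(1 - (1 + Real.exp t) ^ (-α)) * Tn ν f (t - Lg t)| ≤ α * M * Real.exp (b * t) := by
      rw [abs_of_nonneg (mul_nonneg h7 h2.1)]
      calc _ ≤ (α * Real.exp t) * M := mul_le_mul h6 h2.2 h2.1 (by positivity)
        _ = α * M * Real.exp t := by ring
        _ ≤ _ := mul_le_mul_of_nonneg_left hE (by positivity)
    have h9 : |Tn ν f (t - Lg t) - Tn ν f t| ≤ (α + γ) * M * Real.exp (b * t) :=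
      h3.trans (mul_le_mul_of_nonneg_left (h4.trans hE) (by positivity))
    rw [h5]
    calc _ ≤ |g0 α m T t - (1 - (1 + Real.exp t) ^ (-α)) * Tn ν f (t - Lg t)| +
          |Tn ν f (t - Lg t) - Tn ν f t| := abs_add_le _ _
      _ ≤ |g0 α m T t| + |(1 - (1 + Real.exp t) ^ (-α)) * Tn ν f (t - Lg t)| +
          |Tn ν f (t - Lg t) - Tn ν f t| := by
          gcongr
          exact abs_sub _ _
      _ ≤ M * Real.exp (b * t) + α * M * Real.exp (b * t) + (α + γ) * M * Real.exp (b * t) := by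
          rw [abs_of_nonneg h0]
          gcongr
      _ = _ := by ring

theorem eqn_int (hn : Nux α ν b ρ R₀ c1 N) (hb1 : b ≤ 1) {γ : ℝ} (hγ : 0 ≤ γ)
    (hf : Reg α γ M f) (hfe : ∀ t, f t = g0 α m T t + Kt α ν f t)
    (hdec : ∀ t, f t ≤ M * Real.exp (-b * t)) (hT : TOk m T)
    (hg0 : ∀ t, t ≤ 0 → g0 α m T t ≤ M * Real.exp (b * t)) :
    Integrable (fun t => f t - Tn ν f t) ∧ Tendsto (fun t => f t - Tn ν f t) atBot (𝓝 0) := by
  obtain ⟨h1, h2⟩ := eqn_bounds hn hb1 hγ hf hfe hdec hT hg0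
  have hα := hn.α0
  have hb := hn.bpos
  have hm : Measurable (fun t => f t - Tn ν f t) := by
    have a1 := lip_measurable (hf.lip hα.le hγ)
    have a2 := lip_measurable (Tn_lip hn hγ hf)
    exact a1.sub a2
  constructor
  · rw [← integrableOn_univ, ← Iic_union_Ioi (a := (0:ℝ))]
    apply IntegrableOn.union
    · refine ((integrableOn_exp_mul_Iic hb 0).const_mul (M + α * M + (α + γ) * M)).mono'
        hm.aestronglyMeasurable ?_
      filter_upwards [ae_restrict_mem measurableSet_Iic] with t ht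
      exact h2 t ht
    · refine ((exp_neg_integrableOn_Ioi 0 hb).const_mul (M + M * ρ)).mono'
        hm.aestronglyMeasurable ?_
      filter_upwards [ae_restrict_mem measurableSet_Ioi] with t ht
      exact h1 t (le_of_lt ht)
  · rw [tendsto_zero_iff_abs_tendsto_zero]
    have h3 : Tendsto (fun t => (M + α * M + (α + γ) * M) * Real.exp (b * t)) atBot
        (𝓝 ((M + α * M + (α + γ) * M) * 0)) := by
      apply Tendsto.const_mul
      apply Real.tendsto_exp_atBot.comp
      exact tendsto_id.const_mul_atBot hb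
    rw [mul_zero] at h3
    refine tendsto_of_tendsto_of_tendsto_of_le_of_le' tendsto_const_nhds h3
      (Eventually.of_forall fun t => abs_nonneg _) ?_
    filter_upwards [eventually_le_atBot (0:ℝ)] with t ht
    exact h2 t ht

end Eqn

/-! ### Positivity of the limit -/

/-- logistic function -/
noncomputable def sg (t : ℝ) : ℝ := Real.exp t / (1 + Real.exp t)

theorem sg_nonneg (t : ℝ) : 0 ≤ sg t := by unfold sg; positivity

theorem sg_le_one (t : ℝ) : sg t ≤ 1 := by
  unfold sg
  rw [div_le_one (by positivity)]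
  linarith

theorem sg_measurable : Measurable sg := by unfold sg; fun_prop

theorem sg_convex (s t : ℝ) : sg s * (t - s) ≤ Lg t - Lg s := by
  set p := sg s with hp
  have hp0 := sg_nonneg s
  have hp1 := sg_le_one s
  have h1 := convexOn_exp.2 (mem_univ (t - s)) (mem_univ (0:ℝ)) hp0 (by linarith : 0 ≤ 1 - p)
    (by ring)
  simp only [smul_eq_mul, mul_zero, add_zero, Real.exp_zero, mul_one] at h1
  have h2 : p * Real.exp (t - s) + (1 - p) = (1 + Real.exp t) / (1 + Real.exp s) := by
    rw [hp]; unfold sg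
    rw [Real.exp_sub]
    have : Real.exp s ≠ 0 := (Real.exp_pos s).ne'
    field_simp
    ring
  rw [h2] at h1
  have h3 := Real.log_le_log (Real.exp_pos _) h1
  rw [Real.log_exp, Real.log_div (by positivity) (by positivity)] at h3
  exact h3

theorem sg_le_Lg (t : ℝ) : sg t ≤ Lg t := by
  unfold sg Lg
  have h := Real.one_sub_inv_le_log_of_pos (x := 1 + Real.exp t) (by positivity)
  refine le_trans (le_of_eq ?_) h
  field_simp
  ring

theorem ua_le_sg (hα : 1 ≤ α) (t : ℝ) : ua α t ≤ α * sg t := by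
  unfold ua sg
  have h1 := one_add_mul_self_le_rpow_one_add (s := -(Real.exp t / (1 + Real.exp t)))
    (by rw [neg_le_neg_iff, div_le_one (by positivity)]; linarith) hα
  have h2 : 1 + -(Real.exp t / (1 + Real.exp t)) = (1 + Real.exp t)⁻¹ := by
    field_simp; ring
  rw [h2, Real.inv_rpow (by positivity), ← Real.rpow_neg (by positivity)] at h1
  linarith

theorem Lg_add (s x : ℝ) : Lg (x + s) ≤ Lg x + Lg s := by
  unfold Lg
  rw [← Real.log_mul (by positivity) (by positivity)]
  apply Real.log_le_log (by positivity)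
  rw [Real.exp_add]
  have h1 := Real.exp_pos x
  have h2 := Real.exp_pos s
  nlinarith [mul_pos h1 h2]

theorem Law.int_Lg (h : Law μ α) (hα : 1 ≤ α) (hx : Integrable (fun x => x) (nu μ α)) (s : ℝ) :
    Integrable (fun x => Lg (x + s)) (nu μ α) := by
  have hpr := h.nu_prob
  have hL : Integrable Lg (nu μ α) := by
    have := hx.add (h.int_fL hα)
    refine this.congr (Eventually.of_forall fun x => ?_)
    simp only [Pi.add_apply]
    rw [Lg_eq]
  have hm := Lg_measurable
  refine (hL.add (integrable_const (Lg s))).mono'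
    (by fun_prop : Measurable fun x => Lg (x + s)).aestronglyMeasurable ?_
  filter_upwards with x
  rw [Real.norm_eq_abs, abs_of_nonneg (Lg_nonneg _)]
  exact Lg_add s x

theorem BM_sg : BM sg := ⟨sg_measurable, 1, fun t => by
  rw [abs_of_nonneg (sg_nonneg t)]; exact sg_le_one t⟩

theorem BM_ua (hα : 0 < α) : BM (ua α) := ⟨ua_measurable, 1, fun t => by
  rw [abs_of_nonneg (ua_nonneg hα t)]; exact ua_le_one t⟩

theorem Law.pot_pos (h : Law μ α) (hα : 1 ≤ α) {m : ℕ} {T : List (ℝ × ℕ × ℕ)} (hT : TOk m T)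
    {b ρ R₀ c1 N M γ : ℝ} {f : ℝ → ℝ} (hn : Nux α (nu μ α) b ρ R₀ c1 N) (hγ : 0 ≤ γ)
    (hf : Reg α γ M f) (hfe : ∀ t, f t = g0 α m T t + Kt α (nu μ α) f t)
    (hx : Integrable (fun x => x) (nu μ α)) :
    ∃ c : ℝ, 0 < c ∧ ∀ᶠ t in atBot, c ≤ f t := by
  have hpr := h.nu_prob
  have hα0 := h.apos
  have hb := hn.bpos
  have hc1 := hn.c1pos
  have hN0 := hn.N0
  have hρ0 := hn.ρ0
  have hρ1 := hn.ρ1
  set ν := nu μ α with hν
  set v : ℝ → ℝ := fun t => ∫ x, Lg (x + t) ∂ν with hv
  set q : ℝ → ℝ := fun t => ∫ x, sg (x + t) ∂ν with hq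
  have hLi := h.int_Lg hα hx
  have hsi := fun s => BM_sg.int (ν := ν) s
  have hq0 : ∀ t, 0 ≤ q t := fun t => integral_nonneg fun x => sg_nonneg _
  have hv0 : ∀ t, 0 ≤ v t := fun t => integral_nonneg fun x => Lg_nonneg _
  have hvq : ∀ s t, q s * (t - s) ≤ v t - v s := by
    intro s t
    simp only [hq, hv]
    rw [← integral_sub (hLi t) (hLi s), ← integral_mul_const]
    apply integral_mono ((hsi s).mul_const _) ((hLi t).sub (hLi s))
    intro x
    have := sg_convex (x + s) (x + t)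
    rwa [add_sub_add_left_eq_sub] at this
  have hqv : ∀ t, q t ≤ v t := fun t => integral_mono (hsi t) (hLi t) fun x => sg_le_Lg _
  have hvlim : Tendsto v atBot (𝓝 0) := by
    have h1 : Tendsto v atBot (𝓝 (∫ _, (0:ℝ) ∂ν)) := by
      apply tendsto_integral_filter_of_dominated_convergence (fun x => Lg x)
      · filter_upwards with t
        exact (hLi t).aestronglyMeasurable
      · filter_upwards [eventually_le_atBot (0:ℝ)] with t ht
        filter_upwards with x
        rw [Real.norm_eq_abs, abs_of_nonneg (Lg_nonneg _)]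
        exact Lg_mono (by linarith)
      · simpa using hLi 0
      · filter_upwards with x
        have h3 : Tendsto (fun a : ℝ => Real.exp (x + a)) atBot (𝓝 0) := by
          apply Real.tendsto_exp_atBot.comp
          exact tendsto_atBot_add_const_left _ x tendsto_id
        exact tendsto_of_tendsto_of_tendsto_of_le_of_le tendsto_const_nhds h3
          (fun a => Lg_nonneg _) (fun a => Lg_le_exp _)
    simpa using h1
  set A := 1 / c1 with hA
  set B := (A * (N + c1 + ρ / b) + 1) / (1 - ρ) with hB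
  have hA0 : 0 < A := by rw [hA]; positivity
  have hB0 : 0 < B := by
    rw [hB]
    have : 0 < 1 - ρ := by linarith
    positivity
  -- choice of τ
  have hE0 := Real.exp_pos (b * R₀)
  have hδ : 0 < 1 / (2 * α * (A + B * Real.exp (b * R₀))) := by positivity
  obtain ⟨τ, hτ1, hτ2⟩ := ((hvlim.eventually (gt_mem_nhds hδ)).and
    (eventually_le_atBot (Real.log c1))).exists
  have hLτ : Lg τ ≤ c1 := by
    refine (Lg_le_exp τ).trans ?_
    rw [← Real.exp_log hn.c1pos]
    exact Real.exp_le_exp.2 hτ2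
  have hL := hn.lyap_fun hq0 hv0 hvq hA hB hLτ
  have hWbm : BM (WL v q A B b R₀ τ) := WL_BM hq0 hv0 hvq hA0.le hB0.le
  have hWb := WL_bounds (b := b) (R₀ := R₀) hq0 hv0 hvq hA0.le hB0.le (τ := τ)
  have hWsmall : ∀ t, α * WL v q A B b R₀ τ t ≤ 1 / 2 := by
    intro t
    have e1 := (hWb t).2
    have e2 := hqv τ
    have e3 : A * v τ + B * q τ * Real.exp (b * R₀) ≤ (A + B * Real.exp (b * R₀)) * v τ := by
      have : B * q τ * Real.exp (b * R₀) ≤ B * v τ * Real.exp (b * R₀) := by gcongr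
      nlinarith
    have e4 : (A + B * Real.exp (b * R₀)) * v τ ≤
        (A + B * Real.exp (b * R₀)) * (1 / (2 * α * (A + B * Real.exp (b * R₀)))) :=
      mul_le_mul_of_nonneg_left hτ1.le (by positivity)
    have e5 : α * ((A + B * Real.exp (b * R₀)) * (1 / (2 * α * (A + B * Real.exp (b * R₀))))) =
        1 / 2 := by field_simp
    calc α * WL v q A B b R₀ τ t ≤ α * ((A + B * Real.exp (b * R₀)) *
          (1 / (2 * α * (A + B * Real.exp (b * R₀))))) :=
          mul_le_mul_of_nonneg_left (e1.trans (e3.trans e4)) hα0.le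
      _ = 1 / 2 := e5
  have hHτ : 0 < H m (Real.exp τ) := H_pos m (Real.exp_pos τ)
  set Cτ := 1 / H m (Real.exp τ) with hCτ
  have hCτ0 : 0 < Cτ := by positivity
  have hfbm := hf.BM hα0.le hγ
  have hubm := BM_ua hα0
  -- D = Cτ f + α W - (1 - ua)
  set D : ℝ → ℝ := fun t => (Cτ * f t + α * WL v q A B b R₀ τ t) - (1 - ua α t) with hD
  have hb1 : BM (fun t => Cτ * f t + α * WL v q A B b R₀ τ t) :=
    (hfbm.const_mul Cτ).add (hWbm.const_mul α)
  have hb2 : BM (fun t => 1 - ua α t) := (BM.const 1).sub hubm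
  have hDbm : BM D := hb1.sub hb2
  have hDlow : ∀ t, -1 ≤ D t := by
    intro t
    simp only [hD]
    have e1 := hf.nonneg t
    have e2 := (hWb t).1
    have e3 := ua_nonneg hα0 t
    have e4 : 0 ≤ Cτ * f t := by positivity
    have e5 : 0 ≤ α * WL v q A B b R₀ τ t := by positivity
    linarith
  have hKua : ∀ t, (1 - ua α t) - Kt α ν (fun t => 1 - ua α t) t ≤ 1 - ua α t ∧
      (1 - ua α t) - Kt α ν (fun t => 1 - ua α t) t ≤ α * q t := by
    intro t
    constructor
    · have := Kt_nonneg (α := α) (ν := ν) (f := fun t => 1 - ua α t)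
        (fun t => by have := ua_le_one (α := α) t; linarith) t
      linarith
    · have e1 : (1 - ua α t) - Kt α ν (fun t => 1 - ua α t) t =
          (1 + Real.exp t) ^ (-α) * ∫ x, ua α (x + (t - Lg t)) ∂ν := by
        unfold Kt Tn
        rw [integral_sub (integrable_const _) (hubm.int _)]
        simp only [integral_const, probReal_univ, smul_eq_mul, mul_one]
        unfold ua
        ring
      rw [e1]
      have e2 : ∫ x, ua α (x + (t - Lg t)) ∂ν ≤ ∫ x, α * sg (x + t) ∂ν := by
        apply integral_mono (hubm.int _) ((hsi t).const_mul _)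
        intro x
        refine le_trans ?_ (ua_le_sg hα (x + t))
        apply ua_mono hα0
        have := Lg_nonneg t
        linarith
      rw [integral_const_mul] at e2
      have e3 : 0 ≤ ∫ x, ua α (x + (t - Lg t)) ∂ν := integral_nonneg fun x => ua_nonneg hα0 _
      have e4 := wt_le_one hα0.le t
      have e5 := wt_pos (α := α) t
      calc _ ≤ 1 * ∫ x, ua α (x + (t - Lg t)) ∂ν := mul_le_mul_of_nonneg_right e4 e3
        _ ≤ _ := by rw [one_mul]; exact e2
  have hKD : ∀ t, Kt α ν D t ≤ D t := by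
    intro t
    have e1 : Kt α ν D t = (Cτ * Kt α ν f t + α * Kt α ν (WL v q A B b R₀ τ) t) -
        Kt α ν (fun t => 1 - ua α t) t := by
      simp only [hD]
      rw [Kt_sub hb1.int hb2.int, Kt_add (hfbm.const_mul Cτ).int (hWbm.const_mul α).int,
        Kt_const_mul, Kt_const_mul]
    have e2 : Kt α ν f t = f t - g0 α m T t := by
      have := hfe t
      linarith
    rw [e1, e2]
    simp only [hD]
    obtain ⟨k1, k2⟩ := hKua t
    have k3 := hL t
    have hg0n : 0 ≤ g0 α m T t :=
      mul_nonneg (psi_nonneg hT (Real.exp_pos t).le) (Real.exp_pos _).le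
    rcases le_total t τ with ht | ht
    · rw [min_eq_left ht, min_eq_left (Real.one_le_exp (by nlinarith)), mul_one] at k3
      have k4 : α * q t ≤ α * (WL v q A B b R₀ τ t - Kt α ν (WL v q A B b R₀ τ) t) :=
        mul_le_mul_of_nonneg_left k3 hα0.le
      have k5 : 0 ≤ Cτ * g0 α m T t := by positivity
      linarith
    · have k4 : 0 ≤ WL v q A B b R₀ τ t - Kt α ν (WL v q A B b R₀ τ) t := by
        refine le_trans ?_ k3
        exact mul_nonneg (hq0 _) (le_min zero_le_one (Real.exp_pos _).le)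
      have k5 : 1 - ua α t ≤ Cτ * g0 α m T t := by
        have a1 : 1 - ua α t ≤ Real.exp (-α * t) := by
          have := wt_le_exp hα0.le le_rfl t
          unfold ua
          linarith
        have a2 : H m (Real.exp τ) ≤ psi m T (Real.exp t) :=
          ((Hreg_H m).mono _ _ (Real.exp_pos τ).le (Real.exp_le_exp.2 ht)).trans
            (H_le_psi hT (Real.exp_pos t).le)
        have a3 : Cτ * g0 α m T t = (psi m T (Real.exp t) / H m (Real.exp τ)) *
            Real.exp (-α * t) := by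
          rw [hCτ]; unfold g0; ring
        rw [a3]
        have a4 : 1 ≤ psi m T (Real.exp t) / H m (Real.exp τ) := (one_le_div hHτ).2 a2
        have a5 := Real.exp_pos (-α * t)
        nlinarith
      have k6 : 0 ≤ α * (WL v q A B b R₀ τ t - Kt α ν (WL v q A B b R₀ τ) t) :=
        mul_nonneg hα0.le k4
      linarith
  have hDnn := hn.min_principle hDbm hDlow hKD
  refine ⟨1 / (4 * Cτ), by positivity, ?_⟩
  have hua := (ua_tendsto hα0).eventually (gt_mem_nhds (by norm_num : (0:ℝ) < 1 / 4))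
  filter_upwards [hua] with t ht
  have k1 := hDnn t
  simp only [hD] at k1
  have k2 := hWsmall t
  rw [div_le_iff₀ (by positivity)]
  linarith

/-- the remainder in the non-integer case -/
theorem Law.rem_nonint (h : Law μ α) {m : ℕ} (hm : 1 ≤ m) (h1 : (m:ℝ) < α)
    (h2 : α < (m:ℝ) + 1) (hna : ¬ ∃ c : ℝ, 0 < c ∧ ∀ᵐ z ∂μ, ∃ k : ℤ, c * Real.log z = k)
    {T : List (ℝ × ℕ × ℕ)} (hT : TOk m T) :
    ∃ C : ℝ, 0 ≤ C ∧ (0 < C ↔ Integrable (fun x => x) (nu μ α)) ∧
    Tendsto (fun e => rem m T (Pm μ) (Ye e) e / e ^ α) (𝓝[>] 0) (𝓝 C) := by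
  have hpr := h.nu_prob
  have hα0 := h.apos
  have hm' : (1:ℝ) ≤ m := by exact_mod_cast hm
  have hα : 1 ≤ α := by linarith
  obtain ⟨b, ρ, R₀, c1, N, M, f, hn, hb1, hf, hfe, hdec, hg0⟩ := h.exists_pot hm h1 h2 hT
  have hγ : 0 ≤ (m:ℝ) + 1 - α := by linarith
  obtain ⟨hgi, hgt⟩ := eqn_int hn hb1 hγ hf hfe hdec hT hg0
  have hlip := hf.lip hα0.le hγ
  have hM0 : 0 ≤ M := (hf.nonneg 0).trans (hf.le 0)
  have habs : ∀ t, |f t| ≤ M := fun t => by rw [abs_of_nonneg (hf.nonneg t)]; exact hf.le t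
  have hlim := stepB habs hlip hgt (h.nonlattice hna)
  -- the limit of f
  have hκ : ∃ κ : ℝ, 0 ≤ κ ∧ (0 < κ ↔ Integrable (fun x => x) (nu μ α)) ∧
      Tendsto f atBot (𝓝 κ) := by
    by_cases hx : Integrable (fun x => x) (nu μ α)
    · have hf1 := renewal_fin hn.bpos hf.nonneg hf.le hdec hlip hn.iexp hgi hlim hx
        (h.mean_pos hx)
      obtain ⟨c, hc0, hc⟩ := h.pot_pos hα hT hn hγ hf hfe hx
      have hc' := ge_of_tendsto hf1 hc
      refine ⟨_, hc0.le.trans hc', ⟨fun _ => hx, fun _ => lt_of_lt_of_le hc0 hc'⟩, hf1⟩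
    · have hf1 := renewal_inf hn.bpos hf.nonneg hf.le hdec hlip hn.iexp hgi hlim hn.imin0 hx
      exact ⟨0, le_rfl, ⟨fun h0 => absurd h0 (lt_irrefl 0), fun h1 => absurd h1 hx⟩, hf1⟩
  obtain ⟨κ, hκ0, hκ1, hfκ⟩ := hκ
  have hTκ : Tendsto (Tn (nu μ α) f) atBot (𝓝 κ) := by
    have := hfκ.sub hgt
    rw [sub_zero] at this
    refine this.congr fun t => ?_
    ring
  have hkap := h.kap_pos hα
  refine ⟨κ * kap μ α, by positivity, ?_, ?_⟩
  · rw [← hκ1]
    constructor
    · intro h3
      exact pos_of_mul_pos_left h3 hkap.le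
    · intro h3; positivity
  have hTb := Tn_le hn hγ hf
  have hTl := Tn_lip hn hγ hf
  have hdct := h.dct hα (fun _ s => Tn (nu μ α) f s) (M := M)
    (Λ := (α + ((m:ℝ) + 1 - α)) * M) (κ := κ) hM0 (by positivity)
    (fun _ => lip_measurable hTl)
    (Eventually.of_forall fun e q _ => by
      rw [abs_of_nonneg (hTb _).1]; exact (hTb _).2)
    (Eventually.of_forall fun e s t => hTl s t)
    (fun q q₀ hq0 hq => by
      apply hTκ.comp
      have e1 : Tendsto (fun e : ℝ => e * q e) (𝓝[>] 0) (𝓝[>] 0) := by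
        rw [tendsto_nhdsWithin_iff]
        constructor
        · have e2 : Tendsto (fun e : ℝ => e) (𝓝[>] 0) (𝓝 0) :=
            tendsto_id.mono_left nhdsWithin_le_nhds
          have := e2.mul hq
          rw [zero_mul] at this
          exact this
        · filter_upwards [hq.eventually (lt_mem_nhds hq0), small_e] with e h3 h4
          exact mul_pos h4.1 h3
      exact Real.tendsto_log_nhdsGT_zero.comp e1)
  -- E psi(Y) / e^α
  have hpsi : Tendsto (fun e => (∫ ω, psi m T (Ye e ω) ∂(Pm μ)) / e ^ α) (𝓝[>] 0)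
      (𝓝 (κ * kap μ α)) := by
    refine hdct.congr' ?_
    filter_upwards [small_e] with e he
    obtain ⟨he, he1⟩ := he
    have hfa : Adm α f := Adm.of_bdd (lip_measurable hlip) habs
    have hKa : Adm α (Kt α (nu μ α) f) := by
      have hK := hf.Kt (ν := nu μ α) hα0.le hγ
      exact Adm.of_bdd (hK.BM hα0.le hγ).meas (C := M) (fun t => by
        rw [abs_of_nonneg (hK.nonneg t)]; exact hK.le t)
    have h3 := h.basic_identity he he1 hfa (h.S_int he he1 hKa)
    have h4 : ∫ ω, psi m T (Ye e ω) ∂(Pm μ) =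
        ∫ ω, Ye e ω ^ α * (f (Real.log (Ye e ω)) -
          Kt α (nu μ α) f (Real.log (Ye e ω))) ∂(Pm μ) := by
      apply integral_congr_ae
      filter_upwards [h.ae_good] with ω hω
      have hY := Ye_pos he he1 hω
      have h5 : f (Real.log (Ye e ω)) - Kt α (nu μ α) f (Real.log (Ye e ω)) =
          g0 α m T (Real.log (Ye e ω)) := by
        have := hfe (Real.log (Ye e ω))
        linarith
      rw [h5]
      unfold g0
      rw [Real.exp_log hY]
      have h6 : Real.exp (-α * Real.log (Ye e ω)) = (Ye e ω ^ α)⁻¹ := by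
        rw [← Real.rpow_neg hY.le, Real.rpow_def_of_pos hY]; ring_nf
      rw [h6]
      have h7 : Ye e ω ^ α ≠ 0 := (Real.rpow_pos_of_pos hY α).ne'
      field_simp
    rw [h4, h3]
    have h8 : e ^ α ≠ 0 := (Real.rpow_pos_of_pos he α).ne'
    field_simp
  obtain ⟨K, hK0, hK⟩ := h.Ye_moment (m := m) h1
  have h3 : Tendsto (fun e : ℝ => cT m T * K * e ^ ((m:ℝ) + 1 - α)) (𝓝[>] 0) (𝓝 0) := by
    have e1 : Tendsto (fun e : ℝ => e) (𝓝[>] 0) (𝓝 0) := tendsto_id.mono_left nhdsWithin_le_nhds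
    have e2 := (e1.rpow_const (p := (m:ℝ) + 1 - α) (Or.inr hγ)).const_mul (cT m T * K)
    rw [Real.zero_rpow (by linarith), mul_zero] at e2
    exact e2
  have h4 : Tendsto (fun e => rem m T (Pm μ) (Ye e) e / e ^ α -
      (∫ ω, psi m T (Ye e ω) ∂(Pm μ)) / e ^ α) (𝓝[>] 0) (𝓝 0) := by
    rw [tendsto_zero_iff_abs_tendsto_zero]
    refine tendsto_of_tendsto_of_tendsto_of_le_of_le' tendsto_const_nhds h3
      (Eventually.of_forall fun e => abs_nonneg _) ?_
    filter_upwards [small_e] with e he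
    obtain ⟨he, he1⟩ := he
    have hS := h.stat he he1 (m := m) h1.le
    obtain ⟨i1, i2⟩ := rem_sub_psi hS hK0 (hK e he he1) hT
    have hea : 0 < e ^ α := Real.rpow_pos_of_pos he α
    simp only [Function.comp]
    rw [← sub_div, abs_div, abs_of_pos hea, div_le_iff₀ hea]
    refine i2.trans (le_of_eq ?_)
    rw [mul_assoc, mul_assoc, mul_assoc, ← Real.rpow_add he]
    congr 2
    have e3 : (m:ℝ) + 1 - α + α = ((m + 1 : ℕ) : ℝ) := by push_cast; ring
    rw [e3, Real.rpow_natCast]
  have h5 := h4.add hpsi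
  rw [zero_add] at h5
  refine h5.congr fun e => ?_
  ring

end Pool.Agent.Lib_helper63.DH
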