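import Pool.Agent.Lib_helper63.DH.Int

/-!
Bounded potentials of the operator `Kt`.
-/

open MeasureTheory Filter Topology

namespace Pool.Agent.Lib_helper63.DH

/-- bounded measurable functions -/
structure BM (f : ℝ → ℝ) : Prop where
  meas : Measurable f
  bd : ∃ C : ℝ, ∀ t, |f t| ≤ C

variable {ν : Measure ℝ} [IsProbabilityMeasure ν] {α b ρ R₀ c1 N : ℝ}

theorem BM.int {f : ℝ → ℝ} (hf : BM f) (s : ℝ) : Integrable (fun x => f (x + s)) ν := by
  obtain ⟨C, hC⟩ := hf.bd
  refine (integrable_const C).mono'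
    (hf.meas.comp (measurable_id.add_const s)).aestronglyMeasurable ?_
  filter_upwards with x
  rw [Real.norm_eq_abs]
  exact hC _

theorem BM.add {f g : ℝ → ℝ} (hf : BM f) (hg : BM g) : BM (fun t => f t + g t) where
  meas := hf.meas.add hg.meas
  bd := by
    obtain ⟨C, hC⟩ := hf.bd
    obtain ⟨D, hD⟩ := hg.bd
    exact ⟨C + D, fun t => (abs_add_le _ _).trans (add_le_add (hC t) (hD t))⟩

theorem BM.sub {f g : ℝ → ℝ} (hf : BM f) (hg : BM g) : BM (fun t => f t - g t) where
  meas := hf.meas.sub hg.meas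
  bd := by
    obtain ⟨C, hC⟩ := hf.bd
    obtain ⟨D, hD⟩ := hg.bd
    exact ⟨C + D, fun t => (abs_sub _ _).trans (add_le_add (hC t) (hD t))⟩

theorem BM.const_mul {f : ℝ → ℝ} (hf : BM f) (c : ℝ) : BM (fun t => c * f t) where
  meas := hf.meas.const_mul c
  bd := by
    obtain ⟨C, hC⟩ := hf.bd
    refine ⟨|c| * C, fun t => ?_⟩
    rw [abs_mul]
    exact mul_le_mul_of_nonneg_left (hC t) (abs_nonneg c)

theorem BM.const (c : ℝ) : BM (fun _ => c) := ⟨measurable_const, |c|, fun _ => le_rfl⟩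

theorem wt_pos (t : ℝ) : 0 < (1 + Real.exp t) ^ (-α) := by positivity

theorem wt_le_one (hα : 0 ≤ α) (t : ℝ) : (1 + Real.exp t) ^ (-α) ≤ 1 :=
  Real.rpow_le_one_of_one_le_of_nonpos (by have := Real.exp_pos t; linarith) (by linarith)

theorem wt_exp (hb : b ≤ α) (t c : ℝ) :
    (1 + Real.exp t) ^ (-α) * Real.exp (-b * (t - Lg t - c)) ≤ Real.exp (-b * (t - c)) := by
  have h1 : (1 + Real.exp t) ^ (-α) = Real.exp (-α * Lg t) := by
    rw [Real.rpow_def_of_pos (by positivity)]
    unfold Lg; ring_nf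
  rw [h1, ← Real.exp_add]
  apply Real.exp_le_exp.2
  have := Lg_nonneg t
  nlinarith

omit [IsProbabilityMeasure ν] in
theorem Kt_mono {f g : ℝ → ℝ} (hf : ∀ s, Integrable (fun x => f (x + s)) ν)
    (hg : ∀ s, Integrable (fun x => g (x + s)) ν) (h : ∀ t, f t ≤ g t) (t : ℝ) :
    Kt α ν f t ≤ Kt α ν g t := by
  unfold Kt Tn
  apply mul_le_mul_of_nonneg_left _ (wt_pos t).le
  exact integral_mono (hf _) (hg _) (fun x => h _)

omit [IsProbabilityMeasure ν] in
theorem Kt_add {f g : ℝ → ℝ} (hf : ∀ s, Integrable (fun x => f (x + s)) ν)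
    (hg : ∀ s, Integrable (fun x => g (x + s)) ν) (t : ℝ) :
    Kt α ν (fun t => f t + g t) t = Kt α ν f t + Kt α ν g t := by
  unfold Kt Tn
  rw [integral_add (hf _) (hg _), mul_add]

omit [IsProbabilityMeasure ν] in
theorem Kt_sub {f g : ℝ → ℝ} (hf : ∀ s, Integrable (fun x => f (x + s)) ν)
    (hg : ∀ s, Integrable (fun x => g (x + s)) ν) (t : ℝ) :
    Kt α ν (fun t => f t - g t) t = Kt α ν f t - Kt α ν g t := by
  unfold Kt Tn
  rw [integral_sub (hf _) (hg _), mul_sub]

omit [IsProbabilityMeasure ν] in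
theorem Kt_const_mul (c : ℝ) (f : ℝ → ℝ) (t : ℝ) :
    Kt α ν (fun t => c * f t) t = c * Kt α ν f t := by
  unfold Kt Tn
  rw [integral_const_mul]; ring

omit [IsProbabilityMeasure ν] in
theorem Kt_nonneg {f : ℝ → ℝ} (h : ∀ t, 0 ≤ f t) (t : ℝ) : 0 ≤ Kt α ν f t := by
  unfold Kt Tn
  exact mul_nonneg (wt_pos t).le (integral_nonneg fun x => h _)

/-- hypotheses on the tilted law -/
structure Nux (α : ℝ) (ν : Measure ℝ) (b ρ R₀ c1 N : ℝ) : Prop where
  bpos : 0 < b
  bα : b ≤ α
  iexp : Integrable (fun x => Real.exp (-b * x)) ν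
  exp_eq : ∫ x, Real.exp (-b * x) ∂ν = ρ
  ρ1 : ρ < 1
  R0 : 0 ≤ R₀
  c1pos : 0 < c1
  imin : Integrable (fun x => min x R₀) ν
  min_le : 2 * c1 ≤ ∫ x, min x R₀ ∂ν
  imin0 : Integrable (fun x => min x 0) ν
  N_eq : ∫ x, min x 0 ∂ν = -N

omit [IsProbabilityMeasure ν] in
theorem Nux.ρ0 (h : Nux α ν b ρ R₀ c1 N) : 0 ≤ ρ := by
  rw [← h.exp_eq]
  exact integral_nonneg fun x => (Real.exp_pos _).le

omit [IsProbabilityMeasure ν] in
theorem Nux.N0 (h : Nux α ν b ρ R₀ c1 N) : 0 ≤ N := by
  have h1 : ∫ x, min x 0 ∂ν ≤ 0 := integral_nonpos fun x => min_le_right _ _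
  rw [h.N_eq] at h1
  linarith

omit [IsProbabilityMeasure ν] in
theorem Nux.α0 (h : Nux α ν b ρ R₀ c1 N) : 0 < α := lt_of_lt_of_le h.bpos h.bα

omit [IsProbabilityMeasure ν] in
theorem Nux.exp_int (h : Nux α ν b ρ R₀ c1 N) (s : ℝ) :
    Integrable (fun x => Real.exp (-b * (x + s))) ν ∧
    ∫ x, Real.exp (-b * (x + s)) ∂ν = ρ * Real.exp (-b * s) := by
  have h1 : ∀ x, Real.exp (-b * (x + s)) = Real.exp (-b * x) * Real.exp (-b * s) := by
    intro x; rw [← Real.exp_add]; ring_nf
  simp only [h1]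
  refine ⟨h.iexp.mul_const _, ?_⟩
  rw [integral_mul_const, h.exp_eq]

omit [IsProbabilityMeasure ν] in
theorem Nux.Kt_exp (h : Nux α ν b ρ R₀ c1 N) (t : ℝ) :
    Kt α ν (fun t => Real.exp (-b * t)) t ≤ ρ * Real.exp (-b * t) := by
  unfold Kt Tn
  rw [(h.exp_int _).2]
  have h1 := wt_exp h.bα t 0
  rw [sub_zero, sub_zero] at h1
  have h2 := h.ρ0
  calc _ = ρ * ((1 + Real.exp t) ^ (-α) * Real.exp (-b * (t - Lg t))) := by ring
    _ ≤ _ := mul_le_mul_of_nonneg_left h1 h2

/-- the Lyapunov function -/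
noncomputable def WL (v q : ℝ → ℝ) (A B b R₀ τ t : ℝ) : ℝ :=
  A * (v τ - v (min t τ)) + B * q τ * min (Real.exp (b * R₀)) (Real.exp (-b * (t - τ)))

section WLsec

variable {v q : ℝ → ℝ} (hq : ∀ t, 0 ≤ q t) (hv : ∀ t, 0 ≤ v t)
  (hvq : ∀ s t, q s * (t - s) ≤ v t - v s)

include hq hvq in
theorem v_mono : Monotone v := by
  intro s t hst
  have h1 := hvq s t
  have h2 : 0 ≤ q s * (t - s) := mul_nonneg (hq s) (by linarith)
  linarith

include hvq in
theorem q_mono : Monotone q := by
  intro s t hst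
  rcases hst.eq_or_lt with rfl | hlt
  · exact le_rfl
  have h1 := hvq s t
  have h2 := hvq t s
  have h3 : 0 ≤ (q t - q s) * (t - s) := by nlinarith
  have h4 : 0 < t - s := by linarith
  have := nonneg_of_mul_nonneg_left h3 h4
  linarith

include hq hv hvq in
theorem WL_bounds {A B τ : ℝ} (hA : 0 ≤ A) (hB : 0 ≤ B) (t : ℝ) :
    0 ≤ WL v q A B b R₀ τ t ∧ WL v q A B b R₀ τ t ≤ A * v τ + B * q τ * Real.exp (b * R₀) := by
  unfold WL
  have h1 := v_mono hq hvq (min_le_right t τ)
  have h2 := hv (min t τ)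
  have h3 : 0 ≤ min (Real.exp (b * R₀)) (Real.exp (-b * (t - τ))) :=
    le_min (Real.exp_pos _).le (Real.exp_pos _).le
  have h4 := hq τ
  constructor
  · have : 0 ≤ A * (v τ - v (min t τ)) := mul_nonneg hA (by linarith)
    positivity
  · apply add_le_add
    · exact mul_le_mul_of_nonneg_left (by linarith) hA
    · exact mul_le_mul_of_nonneg_left (min_le_left _ _) (by positivity)

include hq hv hvq in
theorem WL_BM {A B τ : ℝ} (hA : 0 ≤ A) (hB : 0 ≤ B) : BM (WL v q A B b R₀ τ) where
  meas := by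
    have h1 : Measurable v := (v_mono hq hvq).measurable
    unfold WL
    fun_prop
  bd := ⟨_, fun t => by
    obtain ⟨h1, h2⟩ := WL_bounds (b := b) (R₀ := R₀) hq hv hvq hA hB (τ := τ) t
    rw [abs_of_nonneg h1]
    exact h2⟩

include hq hv hvq in
/-- **The Lyapunov inequality.** -/
theorem Nux.lyap_fun (h : Nux α ν b ρ R₀ c1 N) {A B τ : ℝ} (hA : A = 1 / c1)
    (hB : B = (A * (N + c1 + ρ / b) + 1) / (1 - ρ)) (hτ : Lg τ ≤ c1) (t : ℝ) :
    q (min t τ) * min 1 (Real.exp (-b * (t - τ))) ≤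
      WL v q A B b R₀ τ t - Kt α ν (WL v q A B b R₀ τ) t := by
  have hρ0 := h.ρ0
  have hρ1 := h.ρ1
  have hb := h.bpos
  have hN := h.N0
  have hc := h.c1pos
  have hα := h.α0
  have hR := h.R0
  have hvm := v_mono hq hvq
  have hqm := q_mono hvq
  have hA0 : 0 < A := by rw [hA]; positivity
  have h1ρ : 0 < 1 - ρ := by linarith
  have hB0 : 0 < B := by rw [hB]; positivity
  have hBeq : B * (1 - ρ) = A * (N + c1 + ρ / b) + 1 := by rw [hB]; field_simp
  set s := t - Lg t with hs
  set lam := (1 + Real.exp t) ^ (-α) with hlam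
  have hl0 : 0 < lam := wt_pos t
  have hl1 : lam ≤ 1 := wt_le_one hα.le t
  have hLt := Lg_nonneg t
  -- the two integrals
  have bm1 : BM (fun x => v τ - v (min x τ)) :=
    ⟨by have := hvm.measurable; fun_prop, v τ, fun x => by
      have a1 := hvm (min_le_right x τ)
      have a2 := hv (min x τ)
      rw [abs_of_nonneg (by linarith)]; linarith⟩
  have bm2 : BM (fun x => min (Real.exp (b * R₀)) (Real.exp (-b * (x - τ)))) :=
    ⟨by fun_prop, Real.exp (b * R₀), fun x => by
      rw [abs_of_nonneg (le_min (Real.exp_pos _).le (Real.exp_pos _).le)]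
      exact min_le_left _ _⟩
  set I1 := ∫ x, (v τ - v (min (x + s) τ)) ∂ν with hI1
  set I2 := ∫ x, min (Real.exp (b * R₀)) (Real.exp (-b * (x + s - τ))) ∂ν with hI2
  have hK : Kt α ν (WL v q A B b R₀ τ) t = lam * (A * I1 + B * q τ * I2) := by
    unfold Kt Tn WL
    rw [← hs, ← hlam]
    congr 1
    rw [integral_add ((bm1.int s).const_mul A) ((bm2.int s).const_mul (B * q τ)),
      integral_const_mul, integral_const_mul]
  have hI10 : 0 ≤ I1 := integral_nonneg fun x => by
    have := hvm (min_le_right (x + s) τ)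
    simp only [Pi.zero_apply]; linarith
  have hI2a : I2 ≤ Real.exp (b * R₀) := by
    calc I2 ≤ ∫ _, Real.exp (b * R₀) ∂ν :=
          integral_mono (bm2.int s) (integrable_const _) (fun x => min_le_left _ _)
      _ = _ := by simp
  have hI2b : I2 ≤ ρ * Real.exp (-b * (s - τ)) := by
    have e1 := h.exp_int (s - τ)
    rw [← e1.2]
    apply integral_mono (bm2.int s) e1.1
    intro x
    refine (min_le_right _ _).trans (le_of_eq ?_)
    simp only
    congr 1; ring
  have hI20 : 0 ≤ I2 := integral_nonneg fun x => le_min (Real.exp_pos _).le (Real.exp_pos _).le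
  have hlI2a : lam * I2 ≤ Real.exp (b * R₀) := by nlinarith
  have hlI2b : lam * I2 ≤ ρ * Real.exp (-b * (t - τ)) := by
    calc lam * I2 ≤ lam * (ρ * Real.exp (-b * (s - τ))) := mul_le_mul_of_nonneg_left hI2b hl0.le
      _ = ρ * (lam * Real.exp (-b * (s - τ))) := by ring
      _ ≤ _ := mul_le_mul_of_nonneg_left (wt_exp h.bα t τ) hρ0
  rw [hK]
  have hqτ := hq τ
  rcases le_or_gt t τ with htτ | htτ
  · -- t ≤ τ
    have hmin : min t τ = t := min_eq_left htτ
    have hLt' : Lg t ≤ c1 := (Lg_mono htτ).trans hτ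
    have hE : 1 ≤ Real.exp (-b * (t - τ)) := Real.one_le_exp (by nlinarith)
    rw [hmin, min_eq_left hE, mul_one]
    unfold WL
    rw [hmin]
    have hqt := hq t
    have hqtτ := hqm htτ
    -- general lower bound
    have key : ∀ c : ℝ, (∀ x, min x c - Lg t ≤ min (x + s) τ - t) →
        Integrable (fun x => min x c) ν →
        I1 ≤ v τ - v t - q t * (∫ x, min x c ∂ν - Lg t) := by
      intro c hc1 hc2
      have i1 : Integrable (fun x => (v τ - v t) - q t * (min x c - Lg t)) ν :=
        (integrable_const _).sub ((hc2.sub (integrable_const _)).const_mul _)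
      have i2 : ∫ x, ((v τ - v t) - q t * (min x c - Lg t)) ∂ν =
          v τ - v t - q t * (∫ x, min x c ∂ν - Lg t) := by
        have i3 : Integrable (fun x => min x c - Lg t) ν := hc2.sub (integrable_const _)
        rw [integral_sub (integrable_const _) (i3.const_mul _), integral_const_mul,
          integral_sub hc2 (integrable_const _)]
        simp
      rw [← i2]
      apply integral_mono (bm1.int s) i1
      intro x
      simp only
      have a1 := hvq t (min (x + s) τ)
      have a2 := mul_le_mul_of_nonneg_left (hc1 x) hqt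
      linarith
    have hl1' : lam * (A * I1 + B * q τ * I2) ≤ A * I1 + B * q τ * (lam * I2) := by
      have : lam * (A * I1) ≤ A * I1 := by
        have : 0 ≤ A * I1 := by positivity
        nlinarith
      nlinarith
    rcases le_or_gt t (τ - R₀) with htR | htR
    · -- far left
      have hβ : min (Real.exp (b * R₀)) (Real.exp (-b * (t - τ))) = Real.exp (b * R₀) := by
        apply min_eq_left
        apply Real.exp_le_exp.2
        nlinarith
      rw [hβ]
      have k1 := key R₀ (fun x => by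
        rw [hs]
        have e1 : min (x + (t - Lg t)) τ - t = min (x - Lg t) (τ - t) := by
          rw [← min_sub_sub_right]; congr 1; ring
        have e2 : min x R₀ - Lg t = min (x - Lg t) (R₀ - Lg t) := by
          rw [min_sub_sub_right]
        rw [e1, e2]
        exact min_le_min le_rfl (by linarith)) h.imin
      have k2 : q t * c1 ≤ q t * (∫ x, min x R₀ ∂ν - Lg t) :=
        mul_le_mul_of_nonneg_left (by linarith [h.min_le]) hqt
      have k3 : A * (q t * c1) = q t := by rw [hA]; field_simp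
      have k4 : A * I1 ≤ A * (v τ - v t) - q t := by
        have : A * I1 ≤ A * (v τ - v t - q t * c1) := mul_le_mul_of_nonneg_left (by linarith) hA0.le
        nlinarith
      have k5 : B * q τ * (lam * I2) ≤ B * q τ * Real.exp (b * R₀) :=
        mul_le_mul_of_nonneg_left hlI2a (by positivity)
      linarith
    · -- near the threshold
      have hβ : min (Real.exp (b * R₀)) (Real.exp (-b * (t - τ))) = Real.exp (-b * (t - τ)) := by
        apply min_eq_right
        apply Real.exp_le_exp.2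
        nlinarith
      rw [hβ]
      have k1 := key 0 (fun x => by
        rw [hs]
        have e1 : min (x + (t - Lg t)) τ - t = min (x - Lg t) (τ - t) := by
          rw [← min_sub_sub_right]; congr 1; ring
        have e2 : min x 0 - Lg t = min (x - Lg t) (0 - Lg t) := by
          rw [min_sub_sub_right]
        rw [e1, e2]
        exact min_le_min le_rfl (by linarith)) h.imin0
      rw [h.N_eq] at k1
      have k2 : A * I1 ≤ A * (v τ - v t) + A * q τ * (N + c1) := by
        have a1 : q t * (N + Lg t) ≤ q τ * (N + c1) :=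
          mul_le_mul hqtτ (by linarith) (by positivity) hqτ
        have a2 : A * I1 ≤ A * (v τ - v t + q τ * (N + c1)) :=
          mul_le_mul_of_nonneg_left (by linarith) hA0.le
        nlinarith
      have k3 : B * q τ * (lam * I2) ≤ B * q τ * (ρ * Real.exp (-b * (t - τ))) :=
        mul_le_mul_of_nonneg_left hlI2b (by positivity)
      have k4 : q τ * (B * (1 - ρ)) * Real.exp (-b * (t - τ)) ≥ q τ * (B * (1 - ρ)) := by
        have : 0 ≤ q τ * (B * (1 - ρ)) := by positivity
        nlinarith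
      rw [hBeq] at k4
      have k5 : 0 ≤ A * (ρ / b) * q τ := by positivity
      have k6 : q τ * (A * (N + c1 + ρ / b) + 1) = A * q τ * (N + c1) + A * (ρ / b) * q τ + q τ := by
        ring
      have k7 : B * q τ * Real.exp (-b * (t - τ)) - B * q τ * (ρ * Real.exp (-b * (t - τ))) =
          q τ * (A * (N + c1 + ρ / b) + 1) * Real.exp (-b * (t - τ)) := by
        rw [← hBeq]; ring
      linarith
  · -- t > τ
    have hmin : min t τ = τ := min_eq_right htτ.le
    have hE : Real.exp (-b * (t - τ)) ≤ 1 := Real.exp_le_one_iff.2 (by nlinarith)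
    have hβ : min (Real.exp (b * R₀)) (Real.exp (-b * (t - τ))) = Real.exp (-b * (t - τ)) := by
      apply min_eq_right
      apply Real.exp_le_exp.2
      nlinarith
    rw [hmin, min_eq_right hE]
    unfold WL
    rw [hmin, hβ, sub_self, mul_zero, zero_add]
    have k1 : I1 ≤ q τ * (1 / b) * (ρ * Real.exp (-b * (s - τ))) := by
      have e1 := h.exp_int (s - τ)
      rw [← e1.2, ← integral_const_mul]
      apply integral_mono (bm1.int s) (e1.1.const_mul _)
      intro x
      simp only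
      have a1 := hvq τ (min (x + s) τ)
      have a2 : τ - min (x + s) τ ≤ (1 / b) * Real.exp (-b * (x + (s - τ))) := by
        have a3 := Real.add_one_le_exp (-b * (x + (s - τ)))
        have a4 := Real.exp_pos (-b * (x + (s - τ)))
        rw [one_div, inv_mul_eq_div, le_div_iff₀ hb]
        rcases le_total (x + s) τ with h5 | h5
        · rw [min_eq_left h5]; nlinarith
        · rw [min_eq_right h5]; nlinarith
      have a5 := mul_le_mul_of_nonneg_left a2 hqτ
      nlinarith
    have k2 : lam * (A * I1) ≤ A * (ρ / b) * q τ * Real.exp (-b * (t - τ)) := by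
      have w1 := wt_exp h.bα t τ
      calc lam * (A * I1) ≤ lam * (A * (q τ * (1 / b) * (ρ * Real.exp (-b * (s - τ))))) := by
            gcongr
        _ = A * (ρ / b) * q τ * (lam * Real.exp (-b * (s - τ))) := by ring
        _ ≤ _ := mul_le_mul_of_nonneg_left w1 (by positivity)
    have k3 : B * q τ * (lam * I2) ≤ B * q τ * (ρ * Real.exp (-b * (t - τ))) :=
      mul_le_mul_of_nonneg_left hlI2b (by positivity)
    have k7 : B * q τ * Real.exp (-b * (t - τ)) - B * q τ * (ρ * Real.exp (-b * (t - τ))) =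
        q τ * (A * (N + c1 + ρ / b) + 1) * Real.exp (-b * (t - τ)) := by
      rw [← hBeq]; ring
    have k8 : 0 ≤ A * (N + c1) * q τ * Real.exp (-b * (t - τ)) := by positivity
    nlinarith

end WLsec

/-! ### The iterates and the potential -/

/-- partial sums of the potential -/
noncomputable def pot (α : ℝ) (ν : Measure ℝ) (g : ℝ → ℝ) : ℕ → ℝ → ℝ
  | 0 => fun _ => 0
  | n + 1 => fun t => g t + Kt α ν (pot α ν g n) t

/-- regularity class -/
structure Reg (α γ M : ℝ) (f : ℝ → ℝ) : Prop where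
  nonneg : ∀ t, 0 ≤ f t
  le : ∀ t, f t ≤ M
  lo : ∀ s t, s ≤ t → Real.exp (-α * (t - s)) * f s ≤ f t
  up : ∀ s t, s ≤ t → f t ≤ Real.exp (γ * (t - s)) * f s

theorem Reg.lip {γ M : ℝ} {f : ℝ → ℝ} (h : Reg α γ M f) (hα : 0 ≤ α) (hγ : 0 ≤ γ) (s t : ℝ) :
    |f s - f t| ≤ (α + γ) * M * |s - t| := by
  have key : ∀ s t : ℝ, s ≤ t → |f s - f t| ≤ (α + γ) * M * |s - t| := by
    intro s t hst
    have h1 := h.lo s t hst
    have h2 := h.up s t hst
    have h3 := h.nonneg s
    have h4 := h.le s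
    have h5 := h.nonneg t
    have h6 := h.le t
    have hM : 0 ≤ M := h3.trans h4
    rw [abs_of_nonpos (by linarith : s - t ≤ 0)]
    have hts : 0 ≤ t - s := by linarith
    have h7 := Real.add_one_le_exp (-α * (t - s))
    have h8 := Real.add_one_le_exp (-γ * (t - s))
    have h9 : Real.exp (-γ * (t - s)) * f t ≤ f s := by
      have : Real.exp (-γ * (t - s)) * f t ≤
          Real.exp (-γ * (t - s)) * (Real.exp (γ * (t - s)) * f s) :=
        mul_le_mul_of_nonneg_left h2 (Real.exp_pos _).le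
      rw [← mul_assoc, ← Real.exp_add] at this
      have e : -γ * (t - s) + γ * (t - s) = 0 := by ring
      rw [e, Real.exp_zero, one_mul] at this
      exact this
    have hαM : α * (t - s) * f s ≤ α * (t - s) * M := mul_le_mul_of_nonneg_left h4 (by positivity)
    have hγM : γ * (t - s) * f t ≤ γ * (t - s) * M := mul_le_mul_of_nonneg_left h6 (by positivity)
    have e1 : 0 ≤ α * (t - s) * M := by positivity
    have e2 : 0 ≤ γ * (t - s) * M := by positivity
    have h10 : (-α * (t - s) + 1) * f s ≤ Real.exp (-α * (t - s)) * f s :=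
      mul_le_mul_of_nonneg_right h7 h3
    have h11 : (-γ * (t - s) + 1) * f t ≤ Real.exp (-γ * (t - s)) * f t :=
      mul_le_mul_of_nonneg_right h8 h5
    rw [abs_le]
    constructor <;> nlinarith
  rcases le_total s t with h1 | h1
  · exact key s t h1
  · rw [abs_sub_comm, abs_sub_comm s t]; exact key t s h1

theorem lip_measurable {f : ℝ → ℝ} {Λ : ℝ} (h : ∀ s t, |f s - f t| ≤ Λ * |s - t|) :
    Measurable f := by
  have h0 : 0 ≤ Λ := by
    have := (abs_nonneg _).trans (h 1 0)
    simpa using this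
  have : LipschitzWith ⟨Λ, h0⟩ f := by
    apply LipschitzWith.of_dist_le_mul
    intro s t
    rw [Real.dist_eq, Real.dist_eq]
    exact h s t
  exact this.continuous.measurable

theorem Reg.BM {γ M : ℝ} {f : ℝ → ℝ} (h : Reg α γ M f) (hα : 0 ≤ α) (hγ : 0 ≤ γ) : BM f where
  meas := lip_measurable (h.lip hα hγ)
  bd := ⟨M, fun t => by rw [abs_of_nonneg (h.nonneg t)]; exact h.le t⟩

theorem Reg.zero (α γ : ℝ) : Reg α γ 0 (fun _ => 0) :=
  ⟨fun _ => le_rfl, fun _ => le_rfl, fun _ _ _ => by simp, fun _ _ _ => by simp⟩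

theorem Reg.Kt {γ M : ℝ} {f : ℝ → ℝ} (h : Reg α γ M f) (hα : 0 ≤ α) (hγ : 0 ≤ γ) :
    Reg α γ M (Kt α ν f) := by
  have hbm := h.BM hα hγ
  have hM : 0 ≤ M := (h.nonneg 0).trans (h.le 0)
  have hwt : ∀ t, (1 + Real.exp t) ^ (-α) = Real.exp (-α * Lg t) := by
    intro t
    rw [Real.rpow_def_of_pos (by positivity)]
    unfold Lg; ring_nf
  have hT0 : ∀ s, 0 ≤ Tn ν f s := fun s => integral_nonneg fun x => h.nonneg _
  have hTlo : ∀ s t, s ≤ t → Real.exp (-α * (t - s)) * Tn ν f s ≤ Tn ν f t := by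
    intro s t hst
    unfold Tn
    rw [← integral_const_mul]
    apply integral_mono ((hbm.int s).const_mul _) (hbm.int t)
    intro x
    have := h.lo (x + s) (x + t) (by linarith)
    rwa [add_sub_add_left_eq_sub] at this
  have hTup : ∀ s t, s ≤ t → Tn ν f t ≤ Real.exp (γ * (t - s)) * Tn ν f s := by
    intro s t hst
    unfold Tn
    rw [← integral_const_mul]
    apply integral_mono (hbm.int t) ((hbm.int s).const_mul _)
    intro x
    have := h.up (x + s) (x + t) (by linarith)
    rwa [add_sub_add_left_eq_sub] at this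
  refine ⟨Kt_nonneg h.nonneg, ?_, ?_, ?_⟩
  · intro t
    unfold DH.Kt
    have h1 : Tn ν f (t - Lg t) ≤ M := by
      unfold Tn
      calc ∫ x, f (x + (t - Lg t)) ∂ν ≤ ∫ _, M ∂ν :=
            integral_mono (hbm.int _) (integrable_const _) (fun x => h.le _)
        _ = M := by simp
    have h2 := wt_le_one hα t
    have h3 := wt_pos (α := α) t
    have h4 := hT0 (t - Lg t)
    nlinarith
  · intro s t hst
    unfold DH.Kt
    rw [sub_Lg, sub_Lg, hwt, hwt]
    have h1 := fL_anti hst
    have h2 := hTlo (-fL s) (-fL t) (by linarith)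
    have h3 : Real.exp (-α * (t - s)) * (Real.exp (-α * Lg s) * Tn ν f (-fL s)) =
        Real.exp (-α * Lg t) * (Real.exp (-α * (-fL t - -fL s)) * Tn ν f (-fL s)) := by
      rw [← mul_assoc, ← mul_assoc, ← Real.exp_add, ← Real.exp_add]
      congr 2
      rw [Lg_eq s, Lg_eq t]; ring
    rw [h3]
    exact mul_le_mul_of_nonneg_left h2 (Real.exp_pos _).le
  · intro s t hst
    unfold DH.Kt
    rw [sub_Lg, sub_Lg, hwt, hwt]
    have h1 := fL_anti hst
    have h2 := hTup (-fL s) (-fL t) (by linarith)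
    have h3 := Lg_mono hst
    calc Real.exp (-α * Lg t) * Tn ν f (-fL t)
        ≤ Real.exp (-α * Lg t) * (Real.exp (γ * (-fL t - -fL s)) * Tn ν f (-fL s)) :=
          mul_le_mul_of_nonneg_left h2 (Real.exp_pos _).le
      _ = Real.exp (-α * Lg t + γ * (-fL t - -fL s)) * Tn ν f (-fL s) := by
          rw [← mul_assoc, ← Real.exp_add]
      _ ≤ Real.exp (γ * (t - s) + -α * Lg s) * Tn ν f (-fL s) := by
          apply mul_le_mul_of_nonneg_right _ (hT0 _)
          apply Real.exp_le_exp.2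
          rw [fL_eq s, fL_eq t]
          nlinarith
      _ = _ := by rw [Real.exp_add]; ring

theorem Reg.add {γ M M' : ℝ} {f g : ℝ → ℝ} (hf : Reg α γ M f) (hg : Reg α γ M' g) :
    Reg α γ (M + M') (fun t => f t + g t) where
  nonneg := fun t => add_nonneg (hf.nonneg t) (hg.nonneg t)
  le := fun t => add_le_add (hf.le t) (hg.le t)
  lo := fun s t hst => by
    have h1 := hf.lo s t hst
    have h2 := hg.lo s t hst
    rw [mul_add]; linarith
  up := fun s t hst => by
    have h1 := hf.up s t hst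
    have h2 := hg.up s t hst
    rw [mul_add]; linarith

theorem Reg.of_le {γ M M' : ℝ} {f : ℝ → ℝ} (hf : Reg α γ M f) (hM : ∀ t, f t ≤ M') :
    Reg α γ M' f := ⟨hf.nonneg, hM, hf.lo, hf.up⟩

/-- the potential -/
noncomputable def Pot (α : ℝ) (ν : Measure ℝ) (g : ℝ → ℝ) (t : ℝ) : ℝ := ⨆ n, pot α ν g n t

section PotSec

variable {g : ℝ → ℝ} {γ M₀ Mw : ℝ} {W : ℝ → ℝ} (hα : 0 ≤ α) (hγ : 0 ≤ γ)
  (hg : Reg α γ M₀ g) (hW : BM W) (hW0 : ∀ t, 0 ≤ W t) (hWM : ∀ t, W t ≤ Mw)
  (hgW : ∀ t, g t ≤ W t - Kt α ν W t)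

include hα hγ hg hW hW0 hWM hgW in
theorem pot_reg (n : ℕ) : Reg α γ Mw (pot α ν g n) ∧ ∀ t, pot α ν g n t ≤ W t := by
  have hMw : 0 ≤ Mw := (hW0 0).trans (hWM 0)
  induction n with
  | zero =>
    refine ⟨(Reg.zero α γ).of_le (fun _ => hMw), fun t => ?_⟩
    exact hW0 t
  | succ n ih =>
    obtain ⟨h1, h2⟩ := ih
    have h3 : Reg α γ (M₀ + Mw) (pot α ν g (n + 1)) := hg.add (h1.Kt hα hγ)
    have h4 : ∀ t, pot α ν g (n + 1) t ≤ W t := by
      intro t
      have h5 := Kt_mono (α := α) (ν := ν) (h1.BM hα hγ).int hW.int h2 t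
      have h6 := hgW t
      show g t + DH.Kt α ν (pot α ν g n) t ≤ W t
      linarith
    exact ⟨h3.of_le fun t => (h4 t).trans (hWM t), h4⟩

include hα hγ hg hW hW0 hWM hgW in
theorem pot_mono (t : ℝ) : Monotone (fun n => pot α ν g n t) := by
  apply monotone_nat_of_le_succ
  intro n
  induction n generalizing t with
  | zero =>
    exact (pot_reg hα hγ hg hW hW0 hWM hgW 1).1.nonneg t
  | succ n ih =>
    have h1 := (pot_reg hα hγ hg hW hW0 hWM hgW n).1.BM hα hγ
    have h2 := (pot_reg hα hγ hg hW hW0 hWM hgW (n + 1)).1.BM hα hγ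
    have h3 := Kt_mono (α := α) (ν := ν) h1.int h2.int ih t
    show g t + Kt α ν (pot α ν g n) t ≤ g t + Kt α ν (pot α ν g (n + 1)) t
    linarith

include hα hγ hg hW hW0 hWM hgW in
theorem pot_tendsto (t : ℝ) : Tendsto (fun n => pot α ν g n t) atTop (𝓝 (Pot α ν g t)) := by
  apply tendsto_atTop_ciSup (pot_mono hα hγ hg hW hW0 hWM hgW t)
  refine ⟨W t, ?_⟩
  rintro x ⟨n, rfl⟩
  exact (pot_reg hα hγ hg hW hW0 hWM hgW n).2 t

include hα hγ hg hW hW0 hWM hgW in
theorem Pot_reg : Reg α γ Mw (Pot α ν g) ∧ ∀ t, Pot α ν g t ≤ W t := by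
  have ht := pot_tendsto hα hγ hg hW hW0 hWM hgW
  have hr := fun n => (pot_reg hα hγ hg hW hW0 hWM hgW n).1
  refine ⟨⟨fun t => ?_, fun t => ?_, fun s t hst => ?_, fun s t hst => ?_⟩, fun t => ?_⟩
  · exact ge_of_tendsto' (ht t) fun n => (hr n).nonneg t
  · exact le_of_tendsto' (ht t) fun n => (hr n).le t
  · exact le_of_tendsto_of_tendsto' ((ht s).const_mul _) (ht t) fun n => (hr n).lo s t hst
  · exact le_of_tendsto_of_tendsto' (ht t) ((ht s).const_mul _) fun n => (hr n).up s t hst
  · exact le_of_tendsto' (ht t) fun n => (pot_reg hα hγ hg hW hW0 hWM hgW n).2 t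

include hα hγ hg hW hW0 hWM hgW in
theorem Pot_eq (t : ℝ) : Pot α ν g t = g t + Kt α ν (Pot α ν g) t := by
  have ht := pot_tendsto hα hγ hg hW hW0 hWM hgW
  have hr := fun n => (pot_reg hα hγ hg hW hW0 hWM hgW n).1
  have h1 := (ht t).comp (tendsto_add_atTop_nat 1)
  have h2 : Tendsto (fun n => g t + Kt α ν (pot α ν g n) t) atTop
      (𝓝 (g t + Kt α ν (Pot α ν g) t)) := by
    apply Tendsto.const_add
    unfold Kt Tn
    apply Tendsto.const_mul
    apply tendsto_integral_of_dominated_convergence (fun _ => Mw)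
    · intro n
      exact ((hr n).BM hα hγ).int _ |>.aestronglyMeasurable
    · exact integrable_const _
    · intro n
      filter_upwards with x
      rw [Real.norm_eq_abs, abs_of_nonneg ((hr n).nonneg _)]
      exact (hr n).le _
    · filter_upwards with x
      exact ht _
  exact tendsto_nhds_unique h1 h2

end PotSec

end Pool.Agent.Lib_helper63.DH
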