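import Pool.Agent.Lib_helper63.DH.Rem
import Pool.Agent.Lib_helper63.DH.Pot

/-!
Monotonicity properties of `psi`.
-/

open MeasureTheory Filter Topology Set

namespace Pool.Agent.Lib_helper63.DH

/-- nonnegative, nondecreasing, and `φ(y)/y^d` nonincreasing -/
structure Hreg (d : ℕ) (φ : ℝ → ℝ) : Prop where
  nonneg : ∀ y, 0 ≤ y → 0 ≤ φ y
  mono : ∀ s t, 0 ≤ s → s ≤ t → φ s ≤ φ t
  ratio : ∀ s t, 0 < s → s ≤ t → φ t * s ^ d ≤ φ s * t ^ d

theorem Hreg.zero (d : ℕ) : Hreg d (fun _ => 0) :=
  ⟨fun _ _ => le_rfl, fun _ _ _ _ => le_rfl, fun _ _ _ _ => by simp⟩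

theorem Hreg.add {d : ℕ} {φ χ : ℝ → ℝ} (h : Hreg d φ) (h' : Hreg d χ) :
    Hreg d (fun y => φ y + χ y) :=
  ⟨fun y hy => add_nonneg (h.nonneg y hy) (h'.nonneg y hy),
    fun s t hs hst => add_le_add (h.mono s t hs hst) (h'.mono s t hs hst),
    fun s t hs hst => by
      have h1 := h.ratio s t hs hst
      have h2 := h'.ratio s t hs hst
      rw [add_mul, add_mul]; linarith⟩

theorem Hreg.smul {d : ℕ} {φ : ℝ → ℝ} (h : Hreg d φ) {c : ℝ} (hc : 0 ≤ c) :
    Hreg d (fun y => c * φ y) :=
  ⟨fun y hy => mul_nonneg hc (h.nonneg y hy),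
    fun s t hs hst => mul_le_mul_of_nonneg_left (h.mono s t hs hst) hc,
    fun s t hs hst => by
      have h1 := h.ratio s t hs hst
      rw [mul_assoc, mul_assoc]
      exact mul_le_mul_of_nonneg_left h1 hc⟩

theorem Hreg_R (k n : ℕ) : Hreg (k + n + 1) (fun y => y ^ k * R k n y) := by
  induction k with
  | zero =>
    simp only [R_zero, mul_zero]
    exact Hreg.zero _
  | succ k ih =>
    have hform : ∀ y : ℝ, 0 ≤ y → y ^ (k + 1) * R (k + 1) n y =
        (y / (1 + y)) * ((Nat.multichoose (k + 1) n : ℝ) * y ^ (k + n + 1) + y ^ k * R k n y) := by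
      intro y hy
      have h1 := R_rec k n hy
      have h2 : (1:ℝ) + y ≠ 0 := by positivity
      have h3 : y ^ (k + 1) * R (k + 1) n y = y ^ (k + 1) * ((1 + y) * R (k + 1) n y) / (1 + y) := by
        field_simp
      rw [h3, h1]
      have h4 : y ^ (k + n + 1) = y ^ k * y ^ (n + 1) := by rw [← pow_add]; ring_nf
      rw [h4]
      field_simp
      ring
    have hmc : (0:ℝ) ≤ (Nat.multichoose (k + 1) n : ℝ) := by positivity
    have hfrac : ∀ s t : ℝ, 0 ≤ s → s ≤ t → s / (1 + s) ≤ t / (1 + t) := by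
      intro s t hs hst
      have ht : 0 ≤ t := hs.trans hst
      rw [div_le_div_iff₀ (by positivity) (by positivity)]
      nlinarith
    refine ⟨fun y hy => mul_nonneg (by positivity) (R_nonneg _ _ hy), ?_, ?_⟩
    · intro s t hs hst
      have ht : 0 ≤ t := hs.trans hst
      rw [hform s hs, hform t ht]
      have h1 : s ^ k * R k n s ≤ t ^ k * R k n t := ih.mono s t hs hst
      have h2 : 0 ≤ s ^ k * R k n s := ih.nonneg s hs
      have h3 : 0 ≤ t ^ k * R k n t := ih.nonneg t ht
      have h4 : s ^ (k + n + 1) ≤ t ^ (k + n + 1) := pow_le_pow_left₀ hs hst _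
      apply mul_le_mul (hfrac s t hs hst) _ (by positivity) (by positivity)
      have := mul_le_mul_of_nonneg_left h4 hmc
      linarith
    · intro s t hs hst
      have ht : 0 < t := hs.trans_le hst
      rw [hform s hs.le, hform t ht.le]
      have h1 : t ^ k * R k n t * s ^ (k + n + 1) ≤ s ^ k * R k n s * t ^ (k + n + 1) :=
        ih.ratio s t hs hst
      have h2 : 0 ≤ s ^ k * R k n s := ih.nonneg s hs.le
      have h3 : 0 ≤ t ^ k * R k n t := ih.nonneg t ht.le
      have e1 : s ^ (k + 1 + n + 1) = s * s ^ (k + n + 1) := by rw [← pow_succ']; ring_nf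
      have e2 : t ^ (k + 1 + n + 1) = t * t ^ (k + n + 1) := by rw [← pow_succ']; ring_nf
      rw [e1, e2]
      set C : ℝ := (Nat.multichoose (k + 1) n : ℝ)
      set P := t ^ k * R k n t
      set Q := s ^ k * R k n s
      set A := s ^ (k + n + 1)
      set B := t ^ (k + n + 1)
      have hA : 0 ≤ A := by positivity
      have hB : 0 ≤ B := by positivity
      have h5 : (C * B + P) * A ≤ (C * A + Q) * B := by nlinarith
      have h6 : (0:ℝ) ≤ (C * A + Q) * B := by positivity
      calc t / (1 + t) * (C * B + P) * (s * A) = (t * s / (1 + t)) * ((C * B + P) * A) := by ring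
        _ ≤ (t * s / (1 + s)) * ((C * A + Q) * B) := by
            apply mul_le_mul _ h5 _ (by positivity)
            · apply div_le_div_of_nonneg_left (by positivity) (by positivity) (by linarith)
            · positivity
        _ = _ := by ring

theorem H_ratio (m : ℕ) {c s : ℝ} (hc : 1 ≤ c) (hs : 0 ≤ s) : H m (c * s) ≤ c ^ (m + 1) * H m s := by
  have hd : ∀ y : ℝ, 0 ≤ y → HasDerivAt (fun y => c ^ (m + 1) * H m y - H m (c * y))
      (c ^ (m + 1) * (y ^ m / (1 + y)) - ((c * y) ^ m / (1 + c * y)) * c) y := by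
    intro y hy
    have h1 := (H_hasDerivAt m (by linarith : -1 < y)).const_mul (c ^ (m + 1))
    have h2 : HasDerivAt (fun y => H m (c * y)) (((c * y) ^ m / (1 + c * y)) * c) y := by
      have h3 := H_hasDerivAt m (by nlinarith : -1 < c * y)
      have h4 : HasDerivAt (fun y => c * y) c y := by
        simpa using (hasDerivAt_id y).const_mul c
      exact h3.comp y h4
    exact h1.sub h2
  have hmono : MonotoneOn (fun y => c ^ (m + 1) * H m y - H m (c * y)) (Ici 0) := by
    apply monotoneOn_of_deriv_nonneg (convex_Ici 0)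
    · intro y hy
      exact (hd y hy).continuousAt.continuousWithinAt
    · intro y hy
      rw [interior_Ici] at hy
      exact (hd y (le_of_lt hy)).differentiableAt.differentiableWithinAt
    · intro y hy
      rw [interior_Ici] at hy
      have hy' : (0:ℝ) < y := hy
      rw [(hd y hy'.le).deriv]
      have e1 : c ^ (m + 1) * (y ^ m / (1 + y)) - ((c * y) ^ m / (1 + c * y)) * c =
          c ^ (m + 1) * y ^ m * (1 / (1 + y) - 1 / (1 + c * y)) := by
        rw [mul_pow]; ring
      rw [e1]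
      apply mul_nonneg (by positivity)
      rw [sub_nonneg]
      apply one_div_le_one_div_of_le (by positivity)
      nlinarith
  have h1 := hmono (by simp : (0:ℝ) ∈ Ici 0) hs hs
  simp only [mul_zero, H_zero', sub_zero] at h1
  linarith

theorem Hreg_H (m : ℕ) : Hreg (m + 1) (H m) := by
  refine ⟨fun y hy => H_nonneg m hy, fun s t hs hst => H_monotoneOn m hs (hs.trans hst) hst, ?_⟩
  intro s t hs hst
  have h1 := H_ratio m (c := t / s) (s := s) ((one_le_div hs).2 hst) hs.le
  rw [div_mul_cancel₀ _ hs.ne'] at h1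
  rw [div_pow, div_mul_eq_mul_div, le_div_iff₀ (by positivity)] at h1
  linarith

theorem Hreg_psi {m : ℕ} {T : List (ℝ × ℕ × ℕ)} (hT : TOk m T) : Hreg (m + 1) (psi m T) := by
  have h1 : Hreg (m + 1) (fun y => (T.map (fun t => if t.2.1 = 0 then
    t.1 * (y ^ t.2.2 * R t.2.2 (m - t.2.2) y) else 0)).sum) := by
    induction T with
    | nil => simp only [List.map_nil, List.sum_nil]; exact Hreg.zero _
    | cons t T ih =>
      simp only [List.map_cons, List.sum_cons]
      obtain ⟨a1, a2, a3⟩ := hT t List.mem_cons_self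
      apply Hreg.add _ (ih (fun s hs => hT s (List.mem_cons_of_mem _ hs)))
      split_ifs with h0
      · have h2 := Hreg_R t.2.2 (m - t.2.2)
        have h3 : t.2.2 + (m - t.2.2) + 1 = m + 1 := by omega
        rw [h3] at h2
        exact h2.smul a1
      · exact Hreg.zero _
  exact (Hreg_H m).add h1

theorem H_pos (m : ℕ) {y : ℝ} (hy : 0 < y) : 0 < H m y := by
  have h1 := H_limit m
  have h2 := h1.eventually (lt_mem_nhds (by positivity : (0:ℝ) < 1 / ((m:ℝ) + 1)))
  have h3 : ∀ᶠ δ in 𝓝[>] (0:ℝ), 0 < δ ∧ δ < y := by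
    filter_upwards [self_mem_nhdsWithin, nhdsWithin_le_nhds (gt_mem_nhds hy)] with e h1 h2
    exact ⟨h1, h2⟩
  obtain ⟨δ, h4, h5, h6⟩ := (h2.and h3).exists
  have h7 : 0 < H m δ := by
    have : 0 < δ ^ (m + 1) := by positivity
    exact (div_pos_iff_of_pos_right this).1 h4
  exact h7.trans_le ((Hreg_H m).mono δ y h5.le h6.le)

/-- `e^{-αt} ψ(e^t)` -/
noncomputable def g0 (α : ℝ) (m : ℕ) (T : List (ℝ × ℕ × ℕ)) (t : ℝ) : ℝ :=
  psi m T (Real.exp t) * Real.exp (-α * t)

theorem g0_bound {m : ℕ} (hm : 1 ≤ m) {T : List (ℝ × ℕ × ℕ)} (hT : TOk m T) {α b : ℝ}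
    (hb1 : b ≤ (m:ℝ) + 1 - α) (hb2 : b ≤ α - m) : ∃ C : ℝ, 0 < C ∧
    (∀ t, 0 ≤ t → g0 α m T t ≤ C * Real.exp (-b * t)) ∧
    (∀ t, t ≤ 0 → g0 α m T t ≤ C * Real.exp (b * t)) := by
  obtain ⟨D, hD0, hD⟩ := psi_sub_H_le hT
  refine ⟨1 + D, by positivity, ?_, ?_⟩
  · intro t ht
    have hE := Real.exp_pos t
    have h1 := hD (Real.exp t) hE.le
    have h2 : H m (Real.exp t) ≤ Real.exp t ^ m := by
      obtain ⟨n, rfl⟩ : ∃ n, m = n + 1 := ⟨m - 1, by omega⟩
      refine (H_succ_le n hE.le).trans ?_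
      apply div_le_self (by positivity)
      have : (0:ℝ) ≤ n := Nat.cast_nonneg n
      linarith
    have h3 : Real.exp t ^ (m + 1) / (1 + Real.exp t) ≤ Real.exp t ^ m := by
      rw [div_le_iff₀ (by positivity), pow_succ]
      have : 0 < Real.exp t ^ m := by positivity
      nlinarith
    have h4 : psi m T (Real.exp t) ≤ (1 + D) * Real.exp t ^ m := by nlinarith
    unfold g0
    calc psi m T (Real.exp t) * Real.exp (-α * t) ≤
          ((1 + D) * Real.exp t ^ m) * Real.exp (-α * t) :=
          mul_le_mul_of_nonneg_right h4 (Real.exp_pos _).le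
      _ = (1 + D) * Real.exp ((m:ℝ) * t + -α * t) := by
          rw [Real.exp_add, ← Real.exp_nat_mul]; ring
      _ ≤ (1 + D) * Real.exp (-b * t) := by
          apply mul_le_mul_of_nonneg_left _ (by positivity)
          apply Real.exp_le_exp.2
          nlinarith
  · intro t ht
    have hE := Real.exp_pos t
    have h1 := hD (Real.exp t) hE.le
    have h2 : H m (Real.exp t) ≤ Real.exp t ^ (m + 1) := by
      refine (H_le m hE.le).trans ?_
      apply div_le_self (by positivity)
      have : (0:ℝ) ≤ m := Nat.cast_nonneg m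
      linarith
    have h3 : Real.exp t ^ (m + 1) / (1 + Real.exp t) ≤ Real.exp t ^ (m + 1) :=
      div_le_self (by positivity) (by linarith)
    have h4 : psi m T (Real.exp t) ≤ (1 + D) * Real.exp t ^ (m + 1) := by nlinarith
    unfold g0
    calc psi m T (Real.exp t) * Real.exp (-α * t) ≤
          ((1 + D) * Real.exp t ^ (m + 1)) * Real.exp (-α * t) :=
          mul_le_mul_of_nonneg_right h4 (Real.exp_pos _).le
      _ = (1 + D) * Real.exp (((m + 1 : ℕ) : ℝ) * t + -α * t) := by
          rw [Real.exp_add, ← Real.exp_nat_mul]; ring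
      _ ≤ (1 + D) * Real.exp (b * t) := by
          apply mul_le_mul_of_nonneg_left _ (by positivity)
          apply Real.exp_le_exp.2
          push_cast
          nlinarith

theorem g0_reg {m : ℕ} {T : List (ℝ × ℕ × ℕ)} (hT : TOk m T) {α C : ℝ}
    (hC : ∀ t, g0 α m T t ≤ C) : Reg α ((m:ℝ) + 1 - α) C (g0 α m T) := by
  have hr := Hreg_psi hT
  refine ⟨fun t => mul_nonneg (hr.nonneg _ (Real.exp_pos t).le) (Real.exp_pos _).le, hC, ?_, ?_⟩
  · intro s t hst
    unfold g0
    have h1 := hr.mono (Real.exp s) (Real.exp t) (Real.exp_pos s).le (Real.exp_le_exp.2 hst)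
    have h2 : Real.exp (-α * (t - s)) * (psi m T (Real.exp s) * Real.exp (-α * s)) =
        psi m T (Real.exp s) * Real.exp (-α * t) := by
      have : Real.exp (-α * (t - s)) * Real.exp (-α * s) = Real.exp (-α * t) := by
        rw [← Real.exp_add]; ring_nf
      rw [← this]; ring
    rw [h2]
    exact mul_le_mul_of_nonneg_right h1 (Real.exp_pos _).le
  · intro s t hst
    unfold g0
    have h1 := hr.ratio (Real.exp s) (Real.exp t) (Real.exp_pos s) (Real.exp_le_exp.2 hst)
    have h2 : Real.exp (((m:ℝ) + 1 - α) * (t - s)) * (psi m T (Real.exp s) * Real.exp (-α * s)) =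
        (psi m T (Real.exp s) * Real.exp t ^ (m + 1)) *
          (Real.exp (-α * t) * Real.exp (-((m:ℝ) + 1) * s)) := by
      have e1 : Real.exp t ^ (m + 1) = Real.exp (((m:ℝ) + 1) * t) := by
        rw [← Real.exp_nat_mul]; push_cast; ring_nf
      have e2 : Real.exp (((m:ℝ) + 1 - α) * (t - s)) * Real.exp (-α * s) =
          Real.exp (((m:ℝ) + 1) * t) * (Real.exp (-α * t) * Real.exp (-((m:ℝ) + 1) * s)) := by
        rw [← Real.exp_add, ← Real.exp_add, ← Real.exp_add]; ring_nf
      rw [e1]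
      calc _ = psi m T (Real.exp s) * (Real.exp (((m:ℝ) + 1 - α) * (t - s)) *
            Real.exp (-α * s)) := by ring
        _ = _ := by rw [e2]; ring
    have h3 : psi m T (Real.exp t) * Real.exp (-α * t) =
        (psi m T (Real.exp t) * Real.exp s ^ (m + 1)) *
          (Real.exp (-α * t) * Real.exp (-((m:ℝ) + 1) * s)) := by
      have e1 : Real.exp s ^ (m + 1) = Real.exp (((m:ℝ) + 1) * s) := by
        rw [← Real.exp_nat_mul]; push_cast; ring_nf
      have e2 : Real.exp (((m:ℝ) + 1) * s) * Real.exp (-((m:ℝ) + 1) * s) = 1 := by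
        rw [← Real.exp_add, ← Real.exp_zero]; ring_nf
      rw [e1]
      calc psi m T (Real.exp t) * Real.exp (-α * t) = psi m T (Real.exp t) * Real.exp (-α * t) *
            (Real.exp (((m:ℝ) + 1) * s) * Real.exp (-((m:ℝ) + 1) * s)) := by rw [e2, mul_one]
        _ = _ := by ring
    rw [h2, h3]
    exact mul_le_mul_of_nonneg_right h1 (by positivity)

end Pool.Agent.Lib_helper63.DH
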