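import Mathlib

/-!
The i.i.d. sequence space, its shift, and the backward iterates of the Moebius recursion.
-/

open MeasureTheory Filter Topology

namespace Pool.Agent.Lib_helper63.DH

/-- the i.i.d. product measure -/
noncomputable abbrev Pm (μ : Measure ℝ) : Measure (ℕ → ℝ) := Measure.infinitePi (fun _ => μ)

/-- the shift -/
def shift (ω : ℕ → ℝ) : ℕ → ℝ := fun n => ω (n + 1)

theorem measurable_shift : Measurable shift := by
  unfold shift; fun_prop

/-- put a value in front of a sequence -/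
def consSeq (p : ℝ × (ℕ → ℝ)) : ℕ → ℝ := fun n => Nat.casesOn n p.1 p.2

theorem measurable_consSeq : Measurable consSeq := by
  rw [measurable_pi_iff]
  intro n
  cases n with
  | zero => exact measurable_fst
  | succ n => exact (measurable_pi_apply n).comp measurable_snd

variable (μ : Measure ℝ) [IsProbabilityMeasure μ]

theorem map_consSeq : (μ.prod (Pm μ)).map consSeq = Pm μ := by
  apply Measure.eq_infinitePi
  intro s t ht
  have hms : MeasurableSet ((s : Set ℕ).pi t) := MeasurableSet.pi s.countable_toSet fun i _ => ht i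
  rw [Measure.map_apply measurable_consSeq hms]
  have hpre : consSeq ⁻¹' ((s : Set ℕ).pi t) =
      (if 0 ∈ s then t 0 else Set.univ) ×ˢ
        (((s.filter (fun n => n ≠ 0)).image (fun n => n - 1) : Finset ℕ) : Set ℕ).pi
          (fun n => t (n + 1)) := by
    ext ⟨z, w⟩
    simp only [Set.mem_preimage, Set.mem_pi, Finset.mem_coe, Set.mem_prod, Finset.mem_image,
      Finset.mem_filter]
    constructor
    · intro h
      constructor
      · split_ifs with h0
        · exact h 0 h0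
        · trivial
      · rintro n ⟨k, ⟨hk, hk0⟩, rfl⟩
        have := h k hk
        obtain ⟨j, rfl⟩ := Nat.exists_eq_succ_of_ne_zero hk0
        exact this
    · rintro ⟨h0, h1⟩ n hn
      cases n with
      | zero => rw [if_pos hn] at h0; exact h0
      | succ n => exact h1 n ⟨n + 1, ⟨hn, by omega⟩, rfl⟩
  rw [hpre, Measure.prod_prod, Measure.infinitePi_pi _ (fun i _ => ht _),
    Finset.prod_image (by
      intro a ha b hb hab
      simp only [Finset.coe_filter, Set.mem_ofPred_eq] at ha hb hab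
      omega)]
  have h2 : ∏ i ∈ s.filter (fun n => n ≠ 0), μ (t (i - 1 + 1)) =
      ∏ i ∈ s.filter (fun n => n ≠ 0), μ (t i) := by
    apply Finset.prod_congr rfl
    intro i hi
    rw [Finset.mem_filter] at hi
    rw [Nat.sub_add_cancel (by omega)]
  rw [h2]
  by_cases h0 : 0 ∈ s
  · rw [if_pos h0]
    have h3 : s = insert 0 (s.filter (fun n => n ≠ 0)) := by
      ext x
      simp only [Finset.mem_insert, Finset.mem_filter]
      by_cases hx : x = 0
      · subst hx; simp [h0]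
      · simp [hx]
    conv_rhs => rw [h3]
    rw [Finset.prod_insert (by simp)]
  · rw [if_neg h0, measure_univ, one_mul]
    congr 1
    rw [Finset.filter_true_of_mem]
    intro x hx hx0
    exact h0 (hx0 ▸ hx)

theorem mp_cons : MeasurePreserving consSeq (μ.prod (Pm μ)) (Pm μ) :=
  ⟨measurable_consSeq, map_consSeq μ⟩

theorem mp_split : MeasurePreserving (fun ω : ℕ → ℝ => (ω 0, shift ω)) (Pm μ) (μ.prod (Pm μ)) := by
  have hm : Measurable (fun ω : ℕ → ℝ => (ω 0, shift ω)) :=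
    (measurable_pi_apply 0).prodMk measurable_shift
  refine ⟨hm, ?_⟩
  have h1 := map_consSeq μ
  conv_lhs => rw [← h1]
  rw [Measure.map_map hm measurable_consSeq]
  have : (fun ω : ℕ → ℝ => (ω 0, shift ω)) ∘ consSeq = id := by
    funext p
    rfl
  rw [this, Measure.map_id]

theorem mp_shift : MeasurePreserving shift (Pm μ) (Pm μ) := by
  have := (measurePreserving_snd (μ := μ) (ν := Pm μ)).comp (mp_split μ)
  exact this

theorem ae_pos (hpos : ∀ᵐ z ∂μ, 0 < z) : ∀ᵐ ω ∂(Pm μ), ∀ n, 0 < ω n := by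
  rw [ae_all_iff]
  intro n
  have := (measurePreserving_eval_infinitePi (fun _ : ℕ => μ) n).quasiMeasurePreserving.ae hpos
  exact this

/-- the recursion map -/
noncomputable def F (e z x : ℝ) : ℝ := z * (1 + x) / (1 + e * x)

/-- backward iterates -/
noncomputable def B (e : ℝ) : ℕ → (ℕ → ℝ) → ℝ
  | 0, _ => 0
  | n + 1, ω => F e (ω 0) (B e n (shift ω))

theorem measurable_B (e : ℝ) (n : ℕ) : Measurable (B e n) := by
  induction n with
  | zero => exact measurable_const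
  | succ n ih =>
    have h : B e (n + 1) = fun ω => ω 0 * (1 + B e n (shift ω)) / (1 + e * B e n (shift ω)) := by
      funext ω; rfl
    rw [h]
    have h1 := ih.comp measurable_shift
    have h0 : Measurable (fun ω : ℕ → ℝ => ω 0) := measurable_pi_apply 0
    exact (h0.mul (measurable_const.add h1)).div (measurable_const.add (h1.const_mul e))

theorem F_nonneg {e z x : ℝ} (he : 0 ≤ e) (hz : 0 ≤ z) (hx : 0 ≤ x) : 0 ≤ F e z x := by
  unfold F; positivity

theorem F_mono {e z x x' : ℝ} (he : 0 ≤ e) (he1 : e ≤ 1) (hz : 0 ≤ z) (hx : 0 ≤ x)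
    (hxx : x ≤ x') : F e z x ≤ F e z x' := by
  unfold F
  have hx' : 0 ≤ x' := hx.trans hxx
  rw [div_le_div_iff₀ (by positivity) (by positivity)]
  have : (1 + x) * (1 + e * x') ≤ (1 + x') * (1 + e * x) := by nlinarith
  calc z * (1 + x) * (1 + e * x') = z * ((1 + x) * (1 + e * x')) := by ring
    _ ≤ z * ((1 + x') * (1 + e * x)) := mul_le_mul_of_nonneg_left this hz
    _ = z * (1 + x') * (1 + e * x) := by ring

theorem F_anti {e e' z x : ℝ} (he : 0 ≤ e) (hee : e ≤ e') (hz : 0 ≤ z) (hx : 0 ≤ x) :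
    F e' z x ≤ F e z x := by
  unfold F
  apply div_le_div_of_nonneg_left (by positivity) (by positivity)
  nlinarith

theorem F_le {e z x : ℝ} (he : 0 < e) (he1 : e ≤ 1) (hz : 0 ≤ z) (hx : 0 ≤ x) :
    F e z x ≤ z / e := by
  unfold F
  rw [div_le_div_iff₀ (by positivity) he]
  have : (1 + x) * e ≤ 1 + e * x := by nlinarith
  calc z * (1 + x) * e = z * ((1 + x) * e) := by ring
    _ ≤ z * (1 + e * x) := mul_le_mul_of_nonneg_left this hz

theorem le_F {e z x : ℝ} (he : 0 ≤ e) (he1 : e ≤ 1) (hz : 0 ≤ z) (hx : 0 ≤ x) :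
    z ≤ F e z x := by
  unfold F
  rw [le_div_iff₀ (by positivity)]
  have : 1 + e * x ≤ 1 + x := by nlinarith
  exact mul_le_mul_of_nonneg_left this hz

theorem shift_pos {ω : ℕ → ℝ} (h : ∀ n, 0 < ω n) : ∀ n, 0 < shift ω n := fun n => h (n + 1)

theorem B_nonneg {e : ℝ} (he : 0 ≤ e) (n : ℕ) {ω : ℕ → ℝ} (h : ∀ n, 0 < ω n) :
    0 ≤ B e n ω := by
  induction n generalizing ω with
  | zero => exact le_rfl
  | succ n ih => exact F_nonneg he (h 0).le (ih (shift_pos h))

theorem B_le_succ {e : ℝ} (he : 0 ≤ e) (he1 : e ≤ 1) (n : ℕ) {ω : ℕ → ℝ} (h : ∀ n, 0 < ω n) :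
    B e n ω ≤ B e (n + 1) ω := by
  induction n generalizing ω with
  | zero => exact B_nonneg he 1 h
  | succ n ih =>
    exact F_mono he he1 (h 0).le (B_nonneg he n (shift_pos h)) (ih (shift_pos h))

theorem B_mono {e : ℝ} (he : 0 ≤ e) (he1 : e ≤ 1) {ω : ℕ → ℝ} (h : ∀ n, 0 < ω n) :
    Monotone (fun n => B e n ω) :=
  monotone_nat_of_le_succ (fun n => B_le_succ he he1 n h)

theorem B_anti {e e' : ℝ} (he : 0 ≤ e) (hee : e ≤ e') (he1 : e' ≤ 1) (n : ℕ) {ω : ℕ → ℝ}
    (h : ∀ n, 0 < ω n) : B e' n ω ≤ B e n ω := by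
  induction n generalizing ω with
  | zero => exact le_rfl
  | succ n ih =>
    have h1 := ih (shift_pos h)
    have h2 := B_nonneg (he.trans hee) n (shift_pos h)
    exact (F_mono (he.trans hee) he1 (h 0).le h2 h1).trans
      (F_anti he hee (h 0).le (h2.trans h1))

theorem B_le {e : ℝ} (he : 0 < e) (he1 : e ≤ 1) (n : ℕ) {ω : ℕ → ℝ} (h : ∀ n, 0 < ω n) :
    B e n ω ≤ ω 0 / e := by
  cases n with
  | zero => exact div_nonneg (h 0).le he.le
  | succ n => exact F_le he he1 (h 0).le (B_nonneg he.le n (shift_pos h))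

/-- the stationary variable -/
noncomputable def X (e : ℝ) (ω : ℕ → ℝ) : ℝ := ⨆ n, B e n ω

theorem measurable_X (e : ℝ) : Measurable (X e) := by
  exact Measurable.iSup (fun n => measurable_B e n)


/-! ### The law of `Z` -/

/-- standing assumptions on the law `μ` of `Z` -/
structure Law (μ : Measure ℝ) (α : ℝ) : Prop where
  pos : ∀ᵐ z ∂μ, 0 < z
  apos : 0 < α
  one : ∫ z, z ^ α ∂μ = 1
  nondeg : ¬ ∀ᵐ z ∂μ, z = 1

variable {μ} {α : ℝ}

theorem Law.int_alpha (h : Law μ α) : Integrable (fun z => z ^ α) μ := by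
  by_contra hcon
  have := h.one
  rw [integral_undef hcon] at this
  exact zero_ne_one this

theorem rpow_le_one_add {z s a : ℝ} (hz : 0 < z) (hs : 0 ≤ s) (hsa : s ≤ a) :
    z ^ s ≤ 1 + z ^ a := by
  rcases le_total z 1 with h | h
  · have h1 : z ^ s ≤ 1 := Real.rpow_le_one hz.le h hs
    have h2 : 0 ≤ z ^ a := Real.rpow_nonneg hz.le a
    linarith
  · have h1 : z ^ s ≤ z ^ a := Real.rpow_le_rpow_of_exponent_le h hsa
    linarith

theorem Law.int_rpow (h : Law μ α) {s : ℝ} (hs : 0 ≤ s) (hsa : s ≤ α) :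
    Integrable (fun z => z ^ s) μ := by
  refine ((integrable_const (1:ℝ)).add h.int_alpha).mono'
    (by fun_prop : Measurable fun z : ℝ => z ^ s).aestronglyMeasurable ?_
  filter_upwards [h.pos] with z hz
  rw [Real.norm_eq_abs, abs_of_nonneg (Real.rpow_nonneg hz.le s)]
  exact rpow_le_one_add hz hs hsa

/-- `x^θ ≤ 1 + θ (x-1)` with equality only at `1` -/
theorem rpow_le_tangent {x θ : ℝ} (hx : 0 < x) (h0 : 0 < θ) (h1 : θ < 1) :
    x ^ θ ≤ 1 + θ * (x - 1) := by
  have := rpow_one_add_le_one_add_mul_self (s := x - 1) (by linarith) h0.le h1.le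
  simpa using this

theorem rpow_lt_tangent {x θ : ℝ} (hx : 0 < x) (hx1 : x ≠ 1) (h0 : 0 < θ) (h1 : θ < 1) :
    x ^ θ < 1 + θ * (x - 1) := by
  have := rpow_one_add_lt_one_add_mul_self (s := x - 1) (by linarith)
    (by intro h; apply hx1; linarith) h0 h1
  simpa using this

theorem Law.mom_lt_one (h : Law μ α) {s : ℝ} (hs : 0 < s) (hsa : s < α) :
    ∫ z, z ^ s ∂μ < 1 := by
  have hθ0 : 0 < s / α := div_pos hs h.apos
  have hθ1 : s / α < 1 := (div_lt_one h.apos).2 hsa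
  set θ := s / α with hθ
  have hsθ : s = α * θ := by rw [hθ]; field_simp [h.apos.ne']
  have hint : Integrable (fun z => 1 + θ * (z ^ α - 1) - z ^ s) μ :=
    ((integrable_const _).add ((h.int_alpha.sub (integrable_const _)).const_mul _)).sub
      (h.int_rpow hs.le hsa.le)
  have hnn : ∀ᵐ z ∂μ, 0 ≤ 1 + θ * (z ^ α - 1) - z ^ s := by
    filter_upwards [h.pos] with z hz
    have h1 := rpow_le_tangent (x := z ^ α) (Real.rpow_pos_of_pos hz α) hθ0 hθ1
    rw [← Real.rpow_mul hz.le, ← hsθ] at h1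
    linarith
  have hval : ∫ z, (1 + θ * (z ^ α - 1) - z ^ s) ∂μ = 1 - ∫ z, z ^ s ∂μ := by
    have e1 : ∫ z, (1 + θ * (z ^ α - 1) - z ^ s) ∂μ =
        ∫ z, (1 + θ * (z ^ α - 1)) ∂μ - ∫ z, z ^ s ∂μ :=
      integral_sub ((integrable_const _).add
        ((h.int_alpha.sub (integrable_const _)).const_mul _)) (h.int_rpow hs.le hsa.le)
    have e2 : ∫ z, (1 + θ * (z ^ α - 1)) ∂μ = ∫ _, (1:ℝ) ∂μ + ∫ z, θ * (z ^ α - 1) ∂μ :=
      integral_add (integrable_const _) ((h.int_alpha.sub (integrable_const _)).const_mul _)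
    have e3 : ∫ z, (z ^ α - 1) ∂μ = ∫ z, z ^ α ∂μ - ∫ _, (1:ℝ) ∂μ :=
      integral_sub h.int_alpha (integrable_const _)
    rw [e1, e2, integral_const_mul, e3, h.one]
    simp
  have h0 : 0 ≤ ∫ z, (1 + θ * (z ^ α - 1) - z ^ s) ∂μ := integral_nonneg_of_ae hnn
  rcases h0.lt_or_eq with h1 | h1
  · linarith
  · exfalso
    rw [eq_comm, integral_eq_zero_iff_of_nonneg_ae hnn hint] at h1
    apply h.nondeg
    filter_upwards [h1, h.pos] with z hz hzpos
    by_contra hz1
    have hza : z ^ α ≠ 1 := by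
      intro hcon
      apply hz1
      rw [← Real.one_rpow α] at hcon
      exact (Real.rpow_left_inj hzpos.le zero_le_one h.apos.ne').1 hcon
    have h2 := rpow_lt_tangent (x := z ^ α) (Real.rpow_pos_of_pos hzpos α) hza hθ0 hθ1
    rw [← Real.rpow_mul hzpos.le, ← hsθ] at h2
    simp only [Pi.zero_apply] at hz
    linarith

theorem Law.mom_pos (h : Law μ α) {s : ℝ} (hs : 0 ≤ s) (hsa : s ≤ α) : 0 < ∫ z, z ^ s ∂μ := by
  rw [integral_pos_iff_support_of_nonneg_ae]
  · have : Function.support (fun z : ℝ => z ^ s) ⊇ Set.Ioi 0 := by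
      intro z hz
      exact (Real.rpow_pos_of_pos hz s).ne'
    refine lt_of_lt_of_le ?_ (measure_mono this)
    have h1 : μ (Set.Ioi 0) = 1 := by
      rw [prob_compl_eq_zero_iff measurableSet_Ioi |>.symm]
      have := h.pos
      rw [ae_iff] at this
      exact this
    rw [h1]; exact zero_lt_one
  · filter_upwards [h.pos] with z hz
    exact Real.rpow_nonneg hz.le s
  · exact h.int_rpow hs hsa

theorem exists_rpow_bound {s δ : ℝ} (hs : 0 < s) (hδ : 0 < δ) :
    ∃ C : ℝ, 0 ≤ C ∧ ∀ x : ℝ, 0 ≤ x → (1 + x) ^ s ≤ (1 + δ) * x ^ s + C := by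
  have h1 : Tendsto (fun u : ℝ => (1 + u) ^ s) (𝓝[>] 0) (𝓝 1) := by
    have : Tendsto (fun u : ℝ => (1 + u) ^ s) (𝓝 0) (𝓝 ((1 + 0) ^ s)) := by
      apply ContinuousAt.tendsto
      apply ContinuousAt.rpow_const
      · fun_prop
      · left; norm_num
    rw [add_zero, Real.one_rpow] at this
    exact this.mono_left nhdsWithin_le_nhds
  have h2 : ∀ᶠ u in 𝓝[>] (0:ℝ), (1 + u) ^ s < 1 + δ :=
    h1.eventually (gt_mem_nhds (by linarith))
  obtain ⟨u, hu, hu0⟩ := (h2.and self_mem_nhdsWithin).exists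
  have hu0' : 0 < u := hu0
  refine ⟨(1 + 1 / u) ^ s, by positivity, ?_⟩
  intro x hx
  rcases le_total x (1 / u) with h | h
  · have h3 : (1 + x) ^ s ≤ (1 + 1 / u) ^ s :=
      Real.rpow_le_rpow (by linarith) (by linarith) hs.le
    have h4 : 0 ≤ x ^ s := Real.rpow_nonneg hx s
    nlinarith
  · have hx0 : 0 < x := lt_of_lt_of_le (by positivity) h
    have h3 : 1 + x = x * (1 + 1 / x) := by field_simp; ring
    rw [h3, Real.mul_rpow hx (by positivity)]
    have h4 : 1 / x ≤ u := by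
      rw [div_le_iff₀ hx0]
      rw [div_le_iff₀ hu0'] at h
      linarith
    have h5 : (1 + 1 / x) ^ s ≤ (1 + u) ^ s :=
      Real.rpow_le_rpow (by positivity) (by linarith) hs.le
    have h6 : 0 ≤ x ^ s := Real.rpow_nonneg hx s
    have h7 : 0 ≤ (1 + 1 / u) ^ s := by positivity
    nlinarith

theorem B0_succ (n : ℕ) (ω : ℕ → ℝ) : B 0 (n + 1) ω = ω 0 * (1 + B 0 n (shift ω)) := by
  simp [B, F]

theorem lint_split {f : ℝ × (ℕ → ℝ) → ENNReal} (hf : Measurable f) :
    ∫⁻ ω, f (ω 0, shift ω) ∂(Pm μ) = ∫⁻ ω, ∫⁻ z, f (z, ω) ∂μ ∂(Pm μ) := by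
  rw [(mp_split μ).lintegral_comp hf, lintegral_prod_symm' _ hf]

theorem Law.B0_moment (h : Law μ α) {s : ℝ} (hs : 0 < s) (hsa : s < α) :
    ∃ K : ℝ, 0 ≤ K ∧ ∀ n, ∫⁻ ω, ENNReal.ofReal (B 0 n ω ^ s) ∂(Pm μ) ≤ ENNReal.ofReal K := by
  have hm1 := h.mom_lt_one hs hsa
  have hm0 := h.mom_pos hs.le hsa.le
  set q := ∫ z, z ^ s ∂μ with hq
  -- choose δ with q (1+δ) < 1
  set δ := (1 - q) / (2 * q) with hδ
  have hδ0 : 0 < δ := by rw [hδ]; apply div_pos <;> linarith
  have hθ : q * (1 + δ) < 1 := by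
    rw [hδ]; field_simp; linarith
  obtain ⟨C, hC0, hC⟩ := exists_rpow_bound hs hδ0
  refine ⟨q * C / (1 - q * (1 + δ)), by
    apply div_nonneg (by positivity); linarith, ?_⟩
  set K := q * C / (1 - q * (1 + δ)) with hK
  have hK0 : 0 ≤ K := by rw [hK]; apply div_nonneg (by positivity); linarith
  have hKeq : q * ((1 + δ) * K + C) = K := by
    rw [hK]; field_simp [show (1 - q * (1 + δ)) ≠ 0 by linarith]; ring
  intro n
  induction n with
  | zero =>
    simp only [B, Real.zero_rpow hs.ne', ENNReal.ofReal_zero, lintegral_zero]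
    exact zero_le
  | succ n ih =>
    have hmeas : Measurable (fun p : ℝ × (ℕ → ℝ) =>
        ENNReal.ofReal ((p.1 * (1 + B 0 n p.2)) ^ s)) := by
      have := measurable_B 0 n
      fun_prop
    have h1 : ∫⁻ ω, ENNReal.ofReal (B 0 (n + 1) ω ^ s) ∂(Pm μ) =
        ∫⁻ ω, ∫⁻ z, ENNReal.ofReal ((z * (1 + B 0 n ω)) ^ s) ∂μ ∂(Pm μ) := by
      rw [← lint_split hmeas]
      simp only [B0_succ]
    rw [h1]
    have h2 : ∀ᵐ ω ∂(Pm μ), ∫⁻ z, ENNReal.ofReal ((z * (1 + B 0 n ω)) ^ s) ∂μ ≤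
        ENNReal.ofReal q * (ENNReal.ofReal (1 + δ) * ENNReal.ofReal (B 0 n ω ^ s)
          + ENNReal.ofReal C) := by
      filter_upwards [ae_pos μ h.pos] with ω hω
      have hB := B_nonneg le_rfl n hω
      have h3 : ∫⁻ z, ENNReal.ofReal ((z * (1 + B 0 n ω)) ^ s) ∂μ =
          ∫⁻ z, ENNReal.ofReal (z ^ s) * ENNReal.ofReal ((1 + B 0 n ω) ^ s) ∂μ := by
        apply lintegral_congr_ae
        filter_upwards [h.pos] with z hz
        rw [Real.mul_rpow hz.le (by positivity), ENNReal.ofReal_mul (Real.rpow_nonneg hz.le s)]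
      rw [h3, lintegral_mul_const _ (by fun_prop), ← ofReal_integral_eq_lintegral_ofReal
        (h.int_rpow hs.le hsa.le) (by
          filter_upwards [h.pos] with z hz
          exact Real.rpow_nonneg hz.le s)]
      apply mul_le_mul_right
      rw [← ENNReal.ofReal_mul (by linarith), ← ENNReal.ofReal_add (by positivity) hC0]
      exact ENNReal.ofReal_le_ofReal (hC _ hB)
    refine (lintegral_mono_ae h2).trans ?_
    have hBm : Measurable (fun ω => ENNReal.ofReal (B 0 n ω ^ s)) := by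
      have := measurable_B 0 n
      fun_prop
    rw [lintegral_const_mul _ ((hBm.const_mul _).add_const _),
      lintegral_add_right _ measurable_const, lintegral_const_mul _ hBm, lintegral_const,
      measure_univ, mul_one]
    calc ENNReal.ofReal q * (ENNReal.ofReal (1 + δ) * ∫⁻ ω, ENNReal.ofReal (B 0 n ω ^ s) ∂(Pm μ)
          + ENNReal.ofReal C)
        ≤ ENNReal.ofReal q * (ENNReal.ofReal (1 + δ) * ENNReal.ofReal K + ENNReal.ofReal C) := by
          gcongr
      _ = ENNReal.ofReal K := by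
          rw [← ENNReal.ofReal_mul (by linarith), ← ENNReal.ofReal_add (by positivity) hC0,
            ← ENNReal.ofReal_mul hm0.le, hKeq]

theorem Law.ae_bdd (h : Law μ α) : ∀ᵐ ω ∂(Pm μ), BddAbove (Set.range (fun n => B 0 n ω)) := by
  obtain ⟨K, hK0, hK⟩ := h.B0_moment (s := α / 2) (by linarith [h.apos]) (by linarith [h.apos])
  have hs : 0 < α / 2 := by linarith [h.apos]
  set s := α / 2
  have hmeas : ∀ n, AEMeasurable (fun ω => ENNReal.ofReal (B 0 n ω ^ s)) (Pm μ) := by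
    intro n
    have := measurable_B 0 n
    exact (by fun_prop : Measurable (fun ω => ENNReal.ofReal (B 0 n ω ^ s))).aemeasurable
  have hmono : ∀ᵐ ω ∂(Pm μ), Monotone (fun n => ENNReal.ofReal (B 0 n ω ^ s)) := by
    filter_upwards [ae_pos μ h.pos] with ω hω
    intro n m hnm
    apply ENNReal.ofReal_le_ofReal
    exact Real.rpow_le_rpow (B_nonneg le_rfl n hω) (B_mono le_rfl zero_le_one hω hnm) hs.le
  have h1 : ∫⁻ ω, ⨆ n, ENNReal.ofReal (B 0 n ω ^ s) ∂(Pm μ) ≤ ENNReal.ofReal K := by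
    rw [lintegral_iSup' hmeas hmono]
    exact iSup_le hK
  have h2 : ∀ᵐ ω ∂(Pm μ), ⨆ n, ENNReal.ofReal (B 0 n ω ^ s) < ⊤ := by
    apply ae_lt_top' (AEMeasurable.iSup hmeas)
    exact (h1.trans_lt ENNReal.ofReal_lt_top).ne
  filter_upwards [h2, ae_pos μ h.pos] with ω hω hpos
  set M := (⨆ n, ENNReal.ofReal (B 0 n ω ^ s)).toReal
  refine ⟨M ^ (1 / s), ?_⟩
  rintro x ⟨n, rfl⟩
  have h3 : ENNReal.ofReal (B 0 n ω ^ s) ≤ ⨆ n, ENNReal.ofReal (B 0 n ω ^ s) :=
    le_iSup (fun n => ENNReal.ofReal (B 0 n ω ^ s)) n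
  have hB := B_nonneg le_rfl n hpos
  have h4 : B 0 n ω ^ s ≤ M := by
    have := ENNReal.toReal_mono hω.ne h3
    rwa [ENNReal.toReal_ofReal (Real.rpow_nonneg hB s)] at this
  have h5 : B 0 n ω = (B 0 n ω ^ s) ^ (1 / s) := by
    rw [← Real.rpow_mul hB]; field_simp; simp
  simp only
  rw [h5]
  exact Real.rpow_le_rpow (Real.rpow_nonneg hB s) h4 (by positivity)

/-- sequences for which everything converges -/
structure GoodSeq (ω : ℕ → ℝ) : Prop where
  pos : ∀ n, 0 < ω n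
  bdd : BddAbove (Set.range (fun n => B 0 n ω))
  bdd' : BddAbove (Set.range (fun n => B 0 n (shift ω)))

theorem Law.ae_good (h : Law μ α) : ∀ᵐ ω ∂(Pm μ), GoodSeq ω := by
  have h1 := (mp_shift μ).quasiMeasurePreserving.ae h.ae_bdd
  filter_upwards [ae_pos μ h.pos, h.ae_bdd, h1] with ω h1 h2 h3
  exact ⟨h1, h2, h3⟩

theorem bdd_e {e : ℝ} (he : 0 ≤ e) (he1 : e ≤ 1) {ω : ℕ → ℝ} (h : ∀ n, 0 < ω n)
    (hb : BddAbove (Set.range (fun n => B 0 n ω))) :
    BddAbove (Set.range (fun n => B e n ω)) := by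
  obtain ⟨M, hM⟩ := hb
  refine ⟨M, ?_⟩
  rintro x ⟨n, rfl⟩
  exact (B_anti le_rfl he he1 n h).trans (hM ⟨n, rfl⟩)

theorem X_tendsto {e : ℝ} (he : 0 ≤ e) (he1 : e ≤ 1) {ω : ℕ → ℝ} (h : ∀ n, 0 < ω n)
    (hb : BddAbove (Set.range (fun n => B 0 n ω))) :
    Tendsto (fun n => B e n ω) atTop (𝓝 (X e ω)) :=
  tendsto_atTop_ciSup (B_mono he he1 h) (bdd_e he he1 h hb)

theorem B_le_X {e : ℝ} (he : 0 ≤ e) (he1 : e ≤ 1) {ω : ℕ → ℝ} (h : ∀ n, 0 < ω n)
    (hb : BddAbove (Set.range (fun n => B 0 n ω))) (n : ℕ) : B e n ω ≤ X e ω :=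
  le_ciSup (bdd_e he he1 h hb) n

theorem X_nonneg {e : ℝ} (he : 0 ≤ e) (he1 : e ≤ 1) {ω : ℕ → ℝ} (h : ∀ n, 0 < ω n)
    (hb : BddAbove (Set.range (fun n => B 0 n ω))) : 0 ≤ X e ω :=
  (B_nonneg he 0 h).trans (B_le_X he he1 h hb 0)

theorem X_pos {e : ℝ} (he : 0 ≤ e) (he1 : e ≤ 1) {ω : ℕ → ℝ} (h : ∀ n, 0 < ω n)
    (hb : BddAbove (Set.range (fun n => B 0 n ω))) : 0 < X e ω := by
  refine lt_of_lt_of_le (h 0) ?_
  have h1 := B_le_X he he1 h hb 1
  refine le_trans ?_ h1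
  exact le_F he he1 (h 0).le (B_nonneg he 0 (shift_pos h))

theorem X_anti {e e' : ℝ} (he : 0 ≤ e) (hee : e ≤ e') (he1 : e' ≤ 1) {ω : ℕ → ℝ}
    (h : ∀ n, 0 < ω n) (hb : BddAbove (Set.range (fun n => B 0 n ω))) : X e' ω ≤ X e ω :=
  ciSup_le (fun n => (B_anti he hee he1 n h).trans (B_le_X he (hee.trans he1) h hb n))

theorem X_eq {e : ℝ} (he : 0 ≤ e) (he1 : e ≤ 1) {ω : ℕ → ℝ} (h : GoodSeq ω) :
    X e ω = F e (ω 0) (X e (shift ω)) := by
  have h1 := (X_tendsto he he1 h.pos h.bdd).comp (tendsto_add_atTop_nat 1)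
  have h2 := X_tendsto he he1 (shift_pos h.pos) h.bdd'
  have h3 : Tendsto (fun n => F e (ω 0) (B e n (shift ω))) atTop
      (𝓝 (F e (ω 0) (X e (shift ω)))) := by
    unfold F
    have hx := X_nonneg he he1 (shift_pos h.pos) h.bdd'
    apply Tendsto.div
    · exact (h2.const_add 1).const_mul _
    · exact (h2.const_mul e).const_add 1
    · positivity
  exact tendsto_nhds_unique h1 h3

theorem X_le {e : ℝ} (he : 0 < e) (he1 : e ≤ 1) {ω : ℕ → ℝ} (h : ∀ n, 0 < ω n) :
    X e ω ≤ ω 0 / e := ciSup_le (fun n => B_le he he1 n h)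

theorem B_continuous (n : ℕ) {ω : ℕ → ℝ} (h : ∀ n, 0 < ω n) :
    Tendsto (fun e => B e n ω) (𝓝[≥] 0) (𝓝 (B 0 n ω)) := by
  induction n generalizing ω with
  | zero => exact tendsto_const_nhds
  | succ n ih =>
    have h1 := ih (shift_pos h)
    have h2 : Tendsto (fun e : ℝ => e) (𝓝[≥] 0) (𝓝 0) :=
      tendsto_id.mono_left nhdsWithin_le_nhds
    have h3 : Tendsto (fun e => F e (ω 0) (B e n (shift ω))) (𝓝[≥] 0)
        (𝓝 (F 0 (ω 0) (B 0 n (shift ω)))) := by
      unfold F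
      apply Tendsto.div
      · exact (h1.const_add 1).const_mul _
      · exact (h2.mul h1).const_add 1
      · simp
    exact h3

theorem X_tendsto_zero {ω : ℕ → ℝ} (h : ∀ n, 0 < ω n)
    (hb : BddAbove (Set.range (fun n => B 0 n ω))) :
    Tendsto (fun e => X e ω) (𝓝[>] 0) (𝓝 (X 0 ω)) := by
  rw [tendsto_order]
  constructor
  · intro a ha
    obtain ⟨n, hn⟩ := exists_lt_of_lt_ciSup ha
    have h1 := (B_continuous n h).mono_left (nhdsWithin_mono 0 Set.Ioi_subset_Ici_self)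
    have h2 : ∀ᶠ e in 𝓝[>] (0:ℝ), a < B e n ω := h1.eventually (lt_mem_nhds hn)
    have h3 : ∀ᶠ e in 𝓝[>] (0:ℝ), e < 1 :=
      nhdsWithin_le_nhds (gt_mem_nhds zero_lt_one)
    filter_upwards [h2, h3, self_mem_nhdsWithin] with e h2 h3 h4
    exact h2.trans_le (B_le_X (le_of_lt h4) h3.le h hb n)
  · intro a ha
    have h3 : ∀ᶠ e in 𝓝[>] (0:ℝ), e < 1 :=
      nhdsWithin_le_nhds (gt_mem_nhds zero_lt_one)
    filter_upwards [h3, self_mem_nhdsWithin] with e h3 h4
    exact (X_anti le_rfl (le_of_lt h4) h3.le h hb).trans_lt ha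

theorem Law.X0_moment (h : Law μ α) {s : ℝ} (hs : 0 < s) (hsa : s < α) :
    Integrable (fun ω => X 0 ω ^ s) (Pm μ) := by
  obtain ⟨K, hK0, hK⟩ := h.B0_moment hs hsa
  have hXm := measurable_X 0
  have hmX : Measurable (fun ω => X 0 ω ^ s) := by fun_prop
  have hnn : ∀ᵐ ω ∂(Pm μ), 0 ≤ X 0 ω ^ s := by
    filter_upwards [h.ae_good] with ω hω
    exact Real.rpow_nonneg (X_nonneg le_rfl zero_le_one hω.pos hω.bdd) s
  refine ⟨hmX.aestronglyMeasurable, ?_⟩
  rw [hasFiniteIntegral_iff_ofReal hnn]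
  have hmeas : ∀ n, AEMeasurable (fun ω => ENNReal.ofReal (B 0 n ω ^ s)) (Pm μ) := by
    intro n
    have := measurable_B 0 n
    exact (by fun_prop : Measurable (fun ω => ENNReal.ofReal (B 0 n ω ^ s))).aemeasurable
  have hmono : ∀ᵐ ω ∂(Pm μ), Monotone (fun n => ENNReal.ofReal (B 0 n ω ^ s)) := by
    filter_upwards [ae_pos μ h.pos] with ω hω
    intro n m hnm
    apply ENNReal.ofReal_le_ofReal
    exact Real.rpow_le_rpow (B_nonneg le_rfl n hω) (B_mono le_rfl zero_le_one hω hnm) hs.le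
  have h1 : ∫⁻ ω, ⨆ n, ENNReal.ofReal (B 0 n ω ^ s) ∂(Pm μ) ≤ ENNReal.ofReal K := by
    rw [lintegral_iSup' hmeas hmono]
    exact iSup_le hK
  refine lt_of_le_of_lt ?_ (h1.trans_lt ENNReal.ofReal_lt_top)
  apply lintegral_mono_ae
  filter_upwards [h.ae_good] with ω hω
  have h2 : Tendsto (fun n => ENNReal.ofReal (B 0 n ω ^ s)) atTop
      (𝓝 (ENNReal.ofReal (X 0 ω ^ s))) := by
    apply ENNReal.tendsto_ofReal
    have h3 := X_tendsto le_rfl zero_le_one hω.pos hω.bdd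
    exact h3.rpow_const (Or.inr hs.le)
  exact le_of_tendsto h2 (Eventually.of_forall fun n =>
    le_iSup (fun n => ENNReal.ofReal (B 0 n ω ^ s)) n)

end Pool.Agent.Lib_helper63.DH
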