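import Pool.Agent.Lib_helper63.DH.Seq

/-!
The tilted law of `log Z` and the basic stationarity identity.
-/

open MeasureTheory Filter Topology

namespace Pool.Agent.Lib_helper63.DH

/-- the law of `log Z` under the tilted probability `Z^α dP` -/
noncomputable def nu (μ : Measure ℝ) (α : ℝ) : Measure ℝ :=
  (μ.withDensity (fun z => ENNReal.ofReal (z ^ α))).map Real.log

/-- translation average -/
noncomputable def Tn (ν : Measure ℝ) (f : ℝ → ℝ) (s : ℝ) : ℝ := ∫ x, f (x + s) ∂ν

/-- `log (1 + exp t)` -/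
noncomputable def Lg (t : ℝ) : ℝ := Real.log (1 + Real.exp t)

/-- the conjugated transition operator -/
noncomputable def Kt (α : ℝ) (ν : Measure ℝ) (f : ℝ → ℝ) (t : ℝ) : ℝ :=
  (1 + Real.exp t) ^ (-α) * Tn ν f (t - Lg t)

variable {μ : Measure ℝ} [IsProbabilityMeasure μ] {α : ℝ}

omit [IsProbabilityMeasure μ] in
theorem measurable_dens : Measurable (fun z : ℝ => ENNReal.ofReal (z ^ α)) := by fun_prop

omit [IsProbabilityMeasure μ] in
theorem nu_lintegral {f : ℝ → ENNReal} (hf : Measurable f) :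
    ∫⁻ x, f x ∂(nu μ α) = ∫⁻ z, ENNReal.ofReal (z ^ α) * f (Real.log z) ∂μ := by
  unfold nu
  rw [lintegral_map hf Real.measurable_log]
  exact lintegral_withDensity_eq_lintegral_mul μ measurable_dens (hf.comp Real.measurable_log)

theorem Law.nu_prob (h : Law μ α) : IsProbabilityMeasure (nu μ α) := by
  constructor
  rw [← lintegral_one, nu_lintegral measurable_const]
  simp only [mul_one]
  rw [← ofReal_integral_eq_lintegral_ofReal h.int_alpha, h.one, ENNReal.ofReal_one]
  filter_upwards [h.pos] with z hz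
  exact Real.rpow_nonneg hz.le α

theorem Law.nu_integrable_iff (h : Law μ α) {f : ℝ → ℝ} (hf : Measurable f) :
    Integrable f (nu μ α) ↔ Integrable (fun z => z ^ α * f (Real.log z)) μ := by
  unfold nu
  rw [integrable_map_measure hf.aestronglyMeasurable Real.measurable_log.aemeasurable,
    integrable_withDensity_iff measurable_dens (Eventually.of_forall fun z => by simp)]
  apply integrable_congr
  filter_upwards [h.pos] with z hz
  rw [ENNReal.toReal_ofReal (Real.rpow_nonneg hz.le α)]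
  simp only [Function.comp]
  ring

theorem Law.nu_integral (h : Law μ α) {f : ℝ → ℝ} (hf : Measurable f) :
    ∫ x, f x ∂(nu μ α) = ∫ z, z ^ α * f (Real.log z) ∂μ := by
  unfold nu
  rw [integral_map Real.measurable_log.aemeasurable hf.aestronglyMeasurable,
    integral_withDensity_eq_integral_toReal_smul measurable_dens
      (Eventually.of_forall fun z => by simp)]
  apply integral_congr_ae
  filter_upwards [h.pos] with z hz
  rw [ENNReal.toReal_ofReal (Real.rpow_nonneg hz.le α)]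
  simp

/-- moments of the tilted law -/
theorem Law.nu_exp (h : Law μ α) {b : ℝ} (hb : 0 ≤ b) (hba : b ≤ α) :
    Integrable (fun x => Real.exp (-b * x)) (nu μ α) ∧
    ∫ x, Real.exp (-b * x) ∂(nu μ α) = ∫ z, z ^ (α - b) ∂μ := by
  have hm : Measurable (fun x : ℝ => Real.exp (-b * x)) := by fun_prop
  have heq : (fun z : ℝ => z ^ α * Real.exp (-b * Real.log z)) =ᵐ[μ] fun z => z ^ (α - b) := by
    filter_upwards [h.pos] with z hz
    rw [Real.rpow_sub hz, Real.rpow_def_of_pos hz b, show -b * Real.log z = -(Real.log z * b) by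
      ring, Real.exp_neg]
    rfl
  rw [h.nu_integrable_iff hm, h.nu_integral hm]
  refine ⟨(integrable_congr heq).2 (h.int_rpow (by linarith) (by linarith)),
    integral_congr_ae heq⟩

/-- admissible functions -/
structure Adm (α : ℝ) (f : ℝ → ℝ) : Prop where
  meas : Measurable f
  bd : ∃ C : ℝ, 0 ≤ C ∧ ∀ t, |f t| ≤ C * (1 + Real.exp (-α * t))

theorem Adm.integrable_trans {f : ℝ → ℝ} (hf : Adm α f) (h : Law μ α) (s : ℝ) :
    Integrable (fun x => f (x + s)) (nu μ α) := by
  obtain ⟨C, hC0, hC⟩ := hf.bd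
  have := h.nu_prob
  have h1 := (h.nu_exp h.apos.le le_rfl).1
  refine (((integrable_const (1:ℝ)).add (h1.const_mul (Real.exp (-α * s)))).const_mul C).mono'
    ((hf.meas.comp (measurable_id.add_const s)).aestronglyMeasurable) ?_
  filter_upwards with x
  rw [Real.norm_eq_abs]
  refine (hC _).trans (le_of_eq ?_)
  simp only [Pi.add_apply]
  rw [mul_add (-α), Real.exp_add]
  ring

/-- the variable `Y = e X` -/
noncomputable def Ye (e : ℝ) (ω : ℕ → ℝ) : ℝ := e * X e ω

/-- `(1+X)/(1+eX)` -/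
noncomputable def pe (e : ℝ) (ω : ℕ → ℝ) : ℝ := (1 + X e ω) / (1 + e * X e ω)

/-- `X/(1+eX)` -/
noncomputable def re (e : ℝ) (ω : ℕ → ℝ) : ℝ := X e ω / (1 + e * X e ω)

theorem measurable_Ye (e : ℝ) : Measurable (Ye e) := by
  have := measurable_X e
  unfold Ye; fun_prop

theorem measurable_pe (e : ℝ) : Measurable (pe e) := by
  have := measurable_X e
  unfold pe; fun_prop

theorem measurable_re (e : ℝ) : Measurable (re e) := by
  have := measurable_X e
  unfold re; fun_prop

theorem Ye_eq {e : ℝ} (he : 0 < e) (he1 : e < 1) {ω : ℕ → ℝ} (h : GoodSeq ω) :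
    Ye e ω = ω 0 * (e * pe e (shift ω)) := by
  unfold Ye pe
  rw [X_eq he.le he1.le h, F]
  ring

theorem Ye_pos {e : ℝ} (he : 0 < e) (he1 : e < 1) {ω : ℕ → ℝ} (h : GoodSeq ω) : 0 < Ye e ω :=
  mul_pos he (X_pos he.le he1.le h.pos h.bdd)

theorem one_le_pe {e : ℝ} (he : 0 < e) (he1 : e < 1) {ω : ℕ → ℝ} (h : GoodSeq ω) :
    1 ≤ pe e ω := by
  have hX := X_pos he.le he1.le h.pos h.bdd
  unfold pe
  rw [le_div_iff₀ (by positivity)]
  nlinarith

theorem pe_le {e : ℝ} (he : 0 < e) (he1 : e < 1) {ω : ℕ → ℝ} (h : GoodSeq ω) :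
    pe e ω ≤ 1 + X e ω := by
  have hX := X_pos he.le he1.le h.pos h.bdd
  unfold pe
  exact div_le_self (by positivity) (by nlinarith [mul_pos he hX])

theorem epe_le {e : ℝ} (he : 0 < e) (he1 : e < 1) {ω : ℕ → ℝ} (h : GoodSeq ω) :
    e * pe e ω ≤ 1 := by
  have hX := X_pos he.le he1.le h.pos h.bdd
  unfold pe
  rw [← mul_div_assoc, div_le_one (by positivity)]
  nlinarith

theorem re_pos {e : ℝ} (he : 0 < e) (he1 : e < 1) {ω : ℕ → ℝ} (h : GoodSeq ω) :
    0 < re e ω := by
  have hX := X_pos he.le he1.le h.pos h.bdd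
  unfold re
  positivity

theorem re_le {e : ℝ} (he : 0 < e) (he1 : e < 1) {ω : ℕ → ℝ} (h : GoodSeq ω) :
    re e ω ≤ X e ω := by
  have hX := X_pos he.le he1.le h.pos h.bdd
  unfold re
  exact div_le_self hX.le (by nlinarith [mul_pos he hX])

theorem pe_sub_re {e : ℝ} (he : 0 < e) (he1 : e < 1) {ω : ℕ → ℝ} (h : GoodSeq ω) :
    0 ≤ pe e ω - re e ω ∧ pe e ω - re e ω ≤ 1 := by
  have hX := X_pos he.le he1.le h.pos h.bdd
  unfold pe re
  rw [← sub_div]
  have h1 : (0:ℝ) < 1 + e * X e ω := by positivity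
  constructor
  · apply div_nonneg _ h1.le; linarith
  · rw [div_le_one h1]; nlinarith [mul_pos he hX]

theorem ere_eq {e : ℝ} (he : 0 < e) (he1 : e < 1) {ω : ℕ → ℝ} (h : GoodSeq ω) :
    e * re e ω = Ye e ω / (1 + Ye e ω) := by
  unfold re Ye; ring

/-- `E[Y^α f(log Y)]` through the tilted law -/
theorem Law.stat_identity (h : Law μ α) {e : ℝ} (he : 0 < e) (he1 : e < 1) {f : ℝ → ℝ}
    (hf : Adm α f) :
    Integrable (fun ω => Ye e ω ^ α * f (Real.log (Ye e ω))) (Pm μ) ∧
    Integrable (fun ω => (e * pe e ω) ^ α * Tn (nu μ α) f (Real.log (e * pe e ω))) (Pm μ) ∧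
    ∫ ω, Ye e ω ^ α * f (Real.log (Ye e ω)) ∂(Pm μ) =
      ∫ ω, (e * pe e ω) ^ α * Tn (nu μ α) f (Real.log (e * pe e ω)) ∂(Pm μ) := by
  obtain ⟨C, hC0, hC⟩ := hf.bd
  have hpem := measurable_pe e
  have hfm := hf.meas
  let G : ℝ × (ℕ → ℝ) → ℝ := fun q => (q.1 * (e * pe e q.2)) ^ α *
    f (Real.log (q.1 * (e * pe e q.2)))
  have hGm : Measurable G := by
    have h1 : Measurable (fun q : ℝ × (ℕ → ℝ) => q.1 * (e * pe e q.2)) := by fun_prop
    exact (h1.pow_const α).mul (hfm.comp (Real.measurable_log.comp h1))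
  have hgood2 : ∀ᵐ q ∂(μ.prod (Pm μ)), 0 < q.1 ∧ GoodSeq q.2 := by
    have h1 : ∀ᵐ q ∂(μ.prod (Pm μ)), 0 < q.1 :=
      (measurePreserving_fst (μ := μ) (ν := Pm μ)).quasiMeasurePreserving.ae h.pos
    have h2 : ∀ᵐ q ∂(μ.prod (Pm μ)), GoodSeq q.2 :=
      (measurePreserving_snd (μ := μ) (ν := Pm μ)).quasiMeasurePreserving.ae h.ae_good
    filter_upwards [h1, h2] with q h1 h2
    exact ⟨h1, h2⟩
  have hGint : Integrable G (μ.prod (Pm μ)) := by
    have h1 : Integrable (fun q : ℝ × (ℕ → ℝ) => q.1 ^ α) (μ.prod (Pm μ)) :=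
      (measurePreserving_fst (μ := μ) (ν := Pm μ)).integrable_comp_of_integrable h.int_alpha
    refine (((h1.add (integrable_const (1:ℝ))).const_mul C)).mono' hGm.aestronglyMeasurable ?_
    filter_upwards [hgood2] with q hq
    obtain ⟨hz, hg⟩ := hq
    have hp1 := one_le_pe he he1 hg
    have hp2 := epe_le he he1 hg
    have hu : 0 < q.1 * (e * pe e q.2) := by positivity
    set u := q.1 * (e * pe e q.2) with hudef
    have hua : 0 < u ^ α := Real.rpow_pos_of_pos hu α
    rw [Real.norm_eq_abs]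
    simp only [G, Pi.add_apply]
    rw [← hudef, abs_mul, abs_of_pos hua]
    have h3 := hC (Real.log u)
    have h4 : Real.exp (-α * Real.log u) = (u ^ α)⁻¹ := by
      rw [← Real.rpow_neg hu.le, Real.rpow_def_of_pos hu]
      ring_nf
    rw [h4] at h3
    have h5 : u ^ α ≤ q.1 ^ α := by
      apply Real.rpow_le_rpow hu.le _ h.apos.le
      rw [hudef]
      nlinarith
    calc u ^ α * |f (Real.log u)| ≤ u ^ α * (C * (1 + (u ^ α)⁻¹)) :=
          mul_le_mul_of_nonneg_left h3 hua.le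
      _ = C * (u ^ α + 1) := by field_simp
      _ ≤ C * (q.1 ^ α + 1) := by gcongr
  have hcong : (fun ω => Ye e ω ^ α * f (Real.log (Ye e ω))) =ᵐ[Pm μ]
      fun ω => G (ω 0, shift ω) := by
    filter_upwards [h.ae_good] with ω hω
    simp only [G]
    rw [Ye_eq he he1 hω]
  have hI1 : Integrable (fun ω => G (ω 0, shift ω)) (Pm μ) :=
    (mp_split μ).integrable_comp_of_integrable hGint
  have hI2 : ∫ ω, G (ω 0, shift ω) ∂(Pm μ) = ∫ q, G q ∂(μ.prod (Pm μ)) := by
    have := integral_map (μ := Pm μ) (φ := fun ω : ℕ → ℝ => (ω 0, shift ω)) (f := G)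
      (mp_split μ).measurable.aemeasurable
      (by rw [(mp_split μ).map_eq]; exact hGm.aestronglyMeasurable)
    rw [(mp_split μ).map_eq] at this
    exact this.symm
  have hinner : ∀ᵐ ω ∂(Pm μ), ∫ z, G (z, ω) ∂μ =
      (e * pe e ω) ^ α * Tn (nu μ α) f (Real.log (e * pe e ω)) := by
    filter_upwards [h.ae_good] with ω hω
    have hp1 := one_le_pe he he1 hω
    have hw : 0 < e * pe e ω := by positivity
    unfold Tn
    rw [h.nu_integral (f := fun x => f (x + Real.log (e * pe e ω))) (by fun_prop),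
      ← integral_const_mul]
    apply integral_congr_ae
    filter_upwards [h.pos] with z hz
    simp only [G]
    rw [Real.mul_rpow hz.le hw.le, Real.log_mul hz.ne' hw.ne']
    ring
  refine ⟨(integrable_congr hcong).2 hI1, ?_, ?_⟩
  · exact (integrable_congr hinner).1 hGint.integral_prod_right
  · rw [integral_congr_ae hcong, hI2, integral_prod_symm _ hGint]
    exact integral_congr_ae hinner

theorem Kt_Ye {e : ℝ} (he : 0 < e) (he1 : e < 1) {ω : ℕ → ℝ} (hω : GoodSeq ω) (ν : Measure ℝ)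
    (f : ℝ → ℝ) : Ye e ω ^ α * Kt α ν f (Real.log (Ye e ω)) =
      (e * re e ω) ^ α * Tn ν f (Real.log (e * re e ω)) := by
  have hY := Ye_pos he he1 hω
  have hY1 : 0 < 1 + Ye e ω := by linarith
  unfold Kt Lg
  rw [Real.exp_log hY, ere_eq he he1 hω, Real.div_rpow hY.le hY1.le, Real.rpow_neg hY1.le,
    Real.log_div hY.ne' hY1.ne']
  ring

/-- **The basic identity.** -/
theorem Law.basic_identity (h : Law μ α) {e : ℝ} (he : 0 < e) (he1 : e < 1) {f : ℝ → ℝ}
    (hf : Adm α f)
    (hint : Integrable (fun ω => Ye e ω ^ α * Kt α (nu μ α) f (Real.log (Ye e ω))) (Pm μ)) :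
    ∫ ω, Ye e ω ^ α * (f (Real.log (Ye e ω)) - Kt α (nu μ α) f (Real.log (Ye e ω))) ∂(Pm μ) =
      e ^ α * ∫ ω, (pe e ω ^ α * Tn (nu μ α) f (Real.log (e * pe e ω)) -
        re e ω ^ α * Tn (nu μ α) f (Real.log (e * re e ω))) ∂(Pm μ) := by
  obtain ⟨h1, h2, h3⟩ := h.stat_identity he he1 hf
  have h4 : (fun ω => Ye e ω ^ α * Kt α (nu μ α) f (Real.log (Ye e ω))) =ᵐ[Pm μ]
      fun ω => (e * re e ω) ^ α * Tn (nu μ α) f (Real.log (e * re e ω)) := by
    filter_upwards [h.ae_good] with ω hω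
    exact Kt_Ye he he1 hω _ _
  have h5 := (integrable_congr h4).1 hint
  simp only [mul_sub]
  rw [integral_sub h1 hint, h3, integral_congr_ae h4, ← integral_sub h2 h5,
    ← integral_const_mul]
  apply integral_congr_ae
  filter_upwards [h.ae_good] with ω hω
  have hp1 := one_le_pe he he1 hω
  have hr := re_pos he he1 hω
  rw [Real.mul_rpow he.le (by linarith), Real.mul_rpow he.le hr.le]
  ring

end Pool.Agent.Lib_helper63.DH
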